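import Pool.Agent.Helper73.CG.SCsp

set_option autoImplicit false
set_option linter.unusedSectionVars false

namespace Pool.Agent.Helper73.CG

open Equiv Equiv.Perm

variable {k : ℕ → ℕ}

lemma loc_top_apply (g : Perm (Fin 8)) (i : ℕ) : (loc g ⊤ : PP k) i = rp (fun _ => g) := by
  rw [loc_apply]
  congr 1
  funext x
  exact if_pos trivial

lemma loc_apply_of_mem (g : Perm (Fin 8)) {U : Fam k} {i : ℕ} {x : ZMod (2 ^ k i)} (hx : x ∈ U i)
    (a : Fin 8) : loc g U i (some (a, x)) = some (g a, x) := by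
  rw [loc_apply, rp_some, if_pos hx]

lemma loc_apply_of_notMem (g : Perm (Fin 8)) {U : Fam k} {i : ℕ} {x : ZMod (2 ^ k i)}
    (hx : x ∉ U i) (a : Fin 8) : loc g U i (some (a, x)) = some (a, x) := by
  rw [loc_apply, rp_some, if_neg hx]; rfl

lemma loc_apply_none (g : Perm (Fin 8)) {U : Fam k} {i : ℕ} : loc g U i none = none := rfl

lemma mp_swap {P : Type*} [AddCommGroup P] [DecidableEq P] (a b : Option (Fin 8)) :
    mp (swap a b) = swap (emb a : Cell P) (emb b) := by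
  ext y : 1
  by_cases hy : y ∈ Set.range (emb : Option (Fin 8) ↪ Cell P)
  · obtain ⟨o, rfl⟩ := hy
    rw [mp_emb]
    simp only [swap_apply_def, EmbeddingLike.apply_eq_iff_eq]
    split_ifs <;> rfl
  · have h1 : y ≠ emb a := fun h => hy ⟨a, h.symm⟩
    have h2 : y ≠ emb b := fun h => hy ⟨b, h.symm⟩
    rw [swap_apply_of_ne_of_ne h1 h2]
    exact viaEmbedding_apply_of_notMem _ _ _ hy

lemma mp_cyc {P : Type*} [AddCommGroup P] [DecidableEq P] (a b c : Option (Fin 8)) :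
    mp (cyc a b c) = cyc (emb a : Cell P) (emb b) (emb c) := by
  rw [cyc, map_mul, mp_swap, mp_swap]; rfl

/-- perms `g` of coordinate `i` with the one-coordinate element in `S` -/
def Hsub (k : ℕ → ℕ) (i : ℕ) : Subgroup (Perm (Cell (ZMod (2 ^ k i)))) :=
  (SS k).comap (MonoidHom.mulSingle (fun i => Perm (Cell (ZMod (2 ^ k i)))) i)

lemma mem_Hsub {i : ℕ} {g : Perm (Cell (ZMod (2 ^ k i)))} :
    g ∈ Hsub k i ↔ (Pi.mulSingle i g : PP k) ∈ SS k := Iff.rfl

lemma mulSingle_conj {i : ℕ} (s : PP k) (g : Perm (Cell (ZMod (2 ^ k i)))) :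
    s * Pi.mulSingle i g * s⁻¹ = Pi.mulSingle i (s i * g * (s i)⁻¹) := by
  funext j
  by_cases h : j = i
  · subst h
    simp
  · simp [Pi.mulSingle_eq_of_ne h]

lemma Hsub_conj {i : ℕ} {g : Perm (Cell (ZMod (2 ^ k i)))} (hg : g ∈ Hsub k i) {s : PP k}
    (hs : s ∈ SS k) : s i * g * (s i)⁻¹ ∈ Hsub k i := by
  rw [mem_Hsub] at hg ⊢
  rw [← mulSingle_conj]
  exact nor_SS.conj s hs _ hg

lemma Hsub_step {i : ℕ} {a b z : Cell (ZMod (2 ^ k i))} {s : PP k} (hs : s ∈ SS k)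
    (ha : s i a = a) (hb : s i b = b) (h : cyc a b z ∈ Hsub k i) :
    cyc a b (s i z) ∈ Hsub k i := by
  have h1 := Hsub_conj h hs
  rwa [conj_cyc, ha, hb] at h1

lemma Hsub_base (hk : StrictMono k) (i : ℕ) :
    cyc (some (0, 0)) (some (1, 0)) (some (2, 0)) ∈ Hsub k i := by
  classical
  rw [mem_Hsub]
  have h1 : Ab (SS k) (Zr ⊓ (Lo i ⊓ Hi i)) :=
    Ab.inf nor_SS Ab.Zr (Ab.inf nor_SS (Ab.Lo hk i) (Ab.Hi hk i))
  have h2 := h1 _ (cyc8 0 1 2 (by decide))
  convert h2 using 1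
  funext j
  by_cases h : j = i
  · subst h
    rw [Pi.mulSingle_eq_same]
    have h3 := mp_cyc (P := ZMod (2 ^ k j)) (some 0) (some 1) (some 2)
    simp only [emb_some] at h3
    rw [← h3, ← optionCongr_cyc, mp_optionCongr, loc_apply]
    congr 1
    funext x
    have : x ∈ (Zr ⊓ (Lo j ⊓ Hi j) : Fam k) j ↔ x = 0 :=
      ⟨fun h => h.1, fun h => ⟨h, le_refl j, le_refl j⟩⟩
    by_cases hx : x = 0
    · rw [if_pos hx, if_pos (this.mpr hx)]
    · rw [if_neg hx, if_neg (fun h => hx (this.mp h))]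
  · rw [Pi.mulSingle_eq_of_ne h, loc_apply, ← map_one rp]
    congr 1
    funext x
    rw [if_neg]
    · rfl
    · rintro ⟨h1, h2, h3⟩
      exact h (le_antisymm h2 h3)

lemma Hsub_pair (hk : StrictMono k) (i : ℕ) (z : Cell (ZMod (2 ^ k i)))
    (h1 : z ≠ some (0, 0)) (h2 : z ≠ some (1, 0)) :
    cyc (some (0, 0)) (some (1, 0)) z ∈ Hsub k i := by
  classical
  have hb := Hsub_base hk i
  -- rows `a ≥ 2`, position 0
  have hrow0 : ∀ a : Fin 8, a ≠ 0 → a ≠ 1 →
      cyc (some (0, 0)) (some (1, 0)) (some (a, 0)) ∈ Hsub k i := by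
    intro a ha0 ha1
    by_cases ha2 : a = 2
    · rw [ha2]; exact hb
    obtain ⟨c, hc0, hc1, hc2, hca⟩ : ∃ c : Fin 8, c ≠ 0 ∧ c ≠ 1 ∧ c ≠ 2 ∧ c ≠ a := by
      revert a; decide
    have h3 := Hsub_step (s := loc (cyc 2 a c) ⊤) (loc_top_mem (cyc_mem_alt (Ne.symm ha2) hc2.symm
      hca.symm)) (z := some (2, 0)) (a := some (0, 0)) (b := some (1, 0)) ?_ ?_ hb
    · rw [loc_top_apply, rp_some, cyc_apply_a (Ne.symm ha2) hc2.symm] at h3
      exact h3
    · rw [loc_top_apply, rp_some, cyc_apply_of_ne (by decide) ha0.symm hc0.symm]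
    · rw [loc_top_apply, rp_some, cyc_apply_of_ne (by decide) ha1.symm hc1.symm]
  -- rows `a ≥ 2`
  have hrow : ∀ (a : Fin 8) (x : ZMod (2 ^ k i)), a ≠ 0 → a ≠ 1 →
      cyc (some (0, 0)) (some (1, 0)) (some (a, x)) ∈ Hsub k i := by
    intro a x ha0 ha1
    obtain ⟨c, hc0, hc1, hca⟩ : ∃ c : Fin 8, c ≠ 0 ∧ c ≠ 1 ∧ c ≠ a := by
      revert a; decide
    have h3 := Hsub_step (s := sh ((x.val : ℤ) • (Pi.single a 1 - Pi.single c 1)))
      (sh_mem (by simp [← Finset.mul_sum])) (z := some (a, 0)) (a := some (0, 0))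
      (b := some (1, 0)) ?_ ?_ (hrow0 a ha0 ha1)
    · rw [sh_apply, sp_some] at h3
      simpa [Pi.single_apply, hca.symm] using h3
    · rw [sh_apply, sp_some]
      simp [ha0.symm, hc0.symm]
    · rw [sh_apply, sp_some]
      simp [ha1.symm, hc1.symm]
  have hZc : Ab (SS k) Zrᶜ := Ab.compl Ab.Zr
  rcases z with _ | ⟨a, x⟩
  · have h3 := Hsub_step (s := mk (cyc (some 2) none (some 3))) (mk_mem (cyc_mem_alt (by decide)
      (by decide) (by decide))) (z := some (2, 0)) (a := some (0, 0)) (b := some (1, 0)) ?_ ?_ hb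
    · rw [mk_apply, mp_some, cyc_apply_a (by decide) (by decide)] at h3
      exact h3
    · rw [mk_apply, mp_some, cyc_apply_of_ne (by decide) (by decide) (by decide)]; rfl
    · rw [mk_apply, mp_some, cyc_apply_of_ne (by decide) (by decide) (by decide)]; rfl
  · by_cases ha0 : a = 0
    · subst ha0
      have hx : x ≠ 0 := by rintro rfl; exact h1 rfl
      have hxZ : x ∈ (Zrᶜ : Fam k) i := hx
      have h0Z : (0 : ZMod (2 ^ k i)) ∉ (Zrᶜ : Fam k) i := fun h => h rfl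
      have h3 := Hsub_step (s := loc (cyc 3 0 2) Zrᶜ) (hZc _ (cyc8 3 0 2 (by decide))) (z := some (3, x))
        (a := some (0, 0)) (b := some (1, 0)) ?_ ?_ (hrow 3 x (by decide) (by decide))
      · rw [loc_apply, rp_some, if_pos hxZ, cyc_apply_a (by decide) (by decide)] at h3
        exact h3
      · rw [loc_apply, rp_some, if_neg h0Z]; rfl
      · rw [loc_apply, rp_some, if_neg h0Z]; rfl
    · by_cases ha1 : a = 1
      · subst ha1
        have hx : x ≠ 0 := by rintro rfl; exact h2 rfl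
        have hxZ : x ∈ (Zrᶜ : Fam k) i := hx
        have h0Z : (0 : ZMod (2 ^ k i)) ∉ (Zrᶜ : Fam k) i := fun h => h rfl
        have h3 := Hsub_step (s := loc (cyc 3 1 2) Zrᶜ) (hZc _ (cyc8 3 1 2 (by decide))) (z := some (3, x))
          (a := some (0, 0)) (b := some (1, 0)) ?_ ?_ (hrow 3 x (by decide) (by decide))
        · rw [loc_apply, rp_some, if_pos hxZ, cyc_apply_a (by decide) (by decide)] at h3
          exact h3
        · rw [loc_apply, rp_some, if_neg h0Z]; rfl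
        · rw [loc_apply, rp_some, if_neg h0Z]; rfl
      · exact hrow a x ha0 ha1

/-- `S` contains the alternating group in every coordinate -/
theorem single_mem_SS (hk : StrictMono k) (i : ℕ) (g : Perm (Cell (ZMod (2 ^ k i))))
    (hg : g ∈ alternatingGroup (Cell (ZMod (2 ^ k i)))) : (Pi.mulSingle i g : PP k) ∈ SS k := by
  have h : alternatingGroup (Cell (ZMod (2 ^ k i))) ≤ Hsub k i := by
    apply alt_le_of_pair _ (some (0, 0)) (some (1, 0)) (by simp)
    intro z h1 h2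
    exact Hsub_pair hk i z h1 h2
  exact h hg

lemma sign_eq_one_of_cube {α : Type*} [DecidableEq α] [Fintype α] {g : Perm α} (h : g ^ 3 = 1) :
    g ∈ alternatingGroup α := by
  rw [mem_alternatingGroup]
  have h1 : (sign g) ^ 3 = 1 := by rw [← map_pow, h, map_one]
  rcases Int.units_eq_one_or (sign g) with h2 | h2
  · exact h2
  · rw [h2] at h1
    exact absurd h1 (by decide)

lemma cyc_cube {α : Type*} [DecidableEq α] [Fintype α] {a b c : α} (h1 : a ≠ b) (h2 : a ≠ c)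
    (h3 : b ≠ c) : (cyc a b c) ^ 3 = 1 := by
  rw [← (cyc_isThreeCycle h1 h2 h3).orderOf]
  exact pow_orderOf_eq_one _

lemma loc_pow (g : Perm (Fin 8)) (U : Fam k) (n : ℕ) : (loc g U) ^ n = loc (g ^ n) U := by
  induction n with
  | zero => rw [pow_zero, pow_zero, loc_one]
  | succ n ih => rw [pow_succ, pow_succ, loc_mul, ih]

lemma mk_pow (g : Perm (Option (Fin 8))) (n : ℕ) : (mk g : PP k) ^ n = mk (g ^ n) := by
  induction n with
  | zero => rw [pow_zero, pow_zero, mk_one]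
  | succ n ih => rw [pow_succ, pow_succ, mk_mul, ih]

lemma sh_eq_comm {a b c d : Fin 8} (hab : a ≠ b) (_hca : c ≠ a) (hcb : c ≠ b) (hda : d ≠ a)
    (hdb : d ≠ b) (hcd : c ≠ d) :
    (sh (Pi.single a 1 - Pi.single b 1) : PP k) = loc (cyc b a c) ⊤ *
      sh (Pi.single b 1 - Pi.single d 1) * (loc (cyc b a c) ⊤)⁻¹ *
        (sh (Pi.single b 1 - Pi.single d 1))⁻¹ := by
  rw [loc_conj_sh, ← sh_neg, ← sh_add]
  have h4 : (fun x => (Pi.single b 1 - Pi.single d 1 : Fin 8 → ℤ) ((cyc b a c)⁻¹ x)) +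
      -(Pi.single b 1 - Pi.single d 1) = (Pi.single a 1 - Pi.single b 1 : Fin 8 → ℤ) := by
    have h5 : ∀ x y : Fin 8, (Pi.single y 1 : Fin 8 → ℤ) ((cyc b a c)⁻¹ x) =
        (Pi.single (cyc b a c y) 1 : Fin 8 → ℤ) x := by
      intro x y
      simp only [Pi.single_apply]
      congr 1
      rw [Perm.inv_eq_iff_eq]
    funext x
    simp only [Pi.add_apply, Pi.sub_apply, Pi.neg_apply, h5]
    rw [cyc_apply_a hab.symm hcb.symm, cyc_apply_of_ne hdb hda hcd.symm]
    ring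
  rw [h4]

theorem SS_alt {s : PP k} (hs : s ∈ SS k) (i : ℕ) :
    s i ∈ alternatingGroup (Cell (ZMod (2 ^ k i))) := by
  have h : SS k ≤ (alternatingGroup (Cell (ZMod (2 ^ k i)))).comap
      (Pi.evalMonoidHom (fun i => Perm (Cell (ZMod (2 ^ k i)))) i) := by
    rw [SS, Subgroup.closure_le]
    rintro x (⟨a, b, c, h1, h2, h3, rfl⟩ | ⟨a, b, c, h1, h2, h3, rfl⟩ | ⟨a, b, c, h1, h2, h3, rfl⟩ |
      ⟨a, b, h1, rfl⟩)
    · apply sign_eq_one_of_cube
      rw [← map_pow, loc_pow, cyc_cube h1 h2 h3, loc_one, map_one]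
    · apply sign_eq_one_of_cube
      rw [← map_pow, loc_pow, cyc_cube h1 h2 h3, loc_one, map_one]
    · apply sign_eq_one_of_cube
      rw [← map_pow, mk_pow, cyc_cube h1 h2 h3, mk_one, map_one]
    · obtain ⟨c, d, hca, hcb, hda, hdb, hcd⟩ : ∃ c d : Fin 8, c ≠ a ∧ c ≠ b ∧ d ≠ a ∧ d ≠ b ∧
          c ≠ d := by
        revert a b
        decide
      rw [sh_eq_comm h1 hca hcb hda hdb hcd]
      change _ ∈ alternatingGroup _
      rw [mem_alternatingGroup]
      simp only [map_mul, map_inv]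
      have : ∀ u v : ℤˣ, u * v * u⁻¹ * v⁻¹ = 1 := by decide
      exact this _ _
  exact h hs

end Pool.Agent.Helper73.CG
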