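import Pool.Agent.Helper73.CG.Aff
import Pool.Agent.Helper73.CG.SAlt

set_option autoImplicit false
set_option linter.unusedSectionVars false

namespace Pool.Agent.Helper73.CG

open Equiv Equiv.Perm

/-- the parameters of the construction -/
structure Par where
  k : ℕ → ℕ
  p : ℕ → ℕ
  hk : StrictMono k
  hp : ∀ i, (p i).Prime
  hpm : StrictMono p
  hm : ∀ i, 8 * 2 ^ k i + 1 < p i
  hp2 : ∀ i, 8 ^ ((i + 2) ^ 2) ≤ p i
  hC : ∀ i, (p i ^ (8 * 2 ^ k i + 1) * (8 * 2 ^ k i + 1).factorial) ^ 2 ≤ k (i + 1)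

variable (P : Par)

instance (i : ℕ) : Fact (P.p i).Prime := ⟨P.hp i⟩

/-- the finite sets -/
abbrev Yy (i : ℕ) := Cell (ZMod (2 ^ P.k i))

/-- the ambient product of affine groups -/
abbrev AA := ∀ i, Aff (ZMod (P.p i)) (Yy P i)

lemma card_Y (i : ℕ) : Nat.card (Yy P i) = 8 * 2 ^ P.k i + 1 := by
  rw [Nat.card_eq_fintype_card, Fintype.card_option, Fintype.card_prod, Fintype.card_fin,
    ZMod.card]

lemma six_le (i : ℕ) : 6 ≤ Nat.card (Yy P i) := by
  rw [card_Y]
  have : 0 < 2 ^ P.k i := by positivity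
  omega

lemma card_lt (i : ℕ) : Nat.card (Yy P i) < P.p i := by
  rw [card_Y]; exact P.hm i

lemma two_lt (i : ℕ) : 2 < P.p i := by
  have h1 := card_lt P i
  have h2 := six_le P i
  omega

/-- projection to the permutation parts -/
def prP : AA P →* PP P.k where
  toFun a := fun i => (a i).s
  map_one' := rfl
  map_mul' _ _ := rfl

/-- the embedding of the permutations -/
def esP : PP P.k →* AA P where
  toFun s := fun i => Aff.es (s i)
  map_one' := rfl
  map_mul' s t := by
    funext i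
    exact map_mul Aff.es (s i) (t i)

variable {P}

lemma prP_apply (a : AA P) (i : ℕ) : prP P a i = (a i).s := rfl
lemma esP_apply (s : PP P.k) (i : ℕ) : esP P s i = Aff.es (s i) := rfl
@[simp] lemma prP_esP (s : PP P.k) : prP P (esP P s) = s := rfl

variable (P)

/-- the basic vector -/
def vv : AA P := fun i => Aff.ev (dl (P.p i) none - dl (P.p i) (some (0, 0)))

/-- the group `A` -/
def Ag : Subgroup (AA P) := Subgroup.closure (esP P '' gens P.k ∪ {vv P})

variable {P}

lemma vv_mem : vv P ∈ Ag P := Subgroup.subset_closure (Or.inr rfl)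

lemma prP_vv : prP P (vv P) = 1 := rfl

lemma esP_mem {s : PP P.k} (hs : s ∈ SS P.k) : esP P s ∈ Ag P := by
  have h : SS P.k ≤ (Ag P).comap (esP P) := by
    rw [SS, Subgroup.closure_le]
    intro x hx
    exact Subgroup.subset_closure (Or.inl ⟨x, hx, rfl⟩)
  exact h hs

lemma prP_mem {a : AA P} (ha : a ∈ Ag P) : prP P a ∈ SS P.k := by
  have h : Ag P ≤ (SS P.k).comap (prP P) := by
    rw [Ag, Subgroup.closure_le]
    rintro x (⟨s, hs, rfl⟩ | hx)
    · exact Subgroup.subset_closure hs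
    · rw [Set.mem_singleton_iff] at hx
      subst hx
      exact (SS P.k).one_mem
  exact h ha

lemma Ag_A0 {a : AA P} (ha : a ∈ Ag P) (i : ℕ) : a i ∈ Aff.A0 (ZMod (P.p i)) (Yy P i) := by
  have h : Ag P ≤ (Aff.A0 (ZMod (P.p i)) (Yy P i)).comap
      (Pi.evalMonoidHom (fun i => Aff (ZMod (P.p i)) (Yy P i)) i) := by
    rw [Ag, Subgroup.closure_le]
    rintro x (⟨s, hs, rfl⟩ | hx)
    · exact ⟨by simp [Aff.smHom, esP_apply], SS_alt (Subgroup.subset_closure hs) i⟩
    · rw [Set.mem_singleton_iff] at hx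
      subst hx
      refine ⟨?_, ?_⟩
      · change Multiplicative.ofAdd (∑ y, (dl (P.p i) none - dl (P.p i) (some (0, 0)) : _ → _) y) = 1
        simp only [Pi.sub_apply, Finset.sum_sub_distrib, sum_dl, sub_self]
        rfl
      · change (1 : Perm (Yy P i)) ∈ alternatingGroup (Yy P i)
        exact Subgroup.one_mem _
  exact h ha

lemma aconj {i : ℕ} (a : AA P) (g : Aff (ZMod (P.p i)) (Yy P i)) :
    a * Pi.mulSingle i g * a⁻¹ = Pi.mulSingle i (a i * g * (a i)⁻¹) := by
  funext j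
  by_cases h : j = i
  · subst h
    simp
  · simp [Pi.mulSingle_eq_of_ne h]

lemma single_es_mem {i : ℕ} {g : Perm (Yy P i)} (hg : g ∈ alternatingGroup (Yy P i)) :
    (Pi.mulSingle i (Aff.es g) : AA P) ∈ Ag P := by
  have h := esP_mem (P := P) (single_mem_SS P.hk i g hg)
  have h2 : esP P (Pi.mulSingle i g) = Pi.mulSingle i (Aff.es g) := by
    funext j
    by_cases h : j = i
    · subst h
      simp [esP_apply]
    · simp [esP_apply, Pi.mulSingle_eq_of_ne h]
  rwa [h2] at h

/-- the one-coordinate embedding -/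
def inc (P : Par) (i : ℕ) : Aff (ZMod (P.p i)) (Yy P i) →* AA P :=
  MonoidHom.mulSingle (fun i => Aff (ZMod (P.p i)) (Yy P i)) i

lemma inc_apply (i : ℕ) (x : Aff (ZMod (P.p i)) (Yy P i)) : inc P i x = Pi.mulSingle i x := rfl

@[simp] lemma inc_same (i : ℕ) (x : Aff (ZMod (P.p i)) (Yy P i)) : inc P i x i = x := by
  simp [inc_apply]

lemma inc_ne {i j : ℕ} (h : j ≠ i) (x : Aff (ZMod (P.p i)) (Yy P i)) : inc P i x j = 1 := by
  simp [inc_apply, h]

lemma eq_inc {i : ℕ} {a : AA P} (h : ∀ j, j ≠ i → a j = 1) : a = inc P i (a i) := by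
  funext j
  by_cases hj : j = i
  · subst hj; simp
  · rw [h j hj, inc_ne hj]

lemma inc_es_mem {i : ℕ} {g : Perm (Yy P i)} (hg : g ∈ alternatingGroup (Yy P i)) :
    inc P i (Aff.es g) ∈ Ag P := single_es_mem hg

lemma inc_ev_mem {i : ℕ} {w : Yy P i → ZMod (P.p i)} (hw : ∑ y, w y = 0) :
    inc P i (Aff.ev w) ∈ Ag P := by
  let M : AddSubgroup (Yy P i → ZMod (P.p i)) :=
    { carrier := {w | inc P i (Aff.ev w) ∈ Ag P}
      zero_mem' := by
        simp only [Set.mem_ofPred_eq, Aff.ev_zero, map_one]; exact (Ag P).one_mem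
      add_mem' := by
        intro a b ha hb
        simp only [Set.mem_ofPred_eq, Aff.ev_add, map_mul] at *
        exact (Ag P).mul_mem ha hb
      neg_mem' := by
        intro a ha
        simp only [Set.mem_ofPred_eq, Aff.ev_neg, map_inv] at *
        exact (Ag P).inv_mem ha }
  have hne : (some (1, 0) : Yy P i) ≠ some (0, 0) := by simp
  have hM : ∀ g ∈ alternatingGroup (Yy P i), ∀ w ∈ M, pact g w ∈ M := by
    intro g hg w hw
    change inc P i (Aff.ev (pact g w)) ∈ Ag P
    have h1 := (Ag P).mul_mem ((Ag P).mul_mem (inc_es_mem hg) hw) ((Ag P).inv_mem (inc_es_mem hg))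
    have h2 : inc P i (Aff.es g) * inc P i (Aff.ev w) * (inc P i (Aff.es g))⁻¹ =
        inc P i (Aff.ev (pact g w)) := by
      rw [← map_inv, ← map_mul, ← map_mul, Aff.conj_ev]; rfl
    rwa [h2] at h1
  refine span1 (six_le P i) M hM hne ?_ w hw
  -- the commutator of `vv` with a 3-cycle
  have hc : cyc (some (0, 0)) (some (1, 0)) (some (2, 0)) ∈ alternatingGroup (Yy P i) :=
    cyc_mem_alt (by simp) (by simp) (by simp)
  have h1 := (Ag P).mul_mem ((Ag P).mul_mem ((Ag P).mul_mem (vv_mem) (inc_es_mem hc))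
    ((Ag P).inv_mem vv_mem)) ((Ag P).inv_mem (inc_es_mem hc))
  change inc P i (Aff.ev (dl (P.p i) (some (1, 0)) - dl (P.p i) (some (0, 0)))) ∈ Ag P
  convert h1 using 1
  have h2 : vv P * inc P i (Aff.es (cyc (some (0, 0)) (some (1, 0)) (some (2, 0)))) * (vv P)⁻¹ =
      inc P i (vv P i * Aff.es (cyc (some (0, 0)) (some (1, 0)) (some (2, 0))) * (vv P i)⁻¹) :=
    aconj _ _
  rw [h2, ← map_inv, ← map_mul]
  congr 1
  refine Aff.ext ?_ ?_
  · simp only [Aff.mul_v, Aff.mul_s, Aff.inv_v, Aff.es_v, Aff.es_s, vv, Aff.ev_v, Aff.ev_s,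
      pact_zero, pact_neg, pact_sub, pact_dl, neg_zero, add_zero, pact_one, inv_one, one_mul]
    rw [cyc_apply_a (by simp) (by simp), cyc_apply_of_ne (by simp) (by simp) (by simp)]
    abel
  · simp [vv]

theorem inc_mem {i : ℕ} {x : Aff (ZMod (P.p i)) (Yy P i)} (hx : x ∈ Aff.A0 _ _) :
    inc P i x ∈ Ag P := by
  rw [Aff.eq_ev_es x, map_mul]
  exact (Ag P).mul_mem (inc_ev_mem hx.1) (inc_es_mem hx.2)

/-- `a_i` as a one-coordinate element of `A` -/
lemma inc_mem_of {a : AA P} (ha : a ∈ Ag P) (i : ℕ) : inc P i (a i) ∈ Ag P := inc_mem (Ag_A0 ha i)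

/-- truncation of elements of the product -/
def trA (P : Par) (j : ℕ) : AA P →* AA P where
  toFun x := fun i => if j ≤ i then x i else 1
  map_one' := by
    funext i
    simp
  map_mul' x y := by
    funext i
    by_cases h : j ≤ i <;> simp [h]

lemma trA_apply (j : ℕ) (x : AA P) (i : ℕ) : trA P j x i = if j ≤ i then x i else 1 := rfl

lemma trA_eq {j : ℕ} {x : AA P} (h : ∀ i < j, x i = 1) : trA P j x = x := by
  funext i
  rw [trA_apply]
  split_ifs with h1
  · rfl
  · exact (h i (by omega)).symm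

lemma trA_mem {a : AA P} (ha : a ∈ Ag P) (j : ℕ) : trA P j a ∈ Ag P := by
  induction j with
  | zero => rwa [trA_eq (fun i hi => absurd hi (by omega))]
  | succ j ih =>
    have h1 : trA P (j + 1) a = trA P j a * (inc P j (a j))⁻¹ := by
      funext i
      rw [Pi.mul_apply, Pi.inv_apply, trA_apply, trA_apply]
      by_cases h : i = j
      · subst h
        simp
      · rw [inc_ne h, inv_one, mul_one]
        by_cases h2 : j ≤ i
        · rw [if_pos h2, if_pos (by omega)]
        · rw [if_neg h2, if_neg (by omega)]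
    rw [h1]
    exact (Ag P).mul_mem ih ((Ag P).inv_mem (inc_mem_of ha j))

/-- the subgroup generated by the `S`-conjugates of `vv` -/
def Vcl (P : Par) : Subgroup (AA P) :=
  Subgroup.closure {x | ∃ s ∈ SS P.k, x = esP P s * vv P * (esP P s)⁻¹}

lemma Vcl_conj {s : PP P.k} (hs : s ∈ SS P.k) {x : AA P} (hx : x ∈ Vcl P) :
    esP P s * x * (esP P s)⁻¹ ∈ Vcl P := by
  have h : Vcl P ≤ (Vcl P).comap (MulAut.conj (esP P s)).toMonoidHom := by
    conv_lhs => rw [Vcl]
    rw [Subgroup.closure_le]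
    rintro x ⟨t, ht, rfl⟩
    apply Subgroup.subset_closure
    refine ⟨s * t, (SS P.k).mul_mem hs ht, ?_⟩
    change esP P s * (esP P t * vv P * (esP P t)⁻¹) * (esP P s)⁻¹ = _
    rw [map_mul]
    group
  exact h hx

lemma mem_Vcl {a : AA P} (ha : a ∈ Ag P) : a * (esP P (prP P a))⁻¹ ∈ Vcl P := by
  let K : Subgroup (AA P) :=
    { carrier := {a | prP P a ∈ SS P.k ∧ a * (esP P (prP P a))⁻¹ ∈ Vcl P}
      one_mem' := by
        refine ⟨by rw [map_one]; exact (SS P.k).one_mem, ?_⟩
        simp only [map_one, inv_one, mul_one]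
        exact (Vcl P).one_mem
      mul_mem' := by
        rintro a b ⟨ha1, ha2⟩ ⟨hb1, hb2⟩
        refine ⟨by rw [map_mul]; exact (SS P.k).mul_mem ha1 hb1, ?_⟩
        have h1 := (Vcl P).mul_mem ha2 (Vcl_conj ha1 hb2)
        have h2 : a * (esP P (prP P a))⁻¹ * (esP P (prP P a) * (b * (esP P (prP P b))⁻¹) *
            (esP P (prP P a))⁻¹) = a * b * (esP P (prP P (a * b)))⁻¹ := by
          rw [map_mul, map_mul]
          group
        rwa [h2] at h1
      inv_mem' := by
        rintro a ⟨ha1, ha2⟩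
        refine ⟨by rw [map_inv]; exact (SS P.k).inv_mem ha1, ?_⟩
        have h1 := Vcl_conj ((SS P.k).inv_mem ha1) ((Vcl P).inv_mem ha2)
        have h2 : esP P (prP P a)⁻¹ * (a * (esP P (prP P a))⁻¹)⁻¹ * (esP P (prP P a)⁻¹)⁻¹ =
            a⁻¹ * (esP P (prP P a⁻¹))⁻¹ := by
          rw [map_inv, map_inv, map_inv]
          group
        rwa [h2] at h1 }
  have h : Ag P ≤ K := by
    rw [Ag, Subgroup.closure_le]
    rintro x (⟨s, hs, rfl⟩ | hx)
    · refine ⟨Subgroup.subset_closure hs, ?_⟩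
      rw [prP_esP, mul_inv_cancel]
      exact (Vcl P).one_mem
    · rw [Set.mem_singleton_iff] at hx
      subst hx
      refine ⟨by rw [prP_vv]; exact (SS P.k).one_mem, ?_⟩
      rw [prP_vv, map_one, inv_one, mul_one]
      exact Subgroup.subset_closure ⟨1, (SS P.k).one_mem, by simp⟩
  exact (h ha).2

lemma mem_Vcl_of_prP {a : AA P} (ha : a ∈ Ag P) (h : prP P a = 1) : a ∈ Vcl P := by
  have h1 := mem_Vcl ha
  rwa [h, map_one, inv_one, mul_one] at h1

end Pool.Agent.Helper73.CG
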