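import Mathlib

set_option autoImplicit false
set_option linter.unusedSectionVars false

namespace Pool.Agent.Helper73.CG

namespace Ends

open Filter

variable {X A M : Type*} [Group A] [MulAction A X] (f : X → M)

/-- the values along the forward `g`-orbit of `x` are eventually `c` -/
def Lim (g : A) (x : X) (c : M) : Prop := ∀ᶠ n : ℕ in atTop, f (g ^ n • x) = c

/-- `g` acts freely (with infinite order) -/
def Free (X : Type*) {A : Type*} [Group A] [MulAction A X] (g : A) : Prop :=
  ∀ (n : ℤ) (x : X), g ^ n • x = x → n = 0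

lemma Free.inv {g : A} (h : Free X g) : Free X g⁻¹ := by
  intro n x hx
  rw [inv_zpow, ← zpow_neg] at hx
  have := h _ _ hx
  omega

lemma Free.inj {g : A} (h : Free X g) (x : X) : Function.Injective (fun n : ℕ => g ^ n • x) := by
  intro n m hnm
  have h1 : g ^ ((n : ℤ) - m) • (g ^ m • x) = g ^ m • x := by
    simp only at hnm
    rw [← mul_smul]
    conv_rhs => rw [← hnm]
    congr 1
    rw [← zpow_natCast g m, ← zpow_natCast g n, ← zpow_add]
    congr 1; ring
  have := h _ _ h1
  omega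

lemma Free.ev {g : A} (h : Free X g) (x : X) {S : Set X} (hS : S.Finite) :
    ∀ᶠ n : ℕ in atTop, g ^ n • x ∉ S := by
  rw [← Nat.cofinite_eq_atTop, Filter.eventually_cofinite]
  simp only [not_not]
  exact hS.preimage (h.inj x).injOn

variable {f}

lemma Lim.exists (hf : ∀ a : A, {x | f (a • x) ≠ f x}.Finite) {g : A} (h : Free X g) (x : X) :
    ∃ c, Lim f g x c := by
  obtain ⟨N, hN⟩ := Filter.eventually_atTop.mp (h.ev x (hf g))
  refine ⟨f (g ^ N • x), Filter.eventually_atTop.mpr ⟨N, fun n hn => ?_⟩⟩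
  induction n, hn using Nat.le_induction with
  | base => rfl
  | succ n hn ih =>
    have h1 := hN n hn
    simp only [Set.mem_ofPred_eq, not_not] at h1
    rw [pow_succ', mul_smul, h1, ih]

lemma Lim.unique {g : A} {x : X} {c c' : M} (h : Lim f g x c) (h' : Lim f g x c') : c = c' := by
  obtain ⟨n, h1, h2⟩ := (h.and h').exists
  rw [← h1, h2]

lemma Lim.comm (hf : ∀ a : A, {x | f (a • x) ≠ f x}.Finite) {g : A} (hg : Free X g) {a : A}
    (ha : a * g = g * a) {x : X} {c : M} (h : Lim f g x c) : Lim f g (a • x) c := by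
  filter_upwards [h, hg.ev x (hf a)] with n h1 h2
  simp only [not_not] at h2
  have h3 : g ^ n * a = a * g ^ n := ((Commute.pow_right (show Commute a g from ha) n)).symm
  rw [← mul_smul, h3, mul_smul, h2, h1]

lemma two_sided (hf : ∀ a : A, {x | f (a • x) ≠ f x}.Finite) {g h : A}
    (hgh : g * h = h * g) (hg : Free X g)
    (hfree : ∀ (n m : ℤ) (x : X), (g ^ n * h ^ m) • x = x → m = 0)
    {x : X} {c : M} (hx : Lim f g x c) : Lim f g⁻¹ x c := by
  obtain ⟨c', hc'⟩ := Lim.exists hf hg.inv x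
  by_cases hcc : c = c'
  · rwa [hcc]
  exfalso
  -- translates by powers of `h`
  have hk : ∀ k : ℕ, Lim f g (h ^ k • x) c ∧ Lim f g⁻¹ (h ^ k • x) c' := by
    intro k
    have h1 : Commute (h ^ k) g := (Commute.pow_left (show Commute h g from hgh.symm) k)
    exact ⟨hx.comm hf hg h1, hc'.comm hf hg.inv h1.inv_right⟩
  have hE : ∀ k : ℕ, ∃ n : ℤ, f (g • g ^ n • h ^ k • x) ≠ f (g ^ n • h ^ k • x) := by
    intro k
    by_contra hcon
    push Not at hcon
    have hall : ∀ n : ℤ, f (g ^ n • h ^ k • x) = f (h ^ k • x) := by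
      intro n
      induction n using Int.induction_on with
      | zero => rw [zpow_zero, one_smul]
      | succ i ih => rw [← ih, ← hcon i, ← mul_smul g, ← zpow_one_add, add_comm]
      | pred i ih =>
        rw [← hcon (-i - 1), ← mul_smul g, ← zpow_one_add]
        rw [show (1 : ℤ) + (-i - 1) = -i by ring, ih]
    obtain ⟨n, h1⟩ := Filter.Eventually.exists (hk k).1
    obtain ⟨m, h2⟩ := Filter.Eventually.exists (hk k).2
    have h3 := hall n
    have h4 := hall (-(m : ℤ))
    rw [zpow_natCast] at h3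
    rw [zpow_neg, zpow_natCast, ← inv_pow] at h4
    apply hcc
    rw [← h1, ← h2, h3, h4]
  choose n hn using hE
  have hinj : Function.Injective (fun k : ℕ => g ^ n k • h ^ k • x) := by
    intro k l hkl
    simp only at hkl
    have hcomm : ∀ a b : ℤ, Commute (g ^ a) (h ^ b) := fun a b =>
      (Commute.zpow_zpow (show Commute g h from hgh) a b)
    have h1 : (g ^ (n k - n l) * h ^ ((k : ℤ) - l)) • (h ^ l • x) = h ^ l • x := by
      have h2 : g ^ (n k - n l) * h ^ ((k : ℤ) - l) * h ^ (l : ℤ) =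
          g ^ (-(n l)) * (g ^ n k * h ^ (k : ℤ)) := by
        rw [mul_assoc, ← zpow_add, ← mul_assoc, ← zpow_add]
        congr 2
        · ring
        · ring
      rw [← mul_smul, ← zpow_natCast h l, h2, mul_smul, zpow_natCast h k, mul_smul (g ^ n k), hkl,
        ← mul_smul, zpow_neg, inv_mul_cancel, one_smul, zpow_natCast]
    have := hfree _ _ _ h1
    omega
  exact (Set.infinite_of_injective_forall_mem hinj (s := {x | f (g • x) ≠ f x})
    (fun k => hn k)) (hf g)

lemma bad_finite (hf : ∀ a : A, {x | f (a • x) ≠ f x}.Finite) {g h : A}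
    (hgh : g * h = h * g) (hg : Free X g)
    (hfree : ∀ (n m : ℤ) (x : X), (g ^ n * h ^ m) • x = x → m = 0) :
    {x | ¬ Lim f g x (f x)}.Finite := by
  have hsub : {x | ¬ Lim f g x (f x)} ⊆ ⋃ e ∈ {x | f (g • x) ≠ f x},
      (fun n : ℕ => g⁻¹ ^ n • e) '' {n : ℕ | ¬ Lim f g (g⁻¹ ^ n • e) (f (g⁻¹ ^ n • e))} := by
    intro x hx
    have h1 : ∃ n : ℕ, f (g • g ^ n • x) ≠ f (g ^ n • x) := by
      by_contra hcon
      push Not at hcon
      apply hx
      refine Filter.Eventually.of_forall fun n => ?_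
      induction n with
      | zero => rw [pow_zero, one_smul]
      | succ n ih => rw [pow_succ', mul_smul, hcon, ih]
    obtain ⟨n, hn⟩ := h1
    have h2 : g⁻¹ ^ n • g ^ n • x = x := by
      rw [inv_pow, inv_smul_smul]
    refine Set.mem_biUnion (show g ^ n • x ∈ {x | f (g • x) ≠ f x} from hn) ⟨n, ?_, h2⟩
    simp only [Set.mem_ofPred_eq, h2]
    exact hx
  refine Set.Finite.subset (Set.Finite.biUnion (hf g) fun e _ => Set.Finite.image _ ?_) hsub
  obtain ⟨c, hc⟩ := Lim.exists hf hg e
  have hc' := two_sided hf hgh hg hfree hc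
  have h1 : ∀ᶠ n : ℕ in atTop, Lim f g (g⁻¹ ^ n • e) (f (g⁻¹ ^ n • e)) := by
    filter_upwards [hc'] with n hn
    rw [hn]
    apply hc.comm hf hg
    exact (Commute.pow_left ((Commute.refl g).inv_left) n)
  rw [← Nat.cofinite_eq_atTop, Filter.eventually_cofinite] at h1
  exact h1

/-- almost invariant functions are eventually constant -/
theorem main (htr : ∀ x y : X, ∃ a : A, a • x = y) (x0 : X) {ι : Type*} (τ : ι → A) (i0 : ι)
    (hcom : ∀ i j, τ i * τ j = τ j * τ i)
    (hfree : ∀ i j, i ≠ j → ∀ (n m : ℤ) (x : X), (τ i ^ n * τ j ^ m) • x = x → n = 0 ∧ m = 0)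
    (hother : ∀ i : ι, ∃ j, j ≠ i)
    (hgen : ∀ K : Subgroup A, (∀ a i, a * τ i = τ i * a → a ∈ K) → K = ⊤)
    (f : X → M) (hf : ∀ a : A, {x | f (a • x) ≠ f x}.Finite) : ∃ c, {x | f x ≠ c}.Finite := by
  have hfr : ∀ i, Free X (τ i) := by
    intro i n x hx
    obtain ⟨j, hj⟩ := hother i
    exact (hfree i j (Ne.symm hj) n 0 x (by simpa using hx)).1
  have hbad : ∀ i, {x | ¬ Lim f (τ i) x (f x)}.Finite := by
    intro i
    obtain ⟨j, hj⟩ := hother i
    exact bad_finite hf (hcom i j) (hfr i)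
      (fun n m x hx => (hfree i j (Ne.symm hj) n m x hx).2)
  have hsame : ∀ i j x c, Lim f (τ i) x c → Lim f (τ j) x c := by
    intro i j x c hx
    obtain ⟨c', hc'⟩ := Lim.exists hf (hfr j) x
    by_cases hcc : c = c'
    · rwa [hcc]
    exfalso
    have h1 : ∀ n : ℕ, (τ i) ^ n • x ∈ {x | ¬ Lim f (τ i) x (f x)} ∪ {x | ¬ Lim f (τ j) x (f x)} := by
      intro n
      have h2 : Lim f (τ i) ((τ i) ^ n • x) c :=
        hx.comm hf (hfr i) (Commute.pow_left (Commute.refl _) n)
      have h3 : Lim f (τ j) ((τ i) ^ n • x) c' :=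
        hc'.comm hf (hfr j) (Commute.pow_left (show Commute (τ i) (τ j) from hcom i j) n)
      by_contra hcon
      simp only [Set.mem_union, Set.mem_ofPred_eq, not_or, not_not] at hcon
      apply hcc
      rw [h2.unique hcon.1, h3.unique hcon.2]
    exact (Set.infinite_of_injective_forall_mem ((hfr i).inj x) h1) ((hbad i).union (hbad j))
  let K : Subgroup A :=
    { carrier := {a | ∀ x c, Lim f (τ i0) x c ↔ Lim f (τ i0) (a • x) c}
      one_mem' := by intro x c; rw [one_smul]
      mul_mem' := by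
        intro a b ha hb x c
        rw [mul_smul, ← ha, ← hb]
      inv_mem' := by
        intro a ha x c
        rw [ha (a⁻¹ • x), smul_inv_smul] }
  have hK : K = ⊤ := by
    apply hgen
    intro a i hai x c
    have key : ∀ b, b * τ i = τ i * b → ∀ x, Lim f (τ i0) x c → Lim f (τ i0) (b • x) c := by
      intro b hb x hx
      exact hsame _ _ _ _ ((hsame _ i _ _ hx).comm hf (hfr i) hb)
    refine ⟨key a hai x, fun h => ?_⟩
    have h1 := key a⁻¹ (Commute.inv_left (show Commute a (τ i) from hai)) _ h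
    rwa [inv_smul_smul] at h1
  obtain ⟨c, hc⟩ := Lim.exists hf (hfr i0) x0
  refine ⟨c, (hbad i0).subset ?_⟩
  intro x hx hx'
  obtain ⟨a, rfl⟩ := htr x0 x
  have ha : a ∈ K := by rw [hK]; trivial
  exact hx (hx'.unique ((ha x0 c).mp hc))

end Ends

end Pool.Agent.Helper73.CG
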