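import Pool.Agent.Helper73.CG.Wreath

set_option autoImplicit false

namespace Pool.Agent.Helper73.CG

/-- The fibre square of a homomorphism. -/
def fib {G Q : Type*} [Group G] [Group Q] (π : G →* Q) : Subgroup (G × G) where
  carrier := {x | π x.1 = π x.2}
  mul_mem' := by
    intro a b ha hb
    simp only [Set.mem_ofPred_eq] at *
    simp [ha, hb]
  one_mem' := by simp
  inv_mem' := by
    intro a ha
    simp only [Set.mem_ofPred_eq] at *
    simp [ha]

namespace fib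

variable {G Q : Type*} [Group G] [Group Q] {π : G →* Q}

lemma mem_iff {x : G × G} : x ∈ fib π ↔ π x.1 = π x.2 := Iff.rfl

/-- The diagonal. -/
def diag (π : G →* Q) : G →* fib π where
  toFun g := ⟨(g, g), rfl⟩
  map_one' := rfl
  map_mul' _ _ := rfl

/-- swap of the two coordinates -/
def swap (π : G →* Q) : MulAut (fib π) where
  toFun x := ⟨(x.1.2, x.1.1), x.2.symm⟩
  invFun x := ⟨(x.1.2, x.1.1), x.2.symm⟩
  left_inv _ := rfl
  right_inv _ := rfl
  map_mul' _ _ := rfl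

lemma swap_swap (x : fib π) : swap π (swap π x) = x := rfl

/-- A pair of elements of the kernel. -/
def in1 (k : G) (hk : k ∈ π.ker) : fib π := ⟨(k, 1), by
  rw [mem_iff]; simp only [map_one]; exact hk⟩

def in2 (k : G) (hk : k ∈ π.ker) : fib π := ⟨(1, k), by
  rw [mem_iff]; simp only [map_one]; exact (MonoidHom.mem_ker.mp hk).symm⟩

lemma in1_fst (k : G) (hk : k ∈ π.ker) : (in1 k hk).1.1 = k := rfl
lemma in1_snd (k : G) (hk : k ∈ π.ker) : (in1 k hk).1.2 = 1 := rfl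
lemma in2_fst (k : G) (hk : k ∈ π.ker) : (in2 k hk).1.1 = 1 := rfl
lemma in2_snd (k : G) (hk : k ∈ π.ker) : (in2 k hk).1.2 = k := rfl

variable (R : Subgroup G) (hRn : R.Normal) (hRk : R ≤ π.ker)
  (hRmin : ∀ N : Subgroup G, N.Normal → N ≠ ⊥ → R ≤ N)
  (hRc : ∃ r ∈ R, ∃ s ∈ R, r * s ≠ s * r)

include hRmin hRc in
lemma centralizer_trivial [hRn : R.Normal] {g : G} (hg : ∀ r ∈ R, g * r = r * g) : g = 1 := by
  by_contra hne
  have hmem : g ∈ Subgroup.centralizer (R : Set G) := by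
    rw [Subgroup.mem_centralizer_iff]
    intro r hr
    exact (hg r hr).symm
  have hle : R ≤ Subgroup.centralizer (R : Set G) := by
    apply hRmin _ inferInstance
    intro hbot
    rw [hbot, Subgroup.mem_bot] at hmem
    exact hne hmem
  obtain ⟨r, hr, s, hs, hrs⟩ := hRc
  have := Subgroup.mem_centralizer_iff.mp (hle hr) s hs
  exact hrs this.symm

/-- `R × 1`. -/
def R1 (π : G →* Q) (R : Subgroup G) : Subgroup (fib π) where
  carrier := {x | x.1.1 ∈ R ∧ x.1.2 = 1}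
  mul_mem' := by
    rintro a b ⟨h1, h2⟩ ⟨h3, h4⟩
    exact ⟨R.mul_mem h1 h3, by simp [h2, h4]⟩
  one_mem' := ⟨R.one_mem, rfl⟩
  inv_mem' := by
    rintro a ⟨h1, h2⟩
    exact ⟨R.inv_mem h1, by simp [h2]⟩

/-- `1 × R`. -/
def R2 (π : G →* Q) (R : Subgroup G) : Subgroup (fib π) where
  carrier := {x | x.1.2 ∈ R ∧ x.1.1 = 1}
  mul_mem' := by
    rintro a b ⟨h1, h2⟩ ⟨h3, h4⟩
    exact ⟨R.mul_mem h1 h3, by simp [h2, h4]⟩
  one_mem' := ⟨R.one_mem, rfl⟩
  inv_mem' := by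
    rintro a ⟨h1, h2⟩
    exact ⟨R.inv_mem h1, by simp [h2]⟩

lemma mem_R1 {x : fib π} : x ∈ R1 π R ↔ x.1.1 ∈ R ∧ x.1.2 = 1 := Iff.rfl
lemma mem_R2 {x : fib π} : x ∈ R2 π R ↔ x.1.2 ∈ R ∧ x.1.1 = 1 := Iff.rfl

instance R1_normal [hRn : R.Normal] : (R1 π R).Normal := by
  refine ⟨?_⟩
  rintro x ⟨h1, h2⟩ g
  refine ⟨?_, ?_⟩
  · exact hRn.conj_mem _ h1 g.1.1
  · simp [h2]

instance R2_normal [hRn : R.Normal] : (R2 π R).Normal := by
  refine ⟨?_⟩
  rintro x ⟨h1, h2⟩ g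
  refine ⟨?_, ?_⟩
  · exact hRn.conj_mem _ h1 g.1.2
  · simp [h2]

include hRk hRmin hRc in
lemma R1_or_R2_le [hRn : R.Normal] {N : Subgroup (fib π)} (hN : N.Normal) (hne : N ≠ ⊥) :
    R1 π R ≤ N ∨ R2 π R ≤ N := by
  obtain ⟨g, hg, hg1⟩ := (Subgroup.ne_bot_iff_exists_ne_one.mp hne |> fun ⟨g, hg⟩ =>
    (⟨g.1, g.2, fun h => hg (Subtype.ext h)⟩ : ∃ g : fib π, g ∈ N ∧ g ≠ 1))
  by_cases h1 : g.1.1 = 1
  · right
    have h2 : g.1.2 ≠ 1 := by
      intro h2
      exact hg1 (Subtype.ext (Prod.ext h1 h2))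
    let M : Subgroup G :=
      { carrier := {k | ∃ x ∈ N, x.1.1 = 1 ∧ x.1.2 = k}
        mul_mem' := by
          rintro a b ⟨x, hx, h1, rfl⟩ ⟨y, hy, h3, rfl⟩
          exact ⟨x * y, N.mul_mem hx hy, by simp [h1, h3], rfl⟩
        one_mem' := ⟨1, N.one_mem, rfl, rfl⟩
        inv_mem' := by
          rintro a ⟨x, hx, h1, rfl⟩
          exact ⟨x⁻¹, N.inv_mem hx, by simp [h1], rfl⟩ }
    have hM : M.Normal := by
      refine ⟨?_⟩
      rintro a ⟨x, hx, h1, rfl⟩ b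
      exact ⟨diag π b * x * (diag π b)⁻¹, hN.conj_mem _ hx _, by simp [h1, diag], rfl⟩
    have hMne : M ≠ ⊥ := by
      intro hbot
      have : g.1.2 ∈ M := ⟨g, hg, h1, rfl⟩
      rw [hbot, Subgroup.mem_bot] at this
      exact h2 this
    have hle := hRmin M hM hMne
    rintro x ⟨hx1, hx2⟩
    obtain ⟨y, hy, hy1, hy2⟩ := hle hx1
    have : x = y := Subtype.ext (Prod.ext (by rw [hx2, hy1]) hy2.symm)
    rwa [this]
  · left
    let M : Subgroup G :=
      { carrier := {k | ∃ x ∈ N, x.1.2 = 1 ∧ x.1.1 = k}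
        mul_mem' := by
          rintro a b ⟨x, hx, h1, rfl⟩ ⟨y, hy, h3, rfl⟩
          exact ⟨x * y, N.mul_mem hx hy, by simp [h1, h3], rfl⟩
        one_mem' := ⟨1, N.one_mem, rfl, rfl⟩
        inv_mem' := by
          rintro a ⟨x, hx, h1, rfl⟩
          exact ⟨x⁻¹, N.inv_mem hx, by simp [h1], rfl⟩ }
    have hM : M.Normal := by
      refine ⟨?_⟩
      rintro a ⟨x, hx, h1, rfl⟩ b
      exact ⟨diag π b * x * (diag π b)⁻¹, hN.conj_mem _ hx _, by simp [h1, diag], rfl⟩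
    have hMne : M ≠ ⊥ := by
      -- commutator with an element of R × 1
      have : ∃ r ∈ R, g.1.1 * r ≠ r * g.1.1 := by
        by_contra hcon
        push Not at hcon
        exact h1 (centralizer_trivial R hRmin hRc hcon)
      obtain ⟨r, hr, hgr⟩ := this
      intro hbot
      have hm : g.1.1 * r * g.1.1⁻¹ * r⁻¹ ∈ M := by
        refine ⟨g * in1 r (hRk hr) * g⁻¹ * (in1 r (hRk hr))⁻¹, ?_, ?_, ?_⟩
        · rw [mul_assoc, mul_assoc]
          refine N.mul_mem hg ?_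
          rw [← mul_assoc]
          exact hN.conj_mem _ (N.inv_mem hg) _
        · simp [in1]
        · simp [in1]
      rw [hbot, Subgroup.mem_bot, mul_inv_eq_one, mul_inv_eq_iff_eq_mul] at hm
      exact hgr hm
    have hle := hRmin M hM hMne
    rintro x ⟨hx1, hx2⟩
    obtain ⟨y, hy, hy1, hy2⟩ := hle hx1
    have : x = y := Subtype.ext (Prod.ext hy2.symm (by rw [hx2, hy1]))
    rwa [this]

/-- `θ` preserves both `R × 1` and `1 × R`. -/
def Pres (π : G →* Q) (R : Subgroup G) (θ : MulAut (fib π)) : Prop :=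
  (∀ x ∈ R1 π R, θ x ∈ R1 π R) ∧ ∀ x ∈ R2 π R, θ x ∈ R2 π R

include hRk hRmin hRc in
lemma pres_or [hRn : R.Normal] (θ : MulAut (fib π)) : Pres π R θ ∨ Pres π R (θ * swap π) := by
  obtain ⟨r, hr, s, hs, hrs⟩ := hRc
  have hr1 : r ≠ 1 := by
    rintro rfl
    simp at hrs
  have hne1 : R1 π R ≠ ⊥ := by
    intro hbot
    have : in1 r (hRk hr) ∈ R1 π R := ⟨hr, rfl⟩
    rw [hbot, Subgroup.mem_bot] at this
    exact hr1 (congrArg (fun x : fib π => x.1.1) this)
  have hne2 : R2 π R ≠ ⊥ := by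
    intro hbot
    have : in2 r (hRk hr) ∈ R2 π R := ⟨hr, rfl⟩
    rw [hbot, Subgroup.mem_bot] at this
    exact hr1 (congrArg (fun x : fib π => x.1.2) this)
  have hcomap : ∀ S : Subgroup (fib π), S ≠ ⊥ → S.comap θ.toMonoidHom ≠ ⊥ := by
    intro S hS hbot
    apply hS
    rw [eq_bot_iff]
    intro x hx
    have : θ.symm x ∈ S.comap θ.toMonoidHom := by
      change θ (θ.symm x) ∈ S
      rwa [MulEquiv.apply_symm_apply]
    rw [hbot, Subgroup.mem_bot] at this
    rw [Subgroup.mem_bot, ← MulEquiv.apply_symm_apply θ x, this, map_one]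
  have A1 := R1_or_R2_le R hRk hRmin ⟨r, hr, s, hs, hrs⟩ (N := (R1 π R).comap θ.toMonoidHom)
    inferInstance (hcomap _ hne1)
  have A2 := R1_or_R2_le R hRk hRmin ⟨r, hr, s, hs, hrs⟩ (N := (R2 π R).comap θ.toMonoidHom)
    inferInstance (hcomap _ hne2)
  have hdisj : ∀ x, x ∈ R1 π R → x ∈ R2 π R → x = 1 := by
    rintro x ⟨_, h1⟩ ⟨_, h2⟩
    exact Subtype.ext (Prod.ext h2 h1)
  rcases A1 with a | b
  · rcases A2 with c | d
    · exfalso
      apply hne1
      rw [eq_bot_iff]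
      intro x hx
      have h := hdisj _ (a hx) (c hx)
      rw [Subgroup.mem_bot]
      exact θ.injective (h.trans (map_one θ).symm)
    · left
      exact ⟨fun x hx => a hx, fun x hx => d hx⟩
  · rcases A2 with c | d
    · right
      refine ⟨fun x hx => ?_, fun x hx => ?_⟩
      · exact b (show swap π x ∈ R2 π R from ⟨hx.1, hx.2⟩)
      · exact c (show swap π x ∈ R1 π R from ⟨hx.1, hx.2⟩)
    · exfalso
      apply hne2
      rw [eq_bot_iff]
      intro x hx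
      have h := hdisj _ (b hx) (d hx)
      rw [Subgroup.mem_bot]
      exact θ.injective (h.trans (map_one θ).symm)

include hRk hRmin hRc in
lemma pres_inv [hRn : R.Normal] {θ : MulAut (fib π)} (h : Pres π R θ) : Pres π R θ⁻¹ := by
  rcases pres_or R hRk hRmin hRc θ⁻¹ with h' | h'
  · exact h'
  · exfalso
    obtain ⟨r, hr, s, hs, hrs⟩ := hRc
    have hr1 : r ≠ 1 := by
      rintro rfl
      simp at hrs
    have h1 : in2 r (hRk hr) ∈ R2 π R := ⟨hr, rfl⟩
    have h2 := h'.2 _ h1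
    rw [MulAut.mul_apply] at h2
    have h3 := h.2 _ h2
    rw [← MulAut.mul_apply, mul_inv_cancel] at h3
    exact hr1 h3.2

include hRk hRmin hRc in
lemma fst_eq_one_iff [hRn : R.Normal] {x : fib π} :
    x.1.1 = 1 ↔ ∀ y ∈ R1 π R, x * y = y * x := by
  constructor
  · rintro hx y ⟨_, hy⟩
    exact Subtype.ext (Prod.ext (by simp [hx]) (by simp [hy]))
  · intro h
    apply centralizer_trivial R hRmin hRc
    intro r hr
    have := h (in1 r (hRk hr)) ⟨hr, rfl⟩
    exact congrArg (fun x : fib π => x.1.1) this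

include hRk hRmin hRc in
lemma snd_eq_one_iff [hRn : R.Normal] {x : fib π} :
    x.1.2 = 1 ↔ ∀ y ∈ R2 π R, x * y = y * x := by
  constructor
  · rintro hx y ⟨_, hy⟩
    exact Subtype.ext (Prod.ext (by simp [hy]) (by simp [hx]))
  · intro h
    apply centralizer_trivial R hRmin hRc
    intro r hr
    have := h (in2 r (hRk hr)) ⟨hr, rfl⟩
    exact congrArg (fun x : fib π => x.1.2) this

include hRk hRmin hRc in
lemma pres_fst [hRn : R.Normal] {θ : MulAut (fib π)} (h : Pres π R θ) {x : fib π}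
    (hx : x.1.1 = 1) : (θ x).1.1 = 1 := by
  rw [fst_eq_one_iff R hRk hRmin hRc] at *
  intro y hy
  have h1 := hx _ ((pres_inv R hRk hRmin hRc h).1 y hy)
  have h2 := congrArg θ h1
  rw [map_mul, map_mul, ← MulAut.mul_apply, mul_inv_cancel] at h2
  exact h2

include hRk hRmin hRc in
lemma pres_snd [hRn : R.Normal] {θ : MulAut (fib π)} (h : Pres π R θ) {x : fib π}
    (hx : x.1.2 = 1) : (θ x).1.2 = 1 := by
  rw [snd_eq_one_iff R hRk hRmin hRc] at *
  intro y hy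
  have h1 := hx _ ((pres_inv R hRk hRmin hRc h).2 y hy)
  have h2 := congrArg θ h1
  rw [map_mul, map_mul, ← MulAut.mul_apply, mul_inv_cancel] at h2
  exact h2

include hRk hRmin hRc in
lemma pres_fst_eq [hRn : R.Normal] {θ : MulAut (fib π)} (h : Pres π R θ) {x y : fib π}
    (hx : x.1.1 = y.1.1) : (θ x).1.1 = (θ y).1.1 := by
  have h1 : (x * y⁻¹).1.1 = 1 := by simp [hx]
  have := pres_fst R hRk hRmin hRc h h1
  rw [map_mul, map_inv] at this
  exact mul_inv_eq_one.mp this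

include hRk hRmin hRc in
lemma pres_snd_eq [hRn : R.Normal] {θ : MulAut (fib π)} (h : Pres π R θ) {x y : fib π}
    (hx : x.1.2 = y.1.2) : (θ x).1.2 = (θ y).1.2 := by
  have h1 : (x * y⁻¹).1.2 = 1 := by simp [hx]
  have := pres_snd R hRk hRmin hRc h h1
  rw [map_mul, map_inv] at this
  exact mul_inv_eq_one.mp this

include hRk hRmin hRc in
/-- the two component automorphisms -/
lemma exists_components [hRn : R.Normal] {θ : MulAut (fib π)} (h : Pres π R θ) :
    ∃ θ1 θ2 : MulAut G, ∀ x : fib π, (θ x).1.1 = θ1 x.1.1 ∧ (θ x).1.2 = θ2 x.1.2 := by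
  have hinv := pres_inv R hRk hRmin hRc h
  let θ1 : MulAut G :=
    { toFun := fun g => (θ (diag π g)).1.1
      invFun := fun g => (θ⁻¹ (diag π g)).1.1
      left_inv := fun g => by
        have h1 : (θ⁻¹ (diag π ((θ (diag π g)).1.1))).1.1 = (θ⁻¹ (θ (diag π g))).1.1 :=
          pres_fst_eq R hRk hRmin hRc hinv rfl
        refine h1.trans ?_
        rw [← MulAut.mul_apply, inv_mul_cancel]
        rfl
      right_inv := fun g => by
        have h1 : (θ (diag π ((θ⁻¹ (diag π g)).1.1))).1.1 = (θ (θ⁻¹ (diag π g))).1.1 :=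
          pres_fst_eq R hRk hRmin hRc h rfl
        refine h1.trans ?_
        rw [← MulAut.mul_apply, mul_inv_cancel]
        rfl
      map_mul' := fun a b => by simp }
  let θ2 : MulAut G :=
    { toFun := fun g => (θ (diag π g)).1.2
      invFun := fun g => (θ⁻¹ (diag π g)).1.2
      left_inv := fun g => by
        have h1 : (θ⁻¹ (diag π ((θ (diag π g)).1.2))).1.2 = (θ⁻¹ (θ (diag π g))).1.2 :=
          pres_snd_eq R hRk hRmin hRc hinv rfl
        refine h1.trans ?_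
        rw [← MulAut.mul_apply, inv_mul_cancel]
        rfl
      right_inv := fun g => by
        have h1 : (θ (diag π ((θ⁻¹ (diag π g)).1.2))).1.2 = (θ (θ⁻¹ (diag π g))).1.2 :=
          pres_snd_eq R hRk hRmin hRc h rfl
        refine h1.trans ?_
        rw [← MulAut.mul_apply, mul_inv_cancel]
        rfl
      map_mul' := fun a b => by simp }
  refine ⟨θ1, θ2, fun x => ⟨?_, ?_⟩⟩
  · exact pres_fst_eq R hRk hRmin hRc h (y := diag π x.1.1) rfl
  · exact pres_snd_eq R hRk hRmin hRc h (y := diag π x.1.2) rfl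

include hRk hRmin hRc in
/-- **Theorem C.** -/
theorem outFin [hRn : R.Normal] (hcen : ∀ x : G, (∀ g, π x * π g = π g * π x) → π x = 1)
    (hG : OutFin G) : OutFin (fib π) := by
  classical
  obtain ⟨F, hF, hFG⟩ := hG
  let P : MulAut G → MulAut G → MulAut (fib π) → Prop := fun φ1 φ2 θ =>
    ∃ g1 g2 : G, ∀ x : fib π, (θ x).1.1 = g1 * φ1 x.1.1 * g1⁻¹ ∧ (θ x).1.2 = g2 * φ2 x.1.2 * g2⁻¹
  let rep : MulAut G → MulAut G → MulAut (fib π) := fun φ1 φ2 =>
    if h : ∃ θ, P φ1 φ2 θ then h.choose else 1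
  have hrep : ∀ φ1 φ2, (∃ θ, P φ1 φ2 θ) → P φ1 φ2 (rep φ1 φ2) := by
    intro φ1 φ2 h
    simp only [rep, dif_pos h]
    exact h.choose_spec
  -- key claim
  have key : ∀ θ : MulAut (fib π), Pres π R θ → ∃ x : fib π, ∃ φ1 ∈ F, ∃ φ2 ∈ F,
      θ = MulAut.conj x * rep φ1 φ2 := by
    intro θ hθ
    obtain ⟨θ1, θ2, h12⟩ := exists_components R hRk hRmin hRc hθ
    obtain ⟨g1, φ1, hφ1, hg1⟩ := hFG θ1
    obtain ⟨g2, φ2, hφ2, hg2⟩ := hFG θ2
    have hP : P φ1 φ2 θ := by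
      refine ⟨g1, g2, fun x => ?_⟩
      rw [(h12 x).1, (h12 x).2, hg1, hg2]
      simp
    obtain ⟨k1, k2, hk⟩ := hrep φ1 φ2 ⟨θ, hP⟩
    -- the automorphism θ * rep⁻¹
    have hη : ∀ x : fib π, (θ ((rep φ1 φ2)⁻¹ x)).1.1 = (g1 * k1⁻¹) * x.1.1 * (g1 * k1⁻¹)⁻¹ ∧
        (θ ((rep φ1 φ2)⁻¹ x)).1.2 = (g2 * k2⁻¹) * x.1.2 * (g2 * k2⁻¹)⁻¹ := by
      intro x
      set y := (rep φ1 φ2)⁻¹ x with hy
      have hx : rep φ1 φ2 y = x := by
        rw [hy, ← MulAut.mul_apply, mul_inv_cancel]; rfl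
      have hk' := hk y
      rw [hx] at hk'
      rw [(h12 y).1, (h12 y).2, hg1, hg2, hk'.1, hk'.2]
      simp only [MulAut.mul_apply, MulAut.conj_apply]
      constructor <;> group
    have hmem : (g1 * k1⁻¹, g2 * k2⁻¹) ∈ fib π := by
      rw [mem_iff]
      have h3 : π ((g2 * k2⁻¹)⁻¹ * (g1 * k1⁻¹)) = 1 := by
        apply hcen
        intro g
        have h4 := (θ ((rep φ1 φ2)⁻¹ (diag π g))).2
        rw [mem_iff, (hη _).1, (hη _).2] at h4
        have h5 : π (g1 * k1⁻¹) * π g * (π (g1 * k1⁻¹))⁻¹ =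
            π (g2 * k2⁻¹) * π g * (π (g2 * k2⁻¹))⁻¹ := by
          rw [← map_inv, ← map_mul, ← map_mul, ← map_inv, ← map_mul, ← map_mul]
          exact h4
        rw [map_mul, map_inv]
        set a := π (g1 * k1⁻¹)
        set b := π (g2 * k2⁻¹)
        rw [mul_inv_eq_iff_eq_mul] at h5
        calc b⁻¹ * a * π g = b⁻¹ * (a * π g) := by group
          _ = b⁻¹ * (b * π g * b⁻¹ * a) := by rw [h5]
          _ = π g * (b⁻¹ * a) := by group
      rw [map_mul, map_inv, inv_mul_eq_one] at h3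
      exact h3.symm
    refine ⟨⟨_, hmem⟩, φ1, hφ1, φ2, hφ2, ?_⟩
    have hcan : ∀ x, (rep φ1 φ2)⁻¹ (rep φ1 φ2 x) = x := by
      intro x
      change ((rep φ1 φ2)⁻¹ * rep φ1 φ2) x = x
      rw [inv_mul_cancel]
      rfl
    ext x
    · have := (hη (rep φ1 φ2 x)).1
      rw [hcan] at this
      exact this
    · have := (hη (rep φ1 φ2 x)).2
      rw [hcan] at this
      exact this
  refine ⟨Set.image2 rep F F ∪ (fun θ => θ * swap π) '' (Set.image2 rep F F),
    (hF.image2 _ hF).union ((hF.image2 _ hF).image _), ?_⟩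
  intro θ
  rcases pres_or R hRk hRmin hRc θ with h | h
  · obtain ⟨x, φ1, h1, φ2, h2, hx⟩ := key θ h
    exact ⟨x, rep φ1 φ2, Or.inl ⟨φ1, h1, φ2, h2, rfl⟩, hx⟩
  · obtain ⟨x, φ1, h1, φ2, h2, hx⟩ := key _ h
    refine ⟨x, rep φ1 φ2 * swap π, Or.inr ⟨_, ⟨φ1, h1, φ2, h2, rfl⟩, rfl⟩, ?_⟩
    rw [← mul_assoc, ← hx, mul_assoc]
    have : swap π * swap π = 1 := by
      ext x <;> rfl
    rw [this, mul_one]

end fib

end Pool.Agent.Helper73.CG
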