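import Pool.Agent.Helper73.CG.Lamp

set_option autoImplicit false

namespace Pool.Agent.Helper73.CG

namespace LL

lemma comm_iff_U (x : LL) :
    (∀ g : LL, x * (g * x * g⁻¹) = (g * x * g⁻¹) * x) ↔ x.d = 1 := by
  constructor
  · intro h
    by_contra hd
    obtain ⟨z, hz⟩ := Dh.exists_smul_ne hd
    have h1 := congrArg LL.u (h (inU (Finsupp.single z 1)))
    simp only [mul_u, mul_d, inU_u, inU_d, inv_u, inv_d, act_one, one_mul, inv_one, mul_one,
      map_add, map_neg, act_single] at h1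
    have h2 := DFunLike.congr_fun h1 (x.d • z)
    simp only [Finsupp.coe_add, Finsupp.coe_neg, Pi.add_apply, Pi.neg_apply,
      Finsupp.single_apply, smul_left_cancel_iff] at h2
    have hz2 : ¬ z = x.d • z := fun h => hz h.symm
    simp [hz, hz2] at h2
    omega
  · intro h g
    refine LL.ext ?_ ?_
    · simp only [mul_u, mul_d, inv_u, inv_d, h, act_one, mul_one, mul_inv_cancel]
      abel
    · simp [h]

lemma psi_U (ψ : MulAut LL) {x : LL} (hx : x.d = 1) : (ψ x).d = 1 := by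
  rw [← comm_iff_U] at hx ⊢
  intro g
  have h1 := congrArg ψ (hx (ψ.symm g))
  simpa using h1

lemma eq_inU {x : LL} (hx : x.d = 1) : x = inU x.u := by
  refine LL.ext rfl hx

/-- the induced map on the base -/
noncomputable def Psi (ψ : MulAut LL) : (ℤ →₀ ℤ) →+ (ℤ →₀ ℤ) where
  toFun u := (ψ (inU u)).u
  map_zero' := by
    have : inU (0 : ℤ →₀ ℤ) = 1 := rfl
    rw [this, map_one]; rfl
  map_add' u v := by
    rw [inU_add, map_mul, mul_u, psi_U ψ (rfl : (inU u).d = 1), act_one]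

lemma psi_inU (ψ : MulAut LL) (u : ℤ →₀ ℤ) : ψ (inU u) = inU (Psi ψ u) :=
  eq_inU (psi_U ψ rfl)

/-- the induced map on the top -/
noncomputable def del (ψ : MulAut LL) : Dh →* Dh where
  toFun d := (ψ (inD d)).d
  map_one' := by rw [inD_one, map_one]; rfl
  map_mul' a b := by rw [inD_mul, map_mul, mul_d]

lemma psi_d (ψ : MulAut LL) (x : LL) : (ψ x).d = del ψ x.d := by
  conv_lhs => rw [eq_mul x]
  rw [map_mul, mul_d, psi_U ψ (rfl : (inU x.u).d = 1), one_mul]
  rfl

lemma del_surj (ψ : MulAut LL) (e : Dh) : ∃ d, del ψ d = e := by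
  refine ⟨(ψ.symm (inD e)).d, ?_⟩
  rw [← psi_d]
  simp

lemma del_inj (ψ : MulAut LL) {d : Dh} (h : del ψ d = 1) : d = 1 := by
  have h1 : (ψ (inD d)).d = 1 := h
  have h2 := psi_U ψ.symm h1
  simpa using h2

lemma Psi_act (ψ : MulAut LL) (d : Dh) (u : ℤ →₀ ℤ) :
    Psi ψ (act d u) = act (del ψ d) (Psi ψ u) := by
  have h1 := congrArg ψ (inD_conj d u)
  rw [map_mul, map_mul, map_inv, psi_inU, psi_inU] at h1
  have h2 := congrArg LL.u h1
  simp only [mul_u, mul_d, inU_u, inU_d, inv_u] at h2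
  have h3 : (ψ (inD d)).d = del ψ d := rfl
  rw [h3, mul_one, map_neg, ← act_mul] at h2
  simp only [mul_inv_cancel, act_one] at h2
  rw [← h2]
  abel

lemma Psi_surj (ψ : MulAut LL) (v : ℤ →₀ ℤ) : ∃ u, Psi ψ u = v := by
  refine ⟨(ψ.symm (inU v)).u, ?_⟩
  have h1 : (ψ.symm (inU v)).d = 1 := psi_U ψ.symm rfl
  have h2 := eq_inU h1
  have h3 : ψ (inU (ψ.symm (inU v)).u) = inU v := by rw [← h2]; simp
  rw [psi_inU] at h3
  exact congrArg LL.u h3

lemma del_t (ψ : MulAut LL) : ∃ k : ℤ, del ψ Dh.t = ⟨1, k⟩ := by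
  rcases Int.units_eq_one_or (del ψ Dh.t).e with h | h
  · exact ⟨_, Dh.ext h rfl⟩
  · exfalso
    have h1 : del ψ (Dh.t * Dh.t) = 1 := by
      rw [map_mul]
      ext <;> simp [h]
    have h2 := del_inj ψ h1
    have h3 := congrArg Dh.k h2
    simp at h3

lemma del_r (ψ : MulAut LL) : ∃ k : ℤ, del ψ Dh.r = ⟨-1, k⟩ := by
  rcases Int.units_eq_one_or (del ψ Dh.r).e with h | h
  · exfalso
    have h1 : del ψ (Dh.r * Dh.r) = 1 := by rw [Dh.r_mul_r, map_one]
    have h2 := congrArg Dh.k h1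
    rw [map_mul] at h2
    simp only [Dh.mul_k, h, Units.val_one, one_mul, Dh.one_k] at h2
    have h3 : del ψ Dh.r = 1 := Dh.ext h (by simp; omega)
    have h4 := congrArg Dh.e (del_inj ψ h3)
    simp at h4
  · exact ⟨_, Dh.ext h rfl⟩

lemma del_t_pm (ψ : MulAut LL) : del ψ Dh.t = ⟨1, 1⟩ ∨ del ψ Dh.t = ⟨1, -1⟩ := by
  obtain ⟨k1, h1⟩ := del_t ψ
  obtain ⟨k2, h2⟩ := del_r ψ
  obtain ⟨d, hd⟩ := del_surj ψ Dh.t
  have hz : ∀ n : ℤ, del ψ (Dh.t ^ n) = ⟨1, n * k1⟩ := by
    intro n
    rw [map_zpow, h1]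
    have h3 : (⟨1, k1⟩ : Dh) = Dh.t ^ k1 := (Dh.t_zpow k1).symm
    rw [h3, ← zpow_mul, Dh.t_zpow, mul_comm]
  rcases Dh.eq_zpow_or d with h | h
  · rw [h, hz] at hd
    have h4 : d.k * k1 = 1 := congrArg Dh.k hd
    have h5 : IsUnit k1 := IsUnit.of_mul_eq_one_right _ h4
    rcases Int.isUnit_iff.mp h5 with h6 | h6
    · left; rw [h1, h6]
    · right; rw [h1, h6]
  · exfalso
    rw [h, map_mul, hz, h2] at hd
    have h4 := congrArg Dh.e hd
    simp at h4

/-- negation on the base -/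
noncomputable def neg : MulAut LL where
  toFun x := ⟨-x.u, x.d⟩
  invFun x := ⟨-x.u, x.d⟩
  left_inv x := by refine LL.ext ?_ ?_ <;> simp
  right_inv x := by refine LL.ext ?_ ?_ <;> simp
  map_mul' x y := by
    refine LL.ext ?_ ?_
    · simp only [mul_u, map_neg]; abel
    · simp


lemma single_sum (u : ℤ →₀ ℤ) (ψ : MulAut LL) (h : del ψ Dh.t = Dh.t) (y : ℤ) :
    Psi ψ u y = u.sum (fun x c => c * Psi ψ (Finsupp.single 0 1) (y - x)) := by
  have key : ∀ x c : ℤ, Psi ψ (Finsupp.single x c) y =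
      c * Psi ψ (Finsupp.single 0 1) (y - x) := by
    intro x c
    have e1 : (Finsupp.single x c : ℤ →₀ ℤ) = c • act (Dh.t ^ x) (Finsupp.single 0 1) := by
      rw [act_single, Dh.t_zpow, Dh.smul_def]
      simp
    rw [e1, map_zsmul, Psi_act, map_zpow, h]
    rw [Finsupp.smul_apply, smul_eq_mul, act_apply']
    congr 2
    rw [Dh.t_zpow, Dh.smul_def]
    simp
    ring
  induction u using Finsupp.induction_linear with
  | zero => simp
  | add f g hf hg =>
    rw [map_add, Finsupp.add_apply, hf, hg, Finsupp.sum_add_index']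
    · intro a; simp
    · intro a b c; ring
  | single x c => rw [key, Finsupp.sum_single_index]; simp

/-- a unit for convolution is plus or minus a monomial -/
lemma conv_unit (P u : ℤ →₀ ℤ)
    (h : ∀ y : ℤ, u.sum (fun x c => c * P (y - x)) = (Finsupp.single 0 1 : ℤ →₀ ℤ) y) :
    ∃ a : ℤ, P = Finsupp.single a 1 ∨ P = Finsupp.single a (-1) := by
  have hu0 : u ≠ 0 := by
    rintro rfl
    have := h 0
    simp at this
  have hP0 : P ≠ 0 := by
    rintro rfl
    have := h 0
    simp at this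
  have hun : u.support.Nonempty := Finsupp.support_nonempty_iff.mpr hu0
  have hPn : P.support.Nonempty := Finsupp.support_nonempty_iff.mpr hP0
  set a := P.support.min' hPn with ha
  set b := P.support.max' hPn with hb
  set c := u.support.min' hun with hc
  set d := u.support.max' hun with hd
  have haP : P a ≠ 0 := Finsupp.mem_support_iff.mp (Finset.min'_mem _ _)
  have hbP : P b ≠ 0 := Finsupp.mem_support_iff.mp (Finset.max'_mem _ _)
  have hcu : u c ≠ 0 := Finsupp.mem_support_iff.mp (Finset.min'_mem _ _)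
  have hdu : u d ≠ 0 := Finsupp.mem_support_iff.mp (Finset.max'_mem _ _)
  have h1 : u.sum (fun x e => e * P (a + c - x)) = u c * P a := by
    rw [Finsupp.sum, Finset.sum_eq_single c]
    · congr 2; ring
    · intro x hx hxc
      have h2 : c ≤ x := Finset.min'_le _ _ hx
      have h3 : a + c - x < a := by omega
      have h4 : P (a + c - x) = 0 := by
        by_contra h5
        have := Finset.min'_le _ _ (Finsupp.mem_support_iff.mpr h5)
        omega
      rw [h4, mul_zero]
    · intro h2; exact absurd (Finsupp.mem_support_iff.mpr hcu) h2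
  have h2 : u.sum (fun x e => e * P (b + d - x)) = u d * P b := by
    rw [Finsupp.sum, Finset.sum_eq_single d]
    · congr 2; ring
    · intro x hx hxc
      have h2 : x ≤ d := Finset.le_max' _ _ hx
      have h3 : b < b + d - x := by omega
      have h4 : P (b + d - x) = 0 := by
        by_contra h5
        have := Finset.le_max' _ _ (Finsupp.mem_support_iff.mpr h5)
        omega
      rw [h4, mul_zero]
    · intro h2; exact absurd (Finsupp.mem_support_iff.mpr hdu) h2
  rw [h] at h1 h2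
  have h3 : a + c = 0 := by
    by_contra h4
    rw [Finsupp.single_apply, if_neg (fun h => h4 h.symm)] at h1
    exact mul_ne_zero hcu haP h1.symm
  have h4 : b + d = 0 := by
    by_contra h4
    rw [Finsupp.single_apply, if_neg (fun h => h4 h.symm)] at h2
    exact mul_ne_zero hdu hbP h2.symm
  have h5 : a ≤ b := Finset.min'_le _ _ (Finset.max'_mem _ _)
  have h6 : c ≤ d := Finset.min'_le _ _ (Finset.max'_mem _ _)
  have h7 : a = b := by omega
  rw [h3, Finsupp.single_apply, if_pos rfl] at h1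
  have hPa : P = Finsupp.single a (P a) := by
    ext x
    rw [Finsupp.single_apply]
    split_ifs with hx
    · rw [hx]
    · by_contra h8
      have h9 := Finsupp.mem_support_iff.mpr h8
      have h10 := Finset.min'_le _ _ h9
      have h11 := Finset.le_max' _ _ h9
      omega
  have h12 : IsUnit (P a) := IsUnit.of_mul_eq_one_right _ h1.symm
  refine ⟨a, ?_⟩
  rcases Int.isUnit_iff.mp h12 with h13 | h13
  · left; rw [h13] at hPa; exact hPa
  · right; rw [h13] at hPa; exact hPa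

lemma Psi_unit (ψ : MulAut LL) (h : del ψ Dh.t = Dh.t) : ∃ a : ℤ,
    Psi ψ (Finsupp.single 0 1) = Finsupp.single a 1 ∨
      Psi ψ (Finsupp.single 0 1) = Finsupp.single a (-1) := by
  obtain ⟨u, hu⟩ := Psi_surj ψ (Finsupp.single 0 1)
  apply conv_unit _ u
  intro y
  rw [← single_sum u ψ h, hu]

/-- every finitely supported function is a sum of a `t*r`-fixed and an `r`-fixed one -/
lemma decomp (z : ℤ →₀ ℤ) : ∃ f g : ℤ →₀ ℤ, act (Dh.t * Dh.r) f = f ∧ act Dh.r g = g ∧
    z = f + g := by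
  let M1 : AddSubgroup (ℤ →₀ ℤ) :=
    { carrier := {f | act (Dh.t * Dh.r) f = f}
      add_mem' := by intro a b ha hb; simp only [Set.mem_ofPred_eq] at *; rw [map_add, ha, hb]
      zero_mem' := by simp
      neg_mem' := by intro a ha; simp only [Set.mem_ofPred_eq] at *; rw [map_neg, ha] }
  let M2 : AddSubgroup (ℤ →₀ ℤ) :=
    { carrier := {f | act Dh.r f = f}
      add_mem' := by intro a b ha hb; simp only [Set.mem_ofPred_eq] at *; rw [map_add, ha, hb]
      zero_mem' := by simp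
      neg_mem' := by intro a ha; simp only [Set.mem_ofPred_eq] at *; rw [map_neg, ha] }
  have hr : ∀ x c : ℤ, act Dh.r (Finsupp.single x c) = Finsupp.single (-x) c := by
    intro x c; rw [act_single, Dh.smul_def]; simp
  have htr : ∀ x c : ℤ, act (Dh.t * Dh.r) (Finsupp.single x c) = Finsupp.single (1 - x) c := by
    intro x c; rw [act_single, Dh.smul_def]
    congr 1
    simp
    ring
  have key : ∀ z : ℤ →₀ ℤ, z ∈ M1 ⊔ M2 := by
    have h0 : ∀ c, Finsupp.single 0 c ∈ M1 ⊔ M2 := by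
      intro c
      apply AddSubgroup.mem_sup_right
      change act Dh.r _ = _
      rw [hr]; simp
    have h1 : ∀ x c : ℤ, Finsupp.single x c ∈ M1 ⊔ M2 → Finsupp.single (-x) c ∈ M1 ⊔ M2 := by
      intro x c h
      have h2 : Finsupp.single x c + Finsupp.single (-x) c ∈ M1 ⊔ M2 := by
        apply AddSubgroup.mem_sup_right
        change act Dh.r _ = _
        rw [map_add, hr, hr, neg_neg, add_comm]
      exact (AddSubgroup.add_mem_cancel_left _ h).mp h2
    have h3 : ∀ x c : ℤ, Finsupp.single x c ∈ M1 ⊔ M2 → Finsupp.single (1-x) c ∈ M1 ⊔ M2 := by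
      intro x c h
      have h2 : Finsupp.single x c + Finsupp.single (1-x) c ∈ M1 ⊔ M2 := by
        apply AddSubgroup.mem_sup_left
        change act (Dh.t * Dh.r) _ = _
        rw [map_add, htr, htr, sub_sub_cancel, add_comm]
      exact (AddSubgroup.add_mem_cancel_left _ h).mp h2
    have h4 : ∀ x c : ℤ, Finsupp.single x c ∈ M1 ⊔ M2 := by
      intro x c
      induction x using Int.induction_on with
      | zero => exact h0 c
      | succ i hi =>
        have := h3 _ c (h1 _ c hi)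
        rwa [sub_neg_eq_add, add_comm] at this
      | pred i hi =>
        have := h1 _ c (h3 _ c hi)
        rwa [neg_sub] at this
    intro z
    induction z using Finsupp.induction_linear with
    | zero => exact AddSubgroup.zero_mem _
    | add f g hf hg => exact AddSubgroup.add_mem _ hf hg
    | single x c => exact h4 x c
  obtain ⟨f, hf, g, hg, h⟩ := AddSubgroup.mem_sup.mp (key z)
  exact ⟨f, g, hf, hg, h.symm⟩

/-- splitting an anti-invariant function -/
lemma split_anti (d : Dh) (h : ∀ x : ℤ, (0 < x ↔ ¬ 0 < d • x) ∨ d • x = x) (hd : d * d = 1)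
    (u : ℤ →₀ ℤ) (hu : u + act d u = 0) : ∃ w, u + w - act d w = 0 := by
  have hdi : d⁻¹ = d := inv_eq_of_mul_eq_one_left hd
  refine ⟨-(u.filter (fun x => 0 < x)), ?_⟩
  ext x
  have h1 := DFunLike.congr_fun hu x
  simp only [Finsupp.coe_add, Finsupp.coe_sub, Finsupp.coe_neg, Pi.add_apply, Pi.sub_apply,
    Pi.neg_apply, map_neg, act_apply', hdi, Finsupp.coe_zero, Pi.zero_apply] at h1 ⊢
  rcases h x with h2 | h2
  · by_cases h3 : 0 < x
    · rw [Finsupp.filter_apply_pos _ _ h3, Finsupp.filter_apply_neg _ _ (h2.mp h3)]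
      omega
    · have h4 : 0 < d • x := by
        by_contra h5; exact h3 (h2.mpr h5)
      rw [Finsupp.filter_apply_neg _ _ h3, Finsupp.filter_apply_pos _ _ h4]
      omega
  · rw [h2] at h1 ⊢
    omega


lemma hom_ext' {ψ φ : MulAut LL} (h1 : ψ (inU (Finsupp.single 0 1)) = φ (inU (Finsupp.single 0 1)))
    (h2 : ψ (inD Dh.t) = φ (inD Dh.t)) (h3 : ψ (inD Dh.r) = φ (inD Dh.r)) : ψ = φ := by
  have h := fun a => mem_of_gens (K := (ψ : LL →* LL).eqLocus (φ : LL →* LL)) h1 h2 h3 a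
  ext1 a
  exact h a

lemma conj_apply (g x : LL) : MulAut.conj g x = g * x * g⁻¹ := rfl

lemma del_conj_mul (g : LL) (ψ : MulAut LL) (d : Dh) :
    del (MulAut.conj g * ψ) d = g.d * del ψ d * g.d⁻¹ := by
  change (MulAut.conj g (ψ (inD d))).d = _
  rw [conj_apply]
  rfl

/-- step 1: normalise `del ψ t` -/
lemma norm1 (ψ : MulAut LL) : ∃ g : LL, del (MulAut.conj g * ψ) Dh.t = Dh.t := by
  rcases del_t_pm ψ with h | h
  · exact ⟨1, by rw [del_conj_mul, h]; ext <;> simp⟩
  · exact ⟨inD Dh.r, by rw [del_conj_mul, h]; ext <;> simp⟩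

/-- step 2: normalise `del ψ` -/
lemma norm2 (ψ : MulAut LL) (h : del ψ Dh.t = Dh.t) : ∃ g : LL,
    del (MulAut.conj g * ψ) Dh.t = Dh.t ∧ (del (MulAut.conj g * ψ) Dh.r = ⟨-1, 0⟩ ∨
      del (MulAut.conj g * ψ) Dh.r = ⟨-1, 1⟩) := by
  obtain ⟨k, hk⟩ := del_r ψ
  refine ⟨inD ⟨1, -(k / 2)⟩, ?_, ?_⟩
  · rw [del_conj_mul, h]; ext <;> simp
  · rw [del_conj_mul, hk]
    have h2 : k = 2 * (k / 2) + k % 2 := (Int.mul_ediv_add_emod k 2).symm
    rcases Int.emod_two_eq_zero_or_one k with h3 | h3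
    · left; ext
      · simp
      · simp; omega
    · right; ext
      · simp
      · simp; omega

lemma norm3 (ψ : MulAut LL) (h : del ψ Dh.t = Dh.t) (hr : del ψ Dh.r = ⟨-1, 0⟩ ∨
    del ψ Dh.r = ⟨-1, 1⟩) : del ψ Dh.r = Dh.r ∧
      (Psi ψ (Finsupp.single 0 1) = Finsupp.single 0 1 ∨
        Psi ψ (Finsupp.single 0 1) = Finsupp.single 0 (-1)) := by
  obtain ⟨a, ha⟩ := Psi_unit ψ h
  have h1 : act (del ψ Dh.r) (Psi ψ (Finsupp.single 0 1)) = Psi ψ (Finsupp.single 0 1) := by
    rw [← Psi_act, act_single, Dh.smul_def]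
    simp
  have h2 : (del ψ Dh.r) • a = a := by
    rcases ha with ha | ha
    · rw [ha, act_single] at h1
      exact Finsupp.single_left_injective (one_ne_zero) h1
    · rw [ha, act_single] at h1
      exact Finsupp.single_left_injective (by norm_num) h1
  rcases hr with hr | hr
  · rw [hr, Dh.smul_def] at h2
    simp at h2
    have h3 : a = 0 := by omega
    subst h3
    exact ⟨hr, ha⟩
  · exfalso
    rw [hr, Dh.smul_def] at h2
    simp at h2
    omega

lemma norm4 (ψ : MulAut LL) (h : del ψ Dh.t = Dh.t) (hr : del ψ Dh.r = Dh.r) :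
    ∃ w, (MulAut.conj (inU w) * ψ) (inD Dh.t) = inD Dh.t ∧
      (MulAut.conj (inU w) * ψ) (inD Dh.r) = inD Dh.r := by
  set ur := (ψ (inD Dh.r)).u with hur
  set us := (ψ (inD (Dh.t * Dh.r))).u with hus
  have e1 : ψ (inD Dh.r) = ⟨ur, Dh.r⟩ := LL.ext rfl hr
  have e2 : ψ (inD (Dh.t * Dh.r)) = ⟨us, Dh.t * Dh.r⟩ := by
    refine LL.ext rfl ?_
    change del ψ _ = _
    rw [map_mul, h, hr]
  have hss : (Dh.t * Dh.r) * (Dh.t * Dh.r) = 1 := by ext <;> simp
  have f1 : ur + act Dh.r ur = 0 := by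
    have h1 := congrArg ψ (inD_mul Dh.r Dh.r)
    rw [Dh.r_mul_r, inD_one, map_one, map_mul, e1] at h1
    exact (congrArg LL.u h1).symm
  have f2 : us + act (Dh.t * Dh.r) us = 0 := by
    have h1 := congrArg ψ (inD_mul (Dh.t * Dh.r) (Dh.t * Dh.r))
    rw [hss, inD_one, map_one, map_mul, e2] at h1
    exact (congrArg LL.u h1).symm
  obtain ⟨w1, hw1⟩ := split_anti Dh.r (by
    intro x
    rw [Dh.smul_def]
    simp
    omega) Dh.r_mul_r ur f1
  obtain ⟨w2, hw2⟩ := split_anti (Dh.t * Dh.r) (by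
    intro x
    rw [Dh.smul_def]
    simp) hss us f2
  obtain ⟨f, g, hf, hg, hfg⟩ := decomp (w2 - w1)
  -- `w = w1 + g = w2 - f`
  have hwa : ur + (w1 + g) - act Dh.r (w1 + g) = 0 := by
    rw [map_add, hg, ← hw1]; abel
  have hwb : us + (w1 + g) - act (Dh.t * Dh.r) (w1 + g) = 0 := by
    have h3 : w1 + g = w2 - f := by rw [eq_sub_iff_add_eq]; rw [sub_eq_iff_eq_add] at hfg; rw [hfg]; abel
    rw [h3, map_sub, hf, ← hw2]; abel
  have g1 : (MulAut.conj (inU (w1 + g)) * ψ) (inD Dh.r) = inD Dh.r := by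
    change MulAut.conj (inU (w1+g)) (ψ (inD Dh.r)) = _
    rw [conj_apply, e1]
    refine LL.ext ?_ ?_
    · simp only [mul_u, inU_u, inU_d, act_one, mul_d, one_mul, inv_u, inv_one, map_neg, inD_u]
      rw [← hwa]; abel
    · simp
  have g2 : (MulAut.conj (inU (w1 + g)) * ψ) (inD (Dh.t * Dh.r)) = inD (Dh.t * Dh.r) := by
    change MulAut.conj (inU (w1+g)) (ψ (inD (Dh.t * Dh.r))) = _
    rw [conj_apply, e2]
    refine LL.ext ?_ ?_
    · simp only [mul_u, inU_u, inU_d, act_one, mul_d, one_mul, inv_u, inv_one, map_neg, inD_u]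
      rw [← hwb]; abel
    · simp
  refine ⟨w1 + g, ?_, g1⟩
  have e3 : Dh.t = (Dh.t * Dh.r) * Dh.r := by rw [mul_assoc, Dh.r_mul_r, mul_one]
  have g3 : (MulAut.conj (inU (w1 + g)) * ψ) (inD ((Dh.t * Dh.r) * Dh.r)) =
      inD ((Dh.t * Dh.r) * Dh.r) := by
    rw [inD_mul, map_mul, g1, g2]
  rwa [← e3] at g3

theorem outFin : OutFin LL := by
  refine ⟨{1, neg}, by simp, ?_⟩
  intro θ
  obtain ⟨g1, h1⟩ := norm1 θ
  obtain ⟨g2, h2, h2'⟩ := norm2 _ h1
  obtain ⟨h3, h3'⟩ := norm3 _ h2 h2'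
  obtain ⟨w, h4, h4'⟩ := norm4 _ h2 h3
  set ψ := MulAut.conj (inU w) * (MulAut.conj g2 * (MulAut.conj g1 * θ)) with hψ
  have hU : ψ (inU (Finsupp.single 0 1)) =
      inU (Psi (MulAut.conj g2 * (MulAut.conj g1 * θ)) (Finsupp.single 0 1)) := by
    rw [hψ]
    change MulAut.conj (inU w) ((MulAut.conj g2 * (MulAut.conj g1 * θ)) (inU (Finsupp.single 0 1)))
      = _
    rw [psi_inU, conj_apply, ← inU_add, ← inU_neg, ← inU_add]
    congr 1
    abel
  have hθ : θ = MulAut.conj ((inU w * g2 * g1)⁻¹) * ψ := by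
    rw [hψ, map_inv, map_mul, map_mul]
    group
  rcases h3' with h5 | h5
  · refine ⟨(inU w * g2 * g1)⁻¹, 1, by simp, ?_⟩
    · have : ψ = 1 := by
        apply hom_ext'
        · rw [hU, h5]; rfl
        · exact h4
        · exact h4'
      rw [this] at hθ
      exact hθ
  · refine ⟨(inU w * g2 * g1)⁻¹, neg, by simp, ?_⟩
    · have : ψ = neg := by
        apply hom_ext'
        · rw [hU, h5]
          refine LL.ext ?_ ?_
          · change Finsupp.single 0 (-1) = -(Finsupp.single 0 1 : ℤ →₀ ℤ)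
            rw [Finsupp.single_neg]
          · rfl
        · rw [h4]
          refine LL.ext ?_ ?_
          · change (0 : ℤ →₀ ℤ) = -0
            simp
          · rfl
        · rw [h4']
          refine LL.ext ?_ ?_
          · change (0 : ℤ →₀ ℤ) = -0
            simp
          · rfl
      rw [this] at hθ
      exact hθ

end LL

end Pool.Agent.Helper73.CG
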