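import Pool.Agent.Helper73.CG.Wreath

set_option autoImplicit false

namespace Pool.Agent.Helper73.CG

/-- In a nonabelian simple group every nontrivial element fails to commute with something. -/
lemma exists_not_comm {B : Type*} [Group B] [IsSimpleGroup B] (hB : ∃ b c : B, b * c ≠ c * b)
    {b : B} (hb : b ≠ 1) : ∃ c : B, b * c * b⁻¹ * c⁻¹ ≠ 1 := by
  by_contra hcon
  push Not at hcon
  have hcen : b ∈ Subgroup.center B := by
    rw [Subgroup.mem_center_iff]
    intro g
    have := hcon g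
    rw [mul_inv_eq_one, mul_inv_eq_iff_eq_mul] at this
    exact this.symm
  rcases (inferInstance : (Subgroup.center B).Normal).eq_bot_or_eq_top with h | h
  · rw [h, Subgroup.mem_bot] at hcen
    exact hb hcen
  · obtain ⟨x, y, hxy⟩ := hB
    have : x ∈ Subgroup.center B := by rw [h]; trivial
    rw [Subgroup.mem_center_iff] at this
    exact hxy (this y).symm

namespace Wr

variable {X B A : Type*} [Group B] [Group A] [MulAction A X]

section normal

variable [IsSimpleGroup B] (hB : ∃ b c : B, b * c ≠ c * b)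
  (htr : ∀ x y : X, ∃ a : A, a • x = y) (hfa : ∀ a : A, (∀ x : X, a • x = x) → a = 1)

include hB

/-- A subgroup normalised by the base group elements at `x` containing a nontrivial such element
contains all of them. -/
lemma bs_mem_of_mem {N : Subgroup (Wr X B A)} {x : X}
    (hN : ∀ n ∈ N, ∀ c : B, bs x c * n * (bs x c)⁻¹ ∈ N) {d : B} (hd : d ≠ 1)
    (hdN : bs x d ∈ N) (b : B) : bs x b ∈ N := by
  have hnor : (N.comap (bs x : B →* Wr X B A)).Normal := by
    refine ⟨fun n hn g => ?_⟩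
    rw [Subgroup.mem_comap] at *
    rw [map_mul, map_mul, map_inv]
    exact hN _ hn g
  rcases hnor.eq_bot_or_eq_top with h | h
  · exfalso
    have : d ∈ N.comap (bs x : B →* Wr X B A) := hdN
    rw [h, Subgroup.mem_bot] at this
    exact hd this
  · have : b ∈ N.comap (bs x : B →* Wr X B A) := by rw [h]; trivial
    exact this

/-- Step 1: a normal subgroup with a nontrivial element of the base. -/
lemma exists_bs_mem {N : Subgroup (Wr X B A)} [hN : N.Normal] {g : Wr X B A} (hg : g ∈ N)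
    (ha : g.a = 1) (hg1 : g ≠ 1) : ∃ x : X, ∃ d : B, d ≠ 1 ∧ bs x d ∈ N := by
  have : ∃ x, g.f x ≠ 1 := by
    by_contra hcon
    push Not at hcon
    exact hg1 (ext' hcon ha)
  obtain ⟨x, hx⟩ := this
  obtain ⟨c, hc⟩ := exists_not_comm hB hx
  refine ⟨x, _, hc, ?_⟩
  rw [← comm_bs ha]
  rw [mul_assoc, mul_assoc]
  refine N.mul_mem hg ?_
  rw [← mul_assoc]
  exact hN.conj_mem _ (N.inv_mem hg) _

include htr hfa

/-- Every nontrivial normal subgroup of the wreath product contains the base group. -/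
lemma normal_contains {N : Subgroup (Wr X B A)} (hN : N.Normal) (hne : N ≠ ⊥) (x : X) (b : B) :
    bs x b ∈ N := by
  obtain ⟨g, hg, hg1⟩ := (Subgroup.ne_bot_iff_exists_ne_one.mp hne |> fun ⟨g, hg⟩ =>
    (⟨g.1, g.2, fun h => hg (Subtype.ext h)⟩ : ∃ g : Wr X B A, g ∈ N ∧ g ≠ 1))
  have step : ∃ y : X, ∃ d : B, d ≠ 1 ∧ bs y d ∈ N := by
    by_cases ha : g.a = 1
    · exact exists_bs_mem hB hg ha hg1
    · have : ∃ y : X, g.a • y ≠ y := by
        by_contra hcon
        push Not at hcon
        exact ha (hfa _ hcon)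
      obtain ⟨y, hy⟩ := this
      obtain ⟨b, c, hbc⟩ := hB
      have hb : b ≠ 1 := by
        rintro rfl
        simp at hbc
      have hmem : g * bs y b * g⁻¹ * (bs y b)⁻¹ ∈ N := by
        rw [mul_assoc, mul_assoc]
        refine N.mul_mem hg ?_
        rw [← mul_assoc]
        exact hN.conj_mem _ (N.inv_mem hg) _
      refine exists_bs_mem ⟨b, c, hbc⟩ hmem (by simp) ?_
      intro hcon
      have := congrArg (fun l => Wr.f l y) hcon
      rw [conj_bs] at this
      simp only [mul_f, one_f, bs_f_ne (Ne.symm hy), bs_a, inv_f, one_smul, bs_f_same, inv_one,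
        one_mul, inv_eq_one] at this
      exact hb this
  obtain ⟨y, d, hd, hdN⟩ := step
  have hy : ∀ c, bs y c ∈ N := fun c =>
    bs_mem_of_mem hB (fun n hn c => hN.conj_mem _ hn _) hd hdN c
  obtain ⟨a, rfl⟩ := htr y x
  have := hN.conj_mem _ (hy b) (tp a)
  rw [conj_bs] at this
  simpa using this

end normal

section aut

/-- Equality of two nontrivial point-supported elements. -/
lemma eq_of_bs_eq {x y : X} {b c : B} (h : (bs x b : Wr X B A) = bs y c) (hb : b ≠ 1) : x = y := by
  by_contra hne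
  have := congrArg (fun l => Wr.f l x) h
  simp only [bs_f_same] at this
  rw [bs_f_ne hne] at this
  exact hb this

variable [IsSimpleGroup B] (hB : ∃ b c : B, b * c ≠ c * b)
  (htr : ∀ x y : X, ∃ a : A, a • x = y) (hfa : ∀ a : A, (∀ x : X, a • x = x) → a = 1)

include hB htr hfa

/-- automorphisms preserve the base group -/
lemma aut_base [Nonempty X] (θ : MulAut (Wr X B A)) {g : Wr X B A} (hg : g.a = 1) :
    (θ g).a = 1 := by
  obtain ⟨x⟩ := (inferInstance : Nonempty X)
  obtain ⟨b, hb⟩ := exists_ne (1 : B)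
  let N : Subgroup (Wr X B A) := (topHom (X := X) (B := B) (A := A)).ker.comap θ.toMonoidHom
  have hN : N.Normal := inferInstance
  have hne : N ≠ ⊥ := by
    intro hbot
    have hmem : θ.symm (bs x b) ∈ N := by
      change (θ (θ.symm (bs x b))).a = 1
      rw [MulEquiv.apply_symm_apply]
      rfl
    rw [hbot, Subgroup.mem_bot] at hmem
    have : (bs x b : Wr X B A) = 1 := by
      have h2 := congrArg θ hmem
      rwa [MulEquiv.apply_symm_apply, map_one] at h2
    rw [← map_one (bs x : B →* Wr X B A)] at this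
    exact hb (bs_injective x this)
  exact base_le (K := N) (fun y c => normal_contains hB htr hfa hN hne y c) hg

lemma aut_top_eq [Nonempty X] (θ : MulAut (Wr X B A)) {g h : Wr X B A} (hgh : g.a = h.a) :
    (θ g).a = (θ h).a := by
  have h1 : (g * h⁻¹).a = 1 := by simp [hgh]
  have h2 := aut_base hB htr hfa θ h1
  rw [map_mul, map_inv, mul_a, inv_a, mul_inv_eq_one] at h2
  exact h2

/-- automorphisms permute the factors -/
lemma aut_bs [Nonempty X] (θ : MulAut (Wr X B A)) (x : X) :
    ∃ y : X, ∀ b : B, ∃ d : B, θ (bs x b) = bs y d := by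
  obtain ⟨b0, hb0⟩ := exists_ne (1 : B)
  have hga : (θ (bs x b0)).a = 1 := aut_base hB htr hfa θ (bs_a x b0)
  have hg1 : θ (bs x b0) ≠ 1 := by
    intro h
    rw [← map_one θ] at h
    have := θ.injective h
    rw [← map_one (bs x : B →* Wr X B A)] at this
    exact hb0 (bs_injective x this)
  have : ∃ y, (θ (bs x b0)).f y ≠ 1 := by
    by_contra hcon
    push Not at hcon
    exact hg1 (ext' hcon hga)
  obtain ⟨y, hy⟩ := this
  obtain ⟨c, hc⟩ := exists_not_comm hB hy
  refine ⟨y, ?_⟩
  let K : Subgroup (Wr X B A) := (bs y : B →* Wr X B A).range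
  let N : Subgroup (Wr X B A) := K.comap θ.toMonoidHom
  have hN : ∀ n ∈ N, ∀ c : B, bs x c * n * (bs x c)⁻¹ ∈ N := by
    rintro n ⟨d, hd⟩ c
    change θ (bs x c * n * (bs x c)⁻¹) ∈ K
    rw [map_mul, map_mul, map_inv]
    have hd' : bs y d = θ n := hd
    rw [← hd', conj_bs, aut_base hB htr hfa θ (bs_a x c), one_smul]
    exact ⟨_, rfl⟩
  -- the nontrivial element
  have hha : (θ.symm (bs y c)).a = 1 := aut_base hB htr hfa θ.symm (bs_a y c)
  set h := θ.symm (bs y c) with hh
  have hθh : θ h = bs y c := by rw [hh, MulEquiv.apply_symm_apply]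
  have key : θ (bs x (h.f x * b0 * (h.f x)⁻¹ * b0⁻¹)⁻¹) =
      bs y ((θ (bs x b0)).f y * c * ((θ (bs x b0)).f y)⁻¹ * c⁻¹) := by
    rw [← comm_bs hga, ← hθh, map_inv, ← comm_bs hha]
    simp only [map_mul, map_inv]
    group
  have hne : (h.f x * b0 * (h.f x)⁻¹ * b0⁻¹)⁻¹ ≠ 1 := by
    intro hcon
    rw [hcon, map_one, map_one] at key
    rw [← map_one (bs y : B →* Wr X B A)] at key
    exact hc (bs_injective y key).symm
  intro b
  obtain ⟨d, hd⟩ := bs_mem_of_mem hB (N := N) (x := x) hN hne ⟨_, key.symm⟩ b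
  exact ⟨d, hd.symm⟩

/-- the permutation and the automorphisms of the factors -/
lemma aut_data [Nonempty X] [Finite B] (θ : MulAut (Wr X B A)) :
    ∃ π : X → X, ∃ α : X → MulAut B, ∀ x b, θ (bs x b) = bs (π x) (α x b) := by
  have h := fun x => aut_bs hB htr hfa θ x
  choose π hπ using h
  choose d hd using hπ
  have hmul : ∀ x b c, d x (b * c) = d x b * d x c := by
    intro x b c
    apply bs_injective (A := A) (π x)
    rw [← hd, map_mul, map_mul, map_mul, hd, hd]
  have hinj : ∀ x, Function.Injective (d x) := by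
    intro x b c hbc
    have h1 : θ (bs x b) = θ (bs x c) := by rw [hd, hd, hbc]
    exact bs_injective x (θ.injective h1)
  refine ⟨π, fun x => MulEquiv.ofBijective (MonoidHom.mk' (d x) (hmul x))
    ⟨hinj x, Finite.surjective_of_injective (hinj x)⟩, ?_⟩
  intro x b
  exact hd x b

end aut

/-- The automorphism acting by `α` on every factor. -/
def diagAut (α : MulAut B) : MulAut (Wr X B A) where
  toFun g := { f := fun x => α (g.f x), a := g.a, fin := by simpa using g.fin }
  invFun g := { f := fun x => α.symm (g.f x), a := g.a, fin := by simpa using g.fin }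
  left_inv g := by apply ext' <;> simp
  right_inv g := by apply ext' <;> simp
  map_mul' g h := by apply ext' <;> simp

@[simp] lemma diagAut_tp (α : MulAut B) (a : A) : diagAut α (tp a : Wr X B A) = tp a := by
  apply ext' <;> simp [diagAut]

@[simp] lemma diagAut_bs (α : MulAut B) (x : X) (b : B) :
    diagAut α (bs x b : Wr X B A) = bs x (α b) := by
  classical
  apply ext'
  · intro y
    simp only [diagAut, MulEquiv.coe_mk, Equiv.coe_fn_mk, bs_f]
    split_ifs <;> simp
  · rfl

section main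

variable [IsSimpleGroup B] (hB : ∃ b c : B, b * c ≠ c * b)
  (htr : ∀ x y : X, ∃ a : A, a • x = y) (hfa : ∀ a : A, (∀ x : X, a • x = x) → a = 1)

include hB

lemma eq_one_of_central {γ : B} (h : ∀ b, γ * b * γ⁻¹ = b) : γ = 1 := by
  by_contra hne
  obtain ⟨c, hc⟩ := exists_not_comm hB hne
  exact hc (by rw [h c, mul_inv_cancel])

include htr hfa

/-- The induced automorphism of the top group. -/
noncomputable def topAut [Nonempty X] (θ : MulAut (Wr X B A)) : MulAut A where
  toFun a := (θ (tp a)).a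
  invFun a := (θ.symm (tp a)).a
  left_inv a := by
    have h := aut_top_eq hB htr hfa θ.symm (g := tp ((θ (tp a)).a)) (h := θ (tp a)) rfl
    change (θ.symm (tp ((θ (tp a)).a))).a = a
    refine h.trans ?_
    exact congrArg Wr.a (MulEquiv.symm_apply_apply θ (tp a))
  right_inv a := by
    have h := aut_top_eq hB htr hfa θ (g := tp ((θ.symm (tp a)).a)) (h := θ.symm (tp a)) rfl
    change (θ (tp ((θ.symm (tp a)).a))).a = a
    refine h.trans ?_
    exact congrArg Wr.a (MulEquiv.apply_symm_apply θ (tp a))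
  map_mul' a b := by simp

lemma topAut_apply [Nonempty X] (θ : MulAut (Wr X B A)) (a : A) :
    topAut hB htr hfa θ a = (θ (tp a)).a := rfl

lemma topAut_mul [Nonempty X] (θ η : MulAut (Wr X B A)) :
    topAut hB htr hfa (θ * η) = topAut hB htr hfa θ * topAut hB htr hfa η := by
  ext a
  rw [MulAut.mul_apply, topAut_apply, topAut_apply, topAut_apply, MulAut.mul_apply]
  exact aut_top_eq hB htr hfa θ rfl

lemma topAut_conj [Nonempty X] (g : Wr X B A) :
    topAut hB htr hfa (MulAut.conj g) = MulAut.conj g.a := by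
  ext a
  simp [topAut_apply]

/-- The automorphism acts on factors equivariantly. -/
lemma aut_equivariant [Nonempty X] (θ : MulAut (Wr X B A)) (π : X → X) (α : X → MulAut B)
    (h : ∀ x b, θ (bs x b) = bs (π x) (α x b)) (a : A) (x : X) :
    π (a • x) = topAut hB htr hfa θ a • π x ∧ ∀ b, α (a • x) b =
      (θ (tp a)).f (π (a • x)) * α x b * ((θ (tp a)).f (π (a • x)))⁻¹ := by
  have key : ∀ b, (bs (π (a • x)) (α (a • x) b) : Wr X B A) = bs (topAut hB htr hfa θ a • π x)
      ((θ (tp a)).f (topAut hB htr hfa θ a • π x) * α x b *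
        ((θ (tp a)).f (topAut hB htr hfa θ a • π x))⁻¹) := by
    intro b
    rw [← h, topAut_apply, ← conj_bs, ← h, ← map_inv, ← map_mul, ← map_mul, conj_bs]
    simp
  obtain ⟨b0, hb0⟩ := exists_ne (1 : B)
  have h1 : π (a • x) = topAut hB htr hfa θ a • π x := by
    refine eq_of_bs_eq (key b0) ?_
    rw [Ne, MulEquiv.map_eq_one_iff]
    exact hb0
  refine ⟨h1, fun b => ?_⟩
  have := key b
  rw [← h1] at this
  exact bs_injective _ this

/-- An automorphism that is trivial on the top and fixes one factor. -/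
lemma aut_eq_of_top_trivial [Finite B] [Infinite X]
    (hE : ∀ f : X → MulAut B, (∀ a : A, {x | f (a • x) ≠ f x}.Finite) → ∃ c, {x | f x ≠ c}.Finite)
    (θ : MulAut (Wr X B A)) (htop : topAut hB htr hfa θ = 1) (x0 : X)
    (h0 : ∀ b, ∃ d, θ (bs x0 b) = bs x0 d) :
    ∃ g : Wr X B A, ∃ c : MulAut B, θ = MulAut.conj g * diagAut c := by
  classical
  obtain ⟨π, α, hπα⟩ := aut_data hB htr hfa θ
  obtain ⟨b0, hb0⟩ := exists_ne (1 : B)
  have hπ0 : π x0 = x0 := by
    obtain ⟨d, hd⟩ := h0 b0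
    rw [hπα] at hd
    refine eq_of_bs_eq hd ?_
    rw [Ne, MulEquiv.map_eq_one_iff]
    exact hb0
  have hπ : ∀ x, π x = x := by
    intro x
    obtain ⟨a, rfl⟩ := htr x0 x
    rw [(aut_equivariant hB htr hfa θ π α hπα a x0).1, htop, hπ0]
    rfl
  have hα : ∀ a x b, α (a • x) b = (θ (tp a)).f (a • x) * α x b * ((θ (tp a)).f (a • x))⁻¹ := by
    intro a x b
    have := (aut_equivariant hB htr hfa θ π α hπα a x).2 b
    rwa [hπ] at this
  have hfin : ∀ a : A, {x | α (a • x) ≠ α x}.Finite := by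
    intro a
    have h1 : ((fun x : X => a • x) ⁻¹' {x | (θ (tp a)).f x ≠ 1}).Finite :=
      (θ (tp a)).fin.preimage (MulAction.injective a).injOn
    refine h1.subset ?_
    intro x hx
    simp only [Set.mem_preimage, Set.mem_ofPred_eq]
    intro hcon
    apply hx
    ext b
    rw [hα, hcon]
    simp
  obtain ⟨c, hc⟩ := hE α hfin
  have hγ : ∀ x, ∃ γ : B, (α x = c → γ = 1) ∧ ∀ b, α x b = γ * c b * γ⁻¹ := by
    intro x
    by_cases hx : α x = c
    · exact ⟨1, fun _ => rfl, fun b => by rw [hx]; simp⟩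
    · obtain ⟨x', hx'⟩ := hc.infinite_compl.nonempty
      have hx'' : α x' = c := by
        by_contra hcon
        exact hx' hcon
      obtain ⟨a, ha⟩ := htr x' x
      refine ⟨(θ (tp a)).f (a • x'), fun h => absurd h hx, fun b => ?_⟩
      rw [← hx'', ← ha]
      exact hα a x' b
  choose γ hγ1 hγ2 using hγ
  let g0 : Wr X B A := ⟨γ, 1, hc.subset (by
    intro x hx
    simp only [Set.mem_ofPred_eq] at *
    intro hcon
    exact hx (hγ1 x hcon))⟩
  refine ⟨g0, c, ?_⟩
  have hbs : ∀ x b, θ (bs x b) = (MulAut.conj g0 * diagAut c : MulAut (Wr X B A)) (bs x b) := by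
    intro x b
    rw [MulAut.mul_apply, diagAut_bs, MulAut.conj_apply, conj_bs, hπα, hπ, hγ2]
    simp [g0]
  -- the top group
  have htp : ∀ a, (MulAut.conj g0)⁻¹ (θ (tp a)) = tp a := by
    intro a
    have htopa : ((MulAut.conj g0)⁻¹ (θ (tp a))).a = a := by
      have h1 : (θ (tp a)).a = a := by
        rw [← topAut_apply hB htr hfa, htop]; rfl
      rw [← map_inv, MulAut.conj_apply]
      simp [g0, h1]
    apply ext'
    · intro y
      obtain ⟨x, rfl⟩ : ∃ x, y = a • x := ⟨a⁻¹ • y, by simp⟩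
      rw [tp_f]
      apply eq_one_of_central hB
      intro b
      obtain ⟨b, rfl⟩ := c.surjective b
      have h1 : ∀ z b, (MulAut.conj g0)⁻¹ (θ (bs z b)) = bs z (c b) := by
        intro z b
        rw [hbs, MulAut.mul_apply, ← MulAut.mul_apply, inv_mul_cancel, diagAut_bs]
        rfl
      have h2 : (MulAut.conj g0)⁻¹ (θ (tp a * bs x b * (tp a)⁻¹)) = bs (a • x) (c b) := by
        rw [conj_bs]
        simp [h1]
      rw [map_mul, map_mul, map_mul, map_mul, map_inv, map_inv, h1, conj_bs, htopa] at h2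
      exact bs_injective _ h2
    · rw [htopa]; rfl
  have : θ.toMonoidHom = (MulAut.conj g0 * diagAut c : MulAut (Wr X B A)).toMonoidHom := by
    apply hom_ext
    · exact hbs
    · intro a
      have := congrArg (MulAut.conj g0) (htp a)
      rw [← MulAut.mul_apply, mul_inv_cancel] at this
      change θ (tp a) = MulAut.conj g0 (diagAut c (tp a))
      rw [diagAut_tp, ← this]
      rfl
  ext1 g
  exact DFunLike.congr_fun this g

/-- fixing a factor is inherited by inverses -/
lemma fix_inv [Nonempty X] [Finite B] {θ : MulAut (Wr X B A)} {x0 : X}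
    (h : ∀ b, ∃ d, θ (bs x0 b) = bs x0 d) : ∀ b, ∃ d, θ⁻¹ (bs x0 b) = bs x0 d := by
  obtain ⟨π, α, hπα⟩ := aut_data hB htr hfa θ
  obtain ⟨b0, hb0⟩ := exists_ne (1 : B)
  have hπ0 : π x0 = x0 := by
    obtain ⟨d, hd⟩ := h b0
    rw [hπα] at hd
    refine eq_of_bs_eq hd ?_
    rw [Ne, MulEquiv.map_eq_one_iff]
    exact hb0
  intro b
  refine ⟨(α x0).symm b, ?_⟩
  have h1 := hπα x0 ((α x0).symm b)
  rw [hπ0, MulEquiv.apply_symm_apply] at h1
  rw [← h1, ← MulAut.mul_apply, inv_mul_cancel]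
  rfl

/-- **Theorem W**: finiteness of the outer automorphism group of a wreath product. -/
theorem outFin [Finite B] [Infinite X]
    (hE : ∀ f : X → MulAut B, (∀ a : A, {x | f (a • x) ≠ f x}.Finite) → ∃ c, {x | f x ≠ c}.Finite)
    (x0 : X) (F : Set (MulAut A)) (hF : F.Finite)
    (hR : ∀ θ : MulAut A, (∀ a, a • x0 = x0 ↔ θ a • x0 = x0) →
      ∃ l : A, l • x0 = x0 ∧ ∃ φ ∈ F, θ = MulAut.conj l * φ) : OutFin (Wr X B A) := by
  classical
  let P : MulAut A → MulAut (Wr X B A) → Prop := fun φ θ =>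
    topAut hB htr hfa θ = φ ∧ ∀ b, ∃ d, θ (bs x0 b) = bs x0 d
  let rep : MulAut A → MulAut (Wr X B A) := fun φ => if h : ∃ θ, P φ θ then h.choose else 1
  have hrep : ∀ φ, (∃ θ, P φ θ) → P φ (rep φ) := by
    intro φ h
    simp only [rep, dif_pos h]
    exact h.choose_spec
  have hfinB : Finite (MulAut B) := by
    have : Function.Injective (fun θ : MulAut B => (θ : B → B)) := DFunLike.coe_injective
    exact Finite.of_injective _ this
  refine ⟨Set.image2 (fun φ c => rep φ * diagAut c) F Set.univ, hF.image2 _ Set.finite_univ, ?_⟩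
  intro θ
  obtain ⟨b0, hb0⟩ := exists_ne (1 : B)
  -- first normalisation
  obtain ⟨π, α, hπα⟩ := aut_data hB htr hfa θ
  obtain ⟨a0, ha0⟩ := htr x0 (π x0)
  set θ1 : MulAut (Wr X B A) := MulAut.conj (tp a0⁻¹) * θ with hθ1
  have h1fix : ∀ b, ∃ d, θ1 (bs x0 b) = bs x0 d := by
    intro b
    refine ⟨α x0 b, ?_⟩
    rw [hθ1, MulAut.mul_apply, hπα, MulAut.conj_apply, conj_bs, ← ha0]
    simp
  obtain ⟨π1, α1, hπα1⟩ := aut_data hB htr hfa θ1
  have hπ10 : π1 x0 = x0 := by
    obtain ⟨d, hd⟩ := h1fix b0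
    rw [hπα1] at hd
    refine eq_of_bs_eq hd ?_
    rw [Ne, MulEquiv.map_eq_one_iff]
    exact hb0
  have hπ1inj : ∀ x y, π1 x = π1 y → x = y := by
    intro x y hxy
    have h1 : θ1 (bs x b0) = θ1 (bs y ((α1 y).symm (α1 x b0))) := by
      rw [hπα1, hπα1, hxy, MulEquiv.apply_symm_apply]
    exact eq_of_bs_eq (θ1.injective h1) hb0
  obtain ⟨l, hl, φ, hφ, hlφ⟩ := hR (topAut hB htr hfa θ1) (by
    intro a
    have h1 := (aut_equivariant hB htr hfa θ1 π1 α1 hπα1 a x0).1
    rw [hπ10] at h1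
    constructor
    · intro ha
      rw [← h1, ha, hπ10]
    · intro ha
      rw [← h1] at ha
      apply hπ1inj
      rw [ha, hπ10])
  set θ2 : MulAut (Wr X B A) := MulAut.conj (tp l⁻¹) * θ1 with hθ2
  have h2 : P φ θ2 := by
    refine ⟨?_, ?_⟩
    · rw [hθ2, topAut_mul, topAut_conj, hlφ, tp_a, ← mul_assoc, ← map_mul, inv_mul_cancel,
        map_one, one_mul]
    · intro b
      obtain ⟨d, hd⟩ := h1fix b
      refine ⟨d, ?_⟩
      rw [hθ2, MulAut.mul_apply, hd, MulAut.conj_apply, conj_bs]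
      have : l⁻¹ • x0 = x0 := by rw [inv_smul_eq_iff, hl]
      simp [this]
  have hr := hrep φ ⟨θ2, h2⟩
  set θ3 : MulAut (Wr X B A) := (rep φ)⁻¹ * θ2 with hθ3
  have h3top : topAut hB htr hfa θ3 = 1 := by
    have h4 : topAut hB htr hfa (rep φ * θ3) = topAut hB htr hfa (rep φ) := by
      rw [hθ3, mul_inv_cancel_left, h2.1, hr.1]
    rw [topAut_mul] at h4
    exact mul_eq_left.mp h4
  have h3fix : ∀ b, ∃ d, θ3 (bs x0 b) = bs x0 d := by
    intro b
    obtain ⟨d, hd⟩ := h2.2 b
    obtain ⟨e, he⟩ := fix_inv hB htr hfa hr.2 d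
    exact ⟨e, by rw [hθ3, MulAut.mul_apply, hd, he]⟩
  obtain ⟨g, c, hgc⟩ := aut_eq_of_top_trivial hB htr hfa hE θ3 h3top x0 h3fix
  refine ⟨tp a0 * (tp l * rep φ g), rep φ * diagAut c, ⟨φ, hφ, c, trivial, rfl⟩, ?_⟩
  have e1 : θ = MulAut.conj (tp a0) * (MulAut.conj (tp l) * (rep φ * (MulAut.conj g * diagAut c))) := by
    rw [← hgc, hθ3, mul_inv_cancel_left, hθ2, hθ1, map_inv, map_inv, map_inv, map_inv,
      mul_inv_cancel_left, mul_inv_cancel_left]
  rw [e1, map_mul, map_mul, mul_assoc, mul_assoc]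
  congr 2
  rw [← mul_assoc, ← mul_assoc]
  congr 1
  ext x
  · simp
  · simp

end main

end Wr

end Pool.Agent.Helper73.CG
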