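import Pool.Agent.Helper73.CG.Rigid
import Pool.Agent.Helper73.CG.LampAut
import Pool.Agent.Helper73.CG.WreathAut
import Pool.Agent.Helper73.CG.Fiber
import Pool.Agent.Helper73.CG.Ends

set_option autoImplicit false
set_option linter.unusedSectionVars false

namespace Pool.Agent.Helper73.CG

open Equiv Equiv.Perm

variable {P : Par}

/-- elements commuting with a coordinate subgroup are trivial in that coordinate -/
lemma co_eq_one_of_comm {i : ℕ} {a : AT P} (h : ∀ x, InA i x → a * x = x * a) : a.1 i = 1 := by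
  have hs : (a.1 i).s = 1 := comm_V_iff.mp (fun x hx => h x hx.1)
  have h2 : a.1 i = Aff.ev (a.1 i).v := Aff.ext rfl hs
  have h3 : (a.1 i).v = 0 := by
    apply const_zero (card_lt P i) (le_trans (by norm_num) (six_le P i)) _ (Ag_A0 a.2 i).1
    intro x y
    obtain ⟨g, hg, hgx⟩ := alt_trans (six_le P i) y x
    have h4 := h _ (InA_iA (es_A0 hg))
    have h5 : a.1 i * Aff.es g = Aff.es g * a.1 i := by
      have h6 := congrArg (fun z : AT P => z.1 i) h4
      change a.1 i * (iA i (Aff.es g) (es_A0 hg)).1 i =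
        (iA i (Aff.es g) (es_A0 hg)).1 i * a.1 i at h6
      rwa [iA_same] at h6
    have h6 := congrFun (congrArg Aff.v h5) x
    simp only [Aff.mul_v, Aff.es_v, pact_zero, add_zero, Aff.es_s, zero_add] at h6
    rw [h6, pact, ← hgx]
    simp
  rw [h2, h3, Aff.ev_zero]

variable (P) in
/-- the embedded `ℤ ≀ D_∞` -/
noncomputable def L0 : Subgroup (AT P) := (iotaA P).range

variable (P) in
/-- the homogeneous space -/
abbrev XX := AT P ⧸ L0 P

variable (P) in
/-- base point -/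
noncomputable def xo : XX P := ((1 : AT P) : XX P)

lemma XX_trans (x y : XX P) : ∃ a : AT P, a • x = y := MulAction.exists_smul_eq _ x y

lemma smul_mk_eq_iff (a b : AT P) : a • (b : XX P) = (b : XX P) ↔ b⁻¹ * a * b ∈ L0 P := by
  rw [MulAction.Quotient.smul_coe, smul_eq_mul, QuotientGroup.eq, ← (L0 P).inv_mem_iff]
  simp [mul_assoc]

lemma smul_xo_iff (a : AT P) : a • xo P = xo P ↔ a ∈ L0 P := by
  rw [xo, smul_mk_eq_iff]; simp

lemma L0_large {a : AT P} (ha : a ∈ L0 P) (h1 : a ≠ 1) : ∃ i0, ∀ i, i0 ≤ i → a.1 i ≠ 1 := by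
  obtain ⟨l, rfl⟩ := ha
  apply iota_ne_one
  rintro rfl
  exact h1 (map_one _)

lemma XX_faithful (a : AT P) (h : ∀ x : XX P, a • x = x) : a = 1 := by
  by_contra hne
  have hconj : ∀ b : AT P, b⁻¹ * a * b ∈ L0 P := fun b => (smul_mk_eq_iff a b).mp (h _)
  have ha : a ∈ L0 P := by simpa using hconj 1
  obtain ⟨i0, h0⟩ := L0_large ha hne
  apply h0 i0 le_rfl
  apply co_eq_one_of_comm
  intro x hx
  -- the commutator
  have h1 : x⁻¹ * a * x * a⁻¹ ∈ L0 P := (L0 P).mul_mem (hconj x) ((L0 P).inv_mem ha)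
  have h2 : x⁻¹ * a * x * a⁻¹ = 1 := by
    by_contra hne2
    obtain ⟨i1, hi1⟩ := L0_large h1 hne2
    apply hi1 (i0 + i1 + 1) (by omega)
    change (x.1 (i0 + i1 + 1))⁻¹ * a.1 (i0 + i1 + 1) * x.1 (i0 + i1 + 1) *
      (a.1 (i0 + i1 + 1))⁻¹ = 1
    rw [hx _ (by omega)]
    simp
  have h3 : x⁻¹ * a * x = a := mul_inv_eq_one.mp h2
  calc a * x = x * (x⁻¹ * a * x) := by group
    _ = x * a := by rw [h3]

/-- the rigidity of the stabiliser -/
theorem XX_rigid : ∃ F : Set (MulAut (AT P)), F.Finite ∧ ∀ θ : MulAut (AT P),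
    (∀ a, a • xo P = xo P ↔ θ a • xo P = xo P) →
      ∃ l : AT P, l • xo P = xo P ∧ ∃ φ ∈ F, θ = MulAut.conj l * φ := by
  classical
  obtain ⟨F', hF', hθ'⟩ := LL.outFin
  let Q : MulAut LL → MulAut (AT P) → Prop := fun φ θ => ∀ x, θ (iotaA P x) = iotaA P (φ x)
  let rep : MulAut LL → MulAut (AT P) := fun φ => if h : ∃ θ, Q φ θ then h.choose else 1
  have hrep : ∀ φ, (∃ θ, Q φ θ) → Q φ (rep φ) := by
    intro φ h
    simp only [rep, dif_pos h]
    exact h.choose_spec
  have huniq : ∀ φ θ, Q φ θ → θ = rep φ := by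
    intro φ θ h
    have h1 := hrep φ ⟨θ, h⟩
    have h2 : (rep φ)⁻¹ * θ = 1 := by
      apply rigid
      intro x
      have h3 : ∀ y, (rep φ)⁻¹ ((rep φ) y) = y := by
        intro y
        change ((rep φ)⁻¹ * rep φ) y = y
        rw [inv_mul_cancel]; rfl
      rw [MulAut.mul_apply, h x, ← h1 x, h3]
    exact (inv_mul_eq_one.mp h2).symm
  refine ⟨rep '' F', hF'.image _, ?_⟩
  intro θ hθ
  have hL : ∀ a, a ∈ L0 P ↔ θ a ∈ L0 P := by
    intro a
    rw [← smul_xo_iff, ← smul_xo_iff]; exact hθ a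
  -- the induced automorphism of `LL`
  have hex : ∀ x : LL, ∃ y : LL, iotaA P y = θ (iotaA P x) := fun x => (hL _).mp ⟨x, rfl⟩
  have hex' : ∀ x : LL, ∃ y : LL, iotaA P y = θ⁻¹ (iotaA P x) := by
    intro x
    have h1 : θ⁻¹ (iotaA P x) ∈ L0 P := by
      rw [hL]
      have : θ (θ⁻¹ (iotaA P x)) = iotaA P x := by
        change (θ * θ⁻¹) _ = _
        rw [mul_inv_cancel]; rfl
      rw [this]
      exact ⟨x, rfl⟩
    exact h1
  choose ψ hψ using hex
  choose ψ' hψ' using hex'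
  have hθθ : ∀ y, θ⁻¹ (θ y) = y := by
    intro y
    change (θ⁻¹ * θ) y = y
    rw [inv_mul_cancel]; rfl
  have hθθ' : ∀ y, θ (θ⁻¹ y) = y := by
    intro y
    change (θ * θ⁻¹) y = y
    rw [mul_inv_cancel]; rfl
  let Ψ : MulAut LL :=
    { toFun := ψ
      invFun := ψ'
      left_inv := fun x => iotaA_injective (by rw [hψ', hψ, hθθ])
      right_inv := fun x => iotaA_injective (by rw [hψ, hψ', hθθ'])
      map_mul' := fun x y => iotaA_injective (by rw [hψ, map_mul, map_mul, map_mul, hψ, hψ]) }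
  obtain ⟨g, φ, hφ, hΨ⟩ := hθ' Ψ
  refine ⟨iotaA P g, ?_, rep φ, ⟨φ, hφ, rfl⟩, ?_⟩
  · rw [smul_xo_iff]; exact ⟨g, rfl⟩
  · have h1 : Q φ ((MulAut.conj (iotaA P g))⁻¹ * θ) := by
      intro x
      rw [MulAut.mul_apply, ← hψ]
      have h2 : ψ x = g * φ x * g⁻¹ := by
        change Ψ x = _
        rw [hΨ]; rfl
      rw [h2, ← map_inv, map_mul, map_mul]
      simp
    rw [← huniq _ _ h1, mul_inv_cancel_left]

/-- the four commuting shifts -/
def ee (j : Fin 4) : Fin 8 → ℤ :=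
  match j with
  | 0 => ![1, -1, 0, 0, 0, 0, 0, 0]
  | 1 => ![0, 0, 1, -1, 0, 0, 0, 0]
  | 2 => ![0, 0, 0, 0, 1, -1, 0, 0]
  | 3 => ![0, 0, 0, 0, 0, 0, 1, -1]

lemma ee_sum (j : Fin 4) : ∑ a, ee j a = 0 := by
  revert j; decide

/-- the shifts as elements of `A` -/
def tau (j : Fin 4) : AT P := ⟨esP P (sh (ee j)), esP_mem (sh_mem (ee_sum j))⟩

lemma tau_comm (i j : Fin 4) : (tau i : AT P) * tau j = tau j * tau i := by
  apply Subtype.ext
  change esP P _ * esP P _ = esP P _ * esP P _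
  rw [← map_mul, ← map_mul, sh_comm]

lemma tau_pow (i j : Fin 4) (n m : ℤ) :
    ((tau i : AT P) ^ n * (tau j) ^ m).1 = esP P (sh (n • ee i + m • ee j)) := by
  change (Ag P).subtype ((tau i : AT P) ^ n * (tau j) ^ m) = _
  rw [map_mul, map_zpow, map_zpow, sh_add, sh_zsmul, sh_zsmul, map_mul, map_zpow, map_zpow]
  rfl

lemma tau_free (i j : Fin 4) (hij : i ≠ j) (n m : ℤ) (x : XX P)
    (hx : ((tau i : AT P) ^ n * (tau j) ^ m) • x = x) : n = 0 ∧ m = 0 := by
  obtain ⟨a, rfl⟩ := QuotientGroup.mk_surjective x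
  rw [smul_mk_eq_iff] at hx
  obtain ⟨l, hl⟩ := hx
  set e : Fin 8 → ℤ := n • ee i + m • ee j with he
  have hfix : ∃ c, e c = 0 := by
    obtain ⟨c, h1, h2⟩ : ∃ c, ee i c = 0 ∧ ee j c = 0 := by
      clear * - i j; revert i j; decide
    exact ⟨c, by simp [he, h1, h2]⟩
  obtain ⟨c, hc⟩ := hfix
  have hconj : ∀ q, rho P.k l.d q = ((prP P a.1) q)⁻¹ * (sh e : PP P.k) q * (prP P a.1) q := by
    intro q
    have h1 : (iotaA P l).1 q = (a.1 q)⁻¹ * ((tau i : AT P) ^ n * (tau j) ^ m).1 q * a.1 q := by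
      rw [hl]; rfl
    rw [tau_pow] at h1
    have h2 := congrArg Aff.s h1
    exact h2
  have hone : ∀ q, (sh e : PP P.k) q = 1 := by
    intro q
    have hf1 : (sh e : PP P.k) q none = none := rfl
    have hf2 : (sh e : PP P.k) q (some (c, 0)) = some (c, 0) := by
      rw [sh_apply, sp_some, hc]; simp
    have hss : ∀ (s : Perm (Yy P q)) y, s (s⁻¹ y) = y := fun s y => s.apply_symm_apply y
    have h1 : rho P.k l.d q = 1 := by
      apply rho_two_fixed l.d q (y := ((prP P a.1) q)⁻¹ none) (z := ((prP P a.1) q)⁻¹ (some (c, 0)))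
      · intro h
        have := (((prP P a.1) q)⁻¹).injective h
        simp at this
      · rw [hconj, Perm.mul_apply, Perm.mul_apply, hss, hf1]
      · rw [hconj, Perm.mul_apply, Perm.mul_apply, hss, hf2]
    have h2 := hconj q
    rw [h1] at h2
    have h3 : (sh e : PP P.k) q = (prP P a.1) q * (((prP P a.1) q)⁻¹ * (sh e : PP P.k) q *
      (prP P a.1) q) * ((prP P a.1) q)⁻¹ := by group
    rw [h3, ← h2]; group
  have hzero : ∀ b, e b = 0 := by
    intro b
    by_contra hb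
    have h1 := congrArg (fun g : Perm _ => g (some (b, 0))) (hone (e b).natAbs)
    simp only [sh_apply, sp_some, Perm.one_apply, Option.some.injEq, Prod.mk.injEq, true_and,
      zero_add] at h1
    rw [ZMod.intCast_zmod_eq_zero_iff_dvd] at h1
    have h2 := Int.natAbs_dvd_natAbs.mpr h1
    rw [Int.natAbs_natCast] at h2
    have h3 : 0 < (e b).natAbs := Int.natAbs_pos.mpr hb
    have h4 := Nat.le_of_dvd h3 h2
    have h5 : (e b).natAbs ≤ P.k (e b).natAbs := P.hk.le_apply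
    have h6 : P.k (e b).natAbs < 2 ^ P.k (e b).natAbs := Nat.lt_two_pow_self
    omega
  have hn : ∃ b, ee i b = 1 ∧ ee j b = 0 := by
    clear * - hij; revert i j; decide
  have hm : ∃ b, ee i b = 0 ∧ ee j b = 1 := by
    clear * - hij; revert i j; decide
  obtain ⟨b, hb1, hb2⟩ := hn
  obtain ⟨b', hb1', hb2'⟩ := hm
  have h1 := hzero b
  have h2 := hzero b'
  simp only [he, Pi.add_apply, Pi.smul_apply, hb1, hb2, smul_eq_mul, mul_one, mul_zero,
    add_zero] at h1
  simp only [he, Pi.add_apply, Pi.smul_apply, hb1', hb2', smul_eq_mul, mul_one, mul_zero,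
    zero_add] at h2
  exact ⟨h1, h2⟩

instance : Infinite (XX P) := by
  have h : Function.Injective (fun n : ℤ => (tau 0 : AT P) ^ n • xo P) := by
    intro n m hnm
    simp only at hnm
    have h1 : ((tau 0 : AT P) ^ (n - m) * (tau 1) ^ (0 : ℤ)) • ((tau 0 : AT P) ^ m • xo P) =
        (tau 0 : AT P) ^ m • xo P := by
      rw [zpow_zero, mul_one, ← mul_smul, ← zpow_add, sub_add_cancel, hnm]
    have := (tau_free 0 1 (by decide) _ _ _ h1).1
    omega
  exact Infinite.of_injective _ h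

lemma tr_zero {k : ℕ → ℕ} (U : Fam k) : tr 0 U = U := by
  funext i
  ext x
  rw [mem_tr]; simp

lemma loc_sh_comm {k : ℕ → ℕ} {a b c : Fin 8} (U : Fam k) {e : Fin 8 → ℤ} (ha : e a = 0)
    (hb : e b = 0) (hc : e c = 0) : loc (cyc a b c) U * sh e = sh e * loc (cyc a b c) U := by
  have h1 : sh e * loc (cyc a b c) U * (sh e)⁻¹ = loc (cyc a b c) (tr 0 U) := by
    apply sh_conj_loc
    intro x hx
    by_cases h1 : x = a
    · rw [h1, ha]
    by_cases h2 : x = b
    · rw [h2, hb]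
    by_cases h3 : x = c
    · rw [h3, hc]
    exact absurd (cyc_apply_of_ne h1 h2 h3) hx
  rw [tr_zero, mul_inv_eq_iff_eq_mul] at h1
  exact h1.symm

lemma mk_sh_comm {k : ℕ → ℕ} {g : Perm (Option (Fin 8))} {e : Fin 8 → ℤ}
    (h : ∀ x, g (some x) = some x ∨ e x = 0) : (mk g : PP k) * sh e = sh e * mk g := by
  funext i
  have hd : Equiv.Perm.Disjoint ((mk g : PP k) i) ((sh e : PP k) i) := by
    intro y
    rcases y with _ | ⟨a, x⟩
    · right; rfl
    · rcases h a with h1 | h1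
      · left
        rw [mk_apply]
        by_cases hx : x = 0
        · rw [hx, mp_some, h1]; rfl
        · rw [mp_of_ne _ _ hx]
      · right
        rw [sh_apply, sp_some, h1]; simp
  exact hd.commute

lemma tau_gen (K : Subgroup (AT P)) (hK : ∀ (a : AT P) (i : Fin 4), a * tau i = tau i * a → a ∈ K) :
    K = ⊤ := by
  have hle : Ag P ≤ K.map (Ag P).subtype := by
    conv_lhs => rw [Ag]
    rw [Subgroup.closure_le]
    have key : ∀ (s : PP P.k), s ∈ gens P.k → (∃ j, s * sh (ee j) = sh (ee j) * s) →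
        esP P s ∈ K.map (Ag P).subtype := by
      rintro s hs ⟨j, hj⟩
      refine ⟨⟨esP P s, Subgroup.subset_closure (Or.inl ⟨s, hs, rfl⟩)⟩, ?_, rfl⟩
      apply hK _ j
      apply Subtype.ext
      change esP P s * esP P _ = esP P _ * esP P s
      rw [← map_mul, ← map_mul, hj]
    have h3 : ∀ a b c : Fin 8, ∃ j, ee j a = 0 ∧ ee j b = 0 ∧ ee j c = 0 := by decide
    have h4 : ∀ a b c : Option (Fin 8), ∃ j, ∀ x, (x : Fin 8) ∈ ({x | ee j x ≠ 0} : Finset _) →
        some x ≠ a ∧ some x ≠ b ∧ some x ≠ c := by decide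
    rintro x (⟨s, hs, rfl⟩ | hx)
    · apply key s hs
      rcases hs with (⟨a, b, c, -, -, -, rfl⟩ | ⟨a, b, c, -, -, -, rfl⟩ | ⟨a, b, c, -, -, -, rfl⟩ |
        ⟨a, b, -, rfl⟩)
      · obtain ⟨j, ha, hb, hc⟩ := h3 a b c
        exact ⟨j, loc_sh_comm _ ha hb hc⟩
      · obtain ⟨j, ha, hb, hc⟩ := h3 a b c
        exact ⟨j, loc_sh_comm _ ha hb hc⟩
      · obtain ⟨j, hj⟩ := h4 a b c
        refine ⟨j, mk_sh_comm fun x => ?_⟩
        by_cases hx : ee j x = 0
        · right; exact hx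
        · left
          have := hj x (by simpa using hx)
          exact cyc_apply_of_ne this.1 this.2.1 this.2.2
      · exact ⟨0, sh_comm _ _⟩
    · rw [Set.mem_singleton_iff] at hx
      subst hx
      refine ⟨⟨vv P, vv_mem⟩, ?_, rfl⟩
      apply hK _ 1
      apply Subtype.ext
      change vv P * esP P _ = esP P _ * vv P
      rw [← mul_inv_eq_iff_eq_mul, mul_inv_eq_iff_eq_mul]
      funext i
      rw [Pi.mul_apply, Pi.mul_apply, esP_apply]
      have h5 : Aff.es ((sh (ee 1) : PP P.k) i) * vv P i * (Aff.es ((sh (ee 1) : PP P.k) i))⁻¹ =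
          vv P i := by
        rw [vv, Aff.conj_ev, Aff.es_s, pact_sub, pact_dl, pact_dl]
        congr 3
        rw [sh_apply, sp_some]
        simp [ee]
      exact (mul_inv_eq_iff_eq_mul.mp h5).symm
  rw [eq_top_iff]
  rintro ⟨a, ha⟩ -
  obtain ⟨b, hb, hba⟩ := hle ha
  have : b = ⟨a, ha⟩ := Subtype.ext hba
  rwa [← this]

theorem XX_ends {M : Type*} (f : XX P → M) (hf : ∀ a : AT P, {x | f (a • x) ≠ f x}.Finite) :
    ∃ c, {x | f x ≠ c}.Finite :=
  Ends.main XX_trans (xo P) tau (0 : Fin 4) tau_comm tau_free (by decide) tau_gen f hf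

end Pool.Agent.Helper73.CG
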