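import Pool.Agent.Helper73.CG.Perms

set_option autoImplicit false
set_option linter.unusedSectionVars false

namespace Pool.Agent.Helper73.CG

open Equiv Equiv.Perm

/-- the group of maps `K^Y ⋊ Perm Y` -/
@[ext] structure Aff (K Y : Type*) where
  v : Y → K
  s : Perm Y

/-- the permutation action on functions -/
def pact {K Y : Type*} (g : Perm Y) (w : Y → K) : Y → K := fun y => w (g⁻¹ y)

section pact
variable {K Y : Type*} [AddCommGroup K]

@[simp] lemma pact_one (w : Y → K) : pact 1 w = w := rfl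
lemma pact_mul (g h : Perm Y) (w : Y → K) : pact (g * h) w = pact g (pact h w) := rfl
lemma pact_add (g : Perm Y) (w w' : Y → K) : pact g (w + w') = pact g w + pact g w' := rfl
lemma pact_sub (g : Perm Y) (w w' : Y → K) : pact g (w - w') = pact g w - pact g w' := rfl
lemma pact_neg (g : Perm Y) (w : Y → K) : pact g (-w) = -pact g w := rfl
@[simp] lemma pact_zero (g : Perm Y) : pact g (0 : Y → K) = 0 := rfl
lemma pact_inv_pact (g : Perm Y) (w : Y → K) : pact g⁻¹ (pact g w) = w := by
  rw [← pact_mul, inv_mul_cancel, pact_one]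
lemma pact_pact_inv (g : Perm Y) (w : Y → K) : pact g (pact g⁻¹ w) = w := by
  rw [← pact_mul, mul_inv_cancel, pact_one]
lemma sum_pact [Fintype Y] (g : Perm Y) (w : Y → K) : ∑ y, pact g w y = ∑ y, w y :=
  Equiv.sum_comp g⁻¹ w
lemma pact_nsmul (g : Perm Y) (n : ℕ) (w : Y → K) : pact g (n • w) = n • pact g w := rfl
lemma pact_sum {ι : Type*} (g : Perm Y) (t : Finset ι) (f : ι → Y → K) :
    pact g (∑ j ∈ t, f j) = ∑ j ∈ t, pact g (f j) := by
  funext y
  simp [pact, Finset.sum_apply]
end pact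

namespace Aff

variable {K Y : Type*} [AddCommGroup K]

instance : Mul (Aff K Y) := ⟨fun a b => ⟨a.v + pact a.s b.v, a.s * b.s⟩⟩
instance : One (Aff K Y) := ⟨⟨0, 1⟩⟩
instance : Inv (Aff K Y) := ⟨fun a => ⟨-pact a.s⁻¹ a.v, a.s⁻¹⟩⟩

@[simp] lemma mul_v (a b : Aff K Y) : (a * b).v = a.v + pact a.s b.v := rfl
@[simp] lemma mul_s (a b : Aff K Y) : (a * b).s = a.s * b.s := rfl
@[simp] lemma one_v : (1 : Aff K Y).v = 0 := rfl
@[simp] lemma one_s : (1 : Aff K Y).s = 1 := rfl
@[simp] lemma inv_v (a : Aff K Y) : (a⁻¹).v = -pact a.s⁻¹ a.v := rfl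
@[simp] lemma inv_s (a : Aff K Y) : (a⁻¹).s = a.s⁻¹ := rfl

instance : Group (Aff K Y) :=
  Group.ofLeftAxioms
    (by
      intro a b c
      refine Aff.ext ?_ ?_
      · simp only [mul_v, mul_s, pact_add, pact_mul, add_assoc]
      · simp [mul_assoc])
    (by
      intro a
      refine Aff.ext ?_ ?_ <;> simp)
    (by
      intro a
      refine Aff.ext ?_ ?_ <;> simp)

/-- projection to the permutation part -/
def prm : Aff K Y →* Perm Y where
  toFun a := a.s
  map_one' := rfl
  map_mul' _ _ := rfl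

/-- the complement -/
def es : Perm Y →* Aff K Y where
  toFun g := ⟨0, g⟩
  map_one' := rfl
  map_mul' g h := by refine Aff.ext ?_ ?_ <;> simp

/-- the base -/
def ev (w : Y → K) : Aff K Y := ⟨w, 1⟩

@[simp] lemma prm_apply (a : Aff K Y) : prm a = a.s := rfl
@[simp] lemma es_v (g : Perm Y) : (es g : Aff K Y).v = 0 := rfl
@[simp] lemma es_s (g : Perm Y) : (es g : Aff K Y).s = g := rfl
@[simp] lemma ev_v (w : Y → K) : (ev w).v = w := rfl
@[simp] lemma ev_s (w : Y → K) : (ev w).s = 1 := rfl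

lemma ev_add (w w' : Y → K) : ev (w + w') = ev w * ev w' := by
  refine Aff.ext ?_ ?_ <;> simp

lemma ev_neg (w : Y → K) : ev (-w) = (ev w)⁻¹ := by
  refine Aff.ext ?_ ?_ <;> simp

lemma ev_zero : ev (0 : Y → K) = 1 := rfl

lemma ev_sub (w w' : Y → K) : ev (w - w') = ev w * (ev w')⁻¹ := by
  rw [sub_eq_add_neg, ev_add, ev_neg]

lemma conj_ev (a : Aff K Y) (w : Y → K) : a * ev w * a⁻¹ = ev (pact a.s w) := by
  refine Aff.ext ?_ ?_
  · simp [pact_neg, pact_pact_inv]
  · simp

lemma eq_ev_es (a : Aff K Y) : a = ev a.v * es a.s := by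
  refine Aff.ext ?_ ?_ <;> simp

/-- the base as a homomorphism -/
def evHom : Multiplicative (Y → K) →* Aff K Y where
  toFun w := ev (Multiplicative.toAdd w)
  map_one' := rfl
  map_mul' _ _ := ev_add _ _

lemma ev_nsmul (n : ℕ) (w : Y → K) : ev (n • w) = (ev w) ^ n :=
  map_pow (evHom (K := K) (Y := Y)) (Multiplicative.ofAdd w) n

lemma ev_injective : Function.Injective (ev : (Y → K) → Aff K Y) := fun _ _ h => congrArg Aff.v h

/-- sum of the coordinates as a homomorphism -/
def smHom [Fintype Y] : Aff K Y →* Multiplicative K where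
  toFun a := Multiplicative.ofAdd (∑ y, a.v y)
  map_one' := by simp
  map_mul' a b := by
    rw [← ofAdd_add]
    congr 1
    simp only [mul_v, Pi.add_apply, Finset.sum_add_distrib]
    rw [sum_pact]

/-- even permutations with sum-zero vectors -/
def A0 (K Y : Type*) [AddCommGroup K] [Fintype Y] [DecidableEq Y] : Subgroup (Aff K Y) :=
  (smHom : Aff K Y →* Multiplicative K).ker ⊓ (alternatingGroup Y).comap prm

lemma mem_A0 [Fintype Y] [DecidableEq Y] {a : Aff K Y} :
    a ∈ A0 K Y ↔ ∑ y, a.v y = 0 ∧ a.s ∈ alternatingGroup Y := Iff.rfl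

end Aff

section local_

variable {p : ℕ} [Fact p.Prime] {Y : Type*} [Fintype Y] [DecidableEq Y]

/-- basis vectors -/
def dl (p : ℕ) {Y : Type*} [DecidableEq Y] (y : Y) : Y → ZMod p := Pi.single y 1

lemma dl_apply (x y : Y) : dl p x y = if y = x then 1 else 0 := by
  simp [dl, Pi.single_apply]

lemma pact_dl (g : Perm Y) (y : Y) : pact g (dl p y) = dl p (g y) := by
  funext z
  simp only [pact, dl_apply]
  congr 1
  rw [Perm.inv_eq_iff_eq, eq_comm]

lemma sum_dl (y : Y) : ∑ z, dl p y z = 1 := by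
  simp [dl_apply]

/-- additive subgroups of `Y → ZMod p` are closed under scalars -/
lemma smul_mem_of {M : AddSubgroup (Y → ZMod p)} {w : Y → ZMod p} (hw : w ∈ M) (c : ZMod p) :
    c • w ∈ M := by
  have h : c • w = c.val • w := by
    funext y
    simp
  rw [h]
  exact M.nsmul_mem hw _

lemma mem_of_smul {M : AddSubgroup (Y → ZMod p)} {w : Y → ZMod p} {c : ZMod p} (hc : c ≠ 0)
    (hw : c • w ∈ M) : w ∈ M := by
  have := smul_mem_of hw c⁻¹
  rwa [smul_smul, inv_mul_cancel₀ hc, one_smul] at this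

lemma exists_avoid (h : 6 ≤ Nat.card Y) (t : Finset Y) (ht : t.card ≤ 5) : ∃ y, y ∉ t := by
  by_contra hcon
  push Not at hcon
  have h1 : t = Finset.univ := Finset.eq_univ_iff_forall.mpr hcon
  rw [h1, Finset.card_univ, ← Nat.card_eq_fintype_card] at ht
  omega

/-- a sum-zero vector lies in every invariant subgroup containing one basic difference -/
lemma span1 (h6 : 6 ≤ Nat.card Y) (M : AddSubgroup (Y → ZMod p))
    (hM : ∀ g ∈ alternatingGroup Y, ∀ w ∈ M, pact g w ∈ M) {a b : Y} (hab : a ≠ b)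
    (h : dl p a - dl p b ∈ M) (w : Y → ZMod p) (hw : ∑ y, w y = 0) : w ∈ M := by
  have h1 : ∀ z, dl p a - dl p z ∈ M := by
    intro z
    by_cases hza : z = a
    · rw [hza, sub_self]; exact M.zero_mem
    by_cases hzb : z = b
    · rw [hzb]; exact h
    obtain ⟨c, hc⟩ := exists_avoid h6 {a, b, z} (by
      refine le_trans (Finset.card_insert_le _ _) ?_
      have := Finset.card_le_two (a := b) (b := z)
      omega)
    simp only [Finset.mem_insert, Finset.mem_singleton, not_or] at hc
    obtain ⟨hca, hcb, hcz⟩ := hc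
    have h2 := hM (cyc b z c) (cyc_mem_alt (Ne.symm hzb) (Ne.symm hcb) (Ne.symm hcz)) _ h
    rwa [pact_sub, pact_dl, pact_dl, cyc_apply_of_ne hab (Ne.symm hza) (Ne.symm hca),
      cyc_apply_a (Ne.symm hzb) (Ne.symm hcb)] at h2
  have h2 : w = ∑ y, (-(w y)) • (dl p a - dl p y) := by
    funext z
    rw [Finset.sum_apply]
    simp only [Pi.smul_apply, Pi.sub_apply, smul_eq_mul, mul_sub, Finset.sum_sub_distrib]
    rw [← Finset.sum_mul]
    simp only [Finset.sum_neg_distrib, hw, neg_zero, zero_mul, zero_sub]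
    simp [dl_apply]
  rw [h2]
  exact M.sum_mem fun y _ => smul_mem_of (h1 y) _

/-- irreducibility -/
lemma irr (h6 : 6 ≤ Nat.card Y) (hp : 2 < p) (M : AddSubgroup (Y → ZMod p))
    (hM : ∀ g ∈ alternatingGroup Y, ∀ w ∈ M, pact g w ∈ M) {u : Y → ZMod p} (hu : u ∈ M)
    {a b : Y} (hab : u a ≠ u b) (w : Y → ZMod p) (hw : ∑ y, w y = 0) : w ∈ M := by
  have hne : a ≠ b := by rintro rfl; exact hab rfl
  obtain ⟨c, hc⟩ := exists_avoid h6 {a, b} (by
    have := Finset.card_le_two (a := a) (b := b)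
    omega)
  obtain ⟨d, hd⟩ := exists_avoid h6 {c, a, b} (by
    refine le_trans (Finset.card_insert_le _ _) ?_
    have := Finset.card_le_two (a := a) (b := b)
    omega)
  obtain ⟨e, he⟩ := exists_avoid h6 {d, c, a, b} (by
    refine le_trans (Finset.card_insert_le _ _) ?_
    have h1 := Finset.card_insert_le c {a, b}
    have := Finset.card_le_two (a := a) (b := b)
    omega)
  obtain ⟨f, hf⟩ := exists_avoid h6 {e, d, c, a, b} (by
    refine le_trans (Finset.card_insert_le _ _) ?_
    have h2 := Finset.card_insert_le d {c, a, b}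
    have h1 := Finset.card_insert_le c {a, b}
    have := Finset.card_le_two (a := a) (b := b)
    omega)
  simp only [Finset.mem_insert, Finset.mem_singleton, not_or] at hc hd he hf
  obtain ⟨hca, hcb⟩ := hc
  obtain ⟨hdc, hda, hdb⟩ := hd
  obtain ⟨hed, hec, hea, heb⟩ := he
  obtain ⟨hfe, hfd, hfc, hfa, hfb⟩ := hf
  have hg : swap a b * swap c d ∈ alternatingGroup Y :=
    mul_mem_alternatingGroup_of_isSwap ⟨a, b, hne, rfl⟩ ⟨c, d, Ne.symm hdc, rfl⟩
  have hh : swap a b * swap e f ∈ alternatingGroup Y :=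
    mul_mem_alternatingGroup_of_isSwap ⟨a, b, hne, rfl⟩ ⟨e, f, Ne.symm hfe, rfl⟩
  set g := swap a b * swap c d with hgdef
  set h := swap a b * swap e f with hhdef
  have h1 : u - pact g u ∈ M := M.sub_mem hu (hM _ hg _ hu)
  have h2 : (u - pact g u) - pact h (u - pact g u) ∈ M := M.sub_mem h1 (hM _ hh _ h1)
  have h3 : (u - pact g u) - pact h (u - pact g u) = (2 * (u a - u b)) • (dl p a - dl p b) := by
    funext y
    have ginv : ∀ y, g⁻¹ y = swap c d (swap a b y) := by
      intro y
      rw [hgdef, mul_inv_rev, swap_inv, swap_inv]; rfl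
    have hinv : ∀ y, h⁻¹ y = swap e f (swap a b y) := by
      intro y
      rw [hhdef, mul_inv_rev, swap_inv, swap_inv]; rfl
    simp only [Pi.sub_apply, Pi.smul_apply, pact, smul_eq_mul, dl_apply, ginv, hinv]
    by_cases hya : y = a
    · subst hya
      rw [swap_apply_left, swap_apply_of_ne_of_ne (Ne.symm hcb) (Ne.symm hdb),
        swap_apply_of_ne_of_ne (Ne.symm heb) (Ne.symm hfb), swap_apply_right,
        swap_apply_of_ne_of_ne (Ne.symm hca) (Ne.symm hda)]
      simp [hne]
      ring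
    by_cases hyb : y = b
    · subst hyb
      rw [swap_apply_right, swap_apply_of_ne_of_ne (Ne.symm hca) (Ne.symm hda),
        swap_apply_of_ne_of_ne (Ne.symm hea) (Ne.symm hfa), swap_apply_left,
        swap_apply_of_ne_of_ne (Ne.symm hcb) (Ne.symm hdb)]
      simp [hne.symm]
      ring
    rw [if_neg hya, if_neg hyb, swap_apply_of_ne_of_ne hya hyb]
    by_cases hye : y = e
    · subst hye
      rw [swap_apply_of_ne_of_ne hec hed, swap_apply_left, swap_apply_of_ne_of_ne hfa hfb,
        swap_apply_of_ne_of_ne hfc hfd]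
      ring
    by_cases hyf : y = f
    · subst hyf
      rw [swap_apply_of_ne_of_ne hfc hfd, swap_apply_right, swap_apply_of_ne_of_ne hea heb,
        swap_apply_of_ne_of_ne hec hed]
      ring
    rw [swap_apply_of_ne_of_ne hye hyf, swap_apply_of_ne_of_ne hya hyb]
    ring
  rw [h3] at h2
  apply span1 h6 M hM hne (mem_of_smul _ h2) w hw
  apply mul_ne_zero
  · intro h4
    have h5 : ((2 : ℕ) : ZMod p) = 0 := by exact_mod_cast h4
    rw [ZMod.natCast_eq_zero_iff] at h5
    have := Nat.le_of_dvd (by norm_num) h5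
    omega
  · exact sub_ne_zero.mpr hab

/-- a constant sum-zero vector is zero -/
lemma const_zero (hp : Nat.card Y < p) (hY : 0 < Nat.card Y) (w : Y → ZMod p)
    (hw : ∑ y, w y = 0) (h : ∀ x y, w x = w y) : w = 0 := by
  funext x
  have h1 : ∑ y, w y = (Nat.card Y : ZMod p) * w x := by
    rw [Finset.sum_congr rfl (fun y _ => h y x), Finset.sum_const, Finset.card_univ,
      nsmul_eq_mul, Nat.card_eq_fintype_card]
  rw [hw] at h1
  rcases mul_eq_zero.mp h1.symm with h2 | h2
  · exfalso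
    rw [ZMod.natCast_eq_zero_iff] at h2
    have := Nat.le_of_dvd hY h2
    omega
  · exact h2

lemma alt_trans (h6 : 6 ≤ Nat.card Y) (x y : Y) : ∃ g ∈ alternatingGroup Y, g x = y := by
  by_cases hxy : x = y
  · exact ⟨1, Subgroup.one_mem _, by simp [hxy]⟩
  obtain ⟨c, hc⟩ := exists_avoid h6 {x, y} (by
    have := Finset.card_le_two (a := x) (b := y)
    omega)
  simp only [Finset.mem_insert, Finset.mem_singleton, not_or] at hc
  exact ⟨cyc x y c, cyc_mem_alt hxy (Ne.symm hc.1) (Ne.symm hc.2),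
    cyc_apply_a hxy (Ne.symm hc.1)⟩

/-- the sum over the alternating group of the translates of a sum-zero vector vanishes -/
lemma sum_alt (h6 : 6 ≤ Nat.card Y) (hp : Nat.card Y < p) (w : Y → ZMod p)
    (hw : ∑ y, w y = 0) : ∑ g : alternatingGroup Y, pact (g : Perm Y) w = 0 := by
  apply const_zero hp (by omega)
  · simp only [Finset.sum_apply]
    rw [Finset.sum_comm]
    simp only [sum_pact, hw, Finset.sum_const_zero]
  · intro x y
    obtain ⟨h, hh, hxy⟩ := alt_trans h6 x y
    rw [Finset.sum_apply, Finset.sum_apply, ← hxy]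
    have e := Equiv.sum_comp (Equiv.mulLeft (⟨h, hh⟩ : alternatingGroup Y))
      (fun g : alternatingGroup Y => pact (g : Perm Y) w (h x))
    rw [← e]
    apply Finset.sum_congr rfl
    intro g _
    simp [pact]

lemma card_alt_ne_zero (hp : Nat.card Y < p) :
    ((Nat.card (alternatingGroup Y) : ℕ) : ZMod p) ≠ 0 := by
  intro h
  rw [ZMod.natCast_eq_zero_iff] at h
  have h1 : Nat.card (alternatingGroup Y) ∣ Nat.card (Perm Y) := Subgroup.card_subgroup_dvd_card _
  rw [Nat.card_perm] at h1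
  have h2 := (Nat.Prime.dvd_factorial (Fact.out : p.Prime)).mp (dvd_trans h h1)
  omega

end local_

end Pool.Agent.Helper73.CG
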