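import Pool.Agent.Helper73.CG.Perms

set_option autoImplicit false
set_option linter.unusedSectionVars false

namespace Pool.Agent.Helper73.CG

open Equiv Equiv.Perm

/-- a marked point `none` and eight rows of cells indexed by `P` -/
abbrev Cell (P : Type*) := Option (Fin 8 × P)

section one

variable {P : Type*} [AddCommGroup P]

/-- move inside every column -/
def rp : (P → Perm (Fin 8)) →* Perm (Cell P) where
  toFun g :=
    { toFun := fun y => match y with
        | none => none
        | some (a, x) => some (g x a, x)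
      invFun := fun y => match y with
        | none => none
        | some (a, x) => some ((g x)⁻¹ a, x)
      left_inv := by
        intro y
        rcases y with _ | ⟨a, x⟩
        · rfl
        · simp
      right_inv := by
        intro y
        rcases y with _ | ⟨a, x⟩
        · rfl
        · simp }
  map_one' := by
    ext y : 1
    rcases y with _ | ⟨a, x⟩ <;> rfl
  map_mul' g h := by
    ext y : 1
    rcases y with _ | ⟨a, x⟩ <;> rfl

@[simp] lemma rp_none (g : P → Perm (Fin 8)) : rp g none = none := rfl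
@[simp] lemma rp_some (g : P → Perm (Fin 8)) (a : Fin 8) (x : P) :
    rp g (some (a, x)) = some (g x a, x) := rfl

/-- shift the rows -/
def sp (e : Fin 8 → P) : Perm (Cell P) where
  toFun := fun y => match y with
    | none => none
    | some (a, x) => some (a, x + e a)
  invFun := fun y => match y with
    | none => none
    | some (a, x) => some (a, x - e a)
  left_inv := by
    intro y
    rcases y with _ | ⟨a, x⟩
    · rfl
    · simp
  right_inv := by
    intro y
    rcases y with _ | ⟨a, x⟩
    · rfl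
    · simp

@[simp] lemma sp_none (e : Fin 8 → P) : sp e none = none := rfl
@[simp] lemma sp_some (e : Fin 8 → P) (a : Fin 8) (x : P) :
    sp e (some (a, x)) = some (a, x + e a) := rfl

lemma sp_add (e f : Fin 8 → P) : sp (e + f) = sp e * sp f := by
  ext y : 1
  rcases y with _ | ⟨a, x⟩
  · rfl
  · simp only [sp_some, Pi.add_apply, Perm.mul_apply]
    congr 2
    abel

lemma sp_zero : sp (0 : Fin 8 → P) = 1 := by
  ext y : 1
  rcases y with _ | ⟨a, x⟩
  · rfl
  · simp

lemma sp_neg (e : Fin 8 → P) : sp (-e) = (sp e)⁻¹ := by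
  rw [eq_inv_iff_mul_eq_one, ← sp_add, neg_add_cancel, sp_zero]

lemma sp_inv_some (e : Fin 8 → P) (a : Fin 8) (x : P) :
    (sp e)⁻¹ (some (a, x)) = some (a, x - e a) := rfl

lemma sp_inv_none (e : Fin 8 → P) : (sp e)⁻¹ none = none := rfl

/-- the embedding of the column at the marker -/
def emb : Option (Fin 8) ↪ Cell P where
  toFun := Option.map (fun a => (a, 0))
  inj' := by
    intro a b h
    rcases a with _ | a <;> rcases b with _ | b
    · rfl
    · simp at h
    · simp at h
    · simpa using h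

@[simp] lemma emb_none : (emb none : Cell P) = none := rfl
@[simp] lemma emb_some (a : Fin 8) : (emb (some a) : Cell P) = some (a, 0) := rfl

/-- permutations of the column at the marker together with the marker -/
noncomputable def mp : Perm (Option (Fin 8)) →* Perm (Cell P) := viaEmbeddingHom emb

lemma mp_emb (g : Perm (Option (Fin 8))) (o : Option (Fin 8)) :
    mp g (emb o : Cell P) = emb (g o) := viaEmbedding_apply g emb o

lemma mp_of_ne (g : Perm (Option (Fin 8))) (a : Fin 8) {x : P} (hx : x ≠ 0) :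
    mp g (some (a, x)) = some (a, x) := by
  apply viaEmbedding_apply_of_notMem
  rintro ⟨o, ho⟩
  rcases o with _ | b
  · simp at ho
  · simp only [emb_some, Option.some.injEq, Prod.mk.injEq] at ho
    exact hx ho.2.symm

lemma mp_none (g : Perm (Option (Fin 8))) : mp g (none : Cell P) = emb (g none) := mp_emb g none

lemma mp_some (g : Perm (Option (Fin 8))) (a : Fin 8) :
    mp g (some (a, 0) : Cell P) = emb (g (some a)) := mp_emb g (some a)

/-- `mp` of a permutation fixing the marker is a column move at `0` -/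
lemma mp_optionCongr [DecidableEq P] (g : Perm (Fin 8)) :
    mp (Equiv.optionCongr g) = rp (fun x : P => if x = 0 then g else 1) := by
  ext y : 1
  rcases y with _ | ⟨a, x⟩
  · rw [mp_none]; rfl
  · by_cases hx : x = 0
    · subst hx
      rw [mp_some, rp_some]
      simp
    · rw [mp_of_ne _ _ hx, rp_some, if_neg hx]
      rfl

end one

/-- the ambient product of finite symmetric groups -/
abbrev PP (k : ℕ → ℕ) := ∀ i, Perm (Cell (ZMod (2 ^ k i)))

/-- families of sets of positions -/
abbrev Fam (k : ℕ → ℕ) := ∀ i, Set (ZMod (2 ^ k i))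

variable {k : ℕ → ℕ}

open Classical in
/-- local column moves -/
noncomputable def loc (g : Perm (Fin 8)) (U : Fam k) : PP k :=
  fun i => rp (fun x => if x ∈ U i then g else 1)

open Classical in
lemma loc_apply (g : Perm (Fin 8)) (U : Fam k) (i : ℕ) :
    loc g U i = rp (fun x => if x ∈ U i then g else 1) := rfl

/-- shifts of the rows -/
def sh (e : Fin 8 → ℤ) : PP k := fun _ => sp (fun a => (e a : ZMod _))

lemma sh_apply (e : Fin 8 → ℤ) (i : ℕ) : (sh e : PP k) i = sp (fun a => (e a : ZMod _)) := rfl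

/-- moves at the marker -/
noncomputable def mk (g : Perm (Option (Fin 8))) : PP k := fun _ => mp g

lemma mk_apply (g : Perm (Option (Fin 8))) (i : ℕ) : (mk g : PP k) i = mp g := rfl

lemma mk_mul (g h : Perm (Option (Fin 8))) : (mk (g * h) : PP k) = mk g * mk h := by
  funext i
  exact map_mul mp g h

lemma mk_one : (mk 1 : PP k) = 1 := by
  funext i
  exact map_one mp

lemma mk_inv (g : Perm (Option (Fin 8))) : (mk g⁻¹ : PP k) = (mk g)⁻¹ := by
  funext i
  exact map_inv mp g

lemma loc_mul (g h : Perm (Fin 8)) (U : Fam k) : loc (g * h) U = loc g U * loc h U := by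
  funext i
  rw [Pi.mul_apply, loc_apply, loc_apply, loc_apply, ← map_mul]
  congr 1
  funext x
  by_cases h : x ∈ U i <;> simp [h]

lemma loc_one (U : Fam k) : loc 1 U = 1 := by
  funext i
  rw [loc_apply, Pi.one_apply, ← map_one rp]
  congr 1
  funext x
  simp

lemma loc_inv (g : Perm (Fin 8)) (U : Fam k) : loc g⁻¹ U = (loc g U)⁻¹ := by
  rw [eq_inv_iff_mul_eq_one, ← loc_mul, inv_mul_cancel, loc_one]

lemma loc_bot (g : Perm (Fin 8)) : loc g (⊥ : Fam k) = 1 := by
  funext i
  rw [loc_apply, Pi.one_apply, ← map_one rp]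
  congr 1
  funext x
  rw [if_neg]
  · rfl
  · exact fun h => h

/-- conjugation by a uniform column move -/
lemma loc_conj (h g : Perm (Fin 8)) (U : Fam k) :
    loc h ⊤ * loc g U * (loc h ⊤)⁻¹ = loc (h * g * h⁻¹) U := by
  funext i
  rw [← loc_inv, Pi.mul_apply, Pi.mul_apply, loc_apply, loc_apply, loc_apply, loc_apply, ← map_mul,
    ← map_mul]
  congr 1
  funext x
  have : x ∈ (⊤ : Fam k) i := trivial
  by_cases hx : x ∈ U i <;> simp [hx]

lemma loc_comm (g h : Perm (Fin 8)) (U V : Fam k) :
    loc g U * loc h V * (loc g U)⁻¹ * (loc h V)⁻¹ = loc (g * h * g⁻¹ * h⁻¹) (U ⊓ V) := by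
  funext i
  rw [← loc_inv, ← loc_inv, Pi.mul_apply, Pi.mul_apply, Pi.mul_apply]
  simp only [loc_apply]
  rw [← map_mul, ← map_mul, ← map_mul]
  congr 1
  funext x
  by_cases hx : x ∈ U i <;> by_cases hx' : x ∈ V i <;> simp [hx, hx']

lemma loc_sup (g : Perm (Fin 8)) (U V : Fam k) (h : U ⊓ V = ⊥) :
    loc g (U ⊔ V) = loc g U * loc g V := by
  funext i
  rw [Pi.mul_apply]
  simp only [loc_apply]
  rw [← map_mul]
  congr 1
  funext x
  have h2 : ¬ (x ∈ U i ∧ x ∈ V i) := by
    intro h3
    have h4 : x ∈ (U ⊓ V) i := h3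
    rw [h] at h4
    exact h4
  by_cases hx : x ∈ U i
  · have hx' : x ∉ V i := fun h5 => h2 ⟨hx, h5⟩
    simp [hx, hx']
  · by_cases hx' : x ∈ V i <;> simp [hx, hx']

/-- translate of a family of position sets -/
def tr (s : ℤ) (U : Fam k) : Fam k := fun i => {x | x - (s : ZMod (2 ^ k i)) ∈ U i}

lemma mem_tr (s : ℤ) (U : Fam k) (i : ℕ) (x : ZMod (2 ^ k i)) :
    x ∈ tr s U i ↔ x - (s : ZMod (2 ^ k i)) ∈ U i := Iff.rfl

lemma sh_add (e f : Fin 8 → ℤ) : (sh (e + f) : PP k) = sh e * sh f := by
  funext i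
  rw [Pi.mul_apply, sh_apply, sh_apply, sh_apply, ← sp_add]
  congr 1
  funext a
  simp

lemma sh_zero : (sh 0 : PP k) = 1 := by
  funext i
  rw [sh_apply, Pi.one_apply, ← sp_zero]
  congr 1
  funext a
  simp

lemma sh_neg (e : Fin 8 → ℤ) : (sh (-e) : PP k) = (sh e)⁻¹ := by
  rw [eq_inv_iff_mul_eq_one, ← sh_add, neg_add_cancel, sh_zero]

lemma sh_comm (e f : Fin 8 → ℤ) : (sh e : PP k) * sh f = sh f * sh e := by
  rw [← sh_add, ← sh_add, add_comm]

/-- `sh` as a homomorphism -/
def shHom : Multiplicative (Fin 8 → ℤ) →* PP k where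
  toFun e := sh (Multiplicative.toAdd e)
  map_one' := sh_zero
  map_mul' _ _ := sh_add _ _

lemma sh_nsmul (n : ℕ) (e : Fin 8 → ℤ) : (sh (n • e) : PP k) = (sh e) ^ n :=
  map_pow (shHom (k := k)) (Multiplicative.ofAdd e) n

lemma sh_zsmul (n : ℤ) (e : Fin 8 → ℤ) : (sh (n • e) : PP k) = (sh e) ^ n :=
  map_zpow (shHom (k := k)) (Multiplicative.ofAdd e) n

lemma sh_conj_loc (e : Fin 8 → ℤ) (s : ℤ) (g : Perm (Fin 8)) (U : Fam k)
    (h : ∀ a, g a ≠ a → e a = s) : sh e * loc g U * (sh e)⁻¹ = loc g (tr s U) := by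
  classical
  funext i
  rw [Pi.mul_apply, Pi.mul_apply, Pi.inv_apply]
  simp only [loc_apply, sh_apply]
  ext y : 1
  rcases y with _ | ⟨a, x⟩
  · rfl
  · rw [Perm.mul_apply, Perm.mul_apply, sp_inv_some, rp_some, sp_some, rp_some]
    by_cases hga : g a = a
    · have h1 : (if x - ((e a : ℤ) : ZMod (2 ^ k i)) ∈ U i then g else 1) a = a := by
        split_ifs
        · exact hga
        · rfl
      have h2 : (if x ∈ tr s U i then g else 1) a = a := by
        split_ifs
        · exact hga
        · rfl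
      rw [h1, h2]
      simp
    · have h1 : e a = s := h a hga
      have h2 : e (g a) = s := h (g a) (fun h3 => hga (g.injective h3))
      have h3 : x ∈ tr s U i ↔ x - ((e a : ℤ) : ZMod (2 ^ k i)) ∈ U i := by rw [mem_tr, h1]
      by_cases hx : x - ((e a : ℤ) : ZMod (2 ^ k i)) ∈ U i
      · rw [if_pos hx, if_pos (h3.mpr hx), h1, h2]
        simp
      · rw [if_neg hx, if_neg (fun h4 => hx (h3.mp h4))]
        simp

lemma loc_conj_sh (g : Perm (Fin 8)) (e : Fin 8 → ℤ) :
    loc g (⊤ : Fam k) * sh e * (loc g ⊤)⁻¹ = sh (fun a => e (g⁻¹ a)) := by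
  funext i
  rw [← loc_inv, Pi.mul_apply, Pi.mul_apply]
  simp only [loc_apply, sh_apply]
  ext y : 1
  rcases y with _ | ⟨a, x⟩
  · rfl
  · have : ∀ x, x ∈ (⊤ : Fam k) i := fun _ => trivial
    simp only [Perm.mul_apply, rp_some, sp_some, this, if_true]
    simp

end Pool.Agent.Helper73.CG
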