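import Pool.Agent.Helper73.CG.Csp

set_option autoImplicit false
set_option linter.unusedSectionVars false

namespace Pool.Agent.Helper73.CG

open Equiv Equiv.Perm

section pairs

variable {p : ℕ} [Fact p.Prime] {Y : Type*} [Fintype Y] [DecidableEq Y]

lemma smul_mem_pair {M : AddSubgroup ((Y → ZMod p) × (Y → ZMod p))} {w : (Y → ZMod p) × (Y → ZMod p)}
    (hw : w ∈ M) (c : ZMod p) : c • w ∈ M := by
  have h : c • w = c.val • w := by
    apply Prod.ext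
    · funext y
      rw [Prod.smul_fst, Prod.smul_fst, Pi.smul_apply, Pi.smul_apply, smul_eq_mul, nsmul_eq_mul,
        ZMod.natCast_zmod_val]
    · funext y
      rw [Prod.smul_snd, Prod.smul_snd, Pi.smul_apply, Pi.smul_apply, smul_eq_mul, nsmul_eq_mul,
        ZMod.natCast_zmod_val]
  rw [h]
  exact M.nsmul_mem hw _

lemma mem_of_smul_pair {M : AddSubgroup ((Y → ZMod p) × (Y → ZMod p))}
    {w : (Y → ZMod p) × (Y → ZMod p)} {c : ZMod p} (hc : c ≠ 0) (hw : c • w ∈ M) : w ∈ M := by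
  have := smul_mem_pair hw c⁻¹
  rwa [smul_smul, inv_mul_cancel₀ hc, one_smul] at this

/-- averaging over the alternating group -/
lemma avg_pair (h6 : 6 ≤ Nat.card Y) (hp : Nat.card Y < p)
    (M : AddSubgroup ((Y → ZMod p) × (Y → ZMod p))) (u u' : Y → ZMod p) (hu : ∑ y, u y = 0)
    (hu' : ∑ y, u' y = 0) (h : ∀ g ∈ alternatingGroup Y, (u - pact g u, u' - pact g u') ∈ M) :
    (u, u') ∈ M := by
  have h1 : ∑ g : alternatingGroup Y, ((u - pact g.1 u, u' - pact g.1 u') :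
      (Y → ZMod p) × (Y → ZMod p)) ∈ M := M.sum_mem fun g _ => h g.1 g.2
  have h2 : ∑ g : alternatingGroup Y, ((u - pact g.1 u, u' - pact g.1 u') :
      (Y → ZMod p) × (Y → ZMod p)) =
        ((Nat.card (alternatingGroup Y) : ℕ) : ZMod p) • (u, u') := by
    apply Prod.ext
    · rw [Prod.fst_sum]
      simp only [Finset.sum_sub_distrib, Finset.sum_const, Finset.card_univ]
      rw [sum_alt h6 hp u hu, sub_zero, ← Nat.card_eq_fintype_card, Prod.smul_fst,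
        Nat.cast_smul_eq_nsmul]
    · rw [Prod.snd_sum]
      simp only [Finset.sum_sub_distrib, Finset.sum_const, Finset.card_univ]
      rw [sum_alt h6 hp u' hu', sub_zero, ← Nat.card_eq_fintype_card, Prod.smul_snd,
        Nat.cast_smul_eq_nsmul]
  rw [h2] at h1
  exact mem_of_smul_pair (card_alt_ne_zero hp) h1

end pairs

variable {P : Par}

lemma Gb_sum1 (x : Gb P) (i : ℕ) : ∑ y, (x.1.1.1 i).v y = 0 := (Ag_A0 x.1.1.2 i).1
lemma Gb_sum2 (x : Gb P) (i : ℕ) : ∑ y, (x.1.2.1 i).v y = 0 := (Ag_A0 x.1.2.2 i).1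
lemma Gb_alt (x : Gb P) (i : ℕ) : (x.1.1.1 i).s ∈ alternatingGroup (Yy P i) :=
  (Ag_A0 x.1.1.2 i).2

/-- elements of the fibre square supported in coordinate `i` -/
def InG (i : ℕ) (x : Gb P) : Prop := ∀ j, j ≠ i → x.1.1.1 j = 1 ∧ x.1.2.1 j = 1

lemma piA_iA {i : ℕ} {x y : Aff (ZMod (P.p i)) (Yy P i)} (hx : x ∈ Aff.A0 _ _) (hy : y ∈ Aff.A0 _ _)
    (h : x.s = y.s) : piA P (iA i x hx) = piA P (iA i y hy) := by
  funext j
  rw [piA_apply, piA_apply, iA_val, iA_val]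
  by_cases hj : j = i
  · subst hj
    rw [inc_same, inc_same, h]
  · rw [inc_ne hj, inc_ne hj]

/-- pairs of one-coordinate elements -/
def pG (i : ℕ) (x y : Aff (ZMod (P.p i)) (Yy P i)) (hx : x ∈ Aff.A0 _ _) (hy : y ∈ Aff.A0 _ _)
    (h : x.s = y.s) : Gb P := ⟨(iA i x hx, iA i y hy), piA_iA hx hy h⟩

lemma pG_InG {i : ℕ} {x y : Aff (ZMod (P.p i)) (Yy P i)} (hx : x ∈ Aff.A0 _ _)
    (hy : y ∈ Aff.A0 _ _) (h : x.s = y.s) : InG i (pG i x y hx hy h) :=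
  fun _ hj => ⟨inc_ne hj _, inc_ne hj _⟩

lemma pG_fst {i : ℕ} {x y : Aff (ZMod (P.p i)) (Yy P i)} (hx : x ∈ Aff.A0 _ _)
    (hy : y ∈ Aff.A0 _ _) (h : x.s = y.s) : (pG i x y hx hy h).1.1.1 i = x := inc_same i x

lemma pG_snd {i : ℕ} {x y : Aff (ZMod (P.p i)) (Yy P i)} (hx : x ∈ Aff.A0 _ _)
    (hy : y ∈ Aff.A0 _ _) (h : x.s = y.s) : (pG i x y hx hy h).1.2.1 i = y := inc_same i y

/-- equality of elements from equality of coordinates -/
lemma Gb_ext {x y : Gb P} (h : ∀ j, x.1.1.1 j = y.1.1.1 j ∧ x.1.2.1 j = y.1.2.1 j) : x = y := by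
  apply Subtype.ext
  apply Prod.ext
  · apply Subtype.ext
    funext j
    exact (h j).1
  · apply Subtype.ext
    funext j
    exact (h j).2

/-- the projection to coordinate `i` -/
def prG (i : ℕ) (x : Gb P) : Gb P :=
  pG i (x.1.1.1 i) (x.1.2.1 i) (Ag_A0 x.1.1.2 i) (Ag_A0 x.1.2.2 i) (Gb_s x i)

lemma prG_InG (i : ℕ) (x : Gb P) : InG i (prG i x) := pG_InG _ _ _

lemma prG_fst (i : ℕ) (x : Gb P) : (prG i x).1.1.1 i = x.1.1.1 i := pG_fst _ _ _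
lemma prG_snd (i : ℕ) (x : Gb P) : (prG i x).1.2.1 i = x.1.2.1 i := pG_snd _ _ _

lemma InG.ext {i : ℕ} {x y : Gb P} (hx : InG i x) (hy : InG i y) (h1 : x.1.1.1 i = y.1.1.1 i)
    (h2 : x.1.2.1 i = y.1.2.1 i) : x = y := by
  apply Gb_ext
  intro j
  by_cases hj : j = i
  · subst hj; exact ⟨h1, h2⟩
  · rw [(hx j hj).1, (hx j hj).2, (hy j hj).1, (hy j hj).2]; exact ⟨rfl, rfl⟩

lemma prG_eq {i : ℕ} {x : Gb P} (h : InG i x) : prG i x = x :=
  (prG_InG i x).ext h (prG_fst i x) (prG_snd i x)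

lemma InG.mul {i : ℕ} {x y : Gb P} (hx : InG i x) (hy : InG i y) : InG i (x * y) := by
  intro j hj
  change x.1.1.1 j * y.1.1.1 j = 1 ∧ x.1.2.1 j * y.1.2.1 j = 1
  rw [(hx j hj).1, (hx j hj).2, (hy j hj).1, (hy j hj).2]; simp

lemma InG.inv {i : ℕ} {x : Gb P} (hx : InG i x) : InG i (x⁻¹) := by
  intro j hj
  change (x.1.1.1 j)⁻¹ = 1 ∧ (x.1.2.1 j)⁻¹ = 1
  rw [(hx j hj).1, (hx j hj).2]; simp

lemma InG.conj {i : ℕ} {x : Gb P} (hx : InG i x) (y : Gb P) : InG i (y * x * y⁻¹) := by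
  intro j hj
  change y.1.1.1 j * x.1.1.1 j * (y.1.1.1 j)⁻¹ = 1 ∧ y.1.2.1 j * x.1.2.1 j * (y.1.2.1 j)⁻¹ = 1
  rw [(hx j hj).1, (hx j hj).2]; simp

/-- pairs of vectors -/
def e2 (i : ℕ) (u u' : Yy P i → ZMod (P.p i)) (hu : ∑ y, u y = 0) (hu' : ∑ y, u' y = 0) : Gb P :=
  pG i (Aff.ev u) (Aff.ev u') (ev_A0 hu) (ev_A0 hu') rfl

/-- diagonal permutations -/
def dgA (i : ℕ) (g : Perm (Yy P i)) (hg : g ∈ alternatingGroup (Yy P i)) : Gb P :=
  pG i (Aff.es g) (Aff.es g) (es_A0 hg) (es_A0 hg) rfl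

lemma e2_fst {i : ℕ} {u u' : Yy P i → ZMod (P.p i)} (hu : ∑ y, u y = 0) (hu' : ∑ y, u' y = 0) :
    (e2 i u u' hu hu').1.1.1 i = Aff.ev u := inc_same i _

lemma e2_snd {i : ℕ} {u u' : Yy P i → ZMod (P.p i)} (hu : ∑ y, u y = 0) (hu' : ∑ y, u' y = 0) :
    (e2 i u u' hu hu').1.2.1 i = Aff.ev u' := inc_same i _

lemma dgA_fst {i : ℕ} {g : Perm (Yy P i)} (hg : g ∈ alternatingGroup (Yy P i)) :
    (dgA i g hg).1.1.1 i = Aff.es g := inc_same i _

lemma dgA_snd {i : ℕ} {g : Perm (Yy P i)} (hg : g ∈ alternatingGroup (Yy P i)) :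
    (dgA i g hg).1.2.1 i = Aff.es g := inc_same i _

lemma e2_InG {i : ℕ} {u u' : Yy P i → ZMod (P.p i)} (hu : ∑ y, u y = 0) (hu' : ∑ y, u' y = 0) :
    InG i (e2 i u u' hu hu') := pG_InG _ _ _

lemma dgA_InG {i : ℕ} {g : Perm (Yy P i)} (hg : g ∈ alternatingGroup (Yy P i)) :
    InG i (dgA i g hg) := pG_InG _ _ _

lemma InG.decomp {i : ℕ} {x : Gb P} (hx : InG i x) :
    x = e2 i (x.1.1.1 i).v (x.1.2.1 i).v (Gb_sum1 x i) (Gb_sum2 x i) *
      dgA i (x.1.1.1 i).s (Gb_alt x i) := by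
  apply hx.ext ((e2_InG _ _).mul (dgA_InG _))
  · change _ = (e2 i _ _ _ _).1.1.1 i * (dgA i _ _).1.1.1 i
    rw [e2_fst, dgA_fst, ← Aff.eq_ev_es]
  · change _ = (e2 i _ _ _ _).1.2.1 i * (dgA i _ _).1.2.1 i
    rw [e2_snd, dgA_snd, Gb_s, ← Aff.eq_ev_es]

/-- pairs of vectors lying in `N` -/
def MN (i : ℕ) (N : Subgroup (Gb P)) :
    AddSubgroup ((Yy P i → ZMod (P.p i)) × (Yy P i → ZMod (P.p i))) where
  carrier := {u | ∃ (h : ∑ y, u.1 y = 0) (h' : ∑ y, u.2 y = 0), e2 i u.1 u.2 h h' ∈ N}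
  zero_mem' := by
    refine ⟨by simp, by simp, ?_⟩
    have : e2 i (0 : Yy P i → ZMod (P.p i)) 0 (by simp) (by simp) = 1 := by
      apply InG.ext (i := i) (e2_InG _ _) (fun _ _ => ⟨rfl, rfl⟩)
      · rw [e2_fst]; rfl
      · rw [e2_snd]; rfl
    change e2 i (0 : Yy P i → ZMod (P.p i)) 0 _ _ ∈ N
    rw [this]; exact N.one_mem
  add_mem' := by
    rintro u v ⟨h1, h2, h3⟩ ⟨h4, h5, h6⟩
    have hs1 : ∑ y, (u + v).1 y = 0 := by
      change ∑ y, (u.1 y + v.1 y) = 0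
      rw [Finset.sum_add_distrib, h1, h4, add_zero]
    have hs2 : ∑ y, (u + v).2 y = 0 := by
      change ∑ y, (u.2 y + v.2 y) = 0
      rw [Finset.sum_add_distrib, h2, h5, add_zero]
    refine ⟨hs1, hs2, ?_⟩
    have : e2 i (u + v).1 (u + v).2 hs1 hs2 = e2 i u.1 u.2 h1 h2 * e2 i v.1 v.2 h4 h5 := by
      apply InG.ext (i := i) (e2_InG _ _) ((e2_InG _ _).mul (e2_InG _ _))
      · change _ = (e2 i _ _ _ _).1.1.1 i * (e2 i _ _ _ _).1.1.1 i
        rw [e2_fst, e2_fst, e2_fst, ← Aff.ev_add]; rfl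
      · change _ = (e2 i _ _ _ _).1.2.1 i * (e2 i _ _ _ _).1.2.1 i
        rw [e2_snd, e2_snd, e2_snd, ← Aff.ev_add]; rfl
    rw [this]; exact N.mul_mem h3 h6
  neg_mem' := by
    rintro u ⟨h1, h2, h3⟩
    have hs1 : ∑ y, (-u).1 y = 0 := by
      change ∑ y, (-(u.1 y)) = 0
      rw [Finset.sum_neg_distrib, h1, neg_zero]
    have hs2 : ∑ y, (-u).2 y = 0 := by
      change ∑ y, (-(u.2 y)) = 0
      rw [Finset.sum_neg_distrib, h2, neg_zero]
    refine ⟨hs1, hs2, ?_⟩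
    have : e2 i (-u).1 (-u).2 hs1 hs2 = (e2 i u.1 u.2 h1 h2)⁻¹ := by
      apply InG.ext (i := i) (e2_InG _ _) ((e2_InG _ _).inv)
      · change _ = ((e2 i _ _ _ _).1.1.1 i)⁻¹
        rw [e2_fst, e2_fst, ← Aff.ev_neg]; rfl
      · change _ = ((e2 i _ _ _ _).1.2.1 i)⁻¹
        rw [e2_snd, e2_snd, ← Aff.ev_neg]; rfl
    rw [this]; exact N.inv_mem h3

lemma mem_MN {i : ℕ} {N : Subgroup (Gb P)} {u u' : Yy P i → ZMod (P.p i)} :
    (u, u') ∈ MN i N ↔ ∃ (h : ∑ y, u y = 0) (h' : ∑ y, u' y = 0), e2 i u u' h h' ∈ N := Iff.rfl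

lemma MN_act {i : ℕ} {N : Subgroup (Gb P)} (hN : N.Normal) {u u' : Yy P i → ZMod (P.p i)}
    (h : (u, u') ∈ MN i N) {g : Perm (Yy P i)} (hg : g ∈ alternatingGroup (Yy P i)) :
    (pact g u, pact g u') ∈ MN i N := by
  obtain ⟨h1, h2, h3⟩ := h
  have hs1 : ∑ y, pact g u y = 0 := by rw [sum_pact]; exact h1
  have hs2 : ∑ y, pact g u' y = 0 := by rw [sum_pact]; exact h2
  refine ⟨hs1, hs2, ?_⟩
  have h4 := hN.conj_mem _ h3 (dgA i g hg)
  convert h4 using 1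
  apply InG.ext (i := i) (e2_InG _ _) ((e2_InG _ _).conj _)
  · change _ = (dgA i _ _).1.1.1 i * (e2 i _ _ _ _).1.1.1 i * ((dgA i _ _).1.1.1 i)⁻¹
    rw [e2_fst, e2_fst, dgA_fst, Aff.conj_ev]; rfl
  · change _ = (dgA i _ _).1.2.1 i * (e2 i _ _ _ _).1.2.1 i * ((dgA i _ _).1.2.1 i)⁻¹
    rw [e2_snd, e2_snd, dgA_snd, Aff.conj_ev]; rfl

/-- elements of a normal subgroup with trivial permutation part in coordinate `i` -/
lemma key1 {i : ℕ} {N : Subgroup (Gb P)} (hN : N.Normal) {x : Gb P} (hx : x ∈ N)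
    (hs : (x.1.1.1 i).s = 1) : prG i x ∈ N := by
  have hs' : (x.1.2.1 i).s = 1 := by rw [← Gb_s]; exact hs
  have hu : ∑ y, (x.1.1.1 i).v y = 0 := (Gb_sum1 x i)
  have hu' : ∑ y, (x.1.2.1 i).v y = 0 := (Gb_sum2 x i)
  have hf : x.1.1.1 i = Aff.ev (x.1.1.1 i).v := Aff.ext rfl hs
  have hf' : x.1.2.1 i = Aff.ev (x.1.2.1 i).v := Aff.ext rfl hs'
  have h1 : ((x.1.1.1 i).v, (x.1.2.1 i).v) ∈ MN i N := by
    apply avg_pair (six_le P i) (card_lt P i) _ _ _ hu hu'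
    intro g hg
    have hs1 : ∑ y, ((x.1.1.1 i).v - pact g (x.1.1.1 i).v) y = 0 := by
      simp only [Pi.sub_apply, Finset.sum_sub_distrib, sum_pact, sub_self]
    have hs2 : ∑ y, ((x.1.2.1 i).v - pact g (x.1.2.1 i).v) y = 0 := by
      simp only [Pi.sub_apply, Finset.sum_sub_distrib, sum_pact, sub_self]
    refine ⟨hs1, hs2, ?_⟩
    have h2 := N.mul_mem hx (hN.conj_mem _ (N.inv_mem hx) (dgA i g hg))
    convert h2 using 1
    have hI : InG i (x * (dgA i g hg * x⁻¹ * (dgA i g hg)⁻¹)) := by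
      have : x * (dgA i g hg * x⁻¹ * (dgA i g hg)⁻¹) = x * dgA i g hg * x⁻¹ * (dgA i g hg)⁻¹ := by
        group
      rw [this]
      exact ((dgA_InG hg).conj x).mul (dgA_InG hg).inv
    apply InG.ext (i := i) (e2_InG _ _) hI
    · change _ = x.1.1.1 i * ((dgA i _ _).1.1.1 i * (x.1.1.1 i)⁻¹ * ((dgA i _ _).1.1.1 i)⁻¹)
      rw [e2_fst, dgA_fst, hf, ← Aff.ev_neg, Aff.conj_ev, ← Aff.ev_add, pact_neg,
        ← sub_eq_add_neg]; rfl
    · change _ = x.1.2.1 i * ((dgA i _ _).1.2.1 i * (x.1.2.1 i)⁻¹ * ((dgA i _ _).1.2.1 i)⁻¹)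
      rw [e2_snd, dgA_snd, hf', ← Aff.ev_neg, Aff.conj_ev, ← Aff.ev_add, pact_neg,
        ← sub_eq_add_neg]; rfl
  obtain ⟨h2, h3, h4⟩ := h1
  convert h4 using 1
  apply InG.ext (i := i) (prG_InG _ _) (e2_InG _ _)
  · rw [prG_fst, e2_fst]; exact hf
  · rw [prG_snd, e2_snd]; exact hf'

/-- a normal subgroup with an element of nontrivial permutation part in coordinate `i` contains the
whole coordinate -/
lemma key2 {i : ℕ} {N : Subgroup (Gb P)} (hN : N.Normal) {x : Gb P} (hx : x ∈ N)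
    (hs : (x.1.1.1 i).s ≠ 1) : ∀ z : Gb P, InG i z → z ∈ N := by
  let K : Subgroup (Perm (Yy P i)) :=
    { carrier := {g | ∃ y ∈ N, InG i y ∧ (y.1.1.1 i).s = g}
      one_mem' := ⟨1, N.one_mem, fun _ _ => ⟨rfl, rfl⟩, rfl⟩
      mul_mem' := by
        rintro a b ⟨y, hy, hy1, rfl⟩ ⟨z, hz, hz1, rfl⟩
        exact ⟨y * z, N.mul_mem hy hz, hy1.mul hz1, rfl⟩
      inv_mem' := by
        rintro a ⟨y, hy, hy1, rfl⟩
        exact ⟨y⁻¹, N.inv_mem hy, hy1.inv, rfl⟩ }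
  have hKalt : alternatingGroup (Yy P i) ≤ K := by
    -- a nontrivial commutator
    obtain ⟨g, hg, hne⟩ : ∃ g ∈ alternatingGroup (Yy P i),
        (x.1.1.1 i).s * g ≠ g * (x.1.1.1 i).s := by
      by_contra hcon
      push Not at hcon
      exact hs (eq_one_of_comm_alt (le_trans (by norm_num) (six_le P i)) _ hcon)
    have hsalt : (x.1.1.1 i).s ∈ alternatingGroup (Yy P i) := (Gb_alt x i)
    apply alt_le_of_normalized (five_le P i) K _ ((x.1.1.1 i).s * g * ((x.1.1.1 i).s)⁻¹ * g⁻¹)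
    · refine ⟨x * dgA i g hg * x⁻¹ * (dgA i g hg)⁻¹, ?_,
        ((dgA_InG hg).conj x).mul (dgA_InG hg).inv, ?_⟩
      · have h2 := N.mul_mem hx (hN.conj_mem _ (N.inv_mem hx) (dgA i g hg))
        convert h2 using 1
        group
      · change (x.1.1.1 i * (dgA i g hg).1.1.1 i * (x.1.1.1 i)⁻¹ *
          ((dgA i g hg).1.1.1 i)⁻¹).s = _
        rw [dgA_fst]; rfl
    · intro h
      rw [mul_inv_eq_one, mul_inv_eq_iff_eq_mul] at h
      exact hne h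
    · exact Subgroup.mul_mem _ (Subgroup.mul_mem _ (Subgroup.mul_mem _ hsalt hg)
        (Subgroup.inv_mem _ hsalt)) (Subgroup.inv_mem _ hg)
    · rintro a ha b ⟨y, hy, hy1, rfl⟩
      refine ⟨dgA i a ha * y * (dgA i a ha)⁻¹, hN.conj_mem _ hy _, hy1.conj _, ?_⟩
      change ((dgA i a ha).1.1.1 i * y.1.1.1 i * ((dgA i a ha).1.1.1 i)⁻¹).s = _
      rw [dgA_fst]; rfl
  have hV : ∀ u u' : Yy P i → ZMod (P.p i), ∀ (hu : ∑ y, u y = 0) (hu' : ∑ y, u' y = 0),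
      e2 i u u' hu hu' ∈ N := by
    intro u u' hu hu'
    have h1 : (u, u') ∈ MN i N := by
      apply avg_pair (six_le P i) (card_lt P i) _ _ _ hu hu'
      intro g hg
      obtain ⟨y, hy, hy1, hyg⟩ := hKalt hg
      have hs1 : ∑ y, (u - pact g u) y = 0 := by
        simp only [Pi.sub_apply, Finset.sum_sub_distrib, sum_pact, sub_self]
      have hs2 : ∑ y, (u' - pact g u') y = 0 := by
        simp only [Pi.sub_apply, Finset.sum_sub_distrib, sum_pact, sub_self]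
      refine ⟨hs1, hs2, ?_⟩
      have h2 := N.mul_mem (hN.conj_mem _ hy (e2 i u u' hu hu')) (N.inv_mem hy)
      convert h2 using 1
      have hyg' : (y.1.2.1 i).s = g := by rw [← Gb_s]; exact hyg
      apply InG.ext (i := i) (e2_InG _ _) ((hy1.conj _).mul hy1.inv)
      · change _ = (e2 i _ _ _ _).1.1.1 i * y.1.1.1 i * ((e2 i _ _ _ _).1.1.1 i)⁻¹ *
          (y.1.1.1 i)⁻¹
        rw [e2_fst, e2_fst]
        have h3 : Aff.ev u * y.1.1.1 i * (Aff.ev u)⁻¹ * (y.1.1.1 i)⁻¹ =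
            Aff.ev u * (y.1.1.1 i * Aff.ev (-u) * (y.1.1.1 i)⁻¹) := by
          rw [Aff.ev_neg]; group
        rw [h3, Aff.conj_ev, hyg, ← Aff.ev_add, pact_neg, ← sub_eq_add_neg]
      · change _ = (e2 i _ _ _ _).1.2.1 i * y.1.2.1 i * ((e2 i _ _ _ _).1.2.1 i)⁻¹ *
          (y.1.2.1 i)⁻¹
        rw [e2_snd, e2_snd]
        have h3 : Aff.ev u' * y.1.2.1 i * (Aff.ev u')⁻¹ * (y.1.2.1 i)⁻¹ =
            Aff.ev u' * (y.1.2.1 i * Aff.ev (-u') * (y.1.2.1 i)⁻¹) := by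
          rw [Aff.ev_neg]; group
        rw [h3, Aff.conj_ev, hyg', ← Aff.ev_add, pact_neg, ← sub_eq_add_neg]
    obtain ⟨_, _, h4⟩ := h1
    exact h4
  intro z hz
  have hzs : (z.1.1.1 i).s ∈ alternatingGroup (Yy P i) := (Gb_alt z i)
  obtain ⟨y, hy, hy1, hyz⟩ := hKalt hzs
  rw [hz.decomp]
  refine N.mul_mem (hV _ _ _ _) ?_
  have h1 := hy1.decomp
  have h2 : dgA i (y.1.1.1 i).s (Gb_alt y i) ∈ N := by
    have h3 : dgA i (y.1.1.1 i).s (Gb_alt y i) =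
        (e2 i (y.1.1.1 i).v (y.1.2.1 i).v (Gb_sum1 y i) (Gb_sum2 y i))⁻¹ * y := by
      exact (inv_mul_eq_of_eq_mul h1).symm
    rw [h3]
    exact N.mul_mem (N.inv_mem (hV _ _ _ _)) hy
  have h4 : dgA i (z.1.1.1 i).s hzs = dgA i (y.1.1.1 i).s (Gb_alt y i) := by
    apply (dgA_InG _).ext (dgA_InG _)
    · rw [dgA_fst, dgA_fst, hyz]
    · rw [dgA_snd, dgA_snd, hyz]
  rw [h4]
  exact h2

lemma key {i : ℕ} {N : Subgroup (Gb P)} (hN : N.Normal) {x : Gb P} (hx : x ∈ N) :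
    prG i x ∈ N := by
  by_cases hs : (x.1.1.1 i).s = 1
  · exact key1 hN hx hs
  · exact key2 hN hx hs _ (prG_InG i x)

/-- a finite-index normal subgroup is determined by its coordinate parts -/
theorem determined {N N' : Subgroup (Gb P)} (hN : N.Normal) (hN' : N'.Normal)
    (hf' : N'.index ≠ 0) (h : ∀ i x, InG i x → x ∈ N → x ∈ N') : N ≤ N' := by
  obtain ⟨j, hj⟩ := csp hN' hf'
  have main : ∀ n, n ≤ j → ∀ x ∈ N, (∀ i < j - n, x.1.1.1 i = 1 ∧ x.1.2.1 i = 1) → x ∈ N' := by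
    intro n
    induction n with
    | zero => intro _ x _ hx'; exact hj x hx'
    | succ n ih =>
      intro hn x hx hx'
      have h1 : prG (j - (n + 1)) x ∈ N := key hN hx
      have h2 := h _ _ (prG_InG _ _) h1
      have h3 : x * (prG (j - (n + 1)) x)⁻¹ ∈ N' := by
        apply ih (by omega) _ (N.mul_mem hx (N.inv_mem h1))
        intro i hi
        change x.1.1.1 i * ((prG (j - (n + 1)) x).1.1.1 i)⁻¹ = 1 ∧
          x.1.2.1 i * ((prG (j - (n + 1)) x).1.2.1 i)⁻¹ = 1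
        by_cases hi' : i = j - (n + 1)
        · subst hi'
          rw [prG_fst, prG_snd]; simp
        · rw [(prG_InG _ _ i hi').1, (prG_InG _ _ i hi').2, (hx' i (by omega)).1,
            (hx' i (by omega)).2]
          simp
      have h4 := N'.mul_mem h3 h2
      rwa [inv_mul_cancel_right] at h4
  intro x hx
  exact main j le_rfl x hx (by intro i hi; omega)

end Pool.Agent.Helper73.CG
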