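import Pool.Agent.Helper73.CG.Gam

set_option autoImplicit false
set_option linter.unusedSectionVars false

namespace Pool.Agent.Helper73.CG

open Equiv Equiv.Perm

variable {P : Par}

variable (P) in
/-- the fibre square of `A` over the permutation parts -/
abbrev Gb := ↥(fib (piA P))

lemma piA_apply (a : AT P) (i : ℕ) : piA P a i = (a.1 i).s := rfl

lemma Gb_s (x : Gb P) (i : ℕ) : (x.1.1.1 i).s = (x.1.2.1 i).s := congrFun x.2 i

/-- diagonal embedding of permutations -/
def dgS (s : PP P.k) (hs : s ∈ SS P.k) : Gb P := fib.diag (piA P) ⟨esP P s, esP_mem hs⟩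

lemma dgS_mul {s t : PP P.k} (hs : s ∈ SS P.k) (ht : t ∈ SS P.k) :
    dgS (s * t) ((SS P.k).mul_mem hs ht) = dgS s hs * dgS t ht := by
  apply Subtype.ext
  apply Prod.ext
  · apply Subtype.ext
    exact map_mul (esP P) s t
  · apply Subtype.ext
    exact map_mul (esP P) s t

lemma dgS_inv {s : PP P.k} (hs : s ∈ SS P.k) :
    dgS (s⁻¹) ((SS P.k).inv_mem hs) = (dgS s hs)⁻¹ := by
  apply Subtype.ext
  apply Prod.ext
  · apply Subtype.ext
    exact map_inv (esP P) s
  · apply Subtype.ext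
    exact map_inv (esP P) s

/-- truncation on `A` -/
def trT (P : Par) (j : ℕ) : AT P →* AT P :=
  ((trA P j).comp (Ag P).subtype).codRestrict (Ag P) (fun a => trA_mem a.2 j)

lemma trT_val (j : ℕ) (a : AT P) : (trT P j a).1 = trA P j a.1 := rfl

lemma piA_trT {j : ℕ} {a : AT P} (h : piA P a = 1) : piA P (trT P j a) = 1 := by
  funext i
  rw [piA_apply, trT_val, trA_apply]
  split_ifs with h1
  · exact congrFun h i
  · rfl

/-- first-factor truncations lie in a finite-index normal subgroup -/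
lemma csp_in1 {N : Subgroup (Gb P)} (hN : N.Normal) {j : ℕ}
    (hj : ∀ s (hs : s ∈ SS P.k), (∀ i < j, s i = 1) → dgS s hs ∈ N)
    (a : AT P) (ha : a ∈ (piA P).ker) : fib.in1 (trT P j a) (piA_trT ha) ∈ N := by
  -- normality in terms of `in1`
  have hconj : ∀ (b : AT P) (w : AT P) (hw : w ∈ (piA P).ker),
      fib.in1 w hw ∈ N → fib.in1 (b * w * b⁻¹) ((piA P).normal_ker.conj_mem _ hw b) ∈ N := by
    intro b w hw h
    have h1 := hN.conj_mem _ h (fib.diag (piA P) b)
    have h2 : fib.diag (piA P) b * fib.in1 w hw * (fib.diag (piA P) b)⁻¹ =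
        fib.in1 (b * w * b⁻¹) ((piA P).normal_ker.conj_mem _ hw b) := by
      apply Subtype.ext
      change (b * w * b⁻¹, b * 1 * b⁻¹) = (b * w * b⁻¹, 1)
      rw [mul_one, mul_inv_cancel]
    rwa [h2] at h1
  let M : Subgroup (AA P) :=
    { carrier := {x | ∃ (hx : x ∈ Ag P) (h2 : (⟨x, hx⟩ : AT P) ∈ (piA P).ker),
        fib.in1 (trT P j ⟨x, hx⟩) (piA_trT h2) ∈ N}
      one_mem' := by
        refine ⟨(Ag P).one_mem, (piA P).ker.one_mem, ?_⟩
        have : fib.in1 (trT P j (⟨1, (Ag P).one_mem⟩ : AT P))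
            (piA_trT (piA P).ker.one_mem) = 1 := by
          apply Subtype.ext
          apply Prod.ext
          · exact map_one (trT P j)
          · rfl
        rw [this]; exact N.one_mem
      mul_mem' := by
        rintro a b ⟨ha, ha2, ha3⟩ ⟨hb, hb2, hb3⟩
        refine ⟨(Ag P).mul_mem ha hb, (piA P).ker.mul_mem ha2 hb2, ?_⟩
        have h1 := N.mul_mem ha3 hb3
        convert h1 using 1
        apply Subtype.ext
        apply Prod.ext
        · exact map_mul (trT P j) (⟨a, ha⟩ : AT P) ⟨b, hb⟩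
        · change (1 : AT P) = 1 * 1
          rw [one_mul]
      inv_mem' := by
        rintro a ⟨ha, ha2, ha3⟩
        refine ⟨(Ag P).inv_mem ha, (piA P).ker.inv_mem ha2, ?_⟩
        have h1 := N.inv_mem ha3
        convert h1 using 1
        apply Subtype.ext
        apply Prod.ext
        · exact map_inv (trT P j) (⟨a, ha⟩ : AT P)
        · change (1 : AT P) = 1⁻¹
          rw [inv_one] }
  have hMconj : ∀ s ∈ SS P.k, ∀ x ∈ M, esP P s * x * (esP P s)⁻¹ ∈ M := by
    rintro s hs x ⟨hx, hx2, hx3⟩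
    have hes := esP_mem hs
    refine ⟨(Ag P).mul_mem ((Ag P).mul_mem hes hx) ((Ag P).inv_mem hes),
      (piA P).normal_ker.conj_mem _ hx2 (⟨esP P s, hes⟩ : AT P), ?_⟩
    have h1 := hconj (trT P j ⟨esP P s, hes⟩) _ _ hx3
    convert h1 using 1
    apply Subtype.ext
    apply Prod.ext
    · change trT P j ((⟨esP P s, hes⟩ : AT P) * ⟨x, hx⟩ * (⟨esP P s, hes⟩ : AT P)⁻¹) = _
      rw [map_mul, map_mul, map_inv]; rfl
    · rfl
  have hvv : vv P ∈ M := by
    -- a commutator
    set c : Perm (Option (Fin 8)) := cyc none (some 1) (some 2) with hc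
    have hcS : (mk c : PP P.k) ∈ SS P.k := mk_mem (cyc_mem_alt (by decide) (by decide) (by decide))
    have hcA := esP_mem hcS
    -- the truncated permutation
    have htS : trunc j (mk c : PP P.k) ∈ SS P.k := by
      have h1 : prP P (trA P j (esP P (mk c))) ∈ SS P.k := prP_mem (trA_mem hcA j)
      have h2 : prP P (trA P j (esP P (mk c))) = trunc j (mk c) := by
        funext i
        rw [prP_apply, trA_apply, trunc_apply]
        split_ifs <;> rfl
      rwa [h2] at h1
    have hn : dgS (trunc j (mk c)) htS ∈ N := by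
      apply hj
      intro i hi
      rw [trunc_apply, if_neg (by omega)]
    have hvk : (⟨vv P, vv_mem⟩ : AT P) ∈ (piA P).ker := prP_vv
    set v1 := fib.in1 (trT P j (⟨vv P, vv_mem⟩ : AT P)) (piA_trT hvk) with hv1
    have h1 := N.mul_mem (hN.conj_mem _ hn v1) (N.inv_mem hn)
    -- the resulting vector
    let w1 : AA P := fun i => Aff.ev (dl (P.p i) none - dl (P.p i) (some (1, 0)))
    have hw1 : w1 = vv P * esP P (mk c) * (vv P)⁻¹ * (esP P (mk c))⁻¹ := by
      funext i
      change Aff.ev _ = vv P i * Aff.es (mp c) * (vv P i)⁻¹ * (Aff.es (mp c))⁻¹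
      have h2 : vv P i * Aff.es (mp c) * (vv P i)⁻¹ * (Aff.es (mp c))⁻¹ =
          vv P i * (Aff.es (mp c) * (vv P i)⁻¹ * (Aff.es (mp c))⁻¹) := by group
      rw [h2, vv, ← Aff.ev_neg, Aff.conj_ev, Aff.es_s, ← Aff.ev_add, pact_neg, pact_sub, pact_dl,
        pact_dl, mp_none, mp_some, hc, cyc_apply_a (by decide) (by decide),
        cyc_apply_of_ne (by decide) (by decide) (by decide)]
      congr 1
      simp only [emb_some]
      abel
    have hw1A : w1 ∈ Ag P := by
      rw [hw1]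
      exact (Ag P).mul_mem ((Ag P).mul_mem ((Ag P).mul_mem vv_mem hcA) ((Ag P).inv_mem vv_mem))
        ((Ag P).inv_mem hcA)
    have hw1k : (⟨w1, hw1A⟩ : AT P) ∈ (piA P).ker := rfl
    have hw1N : fib.in1 (trT P j (⟨w1, hw1A⟩ : AT P)) (piA_trT hw1k) ∈ N := by
      convert h1 using 1
      apply Subtype.ext
      apply Prod.ext
      · apply Subtype.ext
        change trA P j w1 = trA P j (vv P) * esP P (trunc j (mk c)) * (trA P j (vv P))⁻¹ *
          (esP P (trunc j (mk c)))⁻¹
        have h3 : esP P (trunc j (mk c)) = trA P j (esP P (mk c)) := by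
          funext i
          rw [esP_apply, trA_apply, trunc_apply]
          split_ifs <;> rfl
        rw [h3, hw1, map_mul, map_mul, map_mul, map_inv, map_inv]
      · apply Subtype.ext
        change (1 : AA P) = 1 * esP P (trunc j (mk c)) * 1⁻¹ * (esP P (trunc j (mk c)))⁻¹
        group
    have hw1M : w1 ∈ M := ⟨hw1A, hw1k, hw1N⟩
    have h4 := hMconj _ (loc_top_mem (cyc8 1 0 2 (by decide))) _ hw1M
    convert h4 using 1
    funext i
    change vv P i = Aff.es ((loc (cyc 1 0 2) ⊤ : PP P.k) i) *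
      Aff.ev (dl (P.p i) none - dl (P.p i) (some (1, 0))) *
      (Aff.es ((loc (cyc 1 0 2) ⊤ : PP P.k) i))⁻¹
    rw [Aff.conj_ev, Aff.es_s, pact_sub, pact_dl, pact_dl, loc_top_apply, rp_none, rp_some,
      cyc_apply_a (by decide) (by decide)]
    rfl
  have hV : Vcl P ≤ M := by
    conv_lhs => rw [Vcl]
    rw [Subgroup.closure_le]
    rintro x ⟨s, hs, rfl⟩
    exact hMconj s hs _ hvv
  obtain ⟨_, _, h3⟩ := hV (mem_Vcl_of_prP a.2 ha)
  exact h3

/-- the swapped subgroup -/
def swN (N : Subgroup (Gb P)) : Subgroup (Gb P) := N.comap (fib.swap (piA P)).toMonoidHom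

lemma swN_normal {N : Subgroup (Gb P)} (hN : N.Normal) : (swN N).Normal := hN.comap _

lemma mem_swN {N : Subgroup (Gb P)} {x : Gb P} : x ∈ swN N ↔ fib.swap (piA P) x ∈ N := Iff.rfl

/-- congruence subgroup property of the fibre square -/
theorem csp {N : Subgroup (Gb P)} (hN : N.Normal) (hfin : N.index ≠ 0) :
    ∃ j, ∀ x : Gb P, (∀ i < j, x.1.1.1 i = 1 ∧ x.1.2.1 i = 1) → x ∈ N := by
  let N' : Subgroup (PP P.k) :=
    { carrier := {s | ∃ hs : s ∈ SS P.k, dgS s hs ∈ N}
      one_mem' := ⟨(SS P.k).one_mem, by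
        have : dgS 1 (SS P.k).one_mem = (1 : Gb P) := rfl
        rw [this]; exact N.one_mem⟩
      mul_mem' := by
        rintro a b ⟨ha, ha'⟩ ⟨hb, hb'⟩
        exact ⟨(SS P.k).mul_mem ha hb, by rw [dgS_mul ha hb]; exact N.mul_mem ha' hb'⟩
      inv_mem' := by
        rintro a ⟨ha, ha'⟩
        exact ⟨(SS P.k).inv_mem ha, by rw [dgS_inv ha]; exact N.inv_mem ha'⟩ }
  have hNor : Nor N' := by
    refine ⟨fun s hs => hs.1, ?_⟩
    rintro s hs n ⟨hn, hn'⟩
    refine ⟨(SS P.k).mul_mem ((SS P.k).mul_mem hs hn) ((SS P.k).inv_mem hs), ?_⟩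
    rw [dgS_mul ((SS P.k).mul_mem hs hn) ((SS P.k).inv_mem hs), dgS_mul hs hn, dgS_inv hs]
    exact hN.conj_mem _ hn' (dgS s hs)
  have hr : ∀ s ∈ SS P.k, s ^ N.index ∈ N' := by
    intro s hs
    refine ⟨(SS P.k).pow_mem hs _, ?_⟩
    have h1 : dgS (s ^ N.index) ((SS P.k).pow_mem hs _) = (dgS s hs) ^ N.index := by
      apply Subtype.ext
      apply Prod.ext
      · apply Subtype.ext
        exact map_pow (esP P) s N.index
      · apply Subtype.ext
        exact map_pow (esP P) s N.index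
    rw [h1]
    exact N.pow_index_mem _
  obtain ⟨j, hj⟩ := S_csp P.hk hNor hfin hr
  have hj' : ∀ s (hs : s ∈ SS P.k), (∀ i < j, s i = 1) → dgS s hs ∈ N := by
    intro s hs h
    have h1 : trunc j s = s := by
      funext i
      rw [trunc_apply]
      split_ifs with h2
      · rfl
      · exact (h i (by omega)).symm
    obtain ⟨h2, h3⟩ := hj s hs
    have h4 : dgS (trunc j s) h2 = dgS s hs := by
      apply Subtype.ext
      apply Prod.ext
      · apply Subtype.ext
        change esP P (trunc j s) = esP P s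
        rw [h1]
      · apply Subtype.ext
        change esP P (trunc j s) = esP P s
        rw [h1]
    rwa [h4] at h3
  refine ⟨j, fun x hx => ?_⟩
  have hsS : prP P x.1.1.1 ∈ SS P.k := prP_mem x.1.1.2
  have hs12 : prP P x.1.1.1 = prP P x.1.2.1 := x.2
  set s := prP P x.1.1.1 with hs
  have hsj : ∀ i < j, s i = 1 := by
    intro i hi
    rw [hs, prP_apply, (hx i hi).1]; rfl
  set es' : AT P := ⟨esP P s, esP_mem hsS⟩ with hes
  have hk1 : x.1.1 * es'⁻¹ ∈ (piA P).ker := by
    rw [MonoidHom.mem_ker, map_mul, map_inv, mul_inv_eq_one]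
    rfl
  have hk2 : x.1.2 * es'⁻¹ ∈ (piA P).ker := by
    rw [MonoidHom.mem_ker, map_mul, map_inv, mul_inv_eq_one]
    exact hs12.symm
  have hes1 : ∀ i < j, es'.1 i = 1 := by
    intro i hi
    change Aff.es (s i) = 1
    rw [hsj i hi, map_one]
  have ht1 : trT P j (x.1.1 * es'⁻¹) = x.1.1 * es'⁻¹ := by
    apply Subtype.ext
    apply trA_eq
    intro i hi
    change x.1.1.1 i * (es'.1 i)⁻¹ = 1
    rw [(hx i hi).1, hes1 i hi]; simp
  have ht2 : trT P j (x.1.2 * es'⁻¹) = x.1.2 * es'⁻¹ := by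
    apply Subtype.ext
    apply trA_eq
    intro i hi
    change x.1.2.1 i * (es'.1 i)⁻¹ = 1
    rw [(hx i hi).2, hes1 i hi]; simp
  have h1 := csp_in1 hN hj' _ hk1
  have h2 := csp_in1 (swN_normal hN) (j := j) (fun s hs h => by
    rw [mem_swN]; exact hj' s hs h) _ hk2
  rw [mem_swN] at h2
  have h3 := N.mul_mem (N.mul_mem h1 h2) (hj' s hsS hsj)
  convert h3 using 1
  apply Subtype.ext
  apply Prod.ext
  · change x.1.1 = trT P j (x.1.1 * es'⁻¹) * 1 * es'
    rw [ht1]; group
  · change x.1.2 = 1 * trT P j (x.1.2 * es'⁻¹) * es'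
    rw [ht2]; group

end Pool.Agent.Helper73.CG
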