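import Pool.Agent.Helper73.CG.Act

set_option autoImplicit false
set_option linter.unusedSectionVars false

namespace Pool.Agent.Helper73.CG

open Equiv Equiv.Perm

/-- finite generation of a fibre square -/
lemma fib_fg {G Q : Type*} [Group G] [Group Q] (π : G →* Q) (E E2 : Set G) (hE : E.Finite)
    (hE2 : E2.Finite) (hG : Subgroup.closure E = ⊤) (hE2k : E2 ⊆ π.ker)
    (hker : π.ker ≤ Subgroup.normalClosure E2) : Group.FG (fib π) := by
  rw [Group.fg_iff]
  let T : Set (fib π) := fib.diag π '' E ∪ {x | ∃ k, ∃ hk : k ∈ E2, x = fib.in2 k (hE2k hk)}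
  have hTfin : T.Finite := by
    refine (hE.image _).union ?_
    have : {x | ∃ k, ∃ hk : k ∈ E2, x = fib.in2 k (hE2k hk)} =
        (fun k : E2 => fib.in2 k.1 (hE2k k.2)) '' Set.univ := by
      ext x
      constructor
      · rintro ⟨k, hk, rfl⟩; exact ⟨⟨k, hk⟩, trivial, rfl⟩
      · rintro ⟨⟨k, hk⟩, -, rfl⟩; exact ⟨k, hk, rfl⟩
    rw [this]
    have : Finite E2 := hE2
    exact Set.finite_univ.image _
  refine ⟨T, ?_, hTfin⟩
  set D := Subgroup.closure T with hD
  have hdiag : ∀ g, fib.diag π g ∈ D := by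
    have h1 : Subgroup.closure E ≤ D.comap (fib.diag π) := by
      rw [Subgroup.closure_le]
      intro g hg
      exact Subgroup.subset_closure (Or.inl ⟨g, hg, rfl⟩)
    intro g
    apply h1
    rw [hG]; trivial
  let M : Subgroup G :=
    { carrier := {k | ∃ hk : k ∈ π.ker, fib.in2 k hk ∈ D}
      one_mem' := ⟨π.ker.one_mem, by
        have : fib.in2 (1 : G) π.ker.one_mem = 1 := rfl
        rw [this]; exact D.one_mem⟩
      mul_mem' := by
        rintro a b ⟨ha, ha'⟩ ⟨hb, hb'⟩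
        refine ⟨π.ker.mul_mem ha hb, ?_⟩
        have : fib.in2 (a * b) (π.ker.mul_mem ha hb) = fib.in2 a ha * fib.in2 b hb := by
          apply Subtype.ext
          change ((1 : G), a * b) = (1 * 1, a * b)
          rw [one_mul]
        rw [this]; exact D.mul_mem ha' hb'
      inv_mem' := by
        rintro a ⟨ha, ha'⟩
        refine ⟨π.ker.inv_mem ha, ?_⟩
        have : fib.in2 (a⁻¹) (π.ker.inv_mem ha) = (fib.in2 a ha)⁻¹ := by
          apply Subtype.ext
          change ((1 : G), a⁻¹) = (1⁻¹, a⁻¹)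
          rw [inv_one]
        rw [this]; exact D.inv_mem ha' }
  have hMn : M.Normal := by
    constructor
    rintro k ⟨hk, hk'⟩ g
    refine ⟨π.normal_ker.conj_mem _ hk g, ?_⟩
    have : fib.in2 (g * k * g⁻¹) (π.normal_ker.conj_mem _ hk g) =
        fib.diag π g * fib.in2 k hk * (fib.diag π g)⁻¹ := by
      apply Subtype.ext
      change ((1 : G), g * k * g⁻¹) = (g * 1 * g⁻¹, g * k * g⁻¹)
      rw [mul_one, mul_inv_cancel]
    rw [this]
    exact D.mul_mem (D.mul_mem (hdiag g) hk') (D.inv_mem (hdiag g))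
  have hM : π.ker ≤ M := by
    refine hker.trans (Subgroup.normalClosure_le_normal ?_)
    intro k hk
    exact ⟨hE2k hk, Subgroup.subset_closure (Or.inr ⟨k, hk, rfl⟩)⟩
  rw [eq_top_iff]
  rintro x -
  have hk : (x.1.1)⁻¹ * x.1.2 ∈ π.ker := by
    rw [MonoidHom.mem_ker, map_mul, map_inv, inv_mul_eq_one]
    exact x.2
  obtain ⟨hk', h1⟩ := hM hk
  have h2 : x = fib.diag π x.1.1 * fib.in2 _ hk' := by
    apply Subtype.ext
    apply Prod.ext
    · change x.1.1 = x.1.1 * 1
      rw [mul_one]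
    · change x.1.2 = x.1.1 * ((x.1.1)⁻¹ * x.1.2)
      group
  rw [h2]
  exact D.mul_mem (hdiag _) h1

variable (P : Par)

/-- the finite simple group used in the wreath product -/
abbrev BB := alternatingGroup (Fin 5)

/-- the wreath product -/
abbrev GG := Wr (XX P) BB (AT P)

/-- projection of `A` to the permutation parts -/
def piA : AT P →* PP P.k := (prP P).comp (Ag P).subtype

/-- projection of the wreath product to the permutation parts -/
noncomputable def piG : GG P →* PP P.k := (piA P).comp Wr.topHom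

/-- the final group -/
abbrev Gam := ↥(fib (piG P))

instance : IsSimpleGroup BB := alternatingGroup.isSimpleGroup (by simp)

lemma BB_nonab : ∃ b c : BB, b * c ≠ c * b := by
  by_contra hcon
  push Not at hcon
  have h1 : cyc (0 : Fin 5) 1 2 ∈ alternatingGroup (Fin 5) :=
    cyc_mem_alt (by decide) (by decide) (by decide)
  have h2 : cyc (0 : Fin 5) 1 2 = 1 := by
    apply eq_one_of_comm_alt (by simp)
    intro x hx
    have h3 := hcon ⟨_, h1⟩ ⟨x, hx⟩
    exact congrArg Subtype.val h3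
  revert h2
  decide

variable {P}

theorem GG_outFin : OutFin (GG P) := by
  obtain ⟨F, hF, hR⟩ := XX_rigid (P := P)
  exact Wr.outFin BB_nonab XX_trans XX_faithful (fun f hf => XX_ends f hf) (xo P) F hF hR

lemma piG_cen (x : GG P) (h : ∀ g, piG P x * piG P g = piG P g * piG P x) : piG P x = 1 := by
  funext i
  apply eq_one_of_comm_alt (le_trans (by norm_num) (six_le P i))
  intro g hg
  have h1 := h (Wr.tp (⟨esP P (Pi.mulSingle i g), esP_mem (single_mem_SS P.hk i g hg)⟩ : AT P))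
  have h2 := congrFun h1 i
  have h3 : piG P (Wr.tp (⟨esP P (Pi.mulSingle i g), esP_mem (single_mem_SS P.hk i g hg)⟩ : AT P)) =
    Pi.mulSingle i g := rfl
  rw [Pi.mul_apply, Pi.mul_apply, h3, Pi.mulSingle_eq_same] at h2
  exact h2

theorem Gam_outFin : OutFin (Gam P) := by
  have hn : (Wr.topHom : GG P →* AT P).ker.Normal := inferInstance
  refine fib.outFin (π := piG P) (Wr.topHom : GG P →* AT P).ker ?_ ?_ ?_ piG_cen GG_outFin
  · intro g hg
    rw [MonoidHom.mem_ker] at hg ⊢
    rw [piG, MonoidHom.comp_apply, hg, map_one]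
  · intro N hN hne g hg
    apply Wr.base_le _ hg
    intro x b
    exact Wr.normal_contains BB_nonab XX_trans XX_faithful hN hne x b
  · obtain ⟨b, c, hbc⟩ := BB_nonab
    refine ⟨Wr.bs (xo P) b, rfl, Wr.bs (xo P) c, rfl, ?_⟩
    rw [← map_mul, ← map_mul]
    intro h
    exact hbc (Wr.bs_injective _ h)

variable (P) in
/-- generators of `A` -/
def genA : Set (AT P) := (Subtype.val : AT P → AA P) ⁻¹' (esP P '' gens P.k ∪ {vv P})

lemma genA_closure : Subgroup.closure (genA P) = ⊤ := Subgroup.closure_closure_coe_preimage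

lemma genA_finite : (genA P).Finite := by
  refine Set.Finite.preimage Subtype.val_injective.injOn ?_
  exact ((gens_finite P.k).image _).union (Set.finite_singleton _)

lemma bs_conj_tp (a : AT P) (x : XX P) (b : BB) :
    Wr.tp a * Wr.bs x b * (Wr.tp a)⁻¹ = (Wr.bs (a • x) b : GG P) := by
  rw [Wr.conj_bs]
  simp

lemma ker_le (N : Subgroup (GG P)) (hN : N.Normal) (h1 : ∀ b, Wr.bs (xo P) b ∈ N)
    (h2 : Wr.tp (⟨vv P, vv_mem⟩ : AT P) ∈ N) : (piG P).ker ≤ N := by
  have hbs : ∀ x b, Wr.bs x b ∈ N := by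
    intro x b
    obtain ⟨a, rfl⟩ := XX_trans (xo P) x
    rw [← bs_conj_tp]
    exact hN.conj_mem _ (h1 b) _
  let M : Subgroup (AA P) :=
    { carrier := {x | ∃ hx : x ∈ Ag P, Wr.tp (⟨x, hx⟩ : AT P) ∈ N}
      one_mem' := ⟨(Ag P).one_mem, by
        have : (⟨1, (Ag P).one_mem⟩ : AT P) = 1 := rfl
        rw [this, map_one]; exact N.one_mem⟩
      mul_mem' := by
        rintro a b ⟨ha, ha'⟩ ⟨hb, hb'⟩
        refine ⟨(Ag P).mul_mem ha hb, ?_⟩
        have : (⟨a * b, (Ag P).mul_mem ha hb⟩ : AT P) = ⟨a, ha⟩ * ⟨b, hb⟩ := rfl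
        rw [this, map_mul]; exact N.mul_mem ha' hb'
      inv_mem' := by
        rintro a ⟨ha, ha'⟩
        refine ⟨(Ag P).inv_mem ha, ?_⟩
        have : (⟨a⁻¹, (Ag P).inv_mem ha⟩ : AT P) = (⟨a, ha⟩ : AT P)⁻¹ := rfl
        rw [this, map_inv]; exact N.inv_mem ha' }
  have hM : Vcl P ≤ M := by
    conv_lhs => rw [Vcl]
    rw [Subgroup.closure_le]
    rintro x ⟨s, hs, rfl⟩
    refine ⟨(Ag P).mul_mem ((Ag P).mul_mem (esP_mem hs) vv_mem) ((Ag P).inv_mem (esP_mem hs)), ?_⟩
    have : (⟨esP P s * vv P * (esP P s)⁻¹, (Ag P).mul_mem ((Ag P).mul_mem (esP_mem hs) vv_mem)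
      ((Ag P).inv_mem (esP_mem hs))⟩ : AT P) = ⟨esP P s, esP_mem hs⟩ * ⟨vv P, vv_mem⟩ *
        (⟨esP P s, esP_mem hs⟩)⁻¹ := rfl
    rw [this, map_mul, map_mul, map_inv]
    exact hN.conj_mem _ h2 _
  intro g hg
  obtain ⟨h, hh, hgh⟩ := Wr.eq_base_mul_tp g
  rw [hgh]
  refine N.mul_mem (Wr.base_le hbs hh) ?_
  have hga : prP P g.a.1 = 1 := hg
  obtain ⟨_, h3⟩ := hM (mem_Vcl_of_prP g.a.2 hga)
  exact h3

theorem Gam_fg : Group.FG (Gam P) := by
  refine fib_fg (piG P) (Wr.tp '' genA P ∪ Set.range (Wr.bs (xo P)))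
    ({Wr.tp (⟨vv P, vv_mem⟩ : AT P)} ∪ Set.range (Wr.bs (xo P)))
    ((genA_finite.image _).union (Set.finite_range _))
    ((Set.finite_singleton _).union (Set.finite_range _)) ?_ ?_ ?_
  · rw [eq_top_iff]
    rintro g -
    have htp : ∀ a, Wr.tp a ∈ Subgroup.closure (Wr.tp '' genA P ∪ Set.range (Wr.bs (xo P)) :
        Set (GG P)) := by
      have h1 : Subgroup.closure (genA P) ≤ (Subgroup.closure (Wr.tp '' genA P ∪
          Set.range (Wr.bs (xo P)) : Set (GG P))).comap Wr.tp := by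
        rw [Subgroup.closure_le]
        intro a ha
        exact Subgroup.subset_closure (Or.inl ⟨a, ha, rfl⟩)
      intro a
      apply h1
      rw [genA_closure]; trivial
    apply Wr.mem_of_bs_tp _ htp
    intro x b
    obtain ⟨a, rfl⟩ := XX_trans (xo P) x
    rw [← bs_conj_tp]
    exact Subgroup.mul_mem _ (Subgroup.mul_mem _ (htp a) (Subgroup.subset_closure
      (Or.inr ⟨b, rfl⟩))) (Subgroup.inv_mem _ (htp a))
  · rintro x (hx | ⟨b, rfl⟩)
    · rw [Set.mem_singleton_iff] at hx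
      subst hx
      exact prP_vv
    · change piA P _ = 1
      exact map_one (piA P)
  · apply ker_le _ Subgroup.normalClosure_normal
    · intro b
      exact Subgroup.subset_normalClosure (Or.inr ⟨b, rfl⟩)
    · exact Subgroup.subset_normalClosure (Or.inl rfl)

end Pool.Agent.Helper73.CG
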