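import Pool.Agent.Helper73.CG.Inv

set_option autoImplicit false
set_option linter.unusedSectionVars false

namespace Pool.Agent.Helper73.CG

open Equiv Equiv.Perm

/-- normal subgroups of index at most `n` -/
abbrev NS (G : Type*) [Group G] (n : ℕ) : Type _ :=
  {H : Subgroup G // H.Normal ∧ H.index ≠ 0 ∧ H.index ≤ n}

/-- characteristic subgroups of index at most `n` -/
abbrev CS (G : Type*) [Group G] (n : ℕ) : Type _ :=
  {H : Subgroup G // H.Characteristic ∧ H.index ≠ 0 ∧ H.index ≤ n}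

/-- finiteness of `Out` -/
lemma OutFin.finite {G : Type*} [Group G] (h : OutFin G) :
    Finite (MulAut G ⧸ (MulAut.conj : G →* MulAut G).range) := by
  obtain ⟨F, hF, h⟩ := h
  have : Finite F := hF
  apply Finite.of_surjective (fun φ : F => (φ.1 : MulAut G ⧸ (MulAut.conj : G →* MulAut G).range))
  intro q
  obtain ⟨θ, rfl⟩ := QuotientGroup.mk_surjective q
  obtain ⟨g, φ, hφ, hθ⟩ := h θ
  refine ⟨⟨φ, hφ⟩, ?_⟩
  simp only
  rw [QuotientGroup.eq]
  refine ⟨φ⁻¹ g, ?_⟩
  rw [hθ]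
  ext x
  have h1 : φ (φ⁻¹ g) = g := by
    change (φ * φ⁻¹) g = g
    rw [mul_inv_cancel]; rfl
  have h2 : ∀ y, φ⁻¹ (φ y) = y := by
    intro y
    change (φ⁻¹ * φ) y = y
    rw [inv_mul_cancel]; rfl
  simp only [MulAut.mul_apply, MulAut.conj_apply, map_mul, map_inv, h2]

variable {P : Par}

variable (P) in
/-- the projection of the final group to the fibre square of `A` -/
noncomputable def toGb : Gam P →* Gb P where
  toFun x := ⟨(x.1.1.a, x.1.2.a), x.2⟩
  map_one' := rfl
  map_mul' _ _ := rfl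

lemma toGb_surj : Function.Surjective (toGb P) := by
  intro y
  exact ⟨⟨(Wr.tp y.1.1, Wr.tp y.1.2), y.2⟩, rfl⟩

lemma toGb_swap (x : Gam P) : toGb P (fib.swap (piG P) x) = fib.swap (piA P) (toGb P x) := rfl

lemma base_in_ker {g : GG P} (hg : g.a = 1) : g ∈ (piG P).ker := by
  rw [MonoidHom.mem_ker, piG, MonoidHom.comp_apply, Wr.topHom_apply, hg, map_one]

lemma base1 {H : Subgroup (Gam P)} (hH : H.Normal) (hf : H.index ≠ 0) {g : GG P} (hg : g.a = 1) :
    fib.in1 g (base_in_ker hg) ∈ H := by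
  let K1 : Subgroup (GG P) :=
    { carrier := {g | ∃ hg : g ∈ (piG P).ker, fib.in1 g hg ∈ H}
      one_mem' := ⟨(piG P).ker.one_mem, by
        have : fib.in1 (1 : GG P) (piG P).ker.one_mem = 1 := rfl
        rw [this]; exact H.one_mem⟩
      mul_mem' := by
        rintro a b ⟨ha, ha'⟩ ⟨hb, hb'⟩
        refine ⟨(piG P).ker.mul_mem ha hb, ?_⟩
        have h1 := H.mul_mem ha' hb'
        convert h1 using 1
        apply Subtype.ext
        change (a * b, (1 : GG P)) = (a * b, 1 * 1)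
        rw [one_mul]
      inv_mem' := by
        rintro a ⟨ha, ha'⟩
        refine ⟨(piG P).ker.inv_mem ha, ?_⟩
        have h1 := H.inv_mem ha'
        convert h1 using 1
        apply Subtype.ext
        change (a⁻¹, (1 : GG P)) = (a⁻¹, 1⁻¹)
        rw [inv_one] }
  have hKn : K1.Normal := by
    constructor
    rintro k ⟨hk, hk'⟩ h
    refine ⟨(piG P).normal_ker.conj_mem _ hk h, ?_⟩
    have h1 := hH.conj_mem _ hk' (fib.diag (piG P) h)
    convert h1 using 1
    apply Subtype.ext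
    change (h * k * h⁻¹, (1 : GG P)) = (h * k * h⁻¹, h * 1 * h⁻¹)
    rw [mul_one, mul_inv_cancel]
  have hne : K1 ≠ ⊥ := by
    intro hbot
    have : H.FiniteIndex := ⟨hf⟩
    have : Finite (Gam P ⧸ H) := Subgroup.finite_quotient_of_finiteIndex
    obtain ⟨b, c, hbc⟩ := BB_nonab
    have hb : b ≠ 1 := by
      rintro rfl
      simp at hbc
    obtain ⟨x, y, hxy, h1⟩ := Finite.exists_ne_map_eq_of_infinite
      (fun x : XX P => (fib.in1 (Wr.bs x b) (base_in_ker (Wr.bs_a x b)) : Gam P ⧸ H))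
    rw [QuotientGroup.eq] at h1
    have h2 : (Wr.bs x b)⁻¹ * Wr.bs y b ∈ K1 := by
      refine ⟨(piG P).ker.mul_mem ((piG P).ker.inv_mem (base_in_ker (Wr.bs_a x b)))
        (base_in_ker (Wr.bs_a y b)), ?_⟩
      convert h1 using 1
      apply Subtype.ext
      change ((Wr.bs x b)⁻¹ * Wr.bs y b, (1 : GG P)) = ((Wr.bs x b)⁻¹ * Wr.bs y b, 1⁻¹ * 1)
      simp
    rw [hbot, Subgroup.mem_bot, inv_mul_eq_one] at h2
    have h3 := congrArg (fun g : GG P => g.f x) h2
    simp only [Wr.bs_f_same] at h3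
    rw [Wr.bs_f_ne hxy] at h3
    exact hb h3
  have hall : g ∈ K1 := by
    apply Wr.base_le _ hg
    intro x b
    exact Wr.normal_contains BB_nonab XX_trans XX_faithful hKn hne x b
  obtain ⟨_, h⟩ := hall
  exact h

lemma ker_le_fin {H : Subgroup (Gam P)} (hH : H.Normal) (hf : H.index ≠ 0) :
    (toGb P).ker ≤ H := by
  intro x hx
  have h1 : x.1.1.a = 1 := congrArg (fun y : Gb P => y.1.1) hx
  have h2 : x.1.2.a = 1 := congrArg (fun y : Gb P => y.1.2) hx
  have h3 := base1 hH hf h1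
  have hH' : (H.comap (fib.swap (piG P)).toMonoidHom).Normal := hH.comap _
  have hf' : (H.comap (fib.swap (piG P)).toMonoidHom).index ≠ 0 := by
    rw [Subgroup.index_comap_of_surjective _ (fib.swap (piG P)).surjective]
    exact hf
  have h4 : fib.swap (piG P) (fib.in1 x.1.2 (base_in_ker h2)) ∈ H := base1 hH' hf' h2
  have h5 := H.mul_mem h3 h4
  convert h5 using 1
  apply Subtype.ext
  apply Prod.ext
  · change x.1.1 = x.1.1 * 1
    rw [mul_one]
  · change x.1.2 = 1 * x.1.2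
    rw [one_mul]

lemma comap_map_eq' {H : Subgroup (Gam P)} (hH : H.Normal) (hf : H.index ≠ 0) :
    (H.map (toGb P)).comap (toGb P) = H := by
  rw [Subgroup.comap_map_eq, sup_eq_left]
  exact ker_le_fin hH hf

lemma index_map' {H : Subgroup (Gam P)} (hH : H.Normal) (hf : H.index ≠ 0) :
    (H.map (toGb P)).index = H.index := by
  rw [← Subgroup.index_comap_of_surjective _ toGb_surj, comap_map_eq' hH hf]

lemma map_SwI {H : Subgroup (Gam P)} (hH : H.Characteristic) : SwI (H.map (toGb P)) := by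
  rintro x ⟨y, hy, rfl⟩
  refine ⟨fib.swap (piG P) y, ?_, rfl⟩
  have h1 := hH.fixed (fib.swap (piG P))
  have h2 : y ∈ H.comap (fib.swap (piG P)).toMonoidHom := by rw [h1]; exact hy
  exact h2

/-- upper bound for the number of characteristic subgroups -/
theorem card_CS_le {n K : ℕ} (hK : ∀ i, K ≤ i → n < Nat.card (alternatingGroup (Yy P i))) :
    Nat.card (CS (Gam P) n) ≤ 8 ^ K := by
  classical
  let Φ : CS (Gam P) n → (Fin K → Bool × Bool × Bool) := fun H i =>
    (decide (b1 i.1 (H.1.map (toGb P))), decide (b2 i.1 (H.1.map (toGb P))),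
      decide (b3 i.1 (H.1.map (toGb P))))
  have hle : ∀ H H' : CS (Gam P) n, Φ H = Φ H' → H.1.map (toGb P) ≤ H'.1.map (toGb P) := by
    rintro ⟨H, hc, hf, hn⟩ ⟨H', hc', hf', hn'⟩ hΦ
    have hHn : H.Normal := Subgroup.normal_of_characteristic H
    have hHn' : H'.Normal := Subgroup.normal_of_characteristic H'
    have hN : (H.map (toGb P)).Normal := hHn.map _ toGb_surj
    have hN' : (H'.map (toGb P)).Normal := hHn'.map _ toGb_surj
    apply determined hN hN' (by rw [index_map' hHn' hf']; exact hf')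
    intro i x hx hxN
    by_cases hi : K ≤ i
    · by_contra hxN'
      have h1 : ¬ b1 i (H'.map (toGb P)) := fun h => hxN' (h x hx)
      have h2 := index_ge hN' (by rw [index_map' hHn' hf']; exact hf') h1
      rw [index_map' hHn' hf'] at h2
      have := hK i hi
      omega
    · have h1 := congrFun hΦ ⟨i, not_le.mp hi⟩
      simp only [Φ, Prod.mk.injEq, decide_eq_decide] at h1
      obtain ⟨h1, h2, h3⟩ := h1
      by_cases hb : b1 i (H.map (toGb P))
      · exact (h1.mp hb) x hx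
      · have hb' : ¬ b1 i (H'.map (toGb P)) := fun h => hb (h1.mpr h)
        rw [descr hN (map_SwI hc) hb hx] at hxN
        rw [descr hN' (map_SwI hc') hb' hx, ← h2, ← h3]
        exact hxN
  have hinj : Function.Injective Φ := by
    intro H H' hΦ
    have h1 := le_antisymm (hle H H' hΦ) (hle H' H hΦ.symm)
    obtain ⟨H, hc, hf, hn⟩ := H
    obtain ⟨H', hc', hf', hn'⟩ := H'
    have hHn : H.Normal := Subgroup.normal_of_characteristic H
    have hHn' : H'.Normal := Subgroup.normal_of_characteristic H'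
    apply Subtype.ext
    simp only at h1 ⊢
    rw [← comap_map_eq' hHn hf, ← comap_map_eq' hHn' hf', h1]
  have h1 := Nat.card_le_card_of_injective Φ hinj
  have h2 : Nat.card (Fin K → Bool × Bool × Bool) = 8 ^ K := by
    rw [Nat.card_eq_fintype_card]
    simp
  rwa [h2] at h1

/-- finiteness of the set of normal subgroups of bounded index -/
lemma finite_NS {n K : ℕ} (hK : ∀ i, K ≤ i → n < Nat.card (alternatingGroup (Yy P i))) :
    Finite (NS (Gam P) n) := by
  let Φ : NS (Gam P) n → (∀ i : Fin K, Set (Aff (ZMod (P.p i.1)) (Yy P i.1) ×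
      Aff (ZMod (P.p i.1)) (Yy P i.1))) := fun H i =>
    {z | ∃ x ∈ H.1.map (toGb P), InG i.1 x ∧ coo P i.1 x = z}
  have hle : ∀ H H' : NS (Gam P) n, Φ H = Φ H' → H.1.map (toGb P) ≤ H'.1.map (toGb P) := by
    rintro ⟨H, hHn, hf, hn⟩ ⟨H', hHn', hf', hn'⟩ hΦ
    have hN : (H.map (toGb P)).Normal := hHn.map _ toGb_surj
    have hN' : (H'.map (toGb P)).Normal := hHn'.map _ toGb_surj
    apply determined hN hN' (by rw [index_map' hHn' hf']; exact hf')
    intro i x hx hxN
    by_cases hi : K ≤ i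
    · by_contra hxN'
      have h1 : ¬ b1 i (H'.map (toGb P)) := fun h => hxN' (h x hx)
      have h2 := index_ge hN' (by rw [index_map' hHn' hf']; exact hf') h1
      rw [index_map' hHn' hf'] at h2
      have := hK i hi
      omega
    · have h1 := congrFun hΦ ⟨i, not_le.mp hi⟩
      have h2 : coo P i x ∈ Φ ⟨H, hHn, hf, hn⟩ ⟨i, not_le.mp hi⟩ := ⟨x, hxN, hx, rfl⟩
      rw [h1] at h2
      obtain ⟨y, hy, hyI, hyx⟩ := h2
      have h3 : x = y := hx.ext hyI (congrArg Prod.fst hyx).symm (congrArg Prod.snd hyx).symm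
      rw [h3]; exact hy
  have hinj : Function.Injective Φ := by
    intro H H' hΦ
    have h1 := le_antisymm (hle H H' hΦ) (hle H' H hΦ.symm)
    obtain ⟨H, hHn, hf, hn⟩ := H
    obtain ⟨H', hHn', hf', hn'⟩ := H'
    apply Subtype.ext
    simp only at h1 ⊢
    rw [← comap_map_eq' hHn hf, ← comap_map_eq' hHn' hf', h1]
  exact Finite.of_injective Φ hinj

lemma k_le_alt (P : Par) (i : ℕ) : P.k i ≤ Nat.card (alternatingGroup (Yy P i)) := by
  have hnt : Nontrivial (Yy P i) := ⟨none, some (0, 0), by simp⟩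
  have h1 := two_mul_nat_card_alternatingGroup (α := Yy P i)
  rw [Nat.card_perm, card_Y] at h1
  have h2 := Nat.self_le_factorial (8 * 2 ^ P.k i + 1)
  have h3 : P.k i < 2 ^ P.k i := Nat.lt_two_pow_self
  omega

/-- lower bound for the number of normal subgroups -/
theorem le_card_NS {n K : ℕ} (hK : ∀ i, K ≤ i → n < Nat.card (alternatingGroup (Yy P i))) {i : ℕ}
    (hi : CC P i ≤ n) : P.p i ≤ Nat.card (NS (Gam P) n) := by
  have := finite_NS hK
  have h1 := Nat.card_le_card_of_injective (fun c : ZMod (P.p i) =>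
    (⟨(Nl P i c).comap (toGb P), (Nl_normal i c).comap _, by
      rw [Subgroup.index_comap_of_surjective _ toGb_surj]; exact (Nl_index i c).1, by
      rw [Subgroup.index_comap_of_surjective _ toGb_surj]; exact (Nl_index i c).2.trans hi⟩ :
        NS (Gam P) n)) (by
    intro c d hcd
    have h2 : (Nl P i c).comap (toGb P) = (Nl P i d).comap (toGb P) := congrArg Subtype.val hcd
    exact Nl_injective i (Subgroup.comap_injective toGb_surj h2))
  rwa [Nat.card_zmod] at h1

lemma lt_CC (P : Par) (i : ℕ) : i < CC P i := by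
  have h1 : i < P.p i := lt_p P i
  have h2 : P.p i ≤ P.p i ^ (8 * 2 ^ P.k i + 1) := Nat.le_self_pow (by omega) _
  have h3 : 0 < (8 * 2 ^ P.k i + 1).factorial := Nat.factorial_pos _
  have h4 : P.p i ^ (8 * 2 ^ P.k i + 1) ≤
      P.p i ^ (8 * 2 ^ P.k i + 1) * (8 * 2 ^ P.k i + 1).factorial := Nat.le_mul_of_pos_right _ h3
  have h5 : P.p i ^ (8 * 2 ^ P.k i + 1) * (8 * 2 ^ P.k i + 1).factorial ≤ CC P i :=
    Nat.le_self_pow (by norm_num) _
  omega

/-- the growth gap -/
theorem gap (P : Par) (r : ℕ) : ∃ n0, ∀ n, n0 ≤ n →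
    (Nat.card (CS (Gam P) n)) ^ r ≤ Nat.card (NS (Gam P) n) ∧ 2 ≤ Nat.card (NS (Gam P) n) := by
  refine ⟨CC P r, fun n hn => ?_⟩
  classical
  set i := Nat.findGreatest (fun i => CC P i ≤ n) n with hi
  have hrn : r ≤ n := (lt_CC P r).le.trans hn
  have h1 : CC P i ≤ n := Nat.findGreatest_spec (P := fun i => CC P i ≤ n) hrn hn
  have h2 : r ≤ i := Nat.le_findGreatest hrn hn
  have h3 : n < CC P (i + 1) := by
    by_contra hcon
    push Not at hcon
    by_cases h4 : i + 1 ≤ n
    · have := Nat.le_findGreatest (P := fun i => CC P i ≤ n) h4 hcon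
      omega
    · have := lt_CC P (i + 1)
      omega
  have hK : ∀ j, i + 2 ≤ j → n < Nat.card (alternatingGroup (Yy P j)) := by
    intro j hj
    have h4 : CC P (i + 1) ≤ P.k (i + 1 + 1) := P.hC (i + 1)
    have h5 : P.k (i + 1 + 1) ≤ P.k j := P.hk.monotone (by omega)
    have h6 := k_le_alt P j
    omega
  have h4 := card_CS_le hK
  have h5 := le_card_NS hK h1
  have h6 := P.hp2 i
  have h7 : (Nat.card (CS (Gam P) n)) ^ r ≤ 8 ^ ((i + 2) ^ 2) := by
    calc (Nat.card (CS (Gam P) n)) ^ r ≤ (8 ^ (i + 2)) ^ r := Nat.pow_le_pow_left h4 r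
      _ ≤ (8 ^ (i + 2)) ^ (i + 2) := Nat.pow_le_pow_right (by positivity) (by omega)
      _ = 8 ^ ((i + 2) ^ 2) := by rw [← pow_mul, sq]
  exact ⟨h7.trans (h6.trans h5), (P.hp i).two_le.trans h5⟩

/-- a prime at least `n` -/
noncomputable def np (n : ℕ) : ℕ := (Nat.exists_infinite_primes n).choose

lemma np_le (n : ℕ) : n ≤ np n := (Nat.exists_infinite_primes n).choose_spec.1
lemma np_prime (n : ℕ) : (np n).Prime := (Nat.exists_infinite_primes n).choose_spec.2

/-- recursive choice of the parameters -/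
noncomputable def st : ℕ → ℕ × ℕ
  | 0 => (0, np (8 * 2 ^ 0 + 2 + 8 ^ ((0 + 2) ^ 2)))
  | i + 1 =>
    ((st i).1 + 1 + ((st i).2 ^ (8 * 2 ^ (st i).1 + 1) * (8 * 2 ^ (st i).1 + 1).factorial) ^ 2,
      np (8 * 2 ^ ((st i).1 + 1 + ((st i).2 ^ (8 * 2 ^ (st i).1 + 1) *
        (8 * 2 ^ (st i).1 + 1).factorial) ^ 2) + 2 + 8 ^ ((i + 1 + 2) ^ 2) + (st i).2 + 1))

/-- existence of parameters -/
noncomputable def par : Par where
  k i := (st i).1
  p i := (st i).2
  hk := strictMono_nat_of_lt_succ (fun i => by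
    change (st i).1 < (st i).1 + 1 + _
    omega)
  hp i := by
    cases i with
    | zero => exact np_prime _
    | succ i => exact np_prime _
  hpm := strictMono_nat_of_lt_succ (fun i => by
    have h1 := np_le (8 * 2 ^ ((st i).1 + 1 + ((st i).2 ^ (8 * 2 ^ (st i).1 + 1) *
        (8 * 2 ^ (st i).1 + 1).factorial) ^ 2) + 2 + 8 ^ ((i + 1 + 2) ^ 2) + (st i).2 + 1)
    change (st i).2 < np _
    generalize 8 ^ ((i + 1 + 2) ^ 2) = c at h1
    generalize 2 ^ ((st i).1 + 1 + ((st i).2 ^ (8 * 2 ^ (st i).1 + 1) *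
        (8 * 2 ^ (st i).1 + 1).factorial) ^ 2) = d at h1
    omega)
  hm i := by
    cases i with
    | zero =>
      have h1 := np_le (8 * 2 ^ 0 + 2 + 8 ^ ((0 + 2) ^ 2))
      change 8 * 2 ^ 0 + 1 < np _
      omega
    | succ i =>
      have h1 := np_le (8 * 2 ^ ((st i).1 + 1 + ((st i).2 ^ (8 * 2 ^ (st i).1 + 1) *
        (8 * 2 ^ (st i).1 + 1).factorial) ^ 2) + 2 + 8 ^ ((i + 1 + 2) ^ 2) + (st i).2 + 1)
      change 8 * 2 ^ ((st i).1 + 1 + ((st i).2 ^ (8 * 2 ^ (st i).1 + 1) *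
        (8 * 2 ^ (st i).1 + 1).factorial) ^ 2) + 1 < np _
      generalize 8 ^ ((i + 1 + 2) ^ 2) = c at h1
      generalize 2 ^ ((st i).1 + 1 + ((st i).2 ^ (8 * 2 ^ (st i).1 + 1) *
        (8 * 2 ^ (st i).1 + 1).factorial) ^ 2) = d at h1
      omega
  hp2 i := by
    cases i with
    | zero =>
      have h1 := np_le (8 * 2 ^ 0 + 2 + 8 ^ ((0 + 2) ^ 2))
      change 8 ^ ((0 + 2) ^ 2) ≤ np _
      omega
    | succ i =>
      have h1 := np_le (8 * 2 ^ ((st i).1 + 1 + ((st i).2 ^ (8 * 2 ^ (st i).1 + 1) *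
        (8 * 2 ^ (st i).1 + 1).factorial) ^ 2) + 2 + 8 ^ ((i + 1 + 2) ^ 2) + (st i).2 + 1)
      change 8 ^ ((i + 1 + 2) ^ 2) ≤ np _
      omega
  hC i := by
    change _ ≤ (st i).1 + 1 + _
    omega

end Pool.Agent.Helper73.CG
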