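import Pool.Agent.Helper73.CG.Count

set_option autoImplicit false
set_option linter.unusedSectionVars false

namespace Pool.Agent.Helper73.CG

open Equiv Equiv.Perm

variable {P : Par}

/-- `N` contains the whole coordinate `i` -/
def b1 (i : ℕ) (N : Subgroup (Gb P)) : Prop := ∀ z, InG i z → z ∈ N
/-- `N` contains a symmetric vector -/
def b2 (i : ℕ) (N : Subgroup (Gb P)) : Prop := ∃ u, u ≠ 0 ∧ (u, u) ∈ MN i N
/-- `N` contains an antisymmetric vector -/
def b3 (i : ℕ) (N : Subgroup (Gb P)) : Prop := ∃ u, u ≠ 0 ∧ (u, -u) ∈ MN i N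

lemma nonconst {i : ℕ} {u : Yy P i → ZMod (P.p i)} (hu : ∑ y, u y = 0) (h0 : u ≠ 0) :
    ∃ a b, u a ≠ u b := by
  by_contra hcon
  push Not at hcon
  exact h0 (const_zero (card_lt P i) (lt_of_lt_of_le (by norm_num) (six_le P i)) u hu hcon)

lemma b2_all {i : ℕ} {N : Subgroup (Gb P)} (hN : N.Normal) (h : b2 i N)
    (w : Yy P i → ZMod (P.p i)) (hw : ∑ y, w y = 0) : (w, w) ∈ MN i N := by
  obtain ⟨u, h0, hu⟩ := h
  let M : AddSubgroup (Yy P i → ZMod (P.p i)) :=
    { carrier := {w | (w, w) ∈ MN i N}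
      zero_mem' := (MN i N).zero_mem
      add_mem' := fun ha hb => (MN i N).add_mem ha hb
      neg_mem' := fun ha => (MN i N).neg_mem ha }
  have hus := hu
  obtain ⟨hs, -, -⟩ := hus
  obtain ⟨a, b, hab⟩ := nonconst hs h0
  exact irr (six_le P i) (two_lt P i) M (fun g hg w hw => MN_act hN hw hg) hu hab w hw

lemma b3_all {i : ℕ} {N : Subgroup (Gb P)} (hN : N.Normal) (h : b3 i N)
    (w : Yy P i → ZMod (P.p i)) (hw : ∑ y, w y = 0) : (w, -w) ∈ MN i N := by
  obtain ⟨u, h0, hu⟩ := h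
  let M : AddSubgroup (Yy P i → ZMod (P.p i)) :=
    { carrier := {w | (w, -w) ∈ MN i N}
      zero_mem' := by
        have := (MN i N).zero_mem
        simp only [Set.mem_ofPred_eq, neg_zero]
        exact this
      add_mem' := by
        intro a b ha hb
        have := (MN i N).add_mem ha hb
        simp only [Set.mem_ofPred_eq, neg_add]
        exact this
      neg_mem' := fun ha => (MN i N).neg_mem ha }
  have hus := hu
  obtain ⟨hs, -, -⟩ := hus
  obtain ⟨a, b, hab⟩ := nonconst hs h0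
  exact irr (six_le P i) (two_lt P i) M (fun g hg w hw => MN_act hN hw hg) hu hab w hw

/-- swap invariance -/
def SwI (N : Subgroup (Gb P)) : Prop := ∀ x ∈ N, fib.swap (piA P) x ∈ N

lemma MN_swap {i : ℕ} {N : Subgroup (Gb P)} (hsw : SwI N) {u u' : Yy P i → ZMod (P.p i)}
    (h : (u, u') ∈ MN i N) : (u', u) ∈ MN i N := by
  obtain ⟨h1, h2, h3⟩ := h
  exact ⟨h2, h1, hsw _ h3⟩

lemma two_ne (P : Par) (i : ℕ) : (2 : ZMod (P.p i)) ≠ 0 := by
  intro h
  have h1 : ((2 : ℕ) : ZMod (P.p i)) = 0 := by exact_mod_cast h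
  rw [ZMod.natCast_eq_zero_iff] at h1
  have h2 := Nat.le_of_dvd (by norm_num) h1
  have := two_lt P i
  omega

/-- description of the coordinate parts of a swap-invariant normal subgroup -/
lemma descr {i : ℕ} {N : Subgroup (Gb P)} (hN : N.Normal) (hsw : SwI N) (h1 : ¬ b1 i N)
    {x : Gb P} (hx : InG i x) : x ∈ N ↔ ((x.1.1.1 i).s = 1 ∧
      ((x.1.1.1 i).v + (x.1.2.1 i).v ≠ 0 → b2 i N) ∧
      ((x.1.1.1 i).v - (x.1.2.1 i).v ≠ 0 → b3 i N)) := by
  set u := (x.1.1.1 i).v with hu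
  set u' := (x.1.2.1 i).v with hu'
  have hsu : ∑ y, u y = 0 := Gb_sum1 x i
  have hsu' : ∑ y, u' y = 0 := Gb_sum2 x i
  have hmem : (x.1.1.1 i).s = 1 → (x ∈ N ↔ (u, u') ∈ MN i N) := by
    intro hs
    have hs' : (x.1.2.1 i).s = 1 := by rw [← Gb_s]; exact hs
    have hxe : x = e2 i u u' hsu hsu' := by
      apply hx.ext (e2_InG _ _)
      · rw [e2_fst]; exact Aff.ext rfl hs
      · rw [e2_snd]; exact Aff.ext rfl hs'
    constructor
    · intro h
      exact ⟨hsu, hsu', by rw [← hxe]; exact h⟩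
    · rintro ⟨_, _, h⟩
      rw [hxe]; exact h
  constructor
  · intro h
    have hs : (x.1.1.1 i).s = 1 := by
      by_contra hs
      exact h1 (key2 hN h hs)
    have hm := (hmem hs).mp h
    have hm' := MN_swap hsw hm
    refine ⟨hs, fun h2 => ⟨u + u', h2, ?_⟩, fun h2 => ⟨u - u', h2, ?_⟩⟩
    · have := (MN i N).add_mem hm hm'
      rw [Prod.mk_add_mk, add_comm u' u] at this
      exact this
    · have := (MN i N).sub_mem hm hm'
      rw [Prod.mk_sub_mk] at this
      rw [neg_sub]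
      exact this
  · rintro ⟨hs, h2, h3⟩
    rw [hmem hs]
    have h4 : (u + u', u + u') ∈ MN i N := by
      by_cases h5 : u + u' = 0
      · rw [h5]; exact (MN i N).zero_mem
      · apply b2_all hN (h2 h5)
        simp only [Pi.add_apply, Finset.sum_add_distrib, hsu, hsu', add_zero]
    have h6 : (u - u', -(u - u')) ∈ MN i N := by
      by_cases h5 : u - u' = 0
      · rw [h5, neg_zero]; exact (MN i N).zero_mem
      · apply b3_all hN (h3 h5)
        simp only [Pi.sub_apply, Finset.sum_sub_distrib, hsu, hsu', sub_self]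
    have h7 := (MN i N).add_mem h4 h6
    apply mem_of_smul_pair (two_ne P i)
    convert h7 using 1
    apply Prod.ext
    · change (2 : ZMod (P.p i)) • u = (u + u') + (u - u')
      rw [two_smul]; abel
    · change (2 : ZMod (P.p i)) • u' = (u + u') + -(u - u')
      rw [two_smul]; abel

/-- a finite-index normal subgroup not containing coordinate `i` has large index -/
lemma index_ge {i : ℕ} {N : Subgroup (Gb P)} (hN : N.Normal) (hf : N.index ≠ 0) (h1 : ¬ b1 i N) :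
    Nat.card (alternatingGroup (Yy P i)) ≤ N.index := by
  have : N.FiniteIndex := ⟨hf⟩
  have : Finite (Gb P ⧸ N) := Subgroup.finite_quotient_of_finiteIndex
  rw [Subgroup.index]
  apply Nat.card_le_card_of_injective (fun g : alternatingGroup (Yy P i) =>
    (dgA i g.1 g.2 : Gb P ⧸ N))
  intro g h hgh
  simp only at hgh
  rw [QuotientGroup.eq] at hgh
  have h2 : (((dgA i g.1 g.2)⁻¹ * dgA i h.1 h.2).1.1.1 i).s = g.1⁻¹ * h.1 := by
    change (((dgA i g.1 g.2).1.1.1 i)⁻¹ * (dgA i h.1 h.2).1.1.1 i).s = _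
    rw [dgA_fst, dgA_fst]; rfl
  by_contra hne
  apply h1
  apply key2 hN hgh
  rw [h2]
  intro h3
  apply hne
  apply Subtype.ext
  exact inv_mul_eq_one.mp h3

/-- the normal subgroups `w' = c w` -/
def Nl (P : Par) (i : ℕ) (c : ZMod (P.p i)) : Subgroup (Gb P) where
  carrier := {x | (x.1.1.1 i).s = 1 ∧ (x.1.2.1 i).v = c • (x.1.1.1 i).v}
  one_mem' := ⟨rfl, by
    change (0 : Yy P i → ZMod (P.p i)) = c • 0
    rw [smul_zero]⟩
  mul_mem' := by
    rintro x y ⟨h1, h2⟩ ⟨h3, h4⟩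
    have h1' : (x.1.2.1 i).s = 1 := by rw [← Gb_s]; exact h1
    refine ⟨?_, ?_⟩
    · change (x.1.1.1 i * y.1.1.1 i).s = 1
      rw [Aff.mul_s, h1, h3, one_mul]
    · change (x.1.2.1 i * y.1.2.1 i).v = c • (x.1.1.1 i * y.1.1.1 i).v
      rw [Aff.mul_v, Aff.mul_v, h1, h1', pact_one, pact_one, h2, h4, smul_add]
  inv_mem' := by
    rintro x ⟨h1, h2⟩
    have h1' : (x.1.2.1 i).s = 1 := by rw [← Gb_s]; exact h1
    refine ⟨?_, ?_⟩
    · change ((x.1.1.1 i)⁻¹).s = 1
      rw [Aff.inv_s, h1, inv_one]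
    · change ((x.1.2.1 i)⁻¹).v = c • ((x.1.1.1 i)⁻¹).v
      rw [Aff.inv_v, Aff.inv_v, h1, h1', inv_one, pact_one, pact_one, h2, smul_neg]

lemma Nl_normal (i : ℕ) (c : ZMod (P.p i)) : (Nl P i c).Normal := by
  constructor
  rintro x ⟨h1, h2⟩ g
  have h1' : (x.1.2.1 i).s = 1 := by rw [← Gb_s]; exact h1
  have hf : x.1.1.1 i = Aff.ev (x.1.1.1 i).v := Aff.ext rfl h1
  have hf' : x.1.2.1 i = Aff.ev (x.1.2.1 i).v := Aff.ext rfl h1'
  refine ⟨?_, ?_⟩
  · change (g.1.1.1 i * x.1.1.1 i * (g.1.1.1 i)⁻¹).s = 1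
    rw [hf, Aff.conj_ev]; rfl
  · change (g.1.2.1 i * x.1.2.1 i * (g.1.2.1 i)⁻¹).v = c • (g.1.1.1 i * x.1.1.1 i * (g.1.1.1 i)⁻¹).v
    rw [hf, hf', Aff.conj_ev, Aff.conj_ev, Aff.ev_v, Aff.ev_v, h2, Gb_s]
    rfl

/-- projection of the fibre square to the two affine groups in coordinate `i` -/
def coo (P : Par) (i : ℕ) :
    Gb P →* Aff (ZMod (P.p i)) (Yy P i) × Aff (ZMod (P.p i)) (Yy P i) where
  toFun x := (x.1.1.1 i, x.1.2.1 i)
  map_one' := rfl
  map_mul' _ _ := rfl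

/-- underlying type of the affine group -/
def affEquiv (K Y : Type*) : Aff K Y ≃ (Y → K) × Perm Y where
  toFun a := (a.v, a.s)
  invFun x := ⟨x.1, x.2⟩
  left_inv _ := rfl
  right_inv _ := rfl

lemma card_aff (P : Par) (i : ℕ) : Nat.card (Aff (ZMod (P.p i)) (Yy P i)) =
    P.p i ^ (8 * 2 ^ P.k i + 1) * (8 * 2 ^ P.k i + 1).factorial := by
  rw [Nat.card_congr (affEquiv _ _), Nat.card_prod, Nat.card_fun, Nat.card_zmod, Nat.card_perm,
    card_Y]

instance (i : ℕ) : Finite (Aff (ZMod (P.p i)) (Yy P i)) := Finite.of_equiv _ (affEquiv _ _).symm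

/-- the bound for the index of `Nl` -/
def CC (P : Par) (i : ℕ) : ℕ := (P.p i ^ (8 * 2 ^ P.k i + 1) * (8 * 2 ^ P.k i + 1).factorial) ^ 2

lemma Nl_index (i : ℕ) (c : ZMod (P.p i)) : (Nl P i c).index ≠ 0 ∧ (Nl P i c).index ≤ CC P i := by
  have h1 : (coo P i).ker ≤ Nl P i c := by
    intro x hx
    rw [MonoidHom.mem_ker] at hx
    have h2 : x.1.1.1 i = 1 := congrArg Prod.fst hx
    have h3 : x.1.2.1 i = 1 := congrArg Prod.snd hx
    refine ⟨by rw [h2]; rfl, ?_⟩
    rw [h2, h3, Aff.one_v, smul_zero]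
  have h2 : (coo P i).ker.index ≠ 0 := by
    rw [Subgroup.index_ker]
    exact Nat.card_pos.ne'
  have h3 : (coo P i).ker.index ≤ CC P i := by
    rw [Subgroup.index_ker, CC, sq, ← card_aff, ← Nat.card_prod]
    exact Nat.card_le_card_of_injective _ (Subtype.val_injective)
  have h4 := Subgroup.index_dvd_of_le h1
  exact ⟨fun h => h2 (Nat.eq_zero_of_zero_dvd (h ▸ h4)),
    (Nat.le_of_dvd (Nat.pos_of_ne_zero h2) h4).trans h3⟩

lemma Nl_injective (i : ℕ) : Function.Injective (Nl P i) := by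
  intro c d hcd
  set w : Yy P i → ZMod (P.p i) := dl (P.p i) none - dl (P.p i) (some (0, 0)) with hw
  have hws : ∑ y, w y = 0 := by
    simp only [hw, Pi.sub_apply, Finset.sum_sub_distrib, sum_dl, sub_self]
  have hcs : ∑ y, (c • w) y = 0 := by
    simp only [Pi.smul_apply, smul_eq_mul, ← Finset.mul_sum, hws, mul_zero]
  have h1 : e2 i w (c • w) hws hcs ∈ Nl P i c := by
    refine ⟨?_, ?_⟩
    · rw [e2_fst]; rfl
    · rw [e2_fst, e2_snd]; rfl
  rw [hcd] at h1
  have h2 := h1.2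
  rw [e2_fst, e2_snd, Aff.ev_v, Aff.ev_v] at h2
  have h3 := congrFun h2 none
  have h4 : w none = 1 := by
    simp [hw, dl_apply]
  rw [Pi.smul_apply, Pi.smul_apply, h4] at h3
  simpa using h3

end Pool.Agent.Helper73.CG
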