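import Pool.Agent.Helper73.CG.LZero

set_option autoImplicit false
set_option linter.unusedSectionVars false

namespace Pool.Agent.Helper73.CG

open Equiv Equiv.Perm

variable {P : Par}

/-- the reduction map `ℤ →₀ ℤ → (Y i → ZMod (p i))` -/
noncomputable def qq (P : Par) (i : ℕ) : (ℤ →₀ ℤ) →+ (Yy P i → ZMod (P.p i)) :=
  Finsupp.liftAddHom (fun x => ((zmultiplesHom _) (dl (P.p i) (cy P.k i x)) : ℤ →+ _))

lemma qq_single (i : ℕ) (x c : ℤ) :
    qq P i (Finsupp.single x c) = c • dl (P.p i) (cy P.k i x) := by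
  simp [qq]

lemma qq_act (i : ℕ) (d : Dh) (u : ℤ →₀ ℤ) :
    qq P i (LL.act d u) = pact (rho P.k d i) (qq P i u) := by
  induction u using Finsupp.induction_linear with
  | zero => simp
  | add f g hf hg => rw [map_add, map_add, map_add, hf, hg, pact_add]
  | single x c =>
    rw [LL.act_single, qq_single, qq_single, ← rho_cy, ← pact_dl]
    rfl

/-- the Laplacian -/
noncomputable def Lap : (ℤ →₀ ℤ) →+ (ℤ →₀ ℤ) :=
  LL.act ⟨1, 1⟩ + LL.act ⟨1, -1⟩ - 2 • AddMonoidHom.id _

lemma Lap_apply (u : ℤ →₀ ℤ) : Lap u = LL.act ⟨1, 1⟩ u + LL.act ⟨1, -1⟩ u - 2 • u := rfl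

lemma Lap_act (d : Dh) (u : ℤ →₀ ℤ) : Lap (LL.act d u) = LL.act d (Lap u) := by
  simp only [Lap_apply, map_sub, map_add, map_nsmul, ← LL.act_mul]
  congr 1
  rcases Int.units_eq_one_or d.e with h | h
  · congr 2
    · congr 1
      ext <;> simp [h, add_comm]
    · congr 1
      ext <;> simp [h, add_comm]
  · rw [add_comm]
    congr 2
    · congr 1
      ext
      · simp
      · simp [h, add_comm]
    · congr 1
      ext
      · simp
      · simp [h, add_comm]

lemma Lap_single (x c : ℤ) : Lap (Finsupp.single x c) =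
    Finsupp.single (x + 1) c + Finsupp.single (x - 1) c - 2 • Finsupp.single x c := by
  rw [Lap_apply, LL.act_single, LL.act_single, Dh.smul_def, Dh.smul_def]
  simp only [Units.val_one, one_mul, ← sub_eq_add_neg]

/-- the embedding of `ℤ ≀ D_∞` -/
noncomputable def iota (P : Par) : LL →* AA P where
  toFun a := fun i => ⟨qq P i (Lap a.u), rho P.k a.d i⟩
  map_one' := by
    funext i
    refine Aff.ext ?_ ?_
    · simp
    · simp
  map_mul' a b := by
    funext i
    refine Aff.ext ?_ ?_
    · simp only [LL.mul_u, map_add, Pi.mul_apply, Aff.mul_v, Lap_act, qq_act]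
    · simp only [LL.mul_d, map_mul, Pi.mul_apply, Aff.mul_s]

lemma iota_v (a : LL) (i : ℕ) : (iota P a i).v = qq P i (Lap a.u) := rfl
lemma iota_s (a : LL) (i : ℕ) : (iota P a i).s = rho P.k a.d i := rfl

lemma iota_mem (a : LL) : iota P a ∈ Ag P := by
  have h := LL.mem_of_gens (K := (Ag P).comap (iota P)) ?_ ?_ ?_ a
  · exact h
  · -- the basic vector
    change iota P _ ∈ Ag P
    set s : PP P.k := sh (Pi.single 1 1 - Pi.single 7 1) * loc (cyc 0 1 2) ⊤ with hs
    have hsS : s ∈ SS P.k :=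
      (SS P.k).mul_mem (sh_mem (by simp)) (loc_top_mem (cyc8 0 1 2 (by decide)))
    have h1 : iota P (LL.inU (Finsupp.single 0 1)) =
        (vv P)⁻¹ * (esP P s * vv P * (esP P s)⁻¹)⁻¹ := by
      funext i
      refine Aff.ext ?_ ?_
      · rw [iota_v, LL.inU_u, Lap_single]
        simp only [zero_add, zero_sub, map_sub, map_add, map_nsmul, qq_single, one_smul]
        rw [cy_one, cy_neg_one, cy_zero]
        have hs0 : s i (some (0, 0)) = some (1, 1) := by
          rw [hs, Pi.mul_apply, Perm.mul_apply, loc_top_apply, rp_some, sh_apply, sp_some,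
            cyc_apply_a (by decide) (by decide)]
          simp
        have hsn : s i none = none := rfl
        have h3 : (esP P s * vv P * (esP P s)⁻¹) i =
            Aff.ev (dl (P.p i) none - dl (P.p i) (some (1, 1))) := by
          have h4 : (esP P s * vv P * (esP P s)⁻¹) i =
            Aff.es (s i) * Aff.ev (dl (P.p i) none - dl (P.p i) (some (0, 0))) *
              (Aff.es (s i))⁻¹ := rfl
          rw [h4, Aff.conj_ev, Aff.es_s, pact_sub, pact_dl, pact_dl, hs0, hsn]
        rw [Pi.mul_apply, Pi.inv_apply, Pi.inv_apply, h3, vv, ← Aff.ev_neg, ← Aff.ev_neg,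
          ← Aff.ev_add, Aff.ev_v]
        abel
      · rw [iota_s, LL.inU_d, map_one]
        have : prP P ((vv P)⁻¹ * (esP P s * vv P * (esP P s)⁻¹)⁻¹) = 1 := by
          simp only [map_mul, map_inv, prP_vv, prP_esP]
          group
        exact (congrFun this i).symm
    rw [h1]
    exact (Ag P).mul_mem ((Ag P).inv_mem vv_mem) ((Ag P).inv_mem ((Ag P).mul_mem ((Ag P).mul_mem
      (esP_mem hsS) vv_mem) ((Ag P).inv_mem (esP_mem hsS))))
  · have h1 : iota P (LL.inD Dh.t) = esP P (rho P.k Dh.t) := by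
      funext i
      refine Aff.ext ?_ ?_
      · simp [iota_v, esP_apply]
      · simp [iota_s, esP_apply]
    change iota P _ ∈ Ag P
    rw [h1]; exact esP_mem (rho_mem _)
  · have h1 : iota P (LL.inD Dh.r) = esP P (rho P.k Dh.r) := by
      funext i
      refine Aff.ext ?_ ?_
      · simp [iota_v, esP_apply]
      · simp [iota_s, esP_apply]
    change iota P _ ∈ Ag P
    rw [h1]; exact esP_mem (rho_mem _)

lemma lt_mm (P : Par) (i : ℕ) : i < mm P.k i := by
  have h1 : i ≤ P.k i := P.hk.le_apply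
  have h2 : P.k i < 2 ^ P.k i := Nat.lt_two_pow_self
  rw [mm]; omega

lemma lt_p (P : Par) (i : ℕ) : i < P.p i := lt_of_lt_of_le (lt_mm P i) (P.hm i).le

/-- nontrivial elements are nontrivial in all large coordinates: dihedral part -/
lemma rho_ne_one {d : Dh} (hd : d ≠ 1) : ∃ i0, ∀ i, i0 ≤ i → rho P.k d i ≠ 1 := by
  obtain ⟨z, hz⟩ := Dh.exists_smul_ne hd
  refine ⟨(d • z - z).natAbs, fun i hi h => ?_⟩
  have h1 : cy P.k i (d • z) = cy P.k i z := by
    rw [← rho_cy, h]; rfl
  rw [cy_eq_iff] at h1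
  have h2 := Int.natAbs_dvd_natAbs.mpr h1
  rw [Int.natAbs_natCast] at h2
  have h3 : 0 < (d • z - z).natAbs := by
    rw [Int.natAbs_pos]; exact sub_ne_zero.mpr hz
  have h4 := Nat.le_of_dvd h3 h2
  have h5 := lt_mm P i
  omega

lemma Lap_ne_zero {u : ℤ →₀ ℤ} (hu : u ≠ 0) : Lap u ≠ 0 := by
  intro h
  have hn : u.support.Nonempty := Finsupp.support_nonempty_iff.mpr hu
  set M := u.support.max' hn with hM
  have hMu : u M ≠ 0 := Finsupp.mem_support_iff.mp (Finset.max'_mem _ _)
  have hbig : ∀ x, M < x → u x = 0 := by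
    intro x hx
    by_contra h1
    have := Finset.le_max' _ _ (Finsupp.mem_support_iff.mpr h1)
    omega
  have h1 := DFunLike.congr_fun h (M + 1)
  rw [Lap_apply] at h1
  simp only [Finsupp.coe_sub, Finsupp.coe_add, Finsupp.coe_smul, Pi.sub_apply, Pi.add_apply,
    Pi.smul_apply, LL.act_apply', Dh.smul_def, Finsupp.coe_zero, Pi.zero_apply] at h1
  simp only [Dh.inv_e, Dh.inv_k, inv_one, Units.val_one, one_mul, neg_neg] at h1
  rw [hbig (M + 1) (by omega), hbig (M + 1 + 1) (by omega)] at h1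
  rw [add_neg_cancel_right] at h1
  simp at h1
  exact hMu h1

lemma qq_apply_cy (i : ℕ) (w : ℤ →₀ ℤ) (x : ℤ)
    (h : ∀ y ∈ w.support, cy P.k i y = cy P.k i x → y = x) :
    qq P i w (cy P.k i x) = ((w x : ℤ) : ZMod (P.p i)) := by
  have h1 : qq P i w = w.sum (fun y c => c • dl (P.p i) (cy P.k i y)) := by
    simp only [qq]
    rw [Finsupp.liftAddHom_apply]
    rfl
  rw [h1, Finsupp.sum, Finset.sum_apply]
  by_cases hx : x ∈ w.support
  · rw [Finset.sum_eq_single x]
    · simp [dl_apply]
    · intro y hy hyx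
      rw [Pi.smul_apply, dl_apply, if_neg, smul_zero]
      intro h2
      exact hyx (h y hy h2.symm)
    · intro h2; exact absurd hx h2
  · have h2 : w x = 0 := by simpa using hx
    rw [h2, Int.cast_zero]
    apply Finset.sum_eq_zero
    intro y hy
    rw [Pi.smul_apply, dl_apply, if_neg, smul_zero]
    intro h3
    have := h y hy h3.symm
    rw [this] at hy
    exact hx hy

lemma qq_ne_zero {w : ℤ →₀ ℤ} (hw : w ≠ 0) : ∃ i0, ∀ i, i0 ≤ i → qq P i w ≠ 0 := by
  obtain ⟨x, hx⟩ := Finsupp.ne_iff.mp hw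
  rw [Finsupp.coe_zero, Pi.zero_apply] at hx
  refine ⟨(w.support.sup (fun y => (y - x).natAbs)) + (w x).natAbs, fun i hi h => ?_⟩
  have h1 := qq_apply_cy (P := P) i w x (by
    intro y hy hyx
    rw [cy_eq_iff] at hyx
    have h2 : (y - x).natAbs ≤ w.support.sup (fun y => (y - x).natAbs) :=
      Finset.le_sup (f := fun y => (y - x).natAbs) hy
    by_contra hne
    have h3 := Int.natAbs_dvd_natAbs.mpr hyx
    rw [Int.natAbs_natCast] at h3
    have h4 : 0 < (y - x).natAbs := by rw [Int.natAbs_pos]; exact sub_ne_zero.mpr hne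
    have h5 := Nat.le_of_dvd h4 h3
    have h6 := lt_mm P i
    omega)
  rw [h, Pi.zero_apply] at h1
  have h2 := (ZMod.intCast_zmod_eq_zero_iff_dvd _ _).mp h1.symm
  have h3 := Int.natAbs_dvd_natAbs.mpr h2
  rw [Int.natAbs_natCast] at h3
  have h4 : 0 < (w x).natAbs := by rw [Int.natAbs_pos]; exact hx
  have h5 := Nat.le_of_dvd h4 h3
  have h6 := lt_p P i
  omega

/-- nontrivial elements of `ℤ ≀ D_∞` are nontrivial in all large coordinates -/
theorem iota_ne_one {a : LL} (ha : a ≠ 1) : ∃ i0, ∀ i, i0 ≤ i → iota P a i ≠ 1 := by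
  by_cases hd : a.d = 1
  · have hu : a.u ≠ 0 := by
      intro hu
      exact ha (LL.ext hu hd)
    obtain ⟨i0, h0⟩ := qq_ne_zero (P := P) (Lap_ne_zero hu)
    exact ⟨i0, fun i hi h => h0 i hi (congrArg Aff.v h)⟩
  · obtain ⟨i0, h0⟩ := rho_ne_one (P := P) hd
    exact ⟨i0, fun i hi h => h0 i hi (congrArg Aff.s h)⟩

lemma iota_injective : Function.Injective (iota P) := by
  rw [injective_iff_map_eq_one]
  intro a ha
  by_contra hne
  obtain ⟨i0, h0⟩ := iota_ne_one (P := P) hne
  exact h0 i0 le_rfl (congrFun ha i0)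

/-- the vectors `qq (Lap u)` span the sum-zero vectors -/
theorem span_lap (i : ℕ) (M : AddSubgroup (Yy P i → ZMod (P.p i)))
    (hM : ∀ u, qq P i (Lap u) ∈ M) (w : Yy P i → ZMod (P.p i)) (hw : ∑ y, w y = 0) : w ∈ M := by
  obtain ⟨E, hE⟩ : ∃ E : ℤ → (Yy P i → ZMod (P.p i)), E = fun x =>
    dl (P.p i) (cy P.k i (x + 1)) - dl (P.p i) (cy P.k i x) := ⟨_, rfl⟩
  have hD : ∀ x, E x - E (x - 1) ∈ M := by
    intro x
    have h1 := hM (Finsupp.single x 1)
    rw [Lap_single] at h1
    simp only [map_sub, map_add, map_nsmul, qq_single, one_smul] at h1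
    convert h1 using 1
    simp only [hE, sub_add_cancel, two_nsmul]
    abel
  -- `m • E x ∈ M`
  have hF : ∀ (x : ℤ) (n : ℕ), (n : ℕ) • E (x + n - 1) -
      (dl (P.p i) (cy P.k i (x + n)) - dl (P.p i) (cy P.k i x)) ∈ M := by
    intro x n
    induction n with
    | zero => simp [M.zero_mem]
    | succ n ih =>
      have h1 := M.add_mem ih (M.nsmul_mem (hD (x + n)) n)
      convert h1 using 1
      have e1 : x + ((n + 1 : ℕ) : ℤ) - 1 = x + n := by push_cast; ring
      have e2 : x + ((n + 1 : ℕ) : ℤ) = x + n + 1 := by push_cast; ring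
      have e3 : dl (P.p i) (cy P.k i (x + n + 1)) = E (x + n) + dl (P.p i) (cy P.k i (x + n)) := by
        simp only [hE, sub_add_cancel]
      rw [e1, e2, succ_nsmul, smul_sub, e3]
      generalize E (x + n) = a
      generalize E (x + n - 1) = b
      generalize dl (P.p i) (cy P.k i (x + n)) = c
      abel
  have hEM : ∀ x, E x ∈ M := by
    intro x
    have h1 := hF (x - mm P.k i + 1) (mm P.k i)
    have e1 : x - mm P.k i + 1 + mm P.k i - 1 = x := by ring
    have e2 : cy P.k i (x - mm P.k i + 1 + mm P.k i) = cy P.k i (x - mm P.k i + 1) := by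
      rw [cy_eq_iff]
      have : x - mm P.k i + 1 + mm P.k i - (x - mm P.k i + 1) = mm P.k i := by ring
      rw [this]
    rw [e1, e2, sub_self, sub_zero] at h1
    have h2 : mm P.k i • E x = ((mm P.k i : ℕ) : ZMod (P.p i)) • E x := by
      funext y
      simp
    rw [h2] at h1
    refine mem_of_smul ?_ h1
    intro h3
    rw [ZMod.natCast_eq_zero_iff] at h3
    have h4 := Nat.le_of_dvd (by rw [mm]; omega) h3
    have h5 := P.hm i
    rw [mm] at h4
    omega
  have hall : ∀ x : ℤ, dl (P.p i) (cy P.k i x) - dl (P.p i) (cy P.k i 0) ∈ M := by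
    intro x
    induction x using Int.induction_on with
    | zero => rw [sub_self]; exact M.zero_mem
    | succ n ih =>
      have := M.add_mem ih (hEM n)
      simp only [hE] at this
      convert this using 1
      abel
    | pred n ih =>
      have := M.sub_mem ih (hEM (-n - 1))
      simp only [hE, sub_add_cancel] at this
      convert this using 1
      abel
  have h2 : w = ∑ y, (w y) • (dl (P.p i) y - dl (P.p i) (cy P.k i 0)) := by
    funext z
    rw [Finset.sum_apply]
    simp only [Pi.smul_apply, Pi.sub_apply, smul_eq_mul, mul_sub, Finset.sum_sub_distrib]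
    rw [← Finset.sum_mul]
    simp only [hw, zero_mul, sub_zero]
    simp [dl_apply]
  rw [h2]
  refine M.sum_mem fun y _ => smul_mem_of ?_ _
  obtain ⟨x, rfl⟩ := orb_all i y
  exact hall x

end Pool.Agent.Helper73.CG
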