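import Pool.Agent.Helper73.CG.Wreath

set_option autoImplicit false

namespace Pool.Agent.Helper73.CG

/-- The infinite dihedral group acting on `ℤ` by `x ↦ e x + k`. -/
@[ext] structure Dh where
  e : ℤˣ
  k : ℤ

namespace Dh

instance : Mul Dh := ⟨fun a b => ⟨a.e * b.e, a.k + a.e * b.k⟩⟩
instance : One Dh := ⟨⟨1, 0⟩⟩
instance : Inv Dh := ⟨fun a => ⟨a.e⁻¹, -((a.e⁻¹ : ℤˣ) * a.k)⟩⟩

@[simp] lemma mul_e (a b : Dh) : (a * b).e = a.e * b.e := rfl
@[simp] lemma mul_k (a b : Dh) : (a * b).k = a.k + a.e * b.k := rfl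
@[simp] lemma one_e : (1 : Dh).e = 1 := rfl
@[simp] lemma one_k : (1 : Dh).k = 0 := rfl
@[simp] lemma inv_e (a : Dh) : (a⁻¹).e = a.e⁻¹ := rfl
@[simp] lemma inv_k (a : Dh) : (a⁻¹).k = -((a.e⁻¹ : ℤˣ) * a.k) := rfl

instance : Group Dh :=
  Group.ofLeftAxioms
    (by intro a b c; ext <;> simp [mul_assoc, mul_add, add_assoc])
    (by intro a; ext <;> simp)
    (by intro a; ext <;> simp)

instance : MulAction Dh ℤ where
  smul a x := a.e * x + a.k
  one_smul x := by
    change ((1 : Dh).e : ℤ) * x + (1 : Dh).k = x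
    simp
  mul_smul a b x := by
    change ((a * b).e : ℤ) * x + (a * b).k = (a.e : ℤ) * ((b.e : ℤ) * x + b.k) + a.k
    simp only [mul_e, mul_k, Units.val_mul]
    ring

lemma smul_def (a : Dh) (x : ℤ) : a • x = a.e * x + a.k := rfl

/-- translation by one -/
def t : Dh := ⟨1, 1⟩
/-- reflection -/
def r : Dh := ⟨-1, 0⟩

@[simp] lemma t_e : t.e = 1 := rfl
@[simp] lemma t_k : t.k = 1 := rfl
@[simp] lemma r_e : r.e = -1 := rfl
@[simp] lemma r_k : r.k = 0 := rfl

lemma t_pow (n : ℕ) : t ^ n = ⟨1, n⟩ := by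
  induction n with
  | zero => rfl
  | succ n ih => rw [pow_succ, ih]; ext <;> simp

lemma t_zpow (n : ℤ) : t ^ n = ⟨1, n⟩ := by
  cases n with
  | ofNat n => simpa using t_pow n
  | negSucc n =>
    rw [zpow_negSucc, t_pow]
    ext
    · simp
    · simp only [inv_k, inv_one, Units.val_one, one_mul, Int.negSucc_eq]
      push_cast
      rfl

lemma eq_zpow_or (a : Dh) : a = t ^ a.k ∨ a = t ^ a.k * r := by
  rcases Int.units_eq_one_or a.e with h | h
  · left
    rw [t_zpow]; ext <;> simp [h]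
  · right
    rw [t_zpow]; ext <;> simp [h]

lemma r_mul_r : r * r = 1 := by ext <;> simp

lemma exists_smul_ne {a : Dh} (h : a ≠ 1) : ∃ z : ℤ, a • z ≠ z := by
  by_contra hcon
  push Not at hcon
  have h0 := hcon 0
  have h1 := hcon 1
  simp only [smul_def, mul_zero, zero_add, mul_one] at h0 h1
  apply h
  ext
  · rw [h0] at h1; simpa using h1
  · exact h0

end Dh

/-- The group `ℤ ≀ D_∞`. -/
@[ext] structure LL where
  u : ℤ →₀ ℤ
  d : Dh

namespace LL

/-- the action of `Dh` on finitely supported functions -/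
noncomputable def act (d : Dh) : (ℤ →₀ ℤ) →+ (ℤ →₀ ℤ) :=
  Finsupp.mapDomain.addMonoidHom (fun x => d • x)

lemma act_single (d : Dh) (x c : ℤ) : act d (Finsupp.single x c) = Finsupp.single (d • x) c := by
  simp [act]

lemma act_apply (d : Dh) (u : ℤ →₀ ℤ) (x : ℤ) : act d u (d • x) = u x := by
  simp only [act, Finsupp.mapDomain.addMonoidHom, AddMonoidHom.coe_mk, ZeroHom.coe_mk]
  exact Finsupp.mapDomain_apply (MulAction.injective d) u x

lemma act_apply' (d : Dh) (u : ℤ →₀ ℤ) (x : ℤ) : act d u x = u (d⁻¹ • x) := by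
  rw [← act_apply d u, smul_inv_smul]

@[simp] lemma act_one (u : ℤ →₀ ℤ) : act 1 u = u := by
  ext x; rw [act_apply']; simp

lemma act_mul (c d : Dh) (u : ℤ →₀ ℤ) : act (c * d) u = act c (act d u) := by
  ext x
  rw [act_apply', act_apply', act_apply', mul_inv_rev, mul_smul]

noncomputable instance : Mul LL := ⟨fun a b => ⟨a.u + act a.d b.u, a.d * b.d⟩⟩
noncomputable instance : One LL := ⟨⟨0, 1⟩⟩
noncomputable instance : Inv LL := ⟨fun a => ⟨-act a.d⁻¹ a.u, a.d⁻¹⟩⟩

@[simp] lemma mul_u (a b : LL) : (a * b).u = a.u + act a.d b.u := rfl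
@[simp] lemma mul_d (a b : LL) : (a * b).d = a.d * b.d := rfl
@[simp] lemma one_u : (1 : LL).u = 0 := rfl
@[simp] lemma one_d : (1 : LL).d = 1 := rfl
@[simp] lemma inv_u (a : LL) : (a⁻¹).u = -act a.d⁻¹ a.u := rfl
@[simp] lemma inv_d (a : LL) : (a⁻¹).d = a.d⁻¹ := rfl

noncomputable instance : Group LL :=
  Group.ofLeftAxioms
    (by
      intro a b c
      refine LL.ext ?_ ?_
      · simp only [mul_u, mul_d, map_add, act_mul, add_assoc]
      · simp [mul_assoc])
    (by intro a; refine LL.ext ?_ ?_ <;> simp)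
    (by intro a; refine LL.ext ?_ ?_ <;> simp)

/-- the embedding of the base -/
def inU (u : ℤ →₀ ℤ) : LL := ⟨u, 1⟩
/-- the embedding of the dihedral group -/
def inD (d : Dh) : LL := ⟨0, d⟩

@[simp] lemma inU_u (u : ℤ →₀ ℤ) : (inU u).u = u := rfl
@[simp] lemma inU_d (u : ℤ →₀ ℤ) : (inU u).d = 1 := rfl
@[simp] lemma inD_u (d : Dh) : (inD d).u = 0 := rfl
@[simp] lemma inD_d (d : Dh) : (inD d).d = d := rfl

lemma inU_add (u v : ℤ →₀ ℤ) : inU (u + v) = inU u * inU v := by
  refine LL.ext ?_ ?_ <;> simp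

lemma inU_neg (u : ℤ →₀ ℤ) : inU (-u) = (inU u)⁻¹ := by
  refine LL.ext ?_ ?_ <;> simp

lemma inD_mul (c d : Dh) : inD (c * d) = inD c * inD d := by
  refine LL.ext ?_ ?_ <;> simp

lemma inD_one : inD 1 = 1 := rfl

lemma inD_inv (d : Dh) : inD d⁻¹ = (inD d)⁻¹ := by
  refine LL.ext ?_ ?_ <;> simp

lemma eq_mul (a : LL) : a = inU a.u * inD a.d := by
  refine LL.ext ?_ ?_ <;> simp

lemma inD_conj (d : Dh) (u : ℤ →₀ ℤ) : inD d * inU u * (inD d)⁻¹ = inU (act d u) := by
  refine LL.ext ?_ ?_ <;> simp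

/-- generation: a subgroup containing `inU (single 0 1)`, `inD t`, `inD r` is everything -/
lemma mem_of_gens {K : Subgroup LL} (h1 : inU (Finsupp.single 0 1) ∈ K) (h2 : inD Dh.t ∈ K)
    (h3 : inD Dh.r ∈ K) (a : LL) : a ∈ K := by
  have hD : ∀ d, inD d ∈ K := by
    have ht : ∀ n : ℤ, inD (Dh.t ^ n) ∈ K := by
      let φ : Dh →* LL := ⟨⟨inD, inD_one⟩, inD_mul⟩
      intro n
      have : inD (Dh.t ^ n) = (inD Dh.t) ^ n := map_zpow φ Dh.t n
      rw [this]
      exact K.zpow_mem h2 n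
    intro d
    rcases Dh.eq_zpow_or d with h | h
    · rw [h]; exact ht _
    · rw [h, inD_mul]; exact K.mul_mem (ht _) h3
  have hS : ∀ x c : ℤ, inU (Finsupp.single x c) ∈ K := by
    intro x c
    have e1 : inU (Finsupp.single x 1) ∈ K := by
      have := K.mul_mem (K.mul_mem (hD (Dh.t ^ x)) h1) (K.inv_mem (hD (Dh.t ^ x)))
      rw [inD_conj, act_single] at this
      have e : Dh.t ^ x • (0 : ℤ) = x := by rw [Dh.t_zpow, Dh.smul_def]; simp
      rwa [e] at this
    let φ : Multiplicative (ℤ →₀ ℤ) →* LL :=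
      ⟨⟨fun u => inU (Multiplicative.toAdd u), rfl⟩, fun a b => inU_add _ _⟩
    have e2 : inU (Finsupp.single x c) = (inU (Finsupp.single x 1)) ^ c := by
      have h := map_zpow φ (Multiplicative.ofAdd (Finsupp.single x 1)) c
      have e3 : (Multiplicative.ofAdd (Finsupp.single x (1:ℤ))) ^ c =
          Multiplicative.ofAdd (Finsupp.single x c) := by
        rw [← ofAdd_zsmul]
        congr 1
        simp
      rw [e3] at h
      exact h
    rw [e2]
    exact K.zpow_mem e1 c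
  have hU : ∀ u, inU u ∈ K := by
    intro u
    induction u using Finsupp.induction_linear with
    | zero => exact K.one_mem
    | add f g hf hg => rw [inU_add]; exact K.mul_mem hf hg
    | single x c => exact hS x c
  rw [eq_mul a]
  exact K.mul_mem (hU _) (hD _)

end LL

end Pool.Agent.Helper73.CG
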