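import Pool.Agent.Helper73.CG.AGroup
import Pool.Agent.Helper73.CG.Lamp

set_option autoImplicit false
set_option linter.unusedSectionVars false

namespace Pool.Agent.Helper73.CG

open Equiv Equiv.Perm

namespace Dh

/-- homomorphisms from the infinite dihedral group -/
noncomputable def lift {G : Type*} [Group G] (a b : G) (hb : b * b = 1) (hab : b * a = a⁻¹ * b) :
    Dh →* G where
  toFun d := a ^ d.k * (if d.e = 1 then 1 else b)
  map_one' := by simp
  map_mul' c d := by
    have h1 : ∀ n : ℤ, b * a ^ n = a ^ (-n) * b := by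
      intro n
      have h2 : b * a * b⁻¹ = a⁻¹ := by rw [hab]; group
      have h3 : b * a ^ n * b⁻¹ = a ^ (-n) := by
        rw [← conj_zpow, h2, inv_zpow, zpow_neg]
      rw [← h3]; group
    rcases Int.units_eq_one_or c.e with hc | hc <;> rcases Int.units_eq_one_or d.e with hd | hd
    · simp [hc, hd, zpow_add]
    · simp [hc, hd, zpow_add, mul_assoc]
    · have : (-1 : ℤˣ) ≠ 1 := by decide
      simp only [mul_e, mul_k, hc, hd, mul_one, Units.val_neg, Units.val_one, if_neg this, neg_mul,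
        one_mul, if_true, zpow_add]
      rw [mul_assoc, mul_assoc, h1]
    · have : (-1 : ℤˣ) ≠ 1 := by decide
      simp only [mul_e, mul_k, hc, hd, Units.val_neg, Units.val_one, if_neg this, neg_mul,
        one_mul, zpow_add]
      have h2 : a ^ c.k * b * (a ^ d.k * b) = a ^ c.k * (b * a ^ d.k) * b := by group
      rw [h2, h1]
      have h3 : a ^ c.k * (a ^ (-d.k) * b) * b = a ^ c.k * a ^ (-d.k) * (b * b) := by group
      rw [h3, hb, mul_one]
      simp

end Dh

/-- the column involution -/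
def g2 : Perm (Fin 8) := swap 0 1 * swap 2 3 * swap 4 5 * swap 6 7

/-- the involution at the marker -/
def h2 : Perm (Option (Fin 8)) :=
  swap none (some 0) * swap (some 1) (some 2) * swap (some 3) (some 4) * swap (some 5) (some 6)

lemma g2_mem : g2 ∈ alternatingGroup (Fin 8) := by
  rw [mem_alternatingGroup]; decide

lemma h2_mem : h2 ∈ alternatingGroup (Option (Fin 8)) := by
  rw [mem_alternatingGroup]; decide

/-- the shift used to conjugate -/
def dlt : Fin 8 → ℤ := ![0, 1, 0, -1, 0, 1, 0, -1]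

variable {k : ℕ → ℕ}

variable (k) in
/-- first involution -/
noncomputable def ra : PP k := loc g2 Zrᶜ * mk h2

variable (k) in
/-- second involution -/
noncomputable def rb : PP k := sh dlt * loc g2 ⊤ * (sh dlt)⁻¹

lemma ra_mem : ra k ∈ SS k := (SS k).mul_mem (Ab.compl Ab.Zr _ g2_mem) (mk_mem h2_mem)

lemma rb_mem : rb k ∈ SS k := by
  have h1 : (sh dlt : PP k) ∈ SS k := sh_mem (by simp [dlt, Fin.sum_univ_eight])
  exact (SS k).mul_mem ((SS k).mul_mem h1 (loc_top_mem g2_mem)) ((SS k).inv_mem h1)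

lemma rb_none (i : ℕ) : rb k i none = none := rfl

lemma rb_some (i : ℕ) (a : Fin 8) (x : ZMod (2 ^ k i)) :
    rb k i (some (a, x)) = some (g2 a, x - (dlt a : ZMod _) + (dlt (g2 a) : ZMod _)) := by
  have h1 : rb k i = sp (fun a => (dlt a : ZMod _)) * rp (fun _ => g2) *
      (sp (fun a => (dlt a : ZMod _)))⁻¹ := by
    rw [rb, Pi.mul_apply, Pi.mul_apply, Pi.inv_apply, loc_top_apply, sh_apply]
  rw [h1, Perm.mul_apply, Perm.mul_apply, sp_inv_some, rp_some, sp_some]

lemma ra_zero (i : ℕ) (o : Option (Fin 8)) : ra k i (emb o) = emb (h2 o) := by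
  rw [ra, Pi.mul_apply, Perm.mul_apply, mk_apply, mp_emb]
  rcases h2 o with _ | a
  · rfl
  · rw [emb_some]
    have h0Z : (0 : ZMod (2 ^ k i)) ∉ (Zrᶜ : Fam k) i := fun h => h rfl
    exact loc_apply_of_notMem _ h0Z _

lemma ra_some (i : ℕ) (a : Fin 8) {x : ZMod (2 ^ k i)} (hx : x ≠ 0) :
    ra k i (some (a, x)) = some (g2 a, x) := by
  rw [ra, Pi.mul_apply, Perm.mul_apply, mk_apply, mp_of_ne _ _ hx]
  exact loc_apply_of_mem _ hx _

lemma g2_g2 (a : Fin 8) : g2 (g2 a) = a := by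
  revert a; decide

lemma h2_h2 (o : Option (Fin 8)) : h2 (h2 o) = o := by
  revert o; decide

lemma ra_ra : ra k * ra k = 1 := by
  funext i
  ext y : 1
  rw [Pi.mul_apply, Perm.mul_apply]
  by_cases hy : y ∈ Set.range (emb : Option (Fin 8) ↪ Cell (ZMod (2 ^ k i)))
  · obtain ⟨o, rfl⟩ := hy
    rw [ra_zero, ra_zero, h2_h2]; rfl
  · rcases y with _ | ⟨a, x⟩
    · exact absurd ⟨none, rfl⟩ hy
    · have hx : x ≠ 0 := by
        rintro rfl
        exact hy ⟨some a, rfl⟩
      rw [ra_some i a hx, ra_some i _ hx, g2_g2]; rfl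

lemma rb_rb : rb k * rb k = 1 := by
  funext i
  ext y : 1
  rw [Pi.mul_apply, Perm.mul_apply]
  rcases y with _ | ⟨a, x⟩
  · rfl
  · rw [rb_some, rb_some, g2_g2]
    simp

variable (k) in
/-- the homomorphism from the infinite dihedral group -/
noncomputable def rho : Dh →* PP k :=
  Dh.lift (ra k * rb k) (rb k) rb_rb (by
    rw [mul_inv_rev, inv_eq_of_mul_eq_one_left rb_rb, inv_eq_of_mul_eq_one_left ra_ra,
      mul_assoc])

lemma rho_t : rho k Dh.t = ra k * rb k := by
  simp [rho, Dh.lift]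

lemma rho_r : rho k Dh.r = rb k := by
  have : (-1 : ℤˣ) ≠ 1 := by decide
  simp [rho, Dh.lift, this]

lemma rho_mem (d : Dh) : rho k d ∈ SS k := by
  have hz : ∀ n : ℤ, (ra k * rb k) ^ n ∈ SS k := fun n =>
    (SS k).zpow_mem ((SS k).mul_mem ra_mem rb_mem) n
  change (ra k * rb k) ^ d.k * (if d.e = 1 then 1 else rb k) ∈ SS k
  split_ifs
  · rw [mul_one]; exact hz _
  · exact (SS k).mul_mem (hz _) rb_mem

variable (k) in
/-- the cyclic enumeration of the set `Y i` -/
noncomputable def cy (i : ℕ) (x : ℤ) : Cell (ZMod (2 ^ k i)) := rho k (Dh.t ^ x) i none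

lemma rho_cy (d : Dh) (i : ℕ) (x : ℤ) : rho k d i (cy k i x) = cy k i (d • x) := by
  have h1 : rho k d i (cy k i x) = rho k (d * Dh.t ^ x) i none := by
    rw [map_mul]; rfl
  rw [h1]
  -- `d * t ^ x = t ^ (d • x) * (1 or r)`
  have h2 : ∃ f : Dh, d * Dh.t ^ x = Dh.t ^ (d • x) * f ∧ (f = 1 ∨ f = Dh.r) := by
    rcases Int.units_eq_one_or d.e with h | h
    · refine ⟨1, ?_, Or.inl rfl⟩
      rw [Dh.t_zpow, Dh.t_zpow, mul_one, Dh.smul_def]
      ext <;> simp [h, add_comm]
    · refine ⟨Dh.r, ?_, Or.inr rfl⟩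
      rw [Dh.t_zpow, Dh.t_zpow, Dh.smul_def]
      ext
      · simp [h]
      · simp [h, add_comm]
  obtain ⟨f, hf, hf'⟩ := h2
  rw [hf, map_mul, Pi.mul_apply, Perm.mul_apply]
  rcases hf' with rfl | rfl
  · rw [map_one]; rfl
  · rw [rho_r, rb_none]; rfl

lemma cy_zero (i : ℕ) : cy k i 0 = none := by
  rw [cy, zpow_zero, map_one]; rfl

lemma cy_one (i : ℕ) : cy k i 1 = some (0, 0) := by
  rw [cy, zpow_one, rho_t, Pi.mul_apply, Perm.mul_apply, rb_none]
  have := ra_zero (k := k) i none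
  rw [emb_none] at this
  rw [this]; rfl

lemma cy_neg_one (i : ℕ) : cy k i (-1) = some (1, 1) := by
  have h1 : rho k Dh.r i (cy k i 1) = cy k i (Dh.r • 1) := rho_cy _ _ _
  have h2 : Dh.r • (1 : ℤ) = -1 := by rw [Dh.smul_def]; simp
  rw [← h2, ← h1, cy_one, rho_r, rb_some]
  have h3 : g2 0 = 1 := by decide
  rw [h3]
  simp [dlt]

/-- the set of enumerated points -/
def Orb (k : ℕ → ℕ) (i : ℕ) (y : Cell (ZMod (2 ^ k i))) : Prop := ∃ x : ℤ, cy k i x = y

lemma orb_rb {i : ℕ} {y : Cell (ZMod (2 ^ k i))} (h : Orb k i y) : Orb k i (rb k i y) := by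
  obtain ⟨x, rfl⟩ := h
  refine ⟨Dh.r • x, ?_⟩
  rw [← rho_cy, rho_r]

lemma orb_ra {i : ℕ} {y : Cell (ZMod (2 ^ k i))} (h : Orb k i y) : Orb k i (ra k i y) := by
  obtain ⟨x, rfl⟩ := h
  refine ⟨(Dh.t * Dh.r) • x, ?_⟩
  rw [← rho_cy, map_mul, rho_t, rho_r, mul_assoc, rb_rb, mul_one]

lemma orb_rows {i : ℕ} {a b : Fin 8} {e : ZMod (2 ^ k i)} (he : ∀ x, ∃ n : ℕ, n • e = x)
    (h1 : ∀ x, rb k i (some (a, x)) = some (b, x + e)) (h2 : g2 b = a)
    (h0 : Orb k i (some (a, 0))) : (∀ x, Orb k i (some (a, x))) ∧ ∀ x, Orb k i (some (b, x)) := by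
  have hstep : ∀ x, Orb k i (some (a, x)) → Orb k i (some (a, x + e)) := by
    intro x hx
    by_cases hxe : x + e = 0
    · rw [hxe]; exact h0
    · have h3 := orb_rb hx
      rw [h1] at h3
      have h4 := orb_ra h3
      rwa [ra_some i b hxe, h2] at h4
  have hall : ∀ x, Orb k i (some (a, x)) := by
    intro x
    obtain ⟨n, rfl⟩ := he x
    induction n with
    | zero => rw [zero_nsmul]; exact h0
    | succ n ih => rw [succ_nsmul]; exact hstep _ ih
  refine ⟨hall, fun x => ?_⟩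
  have h3 := orb_rb (hall (x - e))
  rwa [h1, sub_add_cancel] at h3

lemma gen_one (n : ℕ) [NeZero n] (x : ZMod n) : ∃ m : ℕ, m • (1 : ZMod n) = x :=
  ⟨x.val, by simp⟩

lemma gen_neg_one (n : ℕ) [NeZero n] (x : ZMod n) : ∃ m : ℕ, m • (-1 : ZMod n) = x :=
  ⟨(-x).val, by simp⟩

lemma orb_next {i : ℕ} {b c : Fin 8} (h : h2 (some b) = some c)
    (h0 : Orb k i (some (b, 0))) : Orb k i (some (c, 0)) := by
  have h1 := orb_ra h0
  have h2 := ra_zero (k := k) i (some b)
  rw [emb_some] at h2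
  rw [h2, h] at h1
  exact h1

lemma orb_all (i : ℕ) (y : Cell (ZMod (2 ^ k i))) : Orb k i y := by
  have h00 : Orb k i (some (0, 0)) := ⟨1, cy_one i⟩
  have e1 : ∀ x, rb k i (some (0, x)) = some (1, x + 1) := by
    intro x
    rw [rb_some]
    have : g2 0 = 1 := by decide
    rw [this]; simp [dlt]
  have e2 : ∀ x, rb k i (some (2, x)) = some (3, x + (-1)) := by
    intro x
    rw [rb_some]
    have : g2 2 = 3 := by decide
    rw [this]; simp [dlt]
  have e3 : ∀ x, rb k i (some (4, x)) = some (5, x + 1) := by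
    intro x
    rw [rb_some]
    have : g2 4 = 5 := by decide
    rw [this]; simp [dlt]
  have e4 : ∀ x, rb k i (some (6, x)) = some (7, x + (-1)) := by
    intro x
    rw [rb_some]
    have : g2 6 = 7 := by decide
    rw [this]; simp [dlt]
  obtain ⟨o0, o1⟩ := orb_rows (gen_one _) e1 (by decide) h00
  obtain ⟨o2, o3⟩ := orb_rows (gen_neg_one _) e2 (by decide)
    (orb_next (b := 1) (c := 2) (by decide) (o1 0))
  obtain ⟨o4, o5⟩ := orb_rows (gen_one _) e3 (by decide)
    (orb_next (b := 3) (c := 4) (by decide) (o3 0))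
  obtain ⟨o6, o7⟩ := orb_rows (gen_neg_one _) e4 (by decide)
    (orb_next (b := 5) (c := 6) (by decide) (o5 0))
  rcases y with _ | ⟨a, x⟩
  · exact ⟨0, cy_zero i⟩
  · fin_cases a
    · exact o0 x
    · exact o1 x
    · exact o2 x
    · exact o3 x
    · exact o4 x
    · exact o5 x
    · exact o6 x
    · exact o7 x

/-- the number of points -/
def mm (k : ℕ → ℕ) (i : ℕ) : ℕ := 8 * 2 ^ k i + 1

lemma mm_card (i : ℕ) : Nat.card (Cell (ZMod (2 ^ k i))) = mm k i := by
  rw [Nat.card_eq_fintype_card, Fintype.card_option, Fintype.card_prod, Fintype.card_fin,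
    ZMod.card]; rfl

lemma cy_add (i : ℕ) (n x : ℤ) : (rho k Dh.t i) ^ n • cy k i x = cy k i (n + x) := by
  have h1 : (rho k Dh.t i) ^ n = rho k (Dh.t ^ n) i := by rw [map_zpow]; rfl
  rw [h1]
  change rho k (Dh.t ^ n) i (cy k i x) = _
  rw [rho_cy, Dh.t_zpow, Dh.smul_def]
  congr 1
  simp [add_comm]

lemma cy_eq_iff (i : ℕ) (x y : ℤ) : cy k i x = cy k i y ↔ (mm k i : ℤ) ∣ x - y := by
  classical
  have h0 : ∀ n : ℤ, cy k i n = cy k i 0 ↔ (mm k i : ℤ) ∣ n := by
    intro n
    have h1 := MulAction.zpow_smul_eq_iff_minimalPeriod_dvd (a := rho k Dh.t i) (b := cy k i 0)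
      (n := n)
    rw [cy_add, add_zero] at h1
    rw [h1]
    have h2 : Function.minimalPeriod ((rho k Dh.t i) • ·) (cy k i 0) = mm k i := by
      have : Fintype (MulAction.orbit (Subgroup.zpowers (rho k Dh.t i)) (cy k i 0)) :=
        Fintype.ofFinite _
      rw [MulAction.minimalPeriod_eq_card, ← mm_card, ← Nat.card_eq_fintype_card]
      have h3 : MulAction.orbit (Subgroup.zpowers (rho k Dh.t i)) (cy k i 0) = Set.univ := by
        rw [Set.eq_univ_iff_forall]
        intro y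
        obtain ⟨x, rfl⟩ := orb_all i y
        refine ⟨⟨(rho k Dh.t i) ^ x, ⟨x, rfl⟩⟩, ?_⟩
        change (rho k Dh.t i) ^ x • cy k i 0 = _
        rw [cy_add, add_zero]
      rw [h3, Nat.card_univ]
    rw [h2]
  rw [← h0 (x - y)]
  constructor
  · intro h
    have h1 := congrArg (fun z => (rho k Dh.t i) ^ (-y) • z) h
    simp only [cy_add] at h1
    rw [show x - y = -y + x by ring, h1]
    congr 1; ring
  · intro h
    have h1 := congrArg (fun z => (rho k Dh.t i) ^ y • z) h
    simp only [cy_add] at h1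
    rw [show x = y + (x - y) by ring, h1]
    congr 1; ring

/-- an element of the dihedral group with two fixed points on `Y i` acts trivially there -/
lemma rho_two_fixed (d : Dh) (i : ℕ) {y z : Cell (ZMod (2 ^ k i))} (hyz : y ≠ z)
    (hy : rho k d i y = y) (hz : rho k d i z = z) : rho k d i = 1 := by
  obtain ⟨x1, rfl⟩ := orb_all i y
  obtain ⟨x2, rfl⟩ := orb_all i z
  rw [rho_cy, cy_eq_iff, Dh.smul_def] at hy hz
  rcases Int.units_eq_one_or d.e with h | h
  · rw [h] at hy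
    simp only [Units.val_one, one_mul, add_sub_cancel_left] at hy
    ext y : 1
    obtain ⟨x, rfl⟩ := orb_all i y
    rw [rho_cy, Perm.one_apply, cy_eq_iff, Dh.smul_def, h]
    simpa using hy
  · exfalso
    apply hyz
    rw [cy_eq_iff]
    rw [h] at hy hz
    have h1 := dvd_sub hz hy
    have h2 : ((-1 : ℤˣ) : ℤ) * x2 + d.k - x2 - (((-1 : ℤˣ) : ℤ) * x1 + d.k - x1) =
        2 * (x1 - x2) := by
      simp only [Units.val_neg, Units.val_one]; ring
    rw [h2] at h1
    refine IsCoprime.dvd_of_dvd_mul_left ?_ h1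
    refine ⟨1, -(4 * 2 ^ k i), ?_⟩
    rw [mm]; push_cast; ring

end Pool.Agent.Helper73.CG
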