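import Mathlib

set_option autoImplicit false
set_option linter.unusedSectionVars false

namespace Pool.Agent.Helper73.CG

open Equiv Equiv.Perm

section alt

variable {α : Type*} [DecidableEq α] [Fintype α]

lemma alt_le_of_normalized (h5 : 5 ≤ Nat.card α) (K : Subgroup (Perm α))
    (hn : ∀ g ∈ alternatingGroup α, ∀ k ∈ K, g * k * g⁻¹ ∈ K)
    (x : Perm α) (hx : x ∈ K) (hx1 : x ≠ 1) (hxa : x ∈ alternatingGroup α) :
    alternatingGroup α ≤ K := by
  let N : Subgroup (alternatingGroup α) := K.subgroupOf (alternatingGroup α)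
  have hN : N.Normal := by
    constructor
    intro n hn' g
    exact hn g g.2 n hn'
  rcases alternatingGroup.normal_subgroup_eq_bot_or_eq_top h5 (N := N) with h | h
  · exfalso
    have h1 : (⟨x, hxa⟩ : alternatingGroup α) ∈ N := hx
    rw [h, Subgroup.mem_bot] at h1
    exact hx1 (congrArg Subtype.val h1)
  · intro g hg
    have h1 : (⟨g, hg⟩ : alternatingGroup α) ∈ N := by rw [h]; trivial
    exact h1

/-- the 3-cycle `a ↦ b ↦ c ↦ a` -/
def cyc (a b c : α) : Perm α := swap a b * swap b c

lemma cyc_apply_a {a b c : α} (h1 : a ≠ b) (h2 : a ≠ c) : cyc a b c a = b := by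
  simp [cyc, swap_apply_of_ne_of_ne h1 h2]

lemma cyc_apply_b {a b c : α} (h2 : a ≠ c) (h3 : b ≠ c) : cyc a b c b = c := by
  simp [cyc, swap_apply_of_ne_of_ne h2.symm h3.symm]

lemma cyc_apply_c {a b c : α} : cyc a b c c = a := by
  simp [cyc]

lemma cyc_apply_of_ne {a b c x : α} (h1 : x ≠ a) (h2 : x ≠ b) (h3 : x ≠ c) :
    cyc a b c x = x := by
  simp [cyc, swap_apply_of_ne_of_ne h1 h2, swap_apply_of_ne_of_ne h2 h3]

lemma cyc_isThreeCycle {a b c : α} (h1 : a ≠ b) (h2 : a ≠ c) (h3 : b ≠ c) :
    (cyc a b c).IsThreeCycle := by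
  have := isThreeCycle_swap_mul_swap_same (a := b) (b := a) (c := c) h1.symm h3 h2
  rwa [swap_comm b a] at this

lemma cyc_mem_alt {a b c : α} (h1 : a ≠ b) (h2 : a ≠ c) (h3 : b ≠ c) :
    cyc a b c ∈ alternatingGroup α := (cyc_isThreeCycle h1 h2 h3).mem_alternatingGroup

lemma conj_cyc (g : Perm α) (a b c : α) : g * cyc a b c * g⁻¹ = cyc (g a) (g b) (g c) := by
  simp only [cyc]
  have h1 : g * (swap a b * swap b c) * g⁻¹ = (g * swap a b * g⁻¹) * (g * swap b c * g⁻¹) := by
    group
  have h2 : ∀ x y, g * swap x y * g⁻¹ = swap (g x) (g y) := by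
    intro x y
    rw [mul_swap_eq_swap_mul]; group
  rw [h1, h2, h2]

/-- If `H` contains all 3-cycles `a ↦ b ↦ z ↦ a` for fixed `a ≠ b`, it contains the alternating
group. -/
lemma alt_le_of_pair (H : Subgroup (Perm α)) (a b : α) (hab : a ≠ b)
    (h : ∀ z, z ≠ a → z ≠ b → cyc a b z ∈ H) : alternatingGroup α ≤ H := by
  classical
  let S : Set (Perm α) := {g | ∃ z, z ≠ a ∧ z ≠ b ∧ g = cyc a b z}
  let H0 := Subgroup.closure S
  have hH0 : H0 ≤ H := by
    rw [Subgroup.closure_le]
    rintro g ⟨z, hz1, hz2, rfl⟩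
    exact h z hz1 hz2
  have hs : ∀ z, z ≠ a → z ≠ b → cyc a b z ∈ H0 := fun z h1 h2 =>
    Subgroup.subset_closure ⟨z, h1, h2, rfl⟩
  have hinv : ∀ z, z ≠ a → z ≠ b → cyc b a z = (cyc a b z)⁻¹ := by
    intro z h1 h2
    rw [eq_inv_iff_mul_eq_one]
    ext x
    by_cases hxa : x = a
    · subst hxa
      rw [Perm.mul_apply, cyc_apply_a hab h1.symm, cyc_apply_a hab.symm h2.symm]; rfl
    by_cases hxb : x = b
    · subst hxb
      rw [Perm.mul_apply, cyc_apply_b h1.symm h2.symm, cyc_apply_c]; rfl
    by_cases hxz : x = z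
    · subst hxz
      rw [Perm.mul_apply, cyc_apply_c, cyc_apply_b h2.symm h1.symm]; rfl
    rw [Perm.mul_apply, cyc_apply_of_ne hxa hxb hxz, cyc_apply_of_ne hxb hxa hxz]; rfl
  have hconj : ∀ g ∈ H0, swap a b * g * (swap a b)⁻¹ ∈ H0 := by
    intro g hg
    have h1 : H0 ≤ H0.comap (MulAut.conj (swap a b)).toMonoidHom := by
      rw [Subgroup.closure_le]
      rintro g ⟨z, hz1, hz2, rfl⟩
      change swap a b * cyc a b z * (swap a b)⁻¹ ∈ H0
      rw [conj_cyc, swap_apply_left, swap_apply_right, swap_apply_of_ne_of_ne hz1 hz2,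
        hinv z hz1 hz2]
      exact H0.inv_mem (hs z hz1 hz2)
    exact h1 hg
  let K : Subgroup (Perm α) :=
    { carrier := {g | g ∈ H0 ∨ g * swap a b ∈ H0}
      one_mem' := Or.inl H0.one_mem
      mul_mem' := by
        intro g g' hg hg'
        have e : swap a b * swap a b = 1 := swap_mul_self a b
        rcases hg with hg | hg <;> rcases hg' with hg' | hg'
        · exact Or.inl (H0.mul_mem hg hg')
        · right; rw [mul_assoc]; exact H0.mul_mem hg hg'
        · right
          have h2 := H0.mul_mem hg (hconj _ hg')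
          rw [swap_inv] at h2
          have h3 : g * swap a b * (swap a b * g' * swap a b) = g * g' * swap a b := by
            calc g * swap a b * (swap a b * g' * swap a b) =
              g * (swap a b * swap a b) * g' * swap a b := by group
              _ = _ := by rw [e]; group
          rwa [h3] at h2
        · left
          have h2 := H0.mul_mem hg (hconj _ hg')
          rw [swap_inv] at h2
          have h3 : g * swap a b * (swap a b * (g' * swap a b) * swap a b) = g * g' := by
            calc g * swap a b * (swap a b * (g' * swap a b) * swap a b) =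
              g * (swap a b * swap a b) * g' * (swap a b * swap a b) := by group
              _ = _ := by rw [e]; group
          rwa [h3] at h2
      inv_mem' := by
        intro g hg
        have e : swap a b * swap a b = 1 := swap_mul_self a b
        rcases hg with hg | hg
        · exact Or.inl (H0.inv_mem hg)
        · right
          have h2 := hconj _ (H0.inv_mem hg)
          rw [mul_inv_rev, swap_inv] at h2
          have h3 : swap a b * (swap a b * g⁻¹) * swap a b = g⁻¹ * swap a b := by
            calc swap a b * (swap a b * g⁻¹) * swap a b =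
              (swap a b * swap a b) * g⁻¹ * swap a b := by group
              _ = _ := by rw [e]; group
          rwa [h3] at h2 }
  have hKab : swap a b ∈ K := by
    right; rw [swap_mul_self]; exact H0.one_mem
  have hKH : H0 ≤ K := fun g hg => Or.inl hg
  have hKb : ∀ z, z ≠ a → z ≠ b → swap b z ∈ K := by
    intro z h1 h2
    have h3 := K.mul_mem hKab (hKH (hs z h1 h2))
    rwa [cyc, ← mul_assoc, swap_mul_self, one_mul] at h3
  have hKa : ∀ z, swap a z ∈ K := by
    intro z
    by_cases h1 : z = a
    · rw [h1, swap_self]; exact K.one_mem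
    by_cases h2 : z = b
    · rw [h2]; exact hKab
    have h3 := K.mul_mem (K.mul_mem hKab (hKb z h1 h2)) hKab
    have h4 : swap a b * swap b z * swap a b = swap a z := by
      have h5 : swap a b * swap b z * (swap a b)⁻¹ = swap (swap a b b) (swap a b z) := by
        rw [mul_swap_eq_swap_mul]; group
      rw [swap_inv] at h5
      rw [h5, swap_apply_right, swap_apply_of_ne_of_ne h1 h2]
    rwa [h4] at h3
  have hKtop : ∀ g, g ∈ K := by
    have h1 : K = ⊤ := by
      rw [eq_top_iff, ← closure_isSwap, Subgroup.closure_le]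
      rintro g ⟨x, y, hxy, rfl⟩
      change swap x y ∈ K
      by_cases hx : x = a
      · rw [hx]; exact hKa y
      by_cases hy : y = a
      · rw [hy, swap_comm]; exact hKa x
      have h2 := K.mul_mem (K.mul_mem (hKa x) (hKa y)) (hKa x)
      have h3 : swap a x * swap a y * swap a x = swap x y := by
        have h5 : swap a x * swap a y * (swap a x)⁻¹ = swap (swap a x a) (swap a x y) := by
          rw [mul_swap_eq_swap_mul]; group
        rw [swap_inv] at h5
        rw [h5, swap_apply_left, swap_apply_of_ne_of_ne hy hxy.symm]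
      rwa [h3] at h2
    intro g
    rw [h1]; trivial
  have hH0alt : H0 ≤ alternatingGroup α := by
    rw [Subgroup.closure_le]
    rintro g ⟨z, hz1, hz2, rfl⟩
    exact cyc_mem_alt hab hz1.symm hz2.symm
  intro g hg
  rcases hKtop g with h1 | h1
  · exact hH0 h1
  · exfalso
    have h2 := hH0alt h1
    rw [mem_alternatingGroup] at h2 hg
    rw [Perm.sign_mul, hg, sign_swap hab] at h2
    simp at h2

/-- a permutation commuting with all even permutations is trivial -/
lemma eq_one_of_comm_alt (h4 : 4 ≤ Nat.card α) (g : Perm α)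
    (h : ∀ x ∈ alternatingGroup α, g * x = x * g) : g = 1 := by
  ext a
  by_contra hne
  have hne' : g a ≠ a := hne
  -- choose `b, c` outside `{a, g a}`
  have h1 : 2 ≤ (({a, g a} : Finset α)ᶜ).card := by
    have h2 : ({a, g a} : Finset α).card ≤ 2 := Finset.card_le_two
    rw [Finset.card_compl]
    rw [Nat.card_eq_fintype_card] at h4
    omega
  obtain ⟨b, hb, c, hc, hbc⟩ := Finset.one_lt_card.mp h1
  simp only [Finset.mem_compl, Finset.mem_insert, Finset.mem_singleton, not_or, ← ne_eq] at hb hc
  have h3 := h (cyc (g a) b c) (cyc_mem_alt hb.2.symm hc.2.symm hbc)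
  have h5 := congrArg (fun p : Perm α => p a) h3
  simp only [Perm.mul_apply] at h5
  rw [cyc_apply_of_ne hne'.symm hb.1.symm hc.1.symm, cyc_apply_a hb.2.symm hc.2.symm] at h5
  exact hb.2 h5.symm

/-- an even permutation commuting with all its conjugates under even permutations is trivial -/
lemma eq_one_of_comm_conj (h5 : 5 ≤ Nat.card α) (g : Perm α) (hg : g ∈ alternatingGroup α)
    (h : ∀ x ∈ alternatingGroup α, g * (x * g * x⁻¹) = (x * g * x⁻¹) * g) : g = 1 := by
  by_contra hg1
  -- the subgroup of elements commuting with `g`... use the normal core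
  let K : Subgroup (Perm α) :=
    { carrier := {k | ∀ x ∈ alternatingGroup α, k * (x * g * x⁻¹) = (x * g * x⁻¹) * k}
      one_mem' := by intro x _; simp
      mul_mem' := by
        intro k l hk hl x hx
        rw [mul_assoc, hl x hx, ← mul_assoc, hk x hx, mul_assoc]
      inv_mem' := by
        intro k hk x hx
        have h1 := hk x hx
        rw [inv_mul_eq_iff_eq_mul, ← mul_assoc, h1, mul_assoc (x * g * x⁻¹), mul_inv_cancel,
          mul_one] }
  have hK : alternatingGroup α ≤ K := by
    apply alt_le_of_normalized h5 K _ g h hg1 hg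
    intro y hy k hk x hx
    have h1 := hk (y⁻¹ * x) ((alternatingGroup α).mul_mem ((alternatingGroup α).inv_mem hy) hx)
    have h2 : y * (k * (y⁻¹ * x * g * (y⁻¹ * x)⁻¹)) * y⁻¹ =
        y * (y⁻¹ * x * g * (y⁻¹ * x)⁻¹ * k) * y⁻¹ := by rw [h1]
    calc y * k * y⁻¹ * (x * g * x⁻¹) = y * (k * (y⁻¹ * x * g * (y⁻¹ * x)⁻¹)) * y⁻¹ := by group
      _ = y * (y⁻¹ * x * g * (y⁻¹ * x)⁻¹ * k) * y⁻¹ := h2
      _ = _ := by group
  apply hg1
  apply eq_one_of_comm_alt (by omega)
  intro x hx
  have h1 := hK hx 1 (alternatingGroup α).one_mem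
  simp only [one_mul, inv_one, mul_one] at h1
  exact h1.symm

end alt

end Pool.Agent.Helper73.CG
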