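import Pool.Agent.Helper73.CG.Iota

set_option autoImplicit false
set_option linter.unusedSectionVars false

namespace Pool.Agent.Helper73.CG

open Equiv Equiv.Perm

/-- the group `A` as a type -/
abbrev AT (P : Par) := ↥(Ag P)

variable {P : Par}

/-- one-coordinate elements of `A` -/
def iA (i : ℕ) (x : Aff (ZMod (P.p i)) (Yy P i)) (hx : x ∈ Aff.A0 _ _) : AT P :=
  ⟨inc P i x, inc_mem hx⟩

lemma iA_val (i : ℕ) (x : Aff (ZMod (P.p i)) (Yy P i)) (hx : x ∈ Aff.A0 _ _) :
    (iA i x hx).1 = inc P i x := rfl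

lemma iA_same (i : ℕ) (x : Aff (ZMod (P.p i)) (Yy P i)) (hx : x ∈ Aff.A0 _ _) :
    (iA i x hx).1 i = x := inc_same i x

lemma ev_A0 {i : ℕ} {w : Yy P i → ZMod (P.p i)} (hw : ∑ y, w y = 0) :
    Aff.ev w ∈ Aff.A0 (ZMod (P.p i)) (Yy P i) := by
  rw [Aff.mem_A0]
  exact ⟨hw, Subgroup.one_mem _⟩

lemma es_A0 {i : ℕ} {g : Perm (Yy P i)} (hg : g ∈ alternatingGroup (Yy P i)) :
    Aff.es g ∈ Aff.A0 (ZMod (P.p i)) (Yy P i) := by
  rw [Aff.mem_A0]
  exact ⟨by simp, hg⟩

/-- the `i`-th minimal normal subgroup -/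
def InV (i : ℕ) (a : AT P) : Prop := (∀ j, j ≠ i → a.1 j = 1) ∧ (a.1 i).s = 1

/-- the `i`-th coordinate subgroup -/
def InA (i : ℕ) (a : AT P) : Prop := ∀ j, j ≠ i → a.1 j = 1

lemma InV.eq {i : ℕ} {a : AT P} (h : InV i a) : a = iA i (Aff.ev (a.1 i).v)
    (ev_A0 (Ag_A0 a.2 i).1) := by
  apply Subtype.ext
  rw [iA_val]
  have h1 : a.1 = inc P i (a.1 i) := eq_inc h.1
  have h2 : a.1 i = Aff.ev (a.1 i).v := Aff.ext rfl h.2
  rw [← h2]
  exact h1

lemma InV_iA {i : ℕ} {w : Yy P i → ZMod (P.p i)} (hw : ∑ y, w y = 0) :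
    InV i (iA i (Aff.ev w) (ev_A0 hw)) :=
  ⟨fun _ hj => inc_ne hj _, by rw [iA_same]; rfl⟩

lemma InV.conj {i : ℕ} {a : AT P} (h : InV i a) (x : AT P) : InV i (x * a * x⁻¹) := by
  refine ⟨fun j hj => ?_, ?_⟩
  · change x.1 j * a.1 j * (x.1 j)⁻¹ = 1
    rw [h.1 j hj]; simp
  · change (x.1 i * a.1 i * (x.1 i)⁻¹).s = 1
    simp [h.2]

lemma aff_comm_of_s {K Y : Type*} [AddCommGroup K] {a b : Aff K Y} (ha : a.s = 1) (hb : b.s = 1) :
    a * b = b * a := by
  refine Aff.ext ?_ ?_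
  · simp [ha, hb, add_comm]
  · simp [ha, hb]

lemma InV.comm {i : ℕ} {a b : AT P} (ha : InV i a) (hb : InV i b) : a * b = b * a := by
  apply Subtype.ext
  funext j
  change a.1 j * b.1 j = b.1 j * a.1 j
  by_cases hj : j = i
  · subst hj
    exact aff_comm_of_s ha.2 hb.2
  · rw [ha.1 j hj, hb.1 j hj]

lemma ev_pow_p {i : ℕ} (w : Yy P i → ZMod (P.p i)) : (Aff.ev w) ^ (P.p i) = 1 := by
  rw [← Aff.ev_nsmul]
  have : P.p i • w = 0 := by
    funext y
    simp
  rw [this, Aff.ev_zero]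

lemma InV.pow {i : ℕ} {a : AT P} (h : InV i a) : a ^ (P.p i) = 1 := by
  apply Subtype.ext
  funext j
  change (a.1 j) ^ (P.p i) = 1
  by_cases hj : j = i
  · subst hj
    have h2 : a.1 j = Aff.ev (a.1 j).v := Aff.ext rfl h.2
    rw [h2, ev_pow_p]
  · rw [h.1 j hj, one_pow]

lemma five_le (P : Par) (i : ℕ) : 5 ≤ Nat.card (Yy P i) := by have := six_le P i; omega

/-- step 1: automorphisms preserve the minimal normal subgroups -/
lemma theta_V (θ : MulAut (AT P)) {i : ℕ} {a : AT P} (h : InV i a) : InV i (θ a) := by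
  have hcomm : ∀ x : AT P, (θ a) * (x * θ a * x⁻¹) = (x * θ a * x⁻¹) * θ a := by
    intro x
    have h1 := congrArg θ (h.comm (h.conj (θ.symm x)))
    simpa using h1
  have hs : ∀ j, ((θ a).1 j).s = 1 := by
    intro j
    apply eq_one_of_comm_conj (five_le P j) _ (Ag_A0 (θ a).2 j).2
    intro x hx
    have h1 := hcomm (iA j (Aff.es x) (es_A0 hx))
    have h2 := congrArg (fun z : AT P => (z.1 j).s) h1
    change (((θ a).1 j * ((iA j (Aff.es x) (es_A0 hx)).1 j * (θ a).1 j *
      ((iA j (Aff.es x) (es_A0 hx)).1 j)⁻¹))).s =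
      ((((iA j (Aff.es x) (es_A0 hx)).1 j * (θ a).1 j *
      ((iA j (Aff.es x) (es_A0 hx)).1 j)⁻¹)) * (θ a).1 j).s at h2
    rw [iA_same] at h2
    simpa using h2
  have hp : (θ a) ^ (P.p i) = 1 := by rw [← map_pow, h.pow, map_one]
  refine ⟨fun j hj => ?_, hs i⟩
  have h1 : ((θ a).1 j) ^ (P.p i) = 1 := congrFun (congrArg Subtype.val hp) j
  have h2 : (θ a).1 j = Aff.ev ((θ a).1 j).v := Aff.ext rfl (hs j)
  rw [h2, ← Aff.ev_nsmul] at h1
  have h3 : P.p i • ((θ a).1 j).v = 0 := Aff.ev_injective h1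
  rw [h2]
  have h4 : ((θ a).1 j).v = 0 := by
    funext y
    have h5 := congrFun h3 y
    rw [Pi.smul_apply, nsmul_eq_mul, Pi.zero_apply] at h5
    rcases mul_eq_zero.mp h5 with h6 | h6
    · exfalso
      rw [ZMod.natCast_eq_zero_iff] at h6
      have h7 := (Nat.prime_dvd_prime_iff_eq (P.hp j) (P.hp i)).mp h6
      exact hj (P.hpm.injective h7)
    · exact h6
  rw [h4, Aff.ev_zero]

/-- a permutation fixing all sum-zero vectors is trivial -/
lemma perm_eq_one_of_fix {i : ℕ} {g : Perm (Yy P i)}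
    (h : ∀ w : Yy P i → ZMod (P.p i), ∑ y, w y = 0 → pact g w = w) : g = 1 := by
  ext y : 1
  by_contra hne
  have hne' : g y ≠ y := hne
  obtain ⟨z, hz⟩ := exists_avoid (six_le P i) {y, g y} (by
    have := Finset.card_le_two (a := y) (b := g y)
    omega)
  simp only [Finset.mem_insert, Finset.mem_singleton, not_or] at hz
  have h1 := h (dl (P.p i) y - dl (P.p i) z) (by
    simp only [Pi.sub_apply, Finset.sum_sub_distrib, sum_dl, sub_self])
  rw [pact_sub, pact_dl, pact_dl] at h1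
  have h2 := congrFun h1 y
  simp only [Pi.sub_apply, dl_apply, if_neg hne'.symm, if_neg (Ne.symm hz.1), if_true] at h2
  have hp := two_lt P i
  split_ifs at h2 with h3
  · have h4 : ((2 : ℕ) : ZMod (P.p i)) = 0 := by
      push_cast
      linear_combination -h2
    rw [ZMod.natCast_eq_zero_iff] at h4
    have := Nat.le_of_dvd (by norm_num) h4
    omega
  · simp at h2

lemma comm_V_iff {j : ℕ} {a : AT P} : (∀ x, InV j x → a * x = x * a) ↔ (a.1 j).s = 1 := by
  constructor
  · intro h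
    apply perm_eq_one_of_fix (P := P)
    intro w hw
    have h1 := h _ (InV_iA hw)
    have h2 : a.1 j * Aff.ev w = Aff.ev w * a.1 j := by
      have h3 := congrArg (fun z : AT P => z.1 j) h1
      change a.1 j * (iA j (Aff.ev w) (ev_A0 hw)).1 j = (iA j (Aff.ev w) (ev_A0 hw)).1 j * a.1 j
        at h3
      rwa [iA_same] at h3
    have h3 : a.1 j * Aff.ev w * (a.1 j)⁻¹ = Aff.ev w := by rw [h2]; group
    rw [Aff.conj_ev] at h3
    exact Aff.ev_injective h3
  · intro h x hx
    apply Subtype.ext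
    funext l
    change a.1 l * x.1 l = x.1 l * a.1 l
    by_cases hl : l = j
    · subst hl
      exact aff_comm_of_s h hx.2
    · rw [hx.1 l hl]; simp

lemma theta_s (θ : MulAut (AT P)) {j : ℕ} {a : AT P} (h : (a.1 j).s = 1) :
    ((θ a).1 j).s = 1 := by
  rw [← comm_V_iff] at h ⊢
  intro x hx
  have h1 := congrArg θ (h _ (theta_V θ.symm hx))
  simpa using h1

lemma InA.conj {i : ℕ} {a : AT P} (h : InA i a) (x : AT P) : InA i (x * a * x⁻¹) := by
  intro j hj
  change x.1 j * a.1 j * (x.1 j)⁻¹ = 1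
  rw [h j hj]; simp

lemma InA.mul {i : ℕ} {a b : AT P} (ha : InA i a) (hb : InA i b) : InA i (a * b) := by
  intro j hj
  change a.1 j * b.1 j = 1
  rw [ha j hj, hb j hj, one_mul]

lemma InA.inv {i : ℕ} {a : AT P} (ha : InA i a) : InA i (a⁻¹) := by
  intro j hj
  change (a.1 j)⁻¹ = 1
  rw [ha j hj, inv_one]

lemma InA_one {i : ℕ} : InA i (1 : AT P) := fun _ _ => rfl

lemma InA_iA {i : ℕ} {x : Aff (ZMod (P.p i)) (Yy P i)} (hx : x ∈ Aff.A0 _ _) :
    InA i (iA i x hx) := fun _ hj => inc_ne hj _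

lemma InA.eq {i : ℕ} {a : AT P} (h : InA i a) : a = iA i (a.1 i) (Ag_A0 a.2 i) :=
  Subtype.ext (eq_inc h)

lemma iA_mul {i : ℕ} {x y : Aff (ZMod (P.p i)) (Yy P i)} (hx : x ∈ Aff.A0 _ _)
    (hy : y ∈ Aff.A0 _ _) : iA i (x * y) (Subgroup.mul_mem _ hx hy) = iA i x hx * iA i y hy :=
  Subtype.ext (map_mul (inc P i) x y)

lemma iA_inv {i : ℕ} {x : Aff (ZMod (P.p i)) (Yy P i)} (hx : x ∈ Aff.A0 _ _) :
    iA i x⁻¹ (Subgroup.inv_mem _ hx) = (iA i x hx)⁻¹ :=
  Subtype.ext (map_inv (inc P i) x)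

lemma iA_congr {i : ℕ} {x y : Aff (ZMod (P.p i)) (Yy P i)} (hx : x ∈ Aff.A0 _ _)
    (h : x = y) : iA i x hx = iA i y (h ▸ hx) := by
  subst h; rfl

lemma exists_comm_alt (P : Par) (i : ℕ) : ∃ g ∈ alternatingGroup (Yy P i),
    ∃ h ∈ alternatingGroup (Yy P i), g * h * g⁻¹ * h⁻¹ ≠ 1 := by
  by_contra hcon
  push Not at hcon
  have h1 : cyc (some (0, 0)) (some (1, 0)) (some (2, 0)) ∈ alternatingGroup (Yy P i) :=
    cyc_mem_alt (by simp) (by simp) (by simp)
  have h2 : cyc (some (0, 0)) (some (1, 0)) (some (2, 0)) = (1 : Perm (Yy P i)) := by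
    apply eq_one_of_comm_alt (le_trans (by norm_num) (six_le P i))
    intro x hx
    have h3 := hcon _ h1 _ hx
    rw [mul_inv_eq_one, mul_inv_eq_iff_eq_mul] at h3
    exact h3
  have h3 := congrArg (fun g : Perm (Yy P i) => g (some (0, 0))) h2
  simp only [Perm.one_apply] at h3
  rw [cyc_apply_a (by simp) (by simp)] at h3
  simp at h3

/-- step 3: automorphisms preserve the coordinate subgroups -/
lemma theta_A (θ : MulAut (AT P)) {i : ℕ} {a : AT P} (h : InA i a) : InA i (θ a) := by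
  -- commutators
  have hc : ∀ x y : AT P, InA i x → InA i y → InA i (θ (x * y * x⁻¹ * y⁻¹)) := by
    intro x y hx hy j hj
    have hxs : (x.1 j).s = 1 := by rw [hx j hj]; rfl
    have hys : (y.1 j).s = 1 := by rw [hy j hj]; rfl
    have h1 := aff_comm_of_s (theta_s θ hxs) (theta_s θ hys)
    rw [map_mul, map_mul, map_mul, map_inv, map_inv]
    change (θ x).1 j * (θ y).1 j * ((θ x).1 j)⁻¹ * ((θ y).1 j)⁻¹ = 1
    rw [h1]; group
  let K : Subgroup (Perm (Yy P i)) :=
    { carrier := {g | ∃ hg : g ∈ alternatingGroup (Yy P i), InA i (θ (iA i (Aff.es g) (es_A0 hg)))}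
      one_mem' := by
        refine ⟨Subgroup.one_mem _, ?_⟩
        have : iA i (Aff.es 1) (es_A0 (P := P) (Subgroup.one_mem _)) = 1 :=
          Subtype.ext (map_one ((inc P i).comp Aff.es))
        rw [this, map_one]
        exact InA_one
      mul_mem' := by
        rintro g g' ⟨hg, h1⟩ ⟨hg', h2⟩
        refine ⟨Subgroup.mul_mem _ hg hg', ?_⟩
        have : iA i (Aff.es (g * g')) (es_A0 (Subgroup.mul_mem _ hg hg')) =
            iA i (Aff.es g) (es_A0 hg) * iA i (Aff.es g') (es_A0 hg') :=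
          Subtype.ext (map_mul ((inc P i).comp Aff.es) g g')
        rw [this, map_mul]
        exact h1.mul h2
      inv_mem' := by
        rintro g ⟨hg, h1⟩
        refine ⟨Subgroup.inv_mem _ hg, ?_⟩
        have : iA i (Aff.es g⁻¹) (es_A0 (Subgroup.inv_mem _ hg)) = (iA i (Aff.es g) (es_A0 hg))⁻¹ :=
          Subtype.ext (map_inv ((inc P i).comp Aff.es) g)
        rw [this, map_inv]
        exact h1.inv }
  have hKalt : alternatingGroup (Yy P i) ≤ K := by
    obtain ⟨g, hg, g', hg', hne⟩ := exists_comm_alt P i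
    have hcm : g * g' * g⁻¹ * g'⁻¹ ∈ alternatingGroup (Yy P i) :=
      Subgroup.mul_mem _ (Subgroup.mul_mem _ (Subgroup.mul_mem _ hg hg') (Subgroup.inv_mem _ hg))
        (Subgroup.inv_mem _ hg')
    apply alt_le_of_normalized (five_le P i) K _ _ _ hne hcm
    · rintro x hx y ⟨hy, h1⟩
      refine ⟨Subgroup.mul_mem _ (Subgroup.mul_mem _ hx hy) (Subgroup.inv_mem _ hx), ?_⟩
      have : iA i (Aff.es (x * y * x⁻¹)) (es_A0 (Subgroup.mul_mem _ (Subgroup.mul_mem _ hx hy)
          (Subgroup.inv_mem _ hx))) = iA i (Aff.es x) (es_A0 hx) * iA i (Aff.es y) (es_A0 hy) *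
            (iA i (Aff.es x) (es_A0 hx))⁻¹ := by
        apply Subtype.ext
        change (inc P i).comp Aff.es _ = (inc P i).comp Aff.es _ * (inc P i).comp Aff.es _ *
          ((inc P i).comp Aff.es _)⁻¹
        rw [map_mul, map_mul, map_inv]
      rw [this, map_mul, map_mul, map_inv]
      exact h1.conj _
    · refine ⟨hcm, ?_⟩
      have : iA i (Aff.es (g * g' * g⁻¹ * g'⁻¹)) (es_A0 hcm) =
          iA i (Aff.es g) (es_A0 hg) * iA i (Aff.es g') (es_A0 hg') *
            (iA i (Aff.es g) (es_A0 hg))⁻¹ * (iA i (Aff.es g') (es_A0 hg'))⁻¹ := by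
        apply Subtype.ext
        change (inc P i).comp Aff.es _ = (inc P i).comp Aff.es _ * (inc P i).comp Aff.es _ *
          ((inc P i).comp Aff.es _)⁻¹ * ((inc P i).comp Aff.es _)⁻¹
        rw [map_mul, map_mul, map_mul, map_inv, map_inv]
      rw [this]
      exact hc _ _ (InA_iA _) (InA_iA _)
  have ha0 := Ag_A0 a.2 i
  have h1 : a = iA i (Aff.ev (a.1 i).v) (ev_A0 ha0.1) * iA i (Aff.es (a.1 i).s) (es_A0 ha0.2) := by
    rw [← iA_mul]
    apply Subtype.ext
    rw [iA_val, ← Aff.eq_ev_es]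
    exact eq_inc h
  rw [h1, map_mul]
  obtain ⟨hg, h2⟩ := hKalt ha0.2
  exact InA.mul (theta_V θ (InV_iA ha0.1)).1 h2

/-- step 4 -/
lemma theta_co (θ : MulAut (AT P)) {i : ℕ} {a : AT P} (h : a.1 i = 1) : (θ a).1 i = 1 := by
  have hcomm : ∀ x, InA i x → θ a * x = x * θ a := by
    intro x hx
    have h1 : a * θ.symm x = θ.symm x * a := by
      have h2 := theta_A θ.symm hx
      apply Subtype.ext
      funext j
      change a.1 j * (θ.symm x).1 j = (θ.symm x).1 j * a.1 j
      by_cases hj : j = i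
      · subst hj; rw [h]; simp
      · rw [h2 j hj]; simp
    have h2 := congrArg θ h1
    simpa using h2
  have hs : ((θ a).1 i).s = 1 := comm_V_iff.mp (fun x hx => hcomm x hx.1)
  have h2 : (θ a).1 i = Aff.ev ((θ a).1 i).v := Aff.ext rfl hs
  have h3 : ((θ a).1 i).v = 0 := by
    apply const_zero (card_lt P i) (by have := six_le P i; omega) _ (Ag_A0 (θ a).2 i).1
    intro x y
    obtain ⟨g, hg, hgx⟩ := alt_trans (six_le P i) y x
    have h4 := hcomm _ (InA_iA (es_A0 hg))
    have h5 : (θ a).1 i * Aff.es g = Aff.es g * (θ a).1 i := by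
      have h6 := congrArg (fun z : AT P => z.1 i) h4
      change (θ a).1 i * (iA i (Aff.es g) (es_A0 hg)).1 i =
        (iA i (Aff.es g) (es_A0 hg)).1 i * (θ a).1 i at h6
      rwa [iA_same] at h6
    have h6 := congrFun (congrArg Aff.v h5) x
    simp only [Aff.mul_v, Aff.es_v, pact_zero, add_zero, Aff.es_s, zero_add] at h6
    rw [h6, pact, ← hgx]
    simp
  rw [h2, h3, Aff.ev_zero]

lemma theta_congr (θ : MulAut (AT P)) {i : ℕ} {a b : AT P} (h : a.1 i = b.1 i) :
    (θ a).1 i = (θ b).1 i := by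
  have h1 : (a * b⁻¹).1 i = 1 := by
    change a.1 i * (b.1 i)⁻¹ = 1
    rw [h, mul_inv_cancel]
  have h2 := theta_co θ h1
  rw [map_mul, map_inv] at h2
  change (θ a).1 i * ((θ b).1 i)⁻¹ = 1 at h2
  exact mul_inv_eq_one.mp h2

/-- the embedding of `ℤ ≀ D_∞` in `A` -/
noncomputable def iotaA (P : Par) : LL →* AT P := (iota P).codRestrict (Ag P) iota_mem

lemma iotaA_val (x : LL) : (iotaA P x).1 = iota P x := rfl

lemma iotaA_injective : Function.Injective (iotaA P) := fun _ _ h =>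
  iota_injective (congrArg Subtype.val h)

/-- step 5: an automorphism fixing the embedded `ℤ ≀ D_∞` fixes the minimal normal subgroups -/
lemma theta_fix_V (θ : MulAut (AT P)) (h : ∀ x, θ (iotaA P x) = iotaA P x) {i : ℕ} {a : AT P}
    (ha : InV i a) : θ a = a := by
  let M : AddSubgroup (Yy P i → ZMod (P.p i)) :=
    { carrier := {w | ∃ hw : ∑ y, w y = 0,
        θ (iA i (Aff.ev w) (ev_A0 hw)) = iA i (Aff.ev w) (ev_A0 hw)}
      zero_mem' := by
        refine ⟨by simp, ?_⟩
        have : iA i (Aff.ev 0) (ev_A0 (P := P) (by simp)) = 1 := Subtype.ext (map_one (inc P i))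
        rw [this, map_one]
      add_mem' := by
        rintro w w' ⟨hw, h1⟩ ⟨hw', h2⟩
        have hs : ∑ y, (w + w') y = 0 := by
          simp only [Pi.add_apply, Finset.sum_add_distrib, hw, hw', add_zero]
        refine ⟨hs, ?_⟩
        have : iA i (Aff.ev (w + w')) (ev_A0 hs) =
            iA i (Aff.ev w) (ev_A0 hw) * iA i (Aff.ev w') (ev_A0 hw') := by
          apply Subtype.ext
          change inc P i _ = inc P i _ * inc P i _
          rw [Aff.ev_add, map_mul]
        rw [this, map_mul, h1, h2]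
      neg_mem' := by
        rintro w ⟨hw, h1⟩
        have hs : ∑ y, (-w) y = 0 := by
          simp only [Pi.neg_apply, Finset.sum_neg_distrib, hw, neg_zero]
        refine ⟨hs, ?_⟩
        have : iA i (Aff.ev (-w)) (ev_A0 hs) = (iA i (Aff.ev w) (ev_A0 hw))⁻¹ := by
          apply Subtype.ext
          change inc P i _ = (inc P i _)⁻¹
          rw [Aff.ev_neg, map_inv]
        rw [this, map_inv, h1] }
  have hall : ∀ w, ∑ y, w y = 0 → w ∈ M := by
    intro w hw
    apply span_lap i M _ w hw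
    intro u
    have hx := h (LL.inU u)
    have hv : (iotaA P (LL.inU u)).1 i = Aff.ev (qq P i (Lap u)) := by
      refine Aff.ext rfl ?_
      change (iota P (LL.inU u) i).s = 1
      rw [iota_s, LL.inU_d, map_one]; rfl
    have hsum : ∑ y, qq P i (Lap u) y = 0 := by
      have := (Ag_A0 (iotaA P (LL.inU u)).2 i).1
      rw [hv] at this
      exact this
    refine ⟨hsum, ?_⟩
    have h1 : (iA i (Aff.ev (qq P i (Lap u))) (ev_A0 hsum)).1 i = (iotaA P (LL.inU u)).1 i := by
      rw [iA_same, hv]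
    have h2 := theta_congr θ h1
    rw [hx, hv] at h2
    have h3 := (theta_V θ (InV_iA hsum)).1
    rw [InA.eq h3]
    apply Subtype.ext
    rw [iA_val, iA_val, h2]
  obtain ⟨hw, h1⟩ := hall (a.1 i).v (Ag_A0 a.2 i).1
  rw [← InV.eq ha] at h1
  exact h1

/-- rigidity: an automorphism of `A` fixing the embedded `ℤ ≀ D_∞` pointwise is trivial -/
theorem rigid (θ : MulAut (AT P)) (h : ∀ x, θ (iotaA P x) = iotaA P x) : θ = 1 := by
  have hs : ∀ (i : ℕ) (a : AT P), ((θ a).1 i).s = (a.1 i).s := by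
    intro i a
    have h1 : (((a⁻¹ * θ a).1 i)).s = 1 := by
      apply comm_V_iff.mp
      intro x hx
      have h2 : θ (a * x * a⁻¹) = a * x * a⁻¹ := theta_fix_V θ h (hx.conj a)
      rw [map_mul, map_mul, map_inv, theta_fix_V θ h hx] at h2
      have h3 : a⁻¹ * θ a * x = a⁻¹ * (θ a * x * (θ a)⁻¹) * θ a := by group
      rw [h3, h2]; group
    change (((a.1 i)⁻¹ * (θ a).1 i)).s = 1 at h1
    simp only [Aff.mul_s, Aff.inv_s] at h1
    exact (inv_mul_eq_one.mp h1).symm
  have hes : ∀ (i : ℕ) (g : Perm (Yy P i)) (hg : g ∈ alternatingGroup (Yy P i)),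
      (θ (iA i (Aff.es g) (es_A0 hg))).1 i = Aff.es g := by
    intro i g hg
    -- the cocycle
    let f : alternatingGroup (Yy P i) → (Yy P i → ZMod (P.p i)) := fun g =>
      ((θ (iA i (Aff.es g.1) (es_A0 g.2))).1 i).v
    have hf : ∀ g : alternatingGroup (Yy P i),
        (θ (iA i (Aff.es g.1) (es_A0 g.2))).1 i = ⟨f g, g.1⟩ := by
      intro g
      refine Aff.ext rfl ?_
      rw [hs, iA_same]; rfl
    have hmul : ∀ g g' : alternatingGroup (Yy P i), f (g * g') = f g + pact g.1 (f g') := by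
      intro g g'
      have h1 : iA i (Aff.es (g * g').1) (es_A0 (g * g').2) =
          iA i (Aff.es g.1) (es_A0 g.2) * iA i (Aff.es g'.1) (es_A0 g'.2) :=
        Subtype.ext (map_mul ((inc P i).comp Aff.es) g.1 g'.1)
      have h2 := hf (g * g')
      rw [h1, map_mul] at h2
      change (θ (iA i (Aff.es g.1) (es_A0 g.2))).1 i * (θ (iA i (Aff.es g'.1) (es_A0 g'.2))).1 i =
        _ at h2
      rw [hf, hf] at h2
      exact (congrArg Aff.v h2).symm
    let W : Yy P i → ZMod (P.p i) := ∑ g : alternatingGroup (Yy P i), f g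
    have hW : ∀ g : alternatingGroup (Yy P i),
        W = (Nat.card (alternatingGroup (Yy P i))) • f g + pact g.1 W := by
      intro g
      have e := Equiv.sum_comp (Equiv.mulLeft g) f
      calc W = ∑ g' : alternatingGroup (Yy P i), f (g * g') := e.symm
        _ = ∑ g' : alternatingGroup (Yy P i), (f g + pact g.1 (f g')) := by simp only [hmul]
        _ = _ := by
          rw [Finset.sum_add_distrib, Finset.sum_const, Finset.card_univ, ← pact_sum,
            Nat.card_eq_fintype_card]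
    -- the cocycle vanishes on the cycle `t`
    have htalt : rho P.k Dh.t i ∈ alternatingGroup (Yy P i) := SS_alt (rho_mem Dh.t) i
    have hft : f ⟨rho P.k Dh.t i, htalt⟩ = 0 := by
      have h1 : (iA i (Aff.es (rho P.k Dh.t i)) (es_A0 htalt)).1 i =
          (iotaA P (LL.inD Dh.t)).1 i := by
        rw [iA_same, iotaA_val]
        refine Aff.ext ?_ ?_
        · rw [iota_v]; simp
        · rw [iota_s]; rfl
      have h2 := theta_congr θ h1
      rw [h (LL.inD Dh.t), ← h1, iA_same] at h2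
      change ((θ (iA i (Aff.es (rho P.k Dh.t i)) (es_A0 htalt))).1 i).v = 0
      rw [h2]; rfl
    have hWt : pact (rho P.k Dh.t i) W = W := by
      have h1 := hW ⟨rho P.k Dh.t i, htalt⟩
      rw [hft, smul_zero, zero_add] at h1
      exact h1.symm
    have hWcy : ∀ x : ℤ, W (cy P.k i (x + 1)) = W (cy P.k i x) := by
      intro x
      have h1 := congrFun hWt (cy P.k i (x + 1))
      have h2 : (rho P.k Dh.t i)⁻¹ (cy P.k i (x + 1)) = cy P.k i x := by
        rw [Perm.inv_eq_iff_eq, rho_cy, Dh.smul_def]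
        simp
      rw [pact, h2] at h1
      exact h1.symm
    have hWall : ∀ x : ℤ, W (cy P.k i x) = W (cy P.k i 0) := by
      intro x
      induction x using Int.induction_on with
      | zero => rfl
      | succ n ih => rw [hWcy, ih]
      | pred n ih =>
        have := hWcy (-n - 1)
        rw [sub_add_cancel] at this
        rw [← this, ih]
    have hfsum : ∀ g, ∑ y, f g y = 0 := fun g =>
      (Ag_A0 (θ (iA i (Aff.es g.1) (es_A0 g.2))).2 i).1
    have hW0 : W = 0 := by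
      apply const_zero (card_lt P i) (le_trans (by norm_num) (six_le P i))
      · simp only [W, Finset.sum_apply]
        rw [Finset.sum_comm]
        simp only [hfsum, Finset.sum_const_zero]
      · intro x y
        obtain ⟨x', rfl⟩ := orb_all i x
        obtain ⟨y', rfl⟩ := orb_all i y
        rw [hWall, hWall y']
    have hfg : f ⟨g, hg⟩ = 0 := by
      have h1 := hW ⟨g, hg⟩
      rw [hW0, pact_zero, add_zero] at h1
      have h2 : ((Nat.card (alternatingGroup (Yy P i)) : ℕ) : ZMod (P.p i)) • f ⟨g, hg⟩ = 0 := by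
        rw [Nat.cast_smul_eq_nsmul]; exact h1.symm
      rcases smul_eq_zero.mp h2 with h3 | h3
      · exact absurd h3 (card_alt_ne_zero (card_lt P i))
      · exact h3
    have h1 := hf ⟨g, hg⟩
    rw [hfg] at h1
    exact h1
  ext a : 1
  apply Subtype.ext
  funext i
  have ha1 : ∑ y, (a.1 i).v y = 0 := (Ag_A0 a.2 i).1
  have ha2 : (a.1 i).s ∈ alternatingGroup (Yy P i) := (Ag_A0 a.2 i).2
  have h1 : a.1 i = (iA i (Aff.ev (a.1 i).v) (ev_A0 ha1) *
      iA i (Aff.es (a.1 i).s) (es_A0 ha2)).1 i := by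
    rw [← iA_mul, iA_same, ← Aff.eq_ev_es]
  have h2 := theta_congr θ h1
  rw [MulAut.one_apply, h2, map_mul, theta_fix_V θ h (InV_iA ha1)]
  change (iA i (Aff.ev (a.1 i).v) (ev_A0 ha1)).1 i *
    (θ (iA i (Aff.es (a.1 i).s) (es_A0 ha2))).1 i = _
  rw [hes i _ ha2, iA_same, ← Aff.eq_ev_es]

end Pool.Agent.Helper73.CG
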