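import Pool.Agent.Helper73.CG.SGroup

set_option autoImplicit false
set_option linter.unusedSectionVars false

namespace Pool.Agent.Helper73.CG

open Equiv Equiv.Perm

variable {k : ℕ → ℕ} {N : Subgroup (PP k)}

/-- truncation: forget the coordinates `< j` -/
def trunc (j : ℕ) : PP k →* PP k where
  toFun x := fun i => if j ≤ i then x i else 1
  map_one' := by
    funext i
    simp
  map_mul' x y := by
    funext i
    by_cases h : j ≤ i <;> simp [h]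

lemma trunc_apply (j : ℕ) (x : PP k) (i : ℕ) : trunc j x i = if j ≤ i then x i else 1 := rfl

lemma loc_inf_Hi (g : Perm (Fin 8)) (U : Fam k) (j : ℕ) :
    loc g (U ⊓ Hi j) = trunc j (loc g U) := by
  classical
  funext i
  rw [trunc_apply]
  by_cases h : j ≤ i
  · rw [if_pos h, loc_apply, loc_apply]
    congr 1
    funext x
    have : x ∈ (U ⊓ Hi j) i ↔ x ∈ U i := ⟨fun h => h.1, fun h' => ⟨h', h⟩⟩
    by_cases hx : x ∈ U i
    · rw [if_pos hx, if_pos (this.mpr hx)]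
    · rw [if_neg hx, if_neg (fun h => hx (this.mp h))]
  · rw [if_neg h, loc_apply, ← map_one rp]
    congr 1
    funext x
    rw [if_neg]
    · rfl
    · intro hx
      exact h hx.2

lemma pow_mod_unique {v a j : ℕ} (h1 : v % 2 ^ (a + 1) = 2 ^ a) (h2 : v % 2 ^ (j + 1) = 2 ^ j) :
    a = j := by
  have key : ∀ {a j : ℕ}, v % 2 ^ (a + 1) = 2 ^ a → v % 2 ^ (j + 1) = 2 ^ j → ¬ a < j := by
    intro a j h1 h2 h
    have h3 : 2 ^ (a + 1) ∣ 2 ^ (j + 1) := Nat.pow_dvd_pow 2 (by omega)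
    have h4 := Nat.mod_mod_of_dvd v h3
    rw [h2, h1] at h4
    have h5 : 2 ^ (a + 1) ∣ 2 ^ j := Nat.pow_dvd_pow 2 (by omega)
    rw [Nat.mod_eq_zero_of_dvd h5] at h4
    have : 0 < 2 ^ a := by positivity
    omega
  have h3 := key h1 h2
  have h4 := key h2 h1
  omega

lemma U1_iff {a i : ℕ} {x : ZMod (2 ^ k i)} (h : x.val % 2 ^ (a + 1) = 2 ^ a) :
    x ∈ (U1 : Fam k) i ↔ Odd a := by
  constructor
  · rintro ⟨j, hj, hx⟩
    rwa [pow_mod_unique h hx]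
  · intro ha
    exact ⟨a, ha, h⟩

/-- in column positions with many binary digits, a suitable translate has prescribed valuation and
its `r`-translate has a bigger valuation by one -/
lemma exists_shift (a b i : ℕ) (hb : Odd b) (hi : a + 2 ≤ k i) (x : ZMod (2 ^ k i)) :
    ∃ s : ℕ, s < 2 ^ (a + 2) ∧ (x - ((s : ℤ) : ZMod (2 ^ k i))).val % 2 ^ (a + 1) = 2 ^ a ∧
      (x - ((s : ℤ) : ZMod (2 ^ k i)) + ((2 ^ a * b : ℕ) : ZMod (2 ^ k i))).val % 2 ^ (a + 2) =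
        2 ^ (a + 1) := by
  have hdvd : 2 ^ (a + 2) ∣ 2 ^ k i := Nat.pow_dvd_pow 2 hi
  obtain ⟨c, hc⟩ := hb
  -- target residue `2 ^ a * (2 - b)` modulo `2 ^ (a + 2)`
  let f := ZMod.castHom hdvd (ZMod (2 ^ (a + 2)))
  let tgt : ZMod (2 ^ (a + 2)) := ((2 ^ a * (2 - (b : ℤ)) : ℤ) : ZMod (2 ^ (a + 2)))
  refine ⟨(f x - tgt).val, ZMod.val_lt _, ?_⟩
  set y := x - (((f x - tgt).val : ℤ) : ZMod (2 ^ k i)) with hy
  have hfy : f y = tgt := by
    rw [hy, map_sub, map_intCast]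
    simp
  have hval : ∀ z : ZMod (2 ^ k i), f z = ((z.val : ℤ) : ZMod (2 ^ (a + 2))) := by
    intro z
    conv_lhs => rw [← ZMod.natCast_zmod_val z]
    rw [map_natCast]
    simp
  have h1 : (2 ^ (a + 2) : ℤ) ∣ (y.val : ℤ) - 2 ^ a * (2 - b) := by
    have h2 := hval y
    rw [hfy] at h2
    have h3 := (ZMod.intCast_eq_intCast_iff_dvd_sub _ _ _).mp h2
    exact_mod_cast h3
  have h2 : (2 ^ (a + 2) : ℤ) ∣ ((y + ((2 ^ a * b : ℕ) : ZMod (2 ^ k i))).val : ℤ) -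
      2 ^ (a + 1) := by
    have h4 := hval (y + ((2 ^ a * b : ℕ) : ZMod (2 ^ k i)))
    rw [map_add, hfy, map_natCast] at h4
    have h5 : tgt + ((2 ^ a * b : ℕ) : ZMod (2 ^ (a + 2))) =
        ((2 ^ (a + 1) : ℤ) : ZMod (2 ^ (a + 2))) := by
      simp only [tgt]
      push_cast
      ring
    rw [h5] at h4
    have h3 := (ZMod.intCast_eq_intCast_iff_dvd_sub _ _ _).mp h4
    exact_mod_cast h3
  constructor
  · have h6 : (2 ^ (a + 1) : ℤ) ∣ (y.val : ℤ) - 2 ^ a := by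
      have h7 : (2 ^ (a + 1) : ℤ) ∣ (y.val : ℤ) - 2 ^ a * (2 - b) :=
        dvd_trans (pow_dvd_pow 2 (by omega)) h1
      have h8 : (y.val : ℤ) - 2 ^ a = ((y.val : ℤ) - 2 ^ a * (2 - b)) - 2 ^ (a + 1) * c := by
        rw [hc]; push_cast; ring
      rw [h8]
      exact dvd_sub h7 (Dvd.intro _ rfl)
    have h9 : y.val ≡ 2 ^ a [MOD 2 ^ (a + 1)] := by
      refine (Nat.modEq_iff_dvd.mpr ?_).symm
      exact_mod_cast h6
    have h10 : 2 ^ a % 2 ^ (a + 1) = 2 ^ a :=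
      Nat.mod_eq_of_lt (Nat.pow_lt_pow_right (by norm_num) (by omega))
    rw [← h10]
    exact h9
  · have h9 : (y + ((2 ^ a * b : ℕ) : ZMod (2 ^ k i))).val ≡ 2 ^ (a + 1) [MOD 2 ^ (a + 2)] := by
      refine (Nat.modEq_iff_dvd.mpr ?_).symm
      exact_mod_cast h2
    have h10 : 2 ^ (a + 1) % 2 ^ (a + 2) = 2 ^ (a + 1) :=
      Nat.mod_eq_of_lt (Nat.pow_lt_pow_right (by norm_num) (by omega))
    rw [← h10]
    exact h9

lemma Ab.of_disjoint (hN : Nor N) (r : ℕ) (hr : ∀ s ∈ SS k, s ^ r ∈ N) {W : Fam k}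
    (hW : Ab (SS k) W) (hd : W ⊓ CG.tr (r : ℤ) W = ⊥) : Ab N W := by
  apply Ab.of_one hN (comm_even (cyc8 0 1 2 (by decide)) (cyc8 0 3 4 (by decide))) cyc01_ne
  have hcomm : ∀ g h, loc (g * h * g⁻¹ * h⁻¹) W = loc g W * loc h W * (loc g W)⁻¹ * (loc h W)⁻¹ := by
    intro g h
    rw [loc_comm, inf_idem]
  rw [hcomm]
  set A : PP k := loc (cyc 0 1 2) W with hA
  set B : PP k := loc (cyc 0 3 4) W with hB
  set n : PP k := sh ((r : ℕ) • ![1, 1, 1, 1, 1, -5, 0, 0]) with hn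
  have hnN : n ∈ N := by
    rw [hn, sh_nsmul]
    apply hr
    apply sh_mem
    simp [Fin.sum_univ_eight]
  have hAS : A ∈ SS k := hW _ (cyc8 0 1 2 (by decide))
  have hBS : B ∈ SS k := hW _ (cyc8 0 3 4 (by decide))
  have h1 : n * B * n⁻¹ = loc (cyc 0 3 4) (CG.tr (r : ℤ) W) := by
    rw [hn, hB]
    apply sh_conj_loc
    intro a ha
    have h1 : ∀ a : Fin 8, cyc (0 : Fin 8) 3 4 a ≠ a → a = 0 ∨ a = 3 ∨ a = 4 := by decide
    rcases h1 a ha with rfl | rfl | rfl <;> simp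
  have h2 : A * (n * B * n⁻¹) * A⁻¹ * (n * B * n⁻¹)⁻¹ = 1 := by
    rw [h1, hA, loc_comm, hd, loc_bot]
  have h3 : A * (n * B * n⁻¹) * A⁻¹ = n * B * n⁻¹ := by
    rwa [mul_inv_eq_one] at h2
  have h4 : A * B * A⁻¹ * B⁻¹ =
      (A * n⁻¹ * A⁻¹) * (A * (n * B * n⁻¹) * A⁻¹) * (A * n * A⁻¹) * B⁻¹ := by group
  rw [h4, h3]
  have h5 : A * n⁻¹ * A⁻¹ * (n * B * n⁻¹) * (A * n * A⁻¹) * B⁻¹ =
      (A * n⁻¹ * A⁻¹) * n * (B * (n⁻¹ * (A * n * A⁻¹)) * B⁻¹) := by group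
  rw [h5]
  exact N.mul_mem (N.mul_mem (hN.conj _ hAS _ (N.inv_mem hnN)) hnN)
    (hN.conj _ hBS _ (N.mul_mem (N.inv_mem hnN) (hN.conj _ hAS _ hnN)))

/-- the tail sets lie in the normal subgroup -/
lemma exists_Hi (hk : StrictMono k) (hN : Nor N) {r : ℕ} (hr0 : r ≠ 0)
    (hr : ∀ s ∈ SS k, s ^ r ∈ N) : ∃ j, Ab N (Hi j) := by
  obtain ⟨a, b, hb, hrab⟩ := Nat.exists_eq_two_pow_mul_odd hr0
  have hki : ∀ i, a + 2 ≤ i → a + 2 ≤ k i := fun i hi => le_trans hi (hk.le_apply)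
  -- it suffices to find a set `W`
  suffices hW : ∃ W : Fam k, Ab (SS k) W ∧ W ⊓ tr (r : ℤ) W = ⊥ ∧
      Hi (a + 2) ≤ cov W (2 ^ (a + 2)) by
    obtain ⟨W, h1, h2, h3⟩ := hW
    refine ⟨a + 2, ?_⟩
    have h4 := Ab.inf hN (Ab.cov hN (Ab.of_disjoint hN r hr h1 h2) (2 ^ (a + 2)))
      (Ab.Hi hk (a + 2))
    rwa [inf_eq_right.mpr h3] at h4
  have hU1 : Ab (SS k) U1 := fun g hg => loc_U1_mem hg
  have hmem : ∀ i (x : ZMod (2 ^ k i)), x ∈ tr (-(r : ℤ)) (U1 : Fam k) i ↔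
      x + ((2 ^ a * b : ℕ) : ZMod (2 ^ k i)) ∈ (U1 : Fam k) i := by
    intro i x
    rw [mem_tr, hrab]
    simp
  by_cases ha : Odd a
  · refine ⟨U1 ⊓ (tr (-(r : ℤ)) U1)ᶜ, Ab.inf nor_SS hU1 (Ab.compl (Ab.tr nor_SS hU1 _)), ?_, ?_⟩
    · rw [eq_bot_iff]
      rintro i x ⟨⟨h1, h2⟩, ⟨h3, h4⟩⟩
      apply h4
      change x - ((r : ℤ) : ZMod (2 ^ k i)) - ((-(r : ℤ) : ℤ) : ZMod (2 ^ k i)) ∈ (U1 : Fam k) i
      rw [Int.cast_neg, sub_neg_eq_add, sub_add_cancel]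
      exact h1
    · intro i x hx
      obtain ⟨s, hs, h1, h2⟩ := exists_shift a b i hb (hki i hx) x
      refine ⟨s, hs, ?_, ?_⟩
      · exact (U1_iff h1).mpr ha
      · intro h3
        have h4 := (hmem i _).mp h3
        have h5 := (U1_iff h2).mp h4
        rw [Nat.odd_add_one] at h5
        exact h5 ha
  · refine ⟨U1ᶜ ⊓ tr (-(r : ℤ)) U1, Ab.inf nor_SS (Ab.compl hU1) (Ab.tr nor_SS hU1 _), ?_, ?_⟩
    · rw [eq_bot_iff]
      rintro i x ⟨⟨h1, h2⟩, ⟨h3, h4⟩⟩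
      apply h1
      have h5 : x - ((r : ℤ) : ZMod (2 ^ k i)) - ((-(r : ℤ) : ℤ) : ZMod (2 ^ k i)) ∈ U1 i := h4
      rw [Int.cast_neg, sub_neg_eq_add, sub_add_cancel] at h5
      exact h5
    · intro i x hx
      obtain ⟨s, hs, h1, h2⟩ := exists_shift a b i hb (hki i hx) x
      refine ⟨s, hs, ?_, ?_⟩
      · intro h3
        exact ha ((U1_iff h1).mp h3)
      · have h5 : Odd (a + 1) := by
          rw [Nat.odd_add_one]; exact ha
        exact (hmem i _).mpr ((U1_iff h2).mpr h5)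

/-- congruence subgroup property of `S` -/
theorem S_csp (hk : StrictMono k) (hN : Nor N) {r : ℕ} (hr0 : r ≠ 0)
    (hr : ∀ s ∈ SS k, s ^ r ∈ N) : ∃ j, ∀ s ∈ SS k, trunc j s ∈ N := by
  obtain ⟨j, hj⟩ := exists_Hi hk hN hr0 hr
  refine ⟨j, ?_⟩
  have hloc : ∀ U : Fam k, Ab (SS k) U → ∀ g ∈ alternatingGroup (Fin 8), trunc j (loc g U) ∈ N := by
    intro U hU g hg
    rw [← loc_inf_Hi, inf_comm]
    exact Ab.inf hN hj hU g hg
  have hsh : ∀ a b : Fin 8, a ≠ b →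
      trunc j (sh (Pi.single a 1 - Pi.single b 1)) ∈ N := by
    intro a b hab
    obtain ⟨c, d, hca, hcb, hda, hdb, hcd⟩ : ∃ c d : Fin 8, c ≠ a ∧ c ≠ b ∧ d ≠ a ∧ d ≠ b ∧
        c ≠ d := by
      revert a b
      decide
    -- `g : a ↦ c ↦ b ↦ a`... the commutator of `loc g` and a shift
    have hg : cyc b a c ∈ alternatingGroup (Fin 8) := cyc_mem_alt hab.symm hcb.symm hca.symm
    have h1 : trunc j (loc (cyc b a c) ⊤) ∈ N := hloc ⊤ Ab.top _ hg
    set σ : PP k := sh (Pi.single b 1 - Pi.single d 1) with hσ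
    have hσS : σ ∈ SS k := Subgroup.subset_closure (Or.inr (Or.inr (Or.inr ⟨b, d, hdb.symm, rfl⟩)))
    have h2 := N.mul_mem h1 (hN.conj _ hσS _ (N.inv_mem h1))
    have h3 : trunc j (loc (cyc b a c) ⊤) * (σ * (trunc j (loc (cyc b a c) ⊤))⁻¹ * σ⁻¹) =
        trunc j (loc (cyc b a c) ⊤ * σ * (loc (cyc b a c) ⊤)⁻¹ * σ⁻¹) := by
      funext i
      simp only [Pi.mul_apply, Pi.inv_apply, trunc_apply]
      by_cases h : j ≤ i
      · simp [h, mul_assoc]
      · simp [h]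
    rw [h3, hσ, loc_conj_sh, ← sh_neg, ← sh_add] at h2
    have h4 : (fun x => (Pi.single b 1 - Pi.single d 1 : Fin 8 → ℤ) ((cyc b a c)⁻¹ x)) +
        -(Pi.single b 1 - Pi.single d 1) = (Pi.single a 1 - Pi.single b 1 : Fin 8 → ℤ) := by
      have h5 : ∀ x y : Fin 8, (Pi.single y 1 : Fin 8 → ℤ) ((cyc b a c)⁻¹ x) =
          (Pi.single (cyc b a c y) 1 : Fin 8 → ℤ) x := by
        intro x y
        simp only [Pi.single_apply]
        congr 1
        rw [Perm.inv_eq_iff_eq]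
      funext x
      simp only [Pi.add_apply, Pi.sub_apply, Pi.neg_apply, h5]
      rw [cyc_apply_a hab.symm hcb.symm, cyc_apply_of_ne hdb hda hcd.symm]
      ring
    rwa [h4] at h2
  have hmk : ∀ g ∈ alternatingGroup (Option (Fin 8)), trunc j (mk g) ∈ N := by
    let K : Subgroup (Perm (Option (Fin 8))) :=
      { carrier := {g | trunc j (mk g) ∈ N}
        one_mem' := by simp only [Set.mem_ofPred_eq, mk_one, map_one]; exact N.one_mem
        mul_mem' := by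
          intro a b ha hb
          simp only [Set.mem_ofPred_eq, mk_mul, map_mul] at *
          exact N.mul_mem ha hb
        inv_mem' := by
          intro a ha
          simp only [Set.mem_ofPred_eq, mk_inv, map_inv] at *
          exact N.inv_mem ha }
    have h : alternatingGroup (Option (Fin 8)) ≤ K := by
      apply alt_le_of_normalized (by simp) K _ (cyc (some 0) (some 1) (some 2)) _ (by decide)
        (cyc_mem_alt (by decide) (by decide) (by decide))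
      · intro x hx y hy
        change trunc j (mk (x * y * x⁻¹)) ∈ N
        have h1 := hN.conj _ (mk_mem hx) _ hy
        have h2 : (mk x : PP k) * trunc j (mk y) * (mk x)⁻¹ = trunc j (mk (x * y * x⁻¹)) := by
          rw [mk_mul, mk_mul, mk_inv]
          funext i
          simp only [Pi.mul_apply, Pi.inv_apply, trunc_apply]
          by_cases h : j ≤ i
          · simp [h]
          · simp [h]
        rwa [h2] at h1
      · change trunc j (mk _) ∈ N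
        rw [← optionCongr_cyc, ← loc_Zr]
        exact hloc _ Ab.Zr _ (cyc8 0 1 2 (by decide))
    intro g hg
    exact h hg
  have hle : SS k ≤ N.comap (trunc j) := by
    rw [SS, Subgroup.closure_le]
    rintro x (⟨a, b, c, h1, h2, h3, rfl⟩ | ⟨a, b, c, h1, h2, h3, rfl⟩ | ⟨a, b, c, h1, h2, h3, rfl⟩ |
      ⟨a, b, h1, rfl⟩)
    · exact hloc _ Ab.top _ (cyc_mem_alt h1 h2 h3)
    · exact hloc _ (fun g hg => loc_U1_mem hg) _ (cyc_mem_alt h1 h2 h3)
    · exact hmk _ (cyc_mem_alt h1 h2 h3)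
    · exact hsh a b h1
  exact fun s hs => hle hs

end Pool.Agent.Helper73.CG
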