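import Pool.Agent.Helper73.CG.Cells

set_option autoImplicit false
set_option linter.unusedSectionVars false

namespace Pool.Agent.Helper73.CG

open Equiv Equiv.Perm

variable {k : ℕ → ℕ}

/-- positions of odd 2-adic valuation -/
def U1 : Fam k := fun _ => {x | ∃ j, Odd j ∧ x.val % 2 ^ (j + 1) = 2 ^ j}

/-- generators of the group `S` -/
def gens (k : ℕ → ℕ) : Set (PP k) :=
  {x | (∃ a b c : Fin 8, a ≠ b ∧ a ≠ c ∧ b ≠ c ∧ x = loc (cyc a b c) ⊤) ∨
    (∃ a b c : Fin 8, a ≠ b ∧ a ≠ c ∧ b ≠ c ∧ x = loc (cyc a b c) U1) ∨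
    (∃ a b c : Option (Fin 8), a ≠ b ∧ a ≠ c ∧ b ≠ c ∧ x = mk (cyc a b c)) ∨
    (∃ a b : Fin 8, a ≠ b ∧ x = sh (Pi.single a 1 - Pi.single b 1))}

lemma gens_finite (k : ℕ → ℕ) : (gens k).Finite := by
  have h1 : (Set.range (fun p : Fin 8 × Fin 8 × Fin 8 =>
      (loc (cyc p.1 p.2.1 p.2.2) ⊤ : PP k))).Finite := Set.finite_range _
  have h2 : (Set.range (fun p : Fin 8 × Fin 8 × Fin 8 =>
      (loc (cyc p.1 p.2.1 p.2.2) U1 : PP k))).Finite := Set.finite_range _
  have h3 : (Set.range (fun p : Option (Fin 8) × Option (Fin 8) × Option (Fin 8) =>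
      (mk (cyc p.1 p.2.1 p.2.2) : PP k))).Finite := Set.finite_range _
  have h4 : (Set.range (fun p : Fin 8 × Fin 8 =>
      (sh (Pi.single p.1 1 - Pi.single p.2 1) : PP k))).Finite := Set.finite_range _
  refine (((h1.union h2).union h3).union h4).subset ?_
  rintro x (⟨a, b, c, -, -, -, rfl⟩ | ⟨a, b, c, -, -, -, rfl⟩ | ⟨a, b, c, -, -, -, rfl⟩ |
    ⟨a, b, -, rfl⟩)
  · left; left; left; exact ⟨(a, b, c), rfl⟩
  · left; left; right; exact ⟨(a, b, c), rfl⟩
  · left; right; exact ⟨(a, b, c), rfl⟩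
  · right; exact ⟨(a, b), rfl⟩

/-- the group `S` -/
def SS (k : ℕ → ℕ) : Subgroup (PP k) := Subgroup.closure (gens k)

lemma loc_top_mem {g : Perm (Fin 8)} (hg : g ∈ alternatingGroup (Fin 8)) :
    (loc g ⊤ : PP k) ∈ SS k := by
  let K : Subgroup (Perm (Fin 8)) :=
    { carrier := {g | (loc g ⊤ : PP k) ∈ SS k}
      one_mem' := by simp only [Set.mem_ofPred_eq, loc_one]; exact (SS k).one_mem
      mul_mem' := by
        intro a b ha hb
        simp only [Set.mem_ofPred_eq, loc_mul] at *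
        exact (SS k).mul_mem ha hb
      inv_mem' := by
        intro a ha
        simp only [Set.mem_ofPred_eq, loc_inv] at *
        exact (SS k).inv_mem ha }
  have h : alternatingGroup (Fin 8) ≤ K := by
    apply alt_le_of_pair K 0 1 (by decide)
    intro z h1 h2
    exact Subgroup.subset_closure (Or.inl ⟨0, 1, z, by decide, h1.symm, h2.symm, rfl⟩)
  exact h hg

lemma loc_U1_mem {g : Perm (Fin 8)} (hg : g ∈ alternatingGroup (Fin 8)) :
    (loc g U1 : PP k) ∈ SS k := by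
  let K : Subgroup (Perm (Fin 8)) :=
    { carrier := {g | (loc g U1 : PP k) ∈ SS k}
      one_mem' := by simp only [Set.mem_ofPred_eq, loc_one]; exact (SS k).one_mem
      mul_mem' := by
        intro a b ha hb
        simp only [Set.mem_ofPred_eq, loc_mul] at *
        exact (SS k).mul_mem ha hb
      inv_mem' := by
        intro a ha
        simp only [Set.mem_ofPred_eq, loc_inv] at *
        exact (SS k).inv_mem ha }
  have h : alternatingGroup (Fin 8) ≤ K := by
    apply alt_le_of_pair K 0 1 (by decide)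
    intro z h1 h2
    exact Subgroup.subset_closure (Or.inr (Or.inl ⟨0, 1, z, by decide, h1.symm, h2.symm, rfl⟩))
  exact h hg

lemma mk_mem {g : Perm (Option (Fin 8))} (hg : g ∈ alternatingGroup (Option (Fin 8))) :
    (mk g : PP k) ∈ SS k := by
  let K : Subgroup (Perm (Option (Fin 8))) :=
    { carrier := {g | (mk g : PP k) ∈ SS k}
      one_mem' := by simp only [Set.mem_ofPred_eq, mk_one]; exact (SS k).one_mem
      mul_mem' := by
        intro a b ha hb
        simp only [Set.mem_ofPred_eq, mk_mul] at *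
        exact (SS k).mul_mem ha hb
      inv_mem' := by
        intro a ha
        simp only [Set.mem_ofPred_eq, mk_inv] at *
        exact (SS k).inv_mem ha }
  have h : alternatingGroup (Option (Fin 8)) ≤ K := by
    apply alt_le_of_pair K none (some 0) (by decide)
    intro z h1 h2
    exact Subgroup.subset_closure (Or.inr (Or.inr (Or.inl
      ⟨none, some 0, z, by decide, h1.symm, h2.symm, rfl⟩)))
  exact h hg

lemma sh_mem {e : Fin 8 → ℤ} (he : ∑ a, e a = 0) : (sh e : PP k) ∈ SS k := by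
  have h1 : e = ∑ a, e a • (Pi.single a 1 - Pi.single 0 1 : Fin 8 → ℤ) := by
    have h2 : ∑ a, e a • (Pi.single 0 1 : Fin 8 → ℤ) = 0 := by
      rw [← Finset.sum_smul, he, zero_smul]
    simp only [smul_sub]
    rw [Finset.sum_sub_distrib, h2, sub_zero]
    ext b
    rw [Finset.sum_apply]
    simp [Pi.single_apply]
  let K : AddSubgroup (Fin 8 → ℤ) :=
    { carrier := {e | (sh e : PP k) ∈ SS k}
      zero_mem' := by simp only [Set.mem_ofPred_eq, sh_zero]; exact (SS k).one_mem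
      add_mem' := by
        intro a b ha hb
        simp only [Set.mem_ofPred_eq, sh_add] at *
        exact (SS k).mul_mem ha hb
      neg_mem' := by
        intro a ha
        simp only [Set.mem_ofPred_eq, sh_neg] at *
        exact (SS k).inv_mem ha }
  have h3 : e ∈ K := by
    rw [h1]
    apply AddSubgroup.sum_mem
    intro a _
    apply AddSubgroup.zsmul_mem
    by_cases ha : a = 0
    · rw [ha, sub_self]; exact AddSubgroup.zero_mem _
    · exact Subgroup.subset_closure (Or.inr (Or.inr (Or.inr ⟨a, 0, ha, rfl⟩)))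
  exact h3

/-- `N` is a subgroup of `S` normalised by `S` -/
structure Nor (N : Subgroup (PP k)) : Prop where
  le : N ≤ SS k
  conj : ∀ s ∈ SS k, ∀ n ∈ N, s * n * s⁻¹ ∈ N

lemma nor_SS : Nor (SS k) :=
  ⟨le_rfl, fun _ hs _ hn => (SS k).mul_mem ((SS k).mul_mem hs hn) ((SS k).inv_mem hs)⟩

/-- all even column moves on `U` lie in `N` -/
def Ab (N : Subgroup (PP k)) (U : Fam k) : Prop :=
  ∀ g ∈ alternatingGroup (Fin 8), loc g U ∈ N

variable {N : Subgroup (PP k)}

lemma Ab.of_one (hN : Nor N) {U : Fam k} {g : Perm (Fin 8)} (hg : g ∈ alternatingGroup (Fin 8))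
    (hg1 : g ≠ 1) (h : loc g U ∈ N) : Ab N U := by
  let K : Subgroup (Perm (Fin 8)) :=
    { carrier := {g | loc g U ∈ N}
      one_mem' := by simp only [Set.mem_ofPred_eq, loc_one]; exact N.one_mem
      mul_mem' := by
        intro a b ha hb
        simp only [Set.mem_ofPred_eq, loc_mul] at *
        exact N.mul_mem ha hb
      inv_mem' := by
        intro a ha
        simp only [Set.mem_ofPred_eq, loc_inv] at *
        exact N.inv_mem ha }
  have h : alternatingGroup (Fin 8) ≤ K := by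
    apply alt_le_of_normalized (by simp) K _ g h hg1 hg
    intro x hx y hy
    change loc (x * y * x⁻¹) U ∈ N
    rw [← loc_conj]
    exact hN.conj _ (loc_top_mem hx) _ hy
  intro g hg
  exact h hg

lemma comm_even {g h : Perm (Fin 8)} (hg : g ∈ alternatingGroup (Fin 8))
    (hh : h ∈ alternatingGroup (Fin 8)) : g * h * g⁻¹ * h⁻¹ ∈ alternatingGroup (Fin 8) :=
  Subgroup.mul_mem _ (Subgroup.mul_mem _ (Subgroup.mul_mem _ hg hh) (Subgroup.inv_mem _ hg))
    (Subgroup.inv_mem _ hh)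

lemma cyc01_ne : cyc (0 : Fin 8) 1 2 * cyc 0 3 4 * (cyc 0 1 2)⁻¹ * (cyc 0 3 4)⁻¹ ≠ 1 := by
  decide

lemma cyc8 (a b c : Fin 8) (h : a ≠ b ∧ a ≠ c ∧ b ≠ c) : cyc a b c ∈ alternatingGroup (Fin 8) :=
  cyc_mem_alt h.1 h.2.1 h.2.2

lemma Ab.le (hN : Nor N) {U : Fam k} (h : Ab N U) : Ab (SS k) U := fun g hg => hN.le (h g hg)

lemma Ab.inf (hN : Nor N) {U V : Fam k} (hU : Ab N U) (hV : Ab (SS k) V) : Ab N (U ⊓ V) := by
  apply Ab.of_one hN (comm_even (cyc8 0 1 2 (by decide)) (cyc8 0 3 4 (by decide))) cyc01_ne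
  rw [← loc_comm]
  have h1 := hN.conj _ (hV _ (cyc8 0 3 4 (by decide))) _ (N.inv_mem (hU _ (cyc8 0 1 2 (by decide))))
  have h2 := N.mul_mem (hU _ (cyc8 0 1 2 (by decide))) h1
  simpa [mul_assoc] using h2

lemma Ab.top : Ab (SS k) ⊤ := fun _ hg => loc_top_mem hg

lemma Ab.bot : Ab N ⊥ := by
  intro g _
  rw [loc_bot]
  exact N.one_mem

lemma Ab.compl {U : Fam k} (hU : Ab (SS k) U) : Ab (SS k) Uᶜ := by
  intro g hg
  have h1 : (loc g (U ⊔ Uᶜ) : PP k) = loc g U * loc g Uᶜ := loc_sup g U Uᶜ (inf_compl_self U)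
  rw [sup_compl_eq_top] at h1
  have h2 : loc g Uᶜ = (loc g U)⁻¹ * loc g ⊤ := by rw [h1]; group
  rw [h2]
  exact (SS k).mul_mem ((SS k).inv_mem (hU g hg)) (loc_top_mem hg)

lemma Ab.sup (hN : Nor N) {U V : Fam k} (hU : Ab N U) (hV : Ab N V) : Ab N (U ⊔ V) := by
  have h1 : U ⊔ V = U ⊔ (V ⊓ Uᶜ) := by
    rw [sup_inf_left, sup_compl_eq_top, inf_top_eq]
  have h2 : U ⊓ (V ⊓ Uᶜ) = ⊥ := by
    rw [inf_comm V, ← inf_assoc, inf_compl_self, bot_inf_eq]
  intro g hg
  rw [h1, loc_sup g _ _ h2]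
  exact N.mul_mem (hU g hg) (Ab.inf hN hV (Ab.compl (Ab.le hN hU)) g hg)

lemma Ab.tr (hN : Nor N) {U : Fam k} (hU : Ab N U) (s : ℤ) : Ab N (tr s U) := by
  apply Ab.of_one hN (cyc8 0 1 2 (by decide)) (by decide)
  rw [← sh_conj_loc (s • ![1, 1, 1, -3, 0, 0, 0, 0])]
  · apply hN.conj _ _ _ (hU _ (cyc8 0 1 2 (by decide)))
    apply sh_mem
    simp [Fin.sum_univ_eight]
    ring
  · intro a ha
    have h1 : ∀ a : Fin 8, cyc (0 : Fin 8) 1 2 a ≠ a → a = 0 ∨ a = 1 ∨ a = 2 := by decide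
    rcases h1 a ha with rfl | rfl | rfl <;> simp

/-- union of the translates by `0, …, n-1` -/
def cov (U : Fam k) (n : ℕ) : Fam k := fun i => {x | ∃ s < n, x ∈ tr (s : ℤ) U i}

lemma Ab.cov (hN : Nor N) {U : Fam k} (hU : Ab N U) (n : ℕ) : Ab N (cov U n) := by
  induction n with
  | zero =>
    have : CG.cov U 0 = ⊥ := by
      funext i
      ext x
      simp [CG.cov]
    rw [this]
    exact Ab.bot
  | succ n ih =>
    have : CG.cov U (n + 1) = CG.cov U n ⊔ CG.tr (n : ℤ) U := by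
      funext i
      ext x
      constructor
      · rintro ⟨s, hs, hx⟩
        rcases Nat.lt_succ_iff_lt_or_eq.mp hs with h | h
        · left; exact ⟨s, h, hx⟩
        · right; rw [← h]; exact hx
      · rintro (⟨s, hs, hx⟩ | hx)
        · exact ⟨s, by omega, hx⟩
        · exact ⟨n, by omega, hx⟩
    rw [this]
    exact Ab.sup hN ih (Ab.tr hN hU _)

/-- the marker position -/
def Zr : Fam k := fun _ => {0}

lemma loc_Zr (g : Perm (Fin 8)) : (loc g Zr : PP k) = mk (Equiv.optionCongr g) := by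
  classical
  funext i
  rw [mk_apply, mp_optionCongr, loc_apply]
  congr 1
  funext x
  by_cases hx : x = 0
  · have : x ∈ (Zr : Fam k) i := hx
    rw [if_pos this, if_pos hx]
  · have : x ∉ (Zr : Fam k) i := hx
    rw [if_neg this, if_neg hx]

lemma optionCongr_cyc (a b c : Fin 8) :
    Equiv.optionCongr (cyc a b c) = cyc (some a) (some b) (some c) := by
  simp only [cyc]
  have h : ∀ x y : Perm (Fin 8), Equiv.optionCongr (x * y) =
      (Equiv.optionCongr x * Equiv.optionCongr y : Perm (Option (Fin 8))) := by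
    intro x y
    ext o : 1
    cases o <;> rfl
  rw [h, Equiv.optionCongr_swap, Equiv.optionCongr_swap]

lemma Ab.Zr : Ab (SS k) (CG.Zr) := by
  apply Ab.of_one nor_SS (cyc8 0 1 2 (by decide)) (by decide)
  rw [loc_Zr, optionCongr_cyc]
  exact mk_mem (cyc_mem_alt (by decide) (by decide) (by decide))

/-- all positions in coordinates `≤ j` -/
def Lo (j : ℕ) : Fam k := fun i => {_x | i ≤ j}

/-- all positions in coordinates `≥ j` -/
def Hi (j : ℕ) : Fam k := fun i => {_x | j ≤ i}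

lemma Lo_eq (hk : StrictMono k) (j : ℕ) :
    (Lo j : Fam k) = cov (Zr ⊓ tr (-(2 ^ k j : ℕ) : ℤ) Zr) (2 ^ k j) := by
  funext i
  ext x
  constructor
  · intro (hx : i ≤ j)
    have hkk : k i ≤ k j := hk.monotone hx
    refine ⟨x.val, ?_, ?_, ?_⟩
    · exact lt_of_lt_of_le (ZMod.val_lt x) (Nat.pow_le_pow_right (by norm_num) hkk)
    · change x - (((x.val : ℕ) : ℤ) : ZMod (2 ^ k i)) = 0
      simp
    · change x - (((x.val : ℕ) : ℤ) : ZMod (2 ^ k i)) - ((-(2 ^ k j : ℕ) : ℤ) : ZMod (2 ^ k i)) = 0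
      have h1 : ((2 ^ k j : ℕ) : ZMod (2 ^ k i)) = 0 := by
        rw [ZMod.natCast_eq_zero_iff]
        exact Nat.pow_dvd_pow 2 hkk
      rw [Int.cast_neg, Int.cast_natCast, Int.cast_natCast, h1]
      simp
  · rintro ⟨s, hs, h1, h2⟩
    change i ≤ j
    by_contra hij
    have h3 : x - (((s : ℕ) : ℤ) : ZMod (2 ^ k i)) = 0 := h1
    have h4 : x - (((s : ℕ) : ℤ) : ZMod (2 ^ k i)) - ((-(2 ^ k j : ℕ) : ℤ) : ZMod (2 ^ k i)) = 0 :=
      h2
    rw [h3, Int.cast_neg, Int.cast_natCast, zero_sub, neg_neg, ZMod.natCast_eq_zero_iff] at h4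
    have h5 := (Nat.pow_dvd_pow_iff_le_right (by norm_num)).mp h4
    have h6 := hk (not_le.mp hij)
    omega

lemma Ab.Lo (hk : StrictMono k) (j : ℕ) : Ab (SS k) (CG.Lo j) := by
  rw [Lo_eq hk]
  exact Ab.cov nor_SS (Ab.inf nor_SS Ab.Zr (Ab.tr nor_SS Ab.Zr _)) _

lemma Ab.Hi (hk : StrictMono k) (j : ℕ) : Ab (SS k) (CG.Hi j) := by
  cases j with
  | zero =>
    have : (CG.Hi 0 : Fam k) = ⊤ := by
      funext i
      ext x
      simp [CG.Hi]
    rw [this]; exact Ab.top
  | succ j =>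
    have : (CG.Hi (j + 1) : Fam k) = (CG.Lo j)ᶜ := by
      funext i
      ext x
      change j + 1 ≤ i ↔ ¬ (i ≤ j)
      omega
    rw [this]; exact Ab.compl (Ab.Lo hk j)

end Pool.Agent.Helper73.CG
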