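import Mathlib

set_option autoImplicit false

namespace Pool.Agent.Helper73.CG

/-- The outer automorphism group is finite: finitely many automorphisms represent all of them modulo
inner automorphisms. -/
def OutFin (G : Type*) [Group G] : Prop :=
  ∃ F : Set (MulAut G), F.Finite ∧ ∀ θ : MulAut G, ∃ g : G, ∃ φ ∈ F, θ = MulAut.conj g * φ

/-- The restricted permutational wreath product of `B` by `A` over the `A`-set `X`. -/
@[ext] structure Wr (X B A : Type*) [Group B] where
  f : X → B
  a : A
  fin : {x | f x ≠ 1}.Finite

namespace Wr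

variable {X B A : Type*} [Group B] [Group A] [MulAction A X]

instance : Mul (Wr X B A) where
  mul g h :=
    { f := fun x => g.f x * h.f (g.a⁻¹ • x)
      a := g.a * h.a
      fin := by
        have h1 : {x | h.f (g.a⁻¹ • x) ≠ 1}.Finite := by
          have : {x | h.f (g.a⁻¹ • x) ≠ 1} = (fun x => g.a⁻¹ • x) ⁻¹' {x | h.f x ≠ 1} := rfl
          rw [this]
          exact h.fin.preimage (MulAction.injective g.a⁻¹).injOn
        refine (g.fin.union h1).subset ?_
        intro x hx
        simp only [Set.mem_ofPred_eq, Set.mem_union] at *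
        by_contra hc
        push Not at hc
        exact hx (by rw [hc.1, hc.2, mul_one]) }

instance : One (Wr X B A) where
  one := { f := fun _ => 1, a := 1, fin := by simp }

instance : Inv (Wr X B A) where
  inv g :=
    { f := fun x => (g.f (g.a • x))⁻¹
      a := g.a⁻¹
      fin := by
        have : {x | (g.f (g.a • x))⁻¹ ≠ 1} = (fun x => g.a • x) ⁻¹' {x | g.f x ≠ 1} := by
          ext x; simp
        rw [this]
        exact g.fin.preimage (MulAction.injective g.a).injOn }

@[simp] lemma mul_f (g h : Wr X B A) (x : X) : (g * h).f x = g.f x * h.f (g.a⁻¹ • x) := rfl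
@[simp] lemma mul_a (g h : Wr X B A) : (g * h).a = g.a * h.a := rfl
omit [MulAction A X] in
@[simp] lemma one_f (x : X) : (1 : Wr X B A).f x = 1 := rfl
omit [MulAction A X] in
@[simp] lemma one_a : (1 : Wr X B A).a = 1 := rfl
@[simp] lemma inv_f (g : Wr X B A) (x : X) : (g⁻¹).f x = (g.f (g.a • x))⁻¹ := rfl
@[simp] lemma inv_a (g : Wr X B A) : (g⁻¹).a = g.a⁻¹ := rfl

omit [Group A] [MulAction A X] in
lemma ext' {g h : Wr X B A} (h1 : ∀ x, g.f x = h.f x) (h2 : g.a = h.a) : g = h :=
  Wr.ext (funext h1) h2

instance : Group (Wr X B A) :=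
  Group.ofLeftAxioms
    (by
      intro g h l
      apply ext'
      · intro x
        simp only [mul_f, mul_a, mul_inv_rev, mul_smul, mul_assoc]
      · simp [mul_assoc])
    (by
      intro g
      apply ext'
      · intro x; simp
      · simp)
    (by
      intro g
      apply ext'
      · intro x; simp
      · simp)

/-- The projection to the top group. -/
def topHom : Wr X B A →* A where
  toFun g := g.a
  map_one' := rfl
  map_mul' _ _ := rfl

@[simp] lemma topHom_apply (g : Wr X B A) : topHom g = g.a := rfl

/-- The embedding of the top group. -/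
def tp : A →* Wr X B A where
  toFun a := { f := fun _ => 1, a := a, fin := by simp }
  map_one' := rfl
  map_mul' a b := by apply ext' <;> simp

@[simp] lemma tp_f (a : A) (x : X) : (tp a : Wr X B A).f x = 1 := rfl
@[simp] lemma tp_a (a : A) : (tp a : Wr X B A).a = a := rfl

open Classical in
/-- The base group elements supported at one point. -/
noncomputable def bs (x : X) : B →* Wr X B A where
  toFun b :=
    { f := fun y => if y = x then b else 1
      a := 1
      fin := by
        refine (Set.finite_singleton x).subset ?_
        intro y hy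
        by_contra hc
        exact hy (if_neg hc) }
  map_one' := by apply ext' <;> simp
  map_mul' b c := by
    apply ext'
    · intro y
      simp only [mul_f, inv_one, one_smul]
      by_cases h : y = x
      · subst h; simp
      · simp [h]
    · simp

open Classical in
lemma bs_f (x : X) (b : B) (y : X) : (bs x b : Wr X B A).f y = if y = x then b else 1 := rfl

@[simp] lemma bs_f_same (x : X) (b : B) : (bs x b : Wr X B A).f x = b := by
  classical
  rw [bs_f]; simp

lemma bs_f_ne {x y : X} (h : y ≠ x) (b : B) : (bs x b : Wr X B A).f y = 1 := by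
  classical
  rw [bs_f]; simp [h]

@[simp] lemma bs_a (x : X) (b : B) : (bs x b : Wr X B A).a = 1 := rfl

lemma bs_injective (x : X) : Function.Injective (bs x : B →* Wr X B A) := by
  intro b c h
  have := congrArg (fun g => Wr.f g x) h
  simpa using this

/-- conjugating a base element by an arbitrary element -/
lemma conj_bs (g : Wr X B A) (x : X) (b : B) :
    g * bs x b * g⁻¹ = bs (g.a • x) (g.f (g.a • x) * b * (g.f (g.a • x))⁻¹) := by
  classical
  apply ext'
  · intro y
    simp only [mul_f, mul_a, bs_a, mul_one, inv_f, bs_f]
    by_cases h : y = g.a • x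
    · subst h
      simp
    · have h' : g.a⁻¹ • y ≠ x := by
        intro hc
        exact h (by rw [← hc, smul_inv_smul])
      simp [h, h']
  · simp

lemma comm_bs {g : Wr X B A} (hg : g.a = 1) (x : X) (b : B) :
    g * bs x b * g⁻¹ * (bs x b)⁻¹ = bs x (g.f x * b * (g.f x)⁻¹ * b⁻¹) := by
  rw [conj_bs, hg, one_smul, ← map_inv, ← map_mul]

/-- Every element of the base group is a product of `bs`'s: induction principle for subgroups. -/
lemma base_le {K : Subgroup (Wr X B A)} (hK : ∀ x b, bs x b ∈ K) {g : Wr X B A} (hg : g.a = 1) :
    g ∈ K := by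
  classical
  obtain ⟨f, a, fin⟩ := g
  simp only at hg
  subst hg
  have key : ∀ (s : Finset X) (f : X → B) (hf : ∀ x, x ∉ s → f x = 1),
      ∃ h : {x | f x ≠ 1}.Finite, (⟨f, 1, h⟩ : Wr X B A) ∈ K := by
    intro s
    induction s using Finset.induction_on with
    | empty =>
      intro f hf
      have : f = fun _ => 1 := funext fun x => hf x (by simp)
      subst this
      exact ⟨by simp, K.one_mem⟩
    | insert x s hx ih =>
      intro f hf
      obtain ⟨h', hm⟩ := ih (Function.update f x 1) (by
        intro y hy
        by_cases h : y = x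
        · subst h; simp
        · rw [Function.update_of_ne h]
          exact hf y (by simp [h, hy]))
      refine ⟨?_, ?_⟩
      · refine (insert x s).finite_toSet.subset ?_
        intro y hy
        by_contra hc
        exact hy (hf y (by simpa using hc))
      · have := K.mul_mem hm (hK x (f x))
        convert this using 1
        apply ext'
        · intro y
          simp only [mul_f, inv_one, one_smul]
          by_cases h : y = x
          · subst h; simp
          · rw [Function.update_of_ne h, bs_f_ne h, mul_one]
        · simp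
  obtain ⟨h', hm⟩ := key fin.toFinset f (by
    intro x hx
    by_contra hc
    exact hx (by simpa using hc))
  exact hm

lemma eq_base_mul_tp (g : Wr X B A) : ∃ h : Wr X B A, h.a = 1 ∧ g = h * tp g.a := by
  refine ⟨g * tp (g.a)⁻¹, by simp, ?_⟩
  rw [mul_assoc, ← map_mul, inv_mul_cancel, map_one, mul_one]

lemma mem_of_bs_tp {K : Subgroup (Wr X B A)} (h1 : ∀ x b, bs x b ∈ K) (h2 : ∀ a, tp a ∈ K)
    (g : Wr X B A) : g ∈ K := by
  obtain ⟨h, ha, hg⟩ := eq_base_mul_tp g
  rw [hg]
  exact K.mul_mem (base_le h1 ha) (h2 _)

lemma hom_ext {M : Type*} [Monoid M] {φ ψ : Wr X B A →* M} (h1 : ∀ x b, φ (bs x b) = ψ (bs x b))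
    (h2 : ∀ a, φ (tp a) = ψ (tp a)) : φ = ψ := by
  ext g
  have : g ∈ φ.eqLocus ψ := mem_of_bs_tp (K := φ.eqLocus ψ) h1 h2 g
  exact this

end Wr

end Pool.Agent.Helper73.CG
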